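import Pool.Agent.Lib.MP_7b7e48_nt.BR.D0

/-!
# The field `bs` of the input of the frame (part BR5 of the bridge): definitions

`subY S p I r`: the family of `Y` in which the windows `i ∈ I` are reduced to the class `r i` modulo `p`.
-/

set_option autoImplicit false

open Finset

namespace Pool.Agent.Lib.TCB

open Pool.Agent.Lib.TC (MS Msr)

/-- the windows of `Y` are equidistributed modulo the primes `≤ y1` of the small sieve -/
structure WinOk (S : MS) (T : TC.Dat) (y1 : ℕ) : Prop where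
  lo : ∀ i, ∀ p ∈ T.PS, p ≤ y1 → ∀ r : ℕ, ¬ p ∣ r →
    (∑ β ∈ S.WY i, 1 / (β : ℝ)) / (4 * ((p : ℝ) - 1)) ≤ ∑ β ∈ (S.WY i).filter (fun β => β ≡ r [MOD p]), 1 / (β : ℝ)
  up : ∀ i, ∀ p ∈ T.PS, p ≤ y1 → ∀ r : ℕ, ¬ p ∣ r →
    ∑ β ∈ (S.WY i).filter (fun β => β ≡ r [MOD p]), 1 / (β : ℝ) ≤ 4 / ((p : ℝ) - 1) * ∑ β ∈ S.WY i, 1 / (β : ℝ)

/-- sub-families -/
def subY (S : MS) (p : ℕ) (I : Finset (Fin (S.k + 1))) (r : Fin (S.k + 1) → ℕ) : Fin (S.k + 1 + S.n0 + S.nY) → Finset ℕ :=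
  Fin.append (Fin.append (fun i => if i ∈ I then (S.WY i).filter (fun β => β ≡ r i [MOD p]) else S.WY i) S.FY) S.OY

/-- the data with a sub-family -/
def datE (S : MS) (J0 J1 J2 y0 p : ℕ) (I : Finset (Fin (S.k + 1))) (r : Fin (S.k + 1) → ℕ) : TCF.Dat where
  J0 := J0
  J1 := J1
  J2 := J2
  y0 := y0
  nX := S.k + 1 + S.n0 + S.nX
  nY := S.k + 1 + S.n0 + S.nY
  BX := famX S
  BY := subY S p I r

end Pool.Agent.Lib.TCB
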