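import Pool.Agent.Lib.MP_7b7e48_nt.TC.PDefs
import Pool.Agent.Lib.MP_7b7e48_nt.TCF.Def

/-!
# The families of sets of primes of a mark system

`famX S`, `famY S`: the sets of `S` in one sequence (windows, free primes, other marks). `LkS`, `BdS`: linked pairs and bad pairs of products.
-/

set_option autoImplicit false

open Finset

namespace Pool.Agent.Lib.TCB

open Pool.Agent.Lib.TC (MS Msr)
open Pool.Agent.Lib.TCF (TUP pht rho ph)

/-- the sets of `X` in one sequence -/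
def famX (S : MS) : Fin (S.k + 1 + S.n0 + S.nX) → Finset ℕ := Fin.append (Fin.append S.WX S.FX) S.OX

/-- the sets of `Y` in one sequence -/
def famY (S : MS) : Fin (S.k + 1 + S.n0 + S.nY) → Finset ℕ := Fin.append (Fin.append S.WY S.FY) S.OY

/-- the primes of a tuple in one sequence -/
def jX (S : MS) (μ : S.TX) : Fin (S.k + 1 + S.n0 + S.nX) → ℕ := Fin.append (Fin.append μ.1 μ.2.1) μ.2.2

/-- the primes of a tuple in one sequence -/
def jY (S : MS) (ν : S.TY) : Fin (S.k + 1 + S.n0 + S.nY) → ℕ := Fin.append (Fin.append ν.1 ν.2.1) ν.2.2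

/-- all sets consist of primes `> y0` which do not divide `N`; the sets of `X` are disjoint, the sets of `Y` are disjoint -/
structure SetsOk (S : MS) (N y0 : ℕ) : Prop where
  px : ∀ c, ∀ p ∈ famX S c, p.Prime ∧ ¬ p ∣ N ∧ y0 < p
  py : ∀ c, ∀ p ∈ famY S c, p.Prime ∧ ¬ p ∣ N ∧ y0 < p
  dx : ∀ c c', c ≠ c' → Disjoint (famX S c) (famX S c')
  dy : ∀ c c', c ≠ c' → Disjoint (famY S c) (famY S c')

/-- the data with another `D` -/
def wD (T : TC.Dat) (D : ℕ) : TC.Dat := { T with D := D }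

/-- `X` with the marks `t` and `Y'` with the marks `t'` are connected by a good cycle -/
def LkS (S : MS) (T : TC.Dat) (X t Y' t' : ℕ) : Prop :=
  ∃ μ ∈ S.MX, ∃ ν ∈ S.MY, S.prX id μ = t ∧ S.prY id ν = t' ∧ S.Linked (wD T ((X - Y') / T.N)) μ ν X

/-- the pair of marks is bad at a prime `≤ y1` -/
def BdS (S : MS) (T : TC.Dat) (y1 t t' : ℕ) : Prop :=
  ∃ μ ∈ S.MX, ∃ ν ∈ S.MY, S.prX id μ = t ∧ S.prY id ν = t' ∧ S.badpair T 0 y1 μ ν

section basic

variable {M : Type*} [CommMonoid M]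

theorem prX_eq (S : MS) (h : ℕ → M) (μ : S.TX) : S.prX h μ = ∏ c, h (jX S μ c) := by
  unfold jX MS.prX
  rw [Fin.prod_univ_add (fun c => h (Fin.append (Fin.append μ.1 μ.2.1) μ.2.2 c))]
  congr 1
  · rw [Fin.prod_univ_add (fun c => h (Fin.append (Fin.append μ.1 μ.2.1) μ.2.2 (Fin.castAdd _ c)))]
    congr 1
    · refine prod_congr rfl fun c _ => ?_
      rw [Fin.append_left, Fin.append_left]
    · refine prod_congr rfl fun c _ => ?_
      rw [Fin.append_left, Fin.append_right]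
  · refine prod_congr rfl fun c _ => ?_
    rw [Fin.append_right]

theorem prY_eq (S : MS) (h : ℕ → M) (ν : S.TY) : S.prY h ν = ∏ c, h (jY S ν c) := by
  unfold jY MS.prY
  rw [Fin.prod_univ_add (fun c => h (Fin.append (Fin.append ν.1 ν.2.1) ν.2.2 c))]
  congr 1
  · rw [Fin.prod_univ_add (fun c => h (Fin.append (Fin.append ν.1 ν.2.1) ν.2.2 (Fin.castAdd _ c)))]
    congr 1
    · refine prod_congr rfl fun c _ => ?_
      rw [Fin.append_left, Fin.append_left]
    · refine prod_congr rfl fun c _ => ?_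
      rw [Fin.append_left, Fin.append_right]
  · refine prod_congr rfl fun c _ => ?_
    rw [Fin.append_right]

end basic

theorem jX_mem {S : MS} {μ : S.TX} (hμ : μ ∈ S.MX) : jX S μ ∈ Fintype.piFinset (famX S) := by
  unfold MS.MX at hμ
  rw [mem_product, mem_product, Fintype.mem_piFinset, Fintype.mem_piFinset, Fintype.mem_piFinset] at hμ
  obtain ⟨h1, h2, h3⟩ := hμ
  rw [Fintype.mem_piFinset]
  intro c
  unfold jX famX
  refine Fin.addCases (fun c => ?_) (fun c => ?_) c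
  · rw [Fin.append_left, Fin.append_left]
    refine Fin.addCases (fun c => ?_) (fun c => ?_) c
    · rw [Fin.append_left, Fin.append_left]; exact h1 c
    · rw [Fin.append_right, Fin.append_right]; exact h2 c
  · rw [Fin.append_right, Fin.append_right]; exact h3 c

theorem jY_mem {S : MS} {ν : S.TY} (hν : ν ∈ S.MY) : jY S ν ∈ Fintype.piFinset (famY S) := by
  unfold MS.MY at hν
  rw [mem_product, mem_product, Fintype.mem_piFinset, Fintype.mem_piFinset, Fintype.mem_piFinset] at hν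
  obtain ⟨h1, h2, h3⟩ := hν
  rw [Fintype.mem_piFinset]
  intro c
  unfold jY famY
  refine Fin.addCases (fun c => ?_) (fun c => ?_) c
  · rw [Fin.append_left, Fin.append_left]
    refine Fin.addCases (fun c => ?_) (fun c => ?_) c
    · rw [Fin.append_left, Fin.append_left]; exact h1 c
    · rw [Fin.append_right, Fin.append_right]; exact h2 c
  · rw [Fin.append_right, Fin.append_right]; exact h3 c

theorem jX_inj (S : MS) : Function.Injective (jX S) := by
  intro μ μ' h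
  have h1 : ∀ i, μ.1 i = μ'.1 i := by
    intro i
    have := congrFun h (Fin.castAdd S.nX (Fin.castAdd S.n0 i))
    unfold jX at this
    rwa [Fin.append_left, Fin.append_left, Fin.append_left, Fin.append_left] at this
  have h2 : ∀ i, μ.2.1 i = μ'.2.1 i := by
    intro i
    have := congrFun h (Fin.castAdd S.nX (Fin.natAdd (S.k + 1) i))
    unfold jX at this
    rwa [Fin.append_left, Fin.append_right, Fin.append_left, Fin.append_right] at this
  have h3 : ∀ i, μ.2.2 i = μ'.2.2 i := by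
    intro i
    have := congrFun h (Fin.natAdd (S.k + 1 + S.n0) i)
    unfold jX at this
    rwa [Fin.append_right, Fin.append_right] at this
  exact Prod.ext (funext h1) (Prod.ext (funext h2) (funext h3))

theorem jY_inj (S : MS) : Function.Injective (jY S) := by
  intro μ μ' h
  have h1 : ∀ i, μ.1 i = μ'.1 i := by
    intro i
    have := congrFun h (Fin.castAdd S.nY (Fin.castAdd S.n0 i))
    unfold jY at this
    rwa [Fin.append_left, Fin.append_left, Fin.append_left, Fin.append_left] at this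
  have h2 : ∀ i, μ.2.1 i = μ'.2.1 i := by
    intro i
    have := congrFun h (Fin.castAdd S.nY (Fin.natAdd (S.k + 1) i))
    unfold jY at this
    rwa [Fin.append_left, Fin.append_right, Fin.append_left, Fin.append_right] at this
  have h3 : ∀ i, μ.2.2 i = μ'.2.2 i := by
    intro i
    have := congrFun h (Fin.natAdd (S.k + 1 + S.n0) i)
    unfold jY at this
    rwa [Fin.append_right, Fin.append_right] at this
  exact Prod.ext (funext h1) (Prod.ext (funext h2) (funext h3))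

theorem jX_surj {S : MS} {f : Fin (S.k + 1 + S.n0 + S.nX) → ℕ} (hf : f ∈ Fintype.piFinset (famX S)) :
    ∃ μ ∈ S.MX, jX S μ = f := by
  rw [Fintype.mem_piFinset] at hf
  refine ⟨(fun i => f (Fin.castAdd S.nX (Fin.castAdd S.n0 i)), fun i => f (Fin.castAdd S.nX (Fin.natAdd (S.k + 1) i)),
    fun i => f (Fin.natAdd (S.k + 1 + S.n0) i)), ?_, ?_⟩
  · unfold MS.MX
    rw [mem_product, mem_product, Fintype.mem_piFinset, Fintype.mem_piFinset, Fintype.mem_piFinset]
    refine ⟨fun i => ?_, fun i => ?_, fun i => ?_⟩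
    · have := hf (Fin.castAdd S.nX (Fin.castAdd S.n0 i))
      unfold famX at this
      rwa [Fin.append_left, Fin.append_left] at this
    · have := hf (Fin.castAdd S.nX (Fin.natAdd (S.k + 1) i))
      unfold famX at this
      rwa [Fin.append_left, Fin.append_right] at this
    · have := hf (Fin.natAdd (S.k + 1 + S.n0) i)
      unfold famX at this
      rwa [Fin.append_right] at this
  · funext c
    unfold jX
    refine Fin.addCases (fun c => ?_) (fun c => ?_) c
    · rw [Fin.append_left]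
      refine Fin.addCases (fun c => ?_) (fun c => ?_) c
      · rw [Fin.append_left]
      · rw [Fin.append_right]
    · rw [Fin.append_right]

theorem jY_surj {S : MS} {f : Fin (S.k + 1 + S.n0 + S.nY) → ℕ} (hf : f ∈ Fintype.piFinset (famY S)) :
    ∃ μ ∈ S.MY, jY S μ = f := by
  rw [Fintype.mem_piFinset] at hf
  refine ⟨(fun i => f (Fin.castAdd S.nY (Fin.castAdd S.n0 i)), fun i => f (Fin.castAdd S.nY (Fin.natAdd (S.k + 1) i)),
    fun i => f (Fin.natAdd (S.k + 1 + S.n0) i)), ?_, ?_⟩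
  · unfold MS.MY
    rw [mem_product, mem_product, Fintype.mem_piFinset, Fintype.mem_piFinset, Fintype.mem_piFinset]
    refine ⟨fun i => ?_, fun i => ?_, fun i => ?_⟩
    · have := hf (Fin.castAdd S.nY (Fin.castAdd S.n0 i))
      unfold famY at this
      rwa [Fin.append_left, Fin.append_left] at this
    · have := hf (Fin.castAdd S.nY (Fin.natAdd (S.k + 1) i))
      unfold famY at this
      rwa [Fin.append_left, Fin.append_right] at this
    · have := hf (Fin.natAdd (S.k + 1 + S.n0) i)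
      unfold famY at this
      rwa [Fin.append_right] at this
  · funext c
    unfold jY
    refine Fin.addCases (fun c => ?_) (fun c => ?_) c
    · rw [Fin.append_left]
      refine Fin.addCases (fun c => ?_) (fun c => ?_) c
      · rw [Fin.append_left]
      · rw [Fin.append_right]
    · rw [Fin.append_right]

/-- sums over the tuples of `X` -/
theorem sum_MX (S : MS) {M : Type*} [AddCommMonoid M] (F : (Fin (S.k + 1 + S.n0 + S.nX) → ℕ) → M) :
    ∑ μ ∈ S.MX, F (jX S μ) = ∑ f ∈ Fintype.piFinset (famX S), F f := by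
  refine sum_nbij (jX S) (fun μ hμ => jX_mem hμ) ?_ ?_ fun _ _ => rfl
  · intro μ _ μ' _ h
    exact jX_inj S h
  · intro f hf
    obtain ⟨μ, h1, h2⟩ := jX_surj hf
    exact ⟨μ, h1, h2⟩

/-- sums over the tuples of `Y` -/
theorem sum_MY (S : MS) {M : Type*} [AddCommMonoid M] (F : (Fin (S.k + 1 + S.n0 + S.nY) → ℕ) → M) :
    ∑ μ ∈ S.MY, F (jY S μ) = ∑ f ∈ Fintype.piFinset (famY S), F f := by
  refine sum_nbij (jY S) (fun μ hμ => jY_mem hμ) ?_ ?_ fun _ _ => rfl
  · intro μ _ μ' _ h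
    exact jY_inj S h
  · intro f hf
    obtain ⟨μ, h1, h2⟩ := jY_surj hf
    exact ⟨μ, h1, h2⟩

/-! ### families of disjoint sets of primes -/

section fam

variable {n : ℕ} {B : Fin n → Finset ℕ}

theorem dvd_of_prod (hp : ∀ c, ∀ p ∈ B c, p.Prime) (hd : ∀ c c', c ≠ c' → Disjoint (B c) (B c'))
    {f : Fin n → ℕ} (hf : f ∈ Fintype.piFinset B) {c : Fin n} {p : ℕ} (hpc : p ∈ B c) (h : p ∣ ∏ c, f c) : p = f c := by
  rw [Fintype.mem_piFinset] at hf
  obtain ⟨c', _, h1⟩ := (Prime.dvd_finsetProd_iff (hp c p hpc).prime _).1 h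
  have h2 : p = f c' := (Nat.prime_dvd_prime_iff_eq (hp c p hpc) (hp c' _ (hf c'))).1 h1
  by_cases h3 : c = c'
  · rw [h3]; exact h2
  · exfalso
    exact disjoint_left.1 (hd c c' h3) hpc (h2 ▸ hf c')

theorem prod_inj (hp : ∀ c, ∀ p ∈ B c, p.Prime) (hd : ∀ c c', c ≠ c' → Disjoint (B c) (B c'))
    {f g : Fin n → ℕ} (hf : f ∈ Fintype.piFinset B) (hg : g ∈ Fintype.piFinset B) (h : ∏ c, f c = ∏ c, g c) : f = g := by
  funext c
  have h1 : f c ∣ ∏ c, g c := h ▸ dvd_prod_of_mem f (mem_univ c)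
  exact dvd_of_prod hp hd hg (Fintype.mem_piFinset.1 hf c) h1

theorem prod_sq (hp : ∀ c, ∀ p ∈ B c, p.Prime) (hd : ∀ c c', c ≠ c' → Disjoint (B c) (B c'))
    {f : Fin n → ℕ} (hf : f ∈ Fintype.piFinset B) : Squarefree (∏ c, f c) := by
  rw [Fintype.mem_piFinset] at hf
  have hinj : Set.InjOn f (univ : Finset (Fin n)) := by
    intro c _ c' _ h
    by_contra h3
    exact disjoint_left.1 (hd c c' h3) (hf c) (h ▸ hf c')
  have h1 : ∏ c, f c = ∏ p ∈ univ.image f, p := by rw [prod_image hinj]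
  rw [h1]
  exact (Finset.squarefree_prod_of_pairwise_isCoprime (fun a ha b hb hab => by
    obtain ⟨c, _, rfl⟩ := mem_image.1 (mem_coe.1 ha)
    obtain ⟨c', _, rfl⟩ := mem_image.1 (mem_coe.1 hb)
    exact Nat.coprime_iff_isRelPrime.1 ((Nat.coprime_primes (hp _ _ (hf _)) (hp _ _ (hf _))).2 hab)) (fun a ha => by
    obtain ⟨c, _, rfl⟩ := mem_image.1 ha
    exact (hp _ _ (hf _)).prime.squarefree))

theorem prod_dvd (hp : ∀ c, ∀ p ∈ B c, p.Prime) (hd : ∀ c c', c ≠ c' → Disjoint (B c) (B c'))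
    {f : Fin n → ℕ} (hf : f ∈ Fintype.piFinset B) (a : ℕ) : ∏ c, f c ∣ a ↔ ∀ c, f c ∣ a := by
  constructor
  · intro h c
    exact (dvd_prod_of_mem f (mem_univ c)).trans h
  · intro h
    rw [Fintype.mem_piFinset] at hf
    refine Finset.prod_dvd_of_isRelPrime ?_ fun c _ => h c
    intro c _ c' _ hcc
    have h4 : (f c).Coprime (f c') := by
      refine (Nat.coprime_primes (hp _ _ (hf _)) (hp _ _ (hf _))).2 ?_
      intro h3
      exact disjoint_left.1 (hd c c' hcc) (hf c) (h3 ▸ hf c')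
    exact Nat.coprime_iff_isRelPrime.1 h4

theorem pht_card (hp : ∀ c, ∀ p ∈ B c, p.Prime) (hd : ∀ c c', c ≠ c' → Disjoint (B c) (B c')) (a : ℕ) :
    pht B a = (((Fintype.piFinset B).filter fun f => ∏ c, f c ∣ a).card : ℝ) := by
  have h1 : (Fintype.piFinset B).filter (fun f => ∏ c, f c ∣ a) =
      Fintype.piFinset fun c => (B c).filter fun p => p ∣ a := by
    ext f
    rw [mem_filter]
    constructor
    · rintro ⟨h1, h2⟩
      exact Fintype.mem_piFinset.2 fun c => mem_filter.2 ⟨Fintype.mem_piFinset.1 h1 c, (prod_dvd hp hd h1 a).1 h2 c⟩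
    · intro h
      rw [Fintype.mem_piFinset] at h
      have h1 : f ∈ Fintype.piFinset B := Fintype.mem_piFinset.2 fun c => (mem_filter.1 (h c)).1
      exact ⟨h1, (prod_dvd hp hd h1 a).2 fun c => (mem_filter.1 (h c)).2⟩
  rw [h1, Fintype.card_piFinset]
  unfold pht
  push_cast
  rfl

theorem sum_TUP' (hp : ∀ c, ∀ p ∈ B c, p.Prime) (hd : ∀ c c', c ≠ c' → Disjoint (B c) (B c'))
    {M : Type*} [AddCommMonoid M] (F : ℕ → M) : ∑ t ∈ TUP B, F t = ∑ f ∈ Fintype.piFinset B, F (∏ c, f c) := by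
  unfold TUP
  exact sum_image fun f hf g hg h => prod_inj hp hd hf hg h

theorem rho_eq (B : Fin n → Finset ℕ) : rho B = ∑ f ∈ Fintype.piFinset B, ∏ c, 1 / (f c : ℝ) := by
  unfold rho
  rw [prod_univ_sum]

end fam

section fin

variable {S : MS} {N y0 : ℕ} (h : SetsOk S N y0)
include h

theorem SetsOk.sqX {μ : S.TX} (hμ : μ ∈ S.MX) : Squarefree (S.prX id μ) := by
  rw [prX_eq]
  exact prod_sq (fun c p hp => (h.px c p hp).1) h.dx (jX_mem hμ)

theorem SetsOk.sqY {ν : S.TY} (hν : ν ∈ S.MY) : Squarefree (S.prY id ν) := by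
  rw [prY_eq]
  exact prod_sq (fun c p hp => (h.py c p hp).1) h.dy (jY_mem hν)

theorem SetsOk.pX {μ : S.TX} (hμ : μ ∈ S.MX) {p : ℕ} (hp : p.Prime) (hd : p ∣ S.prX id μ) : ¬ p ∣ N ∧ y0 < p := by
  rw [prX_eq] at hd
  obtain ⟨c, _, h1⟩ := (Prime.dvd_finsetProd_iff hp.prime _).1 hd
  have h2 := Fintype.mem_piFinset.1 (jX_mem hμ) c
  have h3 := h.px c _ h2
  have h4 : p = jX S μ c := (Nat.prime_dvd_prime_iff_eq hp h3.1).1 h1
  rw [h4]
  exact h3.2

theorem SetsOk.pY {ν : S.TY} (hν : ν ∈ S.MY) {p : ℕ} (hp : p.Prime) (hd : p ∣ S.prY id ν) : ¬ p ∣ N ∧ y0 < p := by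
  rw [prY_eq] at hd
  obtain ⟨c, _, h1⟩ := (Prime.dvd_finsetProd_iff hp.prime _).1 hd
  have h2 := Fintype.mem_piFinset.1 (jY_mem hν) c
  have h3 := h.py c _ h2
  have h4 : p = jY S ν c := (Nat.prime_dvd_prime_iff_eq hp h3.1).1 h1
  rw [h4]
  exact h3.2

theorem SetsOk.injX {μ μ' : S.TX} (hμ : μ ∈ S.MX) (hμ' : μ' ∈ S.MX) (he : S.prX id μ = S.prX id μ') : μ = μ' := by
  rw [prX_eq, prX_eq] at he
  exact jX_inj S (prod_inj (fun c p hp => (h.px c p hp).1) h.dx (jX_mem hμ) (jX_mem hμ') he)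

theorem SetsOk.injY {ν ν' : S.TY} (hν : ν ∈ S.MY) (hν' : ν' ∈ S.MY) (he : S.prY id ν = S.prY id ν') : ν = ν' := by
  rw [prY_eq, prY_eq] at he
  exact jY_inj S (prod_inj (fun c p hp => (h.py c p hp).1) h.dy (jY_mem hν) (jY_mem hν') he)

theorem SetsOk.sumX {M : Type*} [AddCommMonoid M] (F : ℕ → M) : ∑ t ∈ TUP (famX S), F t = ∑ μ ∈ S.MX, F (S.prX id μ) := by
  rw [sum_TUP' (fun c p hp => (h.px c p hp).1) h.dx, ← sum_MX S fun f => F (∏ c, f c)]
  refine sum_congr rfl fun μ _ => ?_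
  rw [prX_eq]
  rfl

theorem SetsOk.sumY {M : Type*} [AddCommMonoid M] (F : ℕ → M) : ∑ t ∈ TUP (famY S), F t = ∑ ν ∈ S.MY, F (S.prY id ν) := by
  rw [sum_TUP' (fun c p hp => (h.py c p hp).1) h.dy, ← sum_MY S fun f => F (∏ c, f c)]
  refine sum_congr rfl fun μ _ => ?_
  rw [prY_eq]
  rfl

end fin

theorem mem_TUPX {S : MS} {t : ℕ} : t ∈ TUP (famX S) ↔ ∃ μ ∈ S.MX, S.prX id μ = t := by
  unfold TUP
  rw [mem_image]
  constructor
  · rintro ⟨f, hf, rfl⟩
    obtain ⟨μ, h1, h2⟩ := jX_surj hf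
    exact ⟨μ, h1, by rw [prX_eq, h2]; rfl⟩
  · rintro ⟨μ, h1, rfl⟩
    exact ⟨jX S μ, jX_mem h1, by rw [prX_eq]; rfl⟩

theorem mem_TUPY {S : MS} {t : ℕ} : t ∈ TUP (famY S) ↔ ∃ ν ∈ S.MY, S.prY id ν = t := by
  unfold TUP
  rw [mem_image]
  constructor
  · rintro ⟨f, hf, rfl⟩
    obtain ⟨μ, h1, h2⟩ := jY_surj hf
    exact ⟨μ, h1, by rw [prY_eq, h2]; rfl⟩
  · rintro ⟨μ, h1, rfl⟩
    exact ⟨jY S μ, jY_mem h1, by rw [prY_eq]; rfl⟩

theorem sum_prX (S : MS) (g : ℕ → ℝ) : ∑ μ ∈ S.MX, S.prX g μ = ∏ c, ∑ p ∈ famX S c, g p := by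
  rw [prod_univ_sum, ← sum_MX S fun f => ∏ c, g (f c)]
  exact sum_congr rfl fun μ _ => prX_eq S g μ

theorem sum_prY (S : MS) (g : ℕ → ℝ) : ∑ ν ∈ S.MY, S.prY g ν = ∏ c, ∑ p ∈ famY S c, g p := by
  rw [prod_univ_sum, ← sum_MY S fun f => ∏ c, g (f c)]
  exact sum_congr rfl fun μ _ => prY_eq S g μ

theorem LkS_iff {S : MS} {N y0 : ℕ} (h : SetsOk S N y0) {T : TC.Dat} {μ : S.TX} {ν : S.TY} (hμ : μ ∈ S.MX) (hν : ν ∈ S.MY)
    (X Y' : ℕ) : LkS S T X (S.prX id μ) Y' (S.prY id ν) ↔ S.Linked (wD T ((X - Y') / T.N)) μ ν X := by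
  constructor
  · rintro ⟨μ', h1, ν', h2, h3, h4, h5⟩
    rw [← h.injX h1 hμ h3, ← h.injY h2 hν h4]
    exact h5
  · intro h1
    exact ⟨μ, hμ, ν, hν, rfl, rfl, h1⟩

theorem BdS_iff {S : MS} {N y0 : ℕ} (h : SetsOk S N y0) {T : TC.Dat} {μ : S.TX} {ν : S.TY} (hμ : μ ∈ S.MX) (hν : ν ∈ S.MY)
    (y1 : ℕ) : BdS S T y1 (S.prX id μ) (S.prY id ν) ↔ S.badpair T 0 y1 μ ν := by
  constructor
  · rintro ⟨μ', h1, ν', h2, h3, h4, h5⟩
    rw [← h.injX h1 hμ h3, ← h.injY h2 hν h4]
    exact h5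
  · intro h1
    exact ⟨μ, hμ, ν, hν, rfl, rfl, h1⟩

end Pool.Agent.Lib.TCB
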