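import Pool.Agent.Lib.MP_7b7e48_nt.OW.U3
import Pool.Agent.Lib.MP_7b7e48_nt.RG.RAP2

/-!
# The bridge between the frame and the pair lemma: definitions (part BR1: weights)

`N` is the modulus of the frame (`N = W0 ^ 2 *` the even number of the theorem), `W0` is the product of the primes `< p0`.
-/

set_option autoImplicit false

open Finset

namespace Pool.Agent.Lib.TCB

open Pool.Agent.Lib.RG (RC LV rr PB Rough)

/-- density of the class `0` modulo `p` for `1 * c` -/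
noncomputable def z0 (c : ℕ → ℝ) (p : ℕ) : ℝ := (1 + c p - c p / p) / p

/-- Polya-Vinogradov for `c` in the classes modulo `W` -/
def PVW (N W : ℕ) (c : ℕ → ℝ) : Prop :=
  ∀ a y : ℕ, |∑ n ∈ (range y).filter (fun n => n ≡ a [MOD W]), c n| ≤ PB N

/-- density of the `n` which are in a unit class modulo `W * m` and divisible by `d` (for `1 * c`, without the factor `L`) -/
noncomputable def mt (c : ℕ → ℝ) (W m d : ℕ) : ℝ :=
  (∏ p ∈ m.primeFactors, (1 - c p / p)) / ((W : ℝ) * m) * ∏ p ∈ d.primeFactors, z0 c p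

/-- density of one class modulo `q` (the same form as `TC.Msr.gq`) -/
noncomputable def dq (g : ℕ → ℝ) (q : ℕ) : ℝ := (∏ p ∈ q.primeFactors, (p : ℝ) * g p) / q

/-- A weight `w` on the integers `n ≤ B` with mean value `L`, equidistributed in the classes modulo `qW * q2 ≤ N ^ δ0`, `qW ∣ W0`,
`q2` coprime to `N` (all classes if not `t2`, unit classes if `t2`), on all intervals of length `≥ len`. -/
structure Wei (N W0 y0 B : ℕ) (δ0 δ1 len : ℝ) (t2 : Prop) (w : ℕ → ℝ) (L : ℝ) (g : ℕ → ℝ) : Prop where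
  L_pos : 0 < L
  nonneg : ∀ n, 0 ≤ w n
  g_nonneg : ∀ p : ℕ, p.Prime → 0 ≤ g p ∧ |g p - 1 / p| ≤ 2 / (p : ℝ) ^ 2
  g_one : ¬ t2 → ∀ p : ℕ, g p = 1 / p
  g_small : t2 → ∀ p : ℕ, p.Prime → p ≤ y0 → g p = 1 / ((p : ℝ) - 1)
  rough : t2 → ∀ n, w n ≠ 0 → Rough y0 n
  eq : ∀ a b : ℕ, a ≤ b → b ≤ B → len ≤ (b : ℝ) - a → ∀ qW q2 r : ℕ, qW ∣ W0 → 0 < q2 → q2.Coprime N →
    ((qW * q2 : ℕ) : ℝ) ≤ (N : ℝ) ^ δ0 → (t2 → r.Coprime (qW * q2)) →
    |∑ n ∈ (Ioc a b).filter (fun n => n ≡ r [MOD qW * q2]), w n - L * ((b : ℝ) - a) * dq g (qW * q2)| ≤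
      (N : ℝ) ^ (-δ1) * (L * ((b : ℝ) - a))
  eq0 : t2 → ∀ a b : ℕ, a ≤ b → b ≤ B → len ≤ (b : ℝ) - a → ∀ qW q2 r p : ℕ, qW ∣ W0 → 0 < q2 → q2.Coprime N →
    ((qW * q2 : ℕ) : ℝ) ≤ (N : ℝ) ^ δ0 → r.Coprime (qW * q2) → p.Prime → y0 < p → ¬ p ∣ q2 →
    ∑ n ∈ (Ioc a b).filter (fun n => n ≡ r [MOD qW * q2] ∧ p ∣ n), w n ≤
      4 / p * (L * ((b : ℝ) - a) * dq g (qW * q2)) + (N : ℝ) ^ (-δ1) * (L * ((b : ℝ) - a))

open Classical in
/-- the weight of type 2 -/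
noncomputable def w2 (y0 : ℕ) (c : ℕ → ℝ) (n : ℕ) : ℝ := if Rough y0 n then rr c n else 0

open Classical in
/-- its local densities -/
noncomputable def g2 (y0 : ℕ) (c : ℕ → ℝ) (p : ℕ) : ℝ := if p ≤ y0 then 1 / ((p : ℝ) - 1) else (1 - c p / p) / p

/-- its mean value divided by `L` -/
noncomputable def V2 (y0 : ℕ) (c : ℕ → ℝ) : ℝ := ∏ p ∈ (range (y0 + 1)).filter (fun p => p.Prime), (1 - z0 c p)

end Pool.Agent.Lib.TCB
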