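import Pool.Agent.Lib.MP_7b7e48_nt.BR.B0

/-!
# Module B01 (30 minutes): a real character from `RC`

PROOF. `χ x := (c x.val : ℂ)` as a `MulChar (ZMod N) ℂ`. `c (n % N) = c n` (from `hc.per`, induction). `map_one`: `(1 : ZMod N).val = 1`
(`2 ≤ N`), `c 1 = 1` (`hc.val 1` gives `±1`, and `c 1 = c 1 * c 1` by `hc.mul`). `map_mul`: `(x * y).val = (x.val * y.val) % N` and `hc.mul`.
`map_nonunit`: `x` is not a unit iff `x.val` is not coprime to `N` (`ZMod.isUnit_iff_coprime`, `ZMod.natCast_zmod_val`), `hc.zero`.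
Value at `n`: `(n : ZMod N).val = n % N`.
-/

set_option autoImplicit false

open Finset

namespace Pool.Agent.Lib.TCB

open Pool.Agent.Lib.RG (RC LV rr PB Rough)

private theorem B01_add {N : ℕ} {c : ℕ → ℝ} (hc : RC N c) (n q : ℕ) : c (n + q * N) = c n := by
  induction q with
  | zero => rw [zero_mul, add_zero]
  | succ q ih =>
    rw [add_mul, one_mul, ← add_assoc, hc.per, ih]

private theorem B01_mod {N : ℕ} {c : ℕ → ℝ} (hc : RC N c) (n : ℕ) : c (n % N) = c n := by
  have h1 := B01_add hc (n % N) (n / N)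
  rw [mul_comm, Nat.mod_add_div] at h1
  exact h1.symm

private theorem B01_one {N : ℕ} {c : ℕ → ℝ} (hc : RC N c) : c 1 = 1 := by
  have h1 := hc.mul 1 1
  rw [mul_one] at h1
  rcases hc.val 1 (Nat.coprime_one_left N) with h | h
  · exact h
  · rw [h] at h1
    norm_num at h1

theorem rc_char {N : ℕ} [NeZero N] (hN : 2 ≤ N) {c : ℕ → ℝ} (hc : RC N c) :
    ∃ χ : DirichletCharacter ℂ N, ∀ n : ℕ, χ (n : ZMod N) = (c n : ℂ) := by
  have : Fact (1 < N) := ⟨by omega⟩
  refine ⟨{ toFun := fun x => (c x.val : ℂ), map_one' := ?_, map_mul' := ?_, map_nonunit' := ?_ },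
    fun n => ?_⟩
  · rw [ZMod.val_one, B01_one hc, Complex.ofReal_one]
  · intro x y
    rw [ZMod.val_mul, B01_mod hc, hc.mul, Complex.ofReal_mul]
  · intro x hx
    have h1 : ¬ x.val.Coprime N := by
      intro h2
      refine hx ?_
      have h3 := (ZMod.isUnit_iff_coprime x.val N).2 h2
      rwa [ZMod.natCast_zmod_val] at h3
    change (c x.val : ℂ) = 0
    rw [hc.zero _ h1, Complex.ofReal_zero]
  · change (c (n : ZMod N).val : ℂ) = (c n : ℂ)
    rw [ZMod.val_natCast, B01_mod hc]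

end Pool.Agent.Lib.TCB
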