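import Pool.Agent.Lib.MP_7b7e48_nt.BR.B01

/-!
# Module B02 (30 minutes): Polya-Vinogradov in the classes modulo `W`

PROOF. Write `N = W * N'` (`hWN`), `subst`. `rc_char` gives `χ`; `OW.pv_class N' W` with the given `m` (`χ m = -1 ≠ 1`) gives the bound for the norm
of `∑ χ n = ((∑ c n : ℝ) : ℂ)`; `Complex.norm_real`. (`1 ≤ W` from `N ≠ 0`.)
-/

set_option autoImplicit false

open Finset

namespace Pool.Agent.Lib.TCB

open Pool.Agent.Lib.RG (RC LV rr PB Rough)

theorem pvw {N W : ℕ} (hN : 2 ≤ N) (hWN : W ∣ N) {c : ℕ → ℝ} (hc : RC N c) {m : ℕ} (hm : m ≡ 1 [MOD W])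
    (hmc : m.Coprime N) (hcm : c m = -1) : PVW N W c := by
  obtain ⟨N', rfl⟩ := hWN
  have hW : 1 ≤ W := by
    rcases Nat.eq_zero_or_pos W with h | h
    · subst h
      rw [Nat.zero_mul] at hN
      omega
    · exact h
  have : NeZero (W * N') := ⟨by omega⟩
  obtain ⟨χ, hχ⟩ := rc_char hN hc
  intro a y
  have hne : χ (m : ZMod (W * N')) ≠ 1 := by
    rw [hχ, hcm]
    norm_num
  have h1 := Pool.Agent.Lib.OW.pv_class N' W hW hN χ m hm hmc hne a y
  have h2 : ∑ n ∈ (range y).filter (fun n => n ≡ a [MOD W]), χ (n : ZMod (W * N')) =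
      ((∑ n ∈ (range y).filter (fun n => n ≡ a [MOD W]), c n : ℝ) : ℂ) := by
    rw [Complex.ofReal_sum]
    exact sum_congr rfl fun n _ => hχ n
  rw [h2, Complex.norm_real] at h1
  exact h1

end Pool.Agent.Lib.TCB
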