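import Pool.Agent.Lib.MP_7b7e48_nt.BR.B0

/-!
# Module B03 (50 minutes): Polya-Vinogradov in progressions

`W ∣ N`, `m` coprime to `N`. PROOF. As `RG.pv_prog` / `RAP2_block`. If no `e` of `(A, B]` satisfies both congruences the sum is `0`
(`0 ≤ PB N` : `RG.RAP1_PB_one` or directly). Otherwise let `e0` be the least one; the `e ≡ e2 (mod m)` of `(A, B]` are among the `e0 + j m`,
`0 ≤ j`, and the `e0 - j m`, ...: simplest: the set of the `e ∈ (A, B]`, `e ≡ e2 (mod m)`, is `{e1' + j m : j < J}` for its least element `e1'` and some `J`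
(image of a range), the condition `e ≡ e1 (mod W)` becomes a condition on the class of `j` modulo `W` (`m` is a unit modulo `W`).
`c (e1' + j m) = c m * c (i + j)`, where `m i ≡ e1' (mod N)` (`c` is periodic modulo `N` and multiplicative: `c (m * (i + j)) = c (e1' + j m)` since the
arguments are congruent modulo `N`). So the sum is `c m` times the sum of `c` over the `n = i + j`, `i ≤ n < i + J`, in one class modulo `W`
(`m n ≡ e1' + j m`, so the condition is `m n ≡ e1 (mod W)`: one class of `n`, or none if ... `m` is a unit modulo `W`, so always one class), a difference of two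
sums as in `PVW`. `|c m| = 1` (`m` coprime to `N`).
-/

set_option autoImplicit false

open Finset

namespace Pool.Agent.Lib.TCB

open Pool.Agent.Lib.RG (RC LV rr PB Rough)

private theorem B03_congr {N : ℕ} {c : ℕ → ℝ} (hc : RC N c) {a b : ℕ} (h : a ≡ b [MOD N]) : c a = c b := by
  have h1 : ∀ n k : ℕ, c (n + k * N) = c n := by
    intro n k
    induction k with
    | zero => rw [Nat.zero_mul, Nat.add_zero]
    | succ k ih => rw [Nat.add_mul, Nat.one_mul, ← Nat.add_assoc, hc.per, ih]
  have h2 : ∀ n : ℕ, c n = c (n % N) := by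
    intro n
    have h3 := h1 (n % N) (n / N)
    rw [Nat.mul_comm, Nat.mod_add_div] at h3
    exact h3
  rw [h2 a, h2 b, h]

theorem pv_prog2 {N W : ℕ} (hN : 2 ≤ N) (hWN : W ∣ N) {c : ℕ → ℝ} (hc : RC N c) (hp : PVW N W c) (m : ℕ)
    (hm : m.Coprime N) (e1 e2 A B : ℕ) :
    |∑ e ∈ (Ioc A B).filter (fun e => e ≡ e1 [MOD W] ∧ e ≡ e2 [MOD m]), c e| ≤ 2 * PB N := by
  have hP := Pool.Agent.Lib.RG.RAP1_PB_one hc
  have hm1 : 1 ≤ m := by
    rcases Nat.eq_zero_or_pos m with h | h
    · subst h
      rw [Nat.coprime_zero_left] at hm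
      omega
    · exact h
  obtain ⟨m', hm'⟩ : ∃ m' : ℕ, m * m' ≡ 1 [MOD N] := by
    obtain ⟨m', _, h2⟩ := Nat.exists_mul_mod_eq_one_of_coprime hm (show 1 < N by omega)
    refine ⟨m', ?_⟩
    unfold Nat.ModEq
    rw [h2, Nat.mod_eq_of_lt (show 1 < N by omega)]
  have hmW : m * m' ≡ 1 [MOD W] := hm'.of_dvd hWN
  have hsum : ∑ e ∈ (Ioc A B).filter (fun e => e ≡ e1 [MOD W] ∧ e ≡ e2 [MOD m]), c e =
      ∑ e ∈ (Ioc A B).filter (fun e => e ≡ e2 [MOD m]), if e ≡ e1 [MOD W] then c e else 0 := by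
    rw [← Finset.sum_filter, Finset.filter_filter]
    refine Finset.sum_congr ?_ fun _ _ => rfl
    ext e
    simp only [Finset.mem_filter]
    exact ⟨fun h => ⟨h.1, h.2.2, h.2.1⟩, fun h => ⟨h.1, h.2.2, h.2.1⟩⟩
  rw [hsum]
  set S : Finset ℕ := (Ioc A B).filter (fun e => e ≡ e2 [MOD m]) with hS
  rcases S.eq_empty_or_nonempty with hE | hne
  · rw [hE, Finset.sum_empty, abs_zero]
    linarith
  set e0 : ℕ := S.min' hne with he0
  have he0S : e0 ∈ S := S.min'_mem hne
  obtain ⟨hA1, hA2⟩ := Finset.mem_filter.1 he0S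
  rw [Finset.mem_Ioc] at hA1
  have hSimg : S = (Finset.range ((B - e0) / m + 1)).image (fun j => e0 + j * m) := by
    ext e
    rw [Finset.mem_image]
    constructor
    · intro he
      have hle : e0 ≤ e := S.min'_le e he
      obtain ⟨h1, h2⟩ := Finset.mem_filter.1 he
      rw [Finset.mem_Ioc] at h1
      have h4 : m ∣ e - e0 := (Nat.modEq_iff_dvd' hle).1 (hA2.trans h2.symm)
      refine ⟨(e - e0) / m, ?_, ?_⟩
      · rw [Finset.mem_range, Nat.lt_succ_iff]
        exact Nat.div_le_div_right (by omega)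
      · rw [Nat.div_mul_cancel h4]
        omega
    · rintro ⟨j, hj, rfl⟩
      rw [Finset.mem_range, Nat.lt_succ_iff, Nat.le_div_iff_mul_le hm1] at hj
      rw [hS, Finset.mem_filter, Finset.mem_Ioc]
      refine ⟨⟨by omega, by omega⟩, ?_⟩
      have h2 : j * m ≡ 0 [MOD m] := (Nat.modEq_zero_iff_dvd).2 (Nat.dvd_mul_left m j)
      have h3 := hA2.add h2
      rw [add_zero] at h3
      exact h3
  set b' : ℕ := m' * e0 + N with hb'
  have hcong : ∀ j : ℕ, e0 + j * m ≡ m * (b' + j) [MOD N] := by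
    intro j
    have h2 : m * (b' + j) = m * m' * e0 + (j * m + m * N) := by
      rw [hb']
      ring
    rw [h2]
    have h3 : m * m' * e0 ≡ 1 * e0 [MOD N] := hm'.mul_right e0
    rw [one_mul] at h3
    have h4 : j * m + m * N ≡ j * m [MOD N] := by
      unfold Nat.ModEq
      rw [Nat.add_mul_mod_self_right]
    exact (h3.add h4).symm
  have hterm : ∀ j : ℕ, (if e0 + j * m ≡ e1 [MOD W] then c (e0 + j * m) else 0) =
      c m * (if b' + j ≡ m' * e1 [MOD W] then c (b' + j) else 0) := by
    intro j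
    have h1 : c (e0 + j * m) = c m * c (b' + j) := by
      rw [← hc.mul]
      exact B03_congr hc (hcong j)
    have hW' : e0 + j * m ≡ m * (b' + j) [MOD W] := (hcong j).of_dvd hWN
    have h2 : (e0 + j * m ≡ e1 [MOD W]) ↔ (b' + j ≡ m' * e1 [MOD W]) := by
      constructor
      · intro h
        have h3 : m * (b' + j) ≡ e1 [MOD W] := hW'.symm.trans h
        have h4 : m' * (m * (b' + j)) ≡ m' * e1 [MOD W] := h3.mul_left m'
        have h5 : m * m' * (b' + j) ≡ 1 * (b' + j) [MOD W] := hmW.mul_right _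
        have h6 : m' * (m * (b' + j)) = m * m' * (b' + j) := by ring
        rw [h6] at h4
        rw [one_mul] at h5
        exact h5.symm.trans h4
      · intro h
        have h3 : m * (b' + j) ≡ m * (m' * e1) [MOD W] := h.mul_left m
        have h4 : m * m' * e1 ≡ 1 * e1 [MOD W] := hmW.mul_right _
        rw [one_mul] at h4
        rw [← mul_assoc] at h3
        exact hW'.trans (h3.trans h4)
    by_cases h : b' + j ≡ m' * e1 [MOD W]
    · rw [if_pos h, if_pos (h2.2 h), h1]
    · rw [if_neg h, if_neg (fun h' => h (h2.1 h')), mul_zero]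
  rw [hSimg, Finset.sum_image (fun i _ j _ hij =>
    Nat.eq_of_mul_eq_mul_right hm1 (Nat.add_left_cancel hij))]
  rw [Finset.sum_congr rfl fun j _ => hterm j, ← Finset.mul_sum, abs_mul]
  have hcm : |c m| = 1 := by
    rcases hc.val m hm with h | h <;> rw [h] <;> norm_num
  rw [hcm, one_mul]
  have h5 := Finset.sum_range_add (fun n => if n ≡ m' * e1 [MOD W] then c n else 0) b'
    ((B - e0) / m + 1)
  have h6 := hp (m' * e1) b'
  have h7 := hp (m' * e1) (b' + ((B - e0) / m + 1))
  rw [Finset.sum_filter] at h6 h7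
  rw [h5] at h7
  rw [abs_le] at h6 h7 ⊢
  constructor <;> linarith [h6.1, h6.2, h7.1, h7.2]

end Pool.Agent.Lib.TCB
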