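import Pool.Agent.Lib.MP_7b7e48_nt.BR.B03

/-!
# Module B04 (110 minutes): `1 * c` in unit classes modulo `W * m` and on multiples of `d`, explicit error

`W ∣ N`; `m ≥ 1` coprime to `N` (not necessarily squarefree), `d` squarefree and coprime to `W * m` (not necessarily coprime to `N`), `b` coprime to `W * m`.
(Compare `RG/RAP2.lean`, from which much can be copied.)
PROOF. `∑_{n ≤ y, n ≡ b (W m), d ∣ n} rr c n = ∑_{e f ≤ y, e f ≡ b (W m), d ∣ e f} c e`. Split at `e ≤ A`.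
(1) `e ≤ A`, `c e ≠ 0` (so `(e, N) = 1`, in particular `(e, W) = 1`): if `(e, m) ≠ 1` there is no `f`. If `(e, W m) = 1`: `f` runs over one class modulo `W m` with
`d/(d,e) ∣ f`, so over one class modulo `W m d/(d,e)`: the number of `f ≤ y/e` is `(y/e) (d,e)/(W m d) + θ`, `|θ| ≤ 2` (`⌊y/e⌋`). Total error of (1): `≤ 2 A`.
Main term: `y/(W m d) ∑_{e ≤ A, (e,m)=1} c e (d,e)/e`. Use `(d,e) = ∑_{g ∣ (d,e)} φ(g)` (`Nat.sum_totient`): `= y/(W m d) ∑_{g ∣ d} φ(g) c g/g ∑_{e' ≤ A/g, (e',m)=1} c e'/e'`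
(`e = g e'`, `(g, m) = 1`). By `RG.cop_sum` with `k = ∏ p ∈ m.primeFactors, p` (squarefree, `e'.Coprime k ↔ e'.Coprime m`, same prime factors, `k.divisors.card ≤ m.divisors.card`
since `k ∣ m`): for `g ≤ A` the inner sum is `L ∏_{p ∣ m} (1 - c p/p)` up to `4 τ(m) PB N/⌊A/g⌋ ≤ 8 τ(m) PB N g/A`; for `g > A` it is empty and `L ∏ ≤ 3 PB N τ(m) ≤ 8 τ(m) PB N g/A` too
(see `RAP2_inner`; `RG.RAP1_L_le`). The sum of the errors is `≤ y/(W m d) ∑_{g ∣ d} φ(g)/g * 8 τ(m) PB N g/A = y/(W m) 8 τ(m) PB N/A` (`∑_{g ∣ d} φ(g) = d`).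
`∑_{g ∣ d} φ(g) c g/g = ∏_{p ∣ d} (1 + (1 - 1/p) c p) = d ∏_{p ∣ d} z0 c p` (`d` squarefree, multiplicativity: `Nat.Coprime.sum_divisors...` or induction over the prime factors of `d`).
(2) `e > A`: `f < y/A`, for fixed `f`: if `(f, W m) ≠ 1` or ... the set of the `e ∈ (A, y/f]` with `e f ≡ b (W m)`, `d ∣ e f` is empty or is `e ≡ e1 (W)`, `e ≡ e2 (m d')`, `d' = d/(d,f)`
(`(f, W m) = 1` because `b` is a unit; `(d', W m) = 1`); if `d'` is not coprime to `N` all `c e = 0` on it; otherwise `pv_prog2` with `m d'` coprime to `N`: `≤ 2 PB N`. Number of `f`: `≤ y/A`.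
Total: `2 A + (8 τ(m) + 2) PB N y/A`. (For `y < A` part (2) is empty and the formula of (1) is used with `A` as it is: the sums over `e ∈ (y, A]` have no `f`, error `(y/e)(..) ≤ 1`: fine, `|0 - (y/e) (d,e)/(W m d)| ≤ 1`.)
-/

set_option autoImplicit false

open Finset

namespace Pool.Agent.Lib.TCB

open Pool.Agent.Lib.RG (RC LV rr PB Rough)

/-- The number of integers of a residue class. -/
private theorem B04_class (M r Y : ℕ) (hM : 1 ≤ M) :
    |(((Finset.Icc 1 Y).filter (fun f => f ≡ r [MOD M])).card : ℝ) - (Y : ℝ) / M| ≤ 1 := by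
  have h0 : Finset.Icc 1 Y = Finset.Ioc 0 Y := by
    ext f
    rw [Finset.mem_Icc, Finset.mem_Ioc]
    omega
  have h1 := Nat.Ioc_filter_modEq_card 0 Y (show 0 < M by omega) r
  rw [← h0] at h1
  set K : ℕ := ((Finset.Icc 1 Y).filter (fun f => f ≡ r [MOD M])).card with hK
  have hM0 : (0 : ℚ) < M := by exact_mod_cast hM
  have e1 : ((Y : ℚ) - r) / M - (((0 : ℕ) : ℚ) - r) / M = Y / M := by
    push_cast
    ring
  have a1 := Int.floor_le (((Y : ℚ) - r) / M)
  have a2 := Int.lt_floor_add_one (((Y : ℚ) - r) / M)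
  have a3 := Int.floor_le ((((0 : ℕ) : ℚ) - r) / M)
  have a4 := Int.lt_floor_add_one ((((0 : ℕ) : ℚ) - r) / M)
  have hYM : (0 : ℚ) ≤ Y / M := by positivity
  have h2 : |(K : ℚ) - Y / M| ≤ 1 := by
    have h3 : (K : ℚ) = ((max (⌊((Y : ℚ) - r) / M⌋ - ⌊(((0 : ℕ) : ℚ) - r) / M⌋) 0 : ℤ) : ℚ) := by
      rw [← h1]
      push_cast
      rfl
    rw [h3, abs_le]
    rcases max_cases (⌊((Y : ℚ) - r) / M⌋ - ⌊(((0 : ℕ) : ℚ) - r) / M⌋) 0 with ⟨h4, h5⟩ | ⟨h4, h5⟩
    · rw [h4]
      push_cast at *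
      constructor <;> linarith
    · rw [h4]
      have h6 : ((⌊((Y : ℚ) - r) / M⌋ - ⌊(((0 : ℕ) : ℚ) - r) / M⌋ : ℤ) : ℚ) ≤ -1 := by
        have : ⌊((Y : ℚ) - r) / M⌋ - ⌊(((0 : ℕ) : ℚ) - r) / M⌋ ≤ -1 := by omega
        exact_mod_cast this
      push_cast at *
      constructor <;> linarith
  have h3 : ((|(K : ℚ) - Y / M| : ℚ) : ℝ) ≤ 1 := by exact_mod_cast h2
  push_cast at h3
  exact h3

private theorem B04_inv {e m : ℕ} (h : e.Coprime m) (hm : 1 ≤ m) : ∃ e' : ℕ, e * e' ≡ 1 [MOD m] := by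
  rcases Nat.eq_or_lt_of_le hm with h1 | h1
  · exact ⟨0, by rw [← h1]; exact Nat.modEq_one⟩
  · obtain ⟨m', _, h2⟩ := Nat.exists_mul_mod_eq_one_of_coprime h h1
    refine ⟨m', ?_⟩
    unfold Nat.ModEq
    rw [h2, Nat.mod_eq_of_lt h1]

/-- A linear congruence with a unit coefficient. -/
private theorem B04_solve {e M : ℕ} (b : ℕ) (h : e.Coprime M) (hM : 1 ≤ M) :
    ∃ r : ℕ, ∀ f : ℕ, (e * f ≡ b [MOD M] ↔ f ≡ r [MOD M]) := by
  obtain ⟨e', h1⟩ := B04_inv h hM
  refine ⟨e' * b, fun f => ⟨fun h2 => ?_, fun h2 => ?_⟩⟩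
  · have h3 : e' * (e * f) ≡ e' * b [MOD M] := h2.mul_left e'
    have h4 : e' * (e * f) = e * e' * f := by ring
    rw [h4] at h3
    have h5 : e * e' * f ≡ 1 * f [MOD M] := h1.mul_right f
    rw [one_mul] at h5
    exact h5.symm.trans h3
  · have h3 : e * f ≡ e * (e' * b) [MOD M] := h2.mul_left e
    have h4 : e * (e' * b) = e * e' * b := by ring
    rw [h4] at h3
    have h5 : e * e' * b ≡ 1 * b [MOD M] := h1.mul_right b
    rw [one_mul] at h5
    exact h3.trans h5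

private theorem B04_dvd (d e f : ℕ) (hd : 1 ≤ d) : d ∣ e * f ↔ d / Nat.gcd d e ∣ f := by
  have hg0 : 0 < Nat.gcd d e := Nat.gcd_pos_of_pos_left _ hd
  have he' : Nat.gcd d e * (e / Nat.gcd d e) = e := Nat.mul_div_cancel' (Nat.gcd_dvd_right d e)
  have hd' : Nat.gcd d e * (d / Nat.gcd d e) = d := Nat.mul_div_cancel' (Nat.gcd_dvd_left d e)
  have hcop : (d / Nat.gcd d e).Coprime (e / Nat.gcd d e) := Nat.coprime_div_gcd_div_gcd hg0
  constructor
  · intro h
    have h1 : Nat.gcd d e * (d / Nat.gcd d e) ∣ Nat.gcd d e * (e / Nat.gcd d e * f) := by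
      rw [← mul_assoc, hd', he']
      exact h
    exact hcop.dvd_of_dvd_mul_left (Nat.dvd_of_mul_dvd_mul_left hg0 h1)
  · intro h
    have h1 : Nat.gcd d e * (d / Nat.gcd d e) ∣ Nat.gcd d e * (e / Nat.gcd d e * f) :=
      Nat.mul_dvd_mul_left _ (h.mul_left _)
    rw [← mul_assoc, hd', he'] at h1
    exact h1

private theorem B04_unit {e f b M : ℕ} (hb : b.Coprime M) (h : e * f ≡ b [MOD M]) : e.Coprime M := by
  have h1 : (e * f).Coprime M := by
    have h2 := h.gcd_eq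
    unfold Nat.Coprime at hb ⊢
    rw [h2, hb]
  exact Nat.Coprime.coprime_mul_right h1

/-- Chinese remainder theorem for a class and a divisibility. -/
private theorem B04_crt {M D : ℕ} (h : M.Coprime D) (r : ℕ) :
    ∃ k : ℕ, ∀ f : ℕ, (f ≡ r [MOD M] ∧ D ∣ f) ↔ f ≡ k [MOD M * D] := by
  obtain ⟨k, hk1, hk2⟩ := Nat.chineseRemainder h r 0
  refine ⟨k, fun f => ?_⟩
  rw [← Nat.modEq_and_modEq_iff_modEq_mul h]
  constructor
  · rintro ⟨h1, h2⟩
    exact ⟨h1.trans hk1.symm, ((Nat.modEq_zero_iff_dvd).2 h2).trans hk2.symm⟩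
  · rintro ⟨h1, h2⟩
    exact ⟨h1.trans hk1, (Nat.modEq_zero_iff_dvd).1 (h2.trans hk2)⟩

/-- The number of the cofactors. -/
private theorem B04_cnt (e M b y d : ℕ) (he : 1 ≤ e) (hM : 1 ≤ M) (hd : 1 ≤ d) (hdM : d.Coprime M)
    (hb : b.Coprime M) :
    |(((Finset.Icc 1 (y / e)).filter (fun f => e * f ≡ b [MOD M] ∧ d ∣ e * f)).card : ℝ) -
      (if e.Coprime M then (y : ℝ) / (M * d) * ((Nat.gcd d e : ℝ) / e) else 0)| ≤ 2 := by
  by_cases hg : e.Coprime M
  · rw [if_pos hg]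
    obtain ⟨r, hr⟩ := B04_solve b hg hM
    have hg0 : 0 < Nat.gcd d e := Nat.gcd_pos_of_pos_left _ hd
    have hgd : Nat.gcd d e ∣ d := Nat.gcd_dvd_left d e
    have hD : 1 ≤ d / Nat.gcd d e := Nat.div_pos (Nat.le_of_dvd hd hgd) hg0
    have hcop : M.Coprime (d / Nat.gcd d e) :=
      (Nat.Coprime.coprime_dvd_left (Nat.div_dvd_of_dvd hgd) hdM).symm
    obtain ⟨k, hk⟩ := B04_crt hcop r
    have h1 : (Finset.Icc 1 (y / e)).filter (fun f => e * f ≡ b [MOD M] ∧ d ∣ e * f) =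
        (Finset.Icc 1 (y / e)).filter (fun f => f ≡ k [MOD M * (d / Nat.gcd d e)]) :=
      Finset.filter_congr fun f _ => by rw [hr f, B04_dvd d e f hd, hk f]
    rw [h1]
    have hMD : 1 ≤ M * (d / Nat.gcd d e) := Nat.mul_pos hM hD
    have h2 := B04_class (M * (d / Nat.gcd d e)) k (y / e) hMD
    have hM' : (1 : ℝ) ≤ ((M * (d / Nat.gcd d e) : ℕ) : ℝ) := by exact_mod_cast hMD
    have he0 : (0 : ℝ) < e := by exact_mod_cast he
    have hm0 : (0 : ℝ) < M := by exact_mod_cast hM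
    have hd0 : (0 : ℝ) < d := by exact_mod_cast hd
    have hg0' : (0 : ℝ) < (Nat.gcd d e : ℝ) := by exact_mod_cast hg0
    have h3 : (y : ℝ) / (M * d) * ((Nat.gcd d e : ℝ) / e) =
        (y : ℝ) / e / ((M * (d / Nat.gcd d e) : ℕ) : ℝ) := by
      rw [Nat.cast_mul, Nat.cast_div hgd hg0'.ne']
      field_simp
    have h4 : |((y / e : ℕ) : ℝ) - (y : ℝ) / e| ≤ 1 := by
      have h5 : ((y / e : ℕ) : ℝ) ≤ (y : ℝ) / e := Nat.cast_div_le
      have h6 : (y : ℝ) / e < ((y / e : ℕ) : ℝ) + 1 := by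
        rw [div_lt_iff₀ he0]
        have h7 : y < (y / e + 1) * e := by
          have := Nat.lt_div_mul_add (a := y) (b := e) (by omega)
          calc y < y / e * e + e := this
            _ = (y / e + 1) * e := by ring
        exact_mod_cast h7
      rw [abs_le]
      constructor <;> linarith
    have h5 : |((y / e : ℕ) : ℝ) / ((M * (d / Nat.gcd d e) : ℕ) : ℝ) -
        (y : ℝ) / e / ((M * (d / Nat.gcd d e) : ℕ) : ℝ)| ≤ 1 := by
      rw [← sub_div, abs_div,
        abs_of_pos (show (0 : ℝ) < ((M * (d / Nat.gcd d e) : ℕ) : ℝ) by linarith)]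
      rw [div_le_one (by linarith)]
      linarith
    rw [h3]
    have h6 := abs_sub_le
      (((Finset.Icc 1 (y / e)).filter (fun f => f ≡ k [MOD M * (d / Nat.gcd d e)])).card : ℝ)
      (((y / e : ℕ) : ℝ) / ((M * (d / Nat.gcd d e) : ℕ) : ℝ))
      ((y : ℝ) / e / ((M * (d / Nat.gcd d e) : ℕ) : ℝ))
    linarith
  · rw [if_neg hg]
    have h1 : (Finset.Icc 1 (y / e)).filter (fun f => e * f ≡ b [MOD M] ∧ d ∣ e * f) = ∅ := by
      rw [Finset.filter_eq_empty_iff]
      rintro f _ ⟨h, -⟩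
      exact hg (B04_unit hb h)
    rw [h1, Finset.card_empty]
    norm_num

/-- The inner sums over the larger factor. -/
private theorem B04_block {N W : ℕ} (hN : 2 ≤ N) (hWN : W ∣ N) {c : ℕ → ℝ} (hc : RC N c)
    (hp : PVW N W c) (m d b : ℕ) (hm1 : 1 ≤ m) (hm : m.Coprime N) (hd : 1 ≤ d)
    (hdm : d.Coprime (W * m)) (hb : b.Coprime (W * m)) (f A B : ℕ) :
    |∑ e ∈ (Finset.Ioc A B).filter (fun e => e * f ≡ b [MOD W * m] ∧ d ∣ e * f), c e| ≤
      2 * PB N := by
  have hP := Pool.Agent.Lib.RG.RAP1_PB_one hc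
  have hW1 : 1 ≤ W := Nat.pos_of_dvd_of_pos hWN (by omega)
  have hWm : W.Coprime m := (Nat.Coprime.coprime_dvd_right hWN hm).symm
  by_cases hf : f.Coprime (W * m)
  · obtain ⟨r, hr⟩ := B04_solve b hf (Nat.mul_pos hW1 hm1)
    have hgd : Nat.gcd d f ∣ d := Nat.gcd_dvd_left d f
    have hDm : m.Coprime (d / Nat.gcd d f) :=
      (Nat.Coprime.coprime_dvd_left (Nat.div_dvd_of_dvd hgd)
        (Nat.Coprime.coprime_mul_left_right hdm)).symm
    obtain ⟨k, hk⟩ := B04_crt hDm r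
    have h1 : (Finset.Ioc A B).filter (fun e => e * f ≡ b [MOD W * m] ∧ d ∣ e * f) =
        (Finset.Ioc A B).filter (fun e => e ≡ r [MOD W] ∧ e ≡ k [MOD m * (d / Nat.gcd d f)]) := by
      refine Finset.filter_congr fun e _ => ?_
      rw [mul_comm e f, hr e, B04_dvd d f e hd, ← hk e, ← Nat.modEq_and_modEq_iff_modEq_mul hWm,
        and_assoc]
    by_cases hDN : (d / Nat.gcd d f).Coprime N
    · rw [h1]
      exact pv_prog2 hN hWN hc hp (m * (d / Nat.gcd d f)) (Nat.Coprime.mul_left hm hDN) r k A B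
    · rw [Finset.sum_eq_zero]
      · rw [abs_zero]
        linarith
      · intro e he
        rw [h1, Finset.mem_filter] at he
        apply hc.zero
        intro h2
        apply hDN
        exact Nat.Coprime.coprime_dvd_left ((hk e).2 he.2.2).2 h2
  · have h1 : (Finset.Ioc A B).filter (fun e => e * f ≡ b [MOD W * m] ∧ d ∣ e * f) = ∅ := by
      rw [Finset.filter_eq_empty_iff]
      rintro e _ ⟨h, -⟩
      rw [mul_comm e f] at h
      exact hf (B04_unit hb h)
    rw [h1, Finset.sum_empty, abs_zero]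
    linarith

/-- The hyperbola identity. -/
private theorem B04_double (c : ℕ → ℝ) (P : ℕ → Prop) [DecidablePred P] (y Z : ℕ) (hZ : y ≤ Z) :
    ∑ n ∈ (Finset.Icc 1 y).filter P, rr c n =
      ∑ e ∈ Finset.Icc 1 Z, c e * (((Finset.Icc 1 (y / e)).filter (fun f => P (e * f))).card : ℝ) := by
  have h1 : ∀ n ∈ (Finset.Icc 1 y).filter P, rr c n =
      ∑ e ∈ Finset.Icc 1 Z, if e ∣ n then c e else 0 := by
    intro n hn
    have hn1 := Finset.mem_Icc.1 (Finset.mem_filter.1 hn).1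
    unfold rr
    rw [← Finset.sum_filter]
    refine Finset.sum_congr ?_ fun _ _ => rfl
    ext a
    rw [Nat.mem_divisors, Finset.mem_filter, Finset.mem_Icc]
    constructor
    · rintro ⟨h, _⟩
      have h2 := Nat.le_of_dvd (by omega) h
      have h4 : 0 < a := Nat.pos_of_dvd_of_pos h (by omega)
      exact ⟨⟨h4, by omega⟩, h⟩
    · rintro ⟨_, h⟩
      exact ⟨h, by omega⟩
  rw [Finset.sum_congr rfl h1, Finset.sum_comm]
  refine Finset.sum_congr rfl fun e he => ?_
  have he1 : 0 < e := (Finset.mem_Icc.1 he).1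
  rw [← Finset.sum_filter, Finset.sum_const, nsmul_eq_mul, mul_comm]
  congr 2
  refine Finset.card_nbij' (fun n => n / e) (fun f => e * f) ?_ ?_ ?_ ?_
  · intro n hn
    simp only [Finset.coe_filter, Finset.mem_filter, Finset.mem_Icc, Set.mem_ofPred_eq] at hn ⊢
    obtain ⟨⟨⟨h2, h3⟩, h4⟩, h5⟩ := hn
    refine ⟨⟨Nat.div_pos (Nat.le_of_dvd h2 h5) he1, Nat.div_le_div_right h3⟩, ?_⟩
    rw [Nat.mul_div_cancel' h5]
    exact h4
  · intro f hf
    simp only [Finset.coe_filter, Finset.mem_filter, Finset.mem_Icc, Set.mem_ofPred_eq] at hf ⊢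
    obtain ⟨⟨h2, h3⟩, h4⟩ := hf
    refine ⟨⟨⟨Nat.mul_pos he1 h2, ?_⟩, h4⟩, dvd_mul_right e f⟩
    calc e * f ≤ e * (y / e) := Nat.mul_le_mul_left _ h3
      _ ≤ y := Nat.mul_div_le y e
  · intro n hn
    simp only [Finset.coe_filter, Finset.mem_filter, Finset.mem_Icc, Set.mem_ofPred_eq] at hn
    exact Nat.mul_div_cancel' hn.2
  · intro f _
    exact Nat.mul_div_cancel_left f he1

/-- The contribution of the larger factors. -/
private theorem B04_large {N W : ℕ} (hN : 2 ≤ N) (hWN : W ∣ N) {c : ℕ → ℝ} (hc : RC N c)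
    (hp : PVW N W c) (m d b : ℕ) (hm1 : 1 ≤ m) (hm : m.Coprime N) (hd : 1 ≤ d)
    (hdm : d.Coprime (W * m)) (hb : b.Coprime (W * m)) (y A Z : ℕ) (hA : 1 ≤ A) (hZ : y ≤ Z) :
    |∑ e ∈ Finset.Ioc A Z, c e *
      (((Finset.Icc 1 (y / e)).filter (fun f => e * f ≡ b [MOD W * m] ∧ d ∣ e * f)).card : ℝ)| ≤
      (y : ℝ) / A * (2 * PB N) := by
  have hP := Pool.Agent.Lib.RG.RAP1_PB_one hc
  have h1 : ∀ e ∈ Finset.Ioc A Z, c e *
      (((Finset.Icc 1 (y / e)).filter (fun f => e * f ≡ b [MOD W * m] ∧ d ∣ e * f)).card : ℝ) =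
      ∑ f ∈ Finset.Icc 1 y,
        if e * f ≤ y ∧ (e * f ≡ b [MOD W * m] ∧ d ∣ e * f) then c e else 0 := by
    intro e he
    have he1 : 0 < e := by
      have := (Finset.mem_Ioc.1 he).1
      omega
    rw [← Finset.sum_filter, Finset.sum_const, nsmul_eq_mul, mul_comm]
    congr 3
    ext f
    rw [Finset.mem_filter, Finset.mem_filter, Finset.mem_Icc, Finset.mem_Icc,
      Nat.le_div_iff_mul_le he1, mul_comm f e]
    constructor
    · rintro ⟨⟨h2, h3⟩, h4⟩
      exact ⟨⟨h2, (Nat.le_mul_of_pos_left f he1).trans h3⟩, h3, h4⟩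
    · rintro ⟨⟨h2, _⟩, h3, h4⟩
      exact ⟨⟨h2, h3⟩, h4⟩
  rw [Finset.sum_congr rfl h1, Finset.sum_comm]
  have h2 : ∀ f ∈ Finset.Icc 1 y,
      |∑ e ∈ Finset.Ioc A Z,
        if e * f ≤ y ∧ (e * f ≡ b [MOD W * m] ∧ d ∣ e * f) then c e else 0| ≤
        if A * f ≤ y then 2 * PB N else 0 := by
    intro f hf
    have hf1 : 0 < f := (Finset.mem_Icc.1 hf).1
    have e1 : (∑ e ∈ Finset.Ioc A Z,
        if e * f ≤ y ∧ (e * f ≡ b [MOD W * m] ∧ d ∣ e * f) then c e else 0) =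
        ∑ e ∈ (Finset.Ioc A (y / f)).filter (fun e => e * f ≡ b [MOD W * m] ∧ d ∣ e * f), c e := by
      rw [← Finset.sum_filter]
      refine Finset.sum_congr ?_ fun _ _ => rfl
      ext e
      rw [Finset.mem_filter, Finset.mem_filter, Finset.mem_Ioc, Finset.mem_Ioc,
        Nat.le_div_iff_mul_le hf1]
      constructor
      · rintro ⟨⟨h3, _⟩, h4, h5⟩
        exact ⟨⟨h3, h4⟩, h5⟩
      · rintro ⟨⟨h3, h4⟩, h5⟩
        exact ⟨⟨h3, ((Nat.le_mul_of_pos_right e hf1).trans h4).trans hZ⟩, h4, h5⟩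
    rw [e1]
    split_ifs with h3
    · exact B04_block hN hWN hc hp m d b hm1 hm hd hdm hb f A (y / f)
    · have h4 : Finset.Ioc A (y / f) = ∅ := by
        rw [Finset.Ioc_eq_empty_iff]
        intro h5
        apply h3
        have h6 : A ≤ y / f := h5.le
        rwa [Nat.le_div_iff_mul_le hf1] at h6
      rw [h4, Finset.filter_empty, Finset.sum_empty, abs_zero]
  refine (Finset.abs_sum_le_sum_abs _ _).trans ((Finset.sum_le_sum h2).trans ?_)
  rw [← Finset.sum_filter, Finset.sum_const, nsmul_eq_mul]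
  have h3 : (((Finset.Icc 1 y).filter (fun f => A * f ≤ y)).card : ℝ) ≤ (y : ℝ) / A := by
    have h4 : (Finset.Icc 1 y).filter (fun f => A * f ≤ y) ⊆ Finset.Icc 1 (y / A) := by
      intro f hf
      rw [Finset.mem_filter, Finset.mem_Icc] at hf
      rw [Finset.mem_Icc, Nat.le_div_iff_mul_le (by omega), mul_comm]
      exact ⟨hf.1.1, hf.2⟩
    have h5 := Finset.card_le_card h4
    rw [Nat.card_Icc, Nat.add_sub_cancel] at h5
    calc (((Finset.Icc 1 y).filter (fun f => A * f ≤ y)).card : ℝ) ≤ ((y / A : ℕ) : ℝ) := by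
          exact_mod_cast h5
      _ ≤ (y : ℝ) / A := Nat.cast_div_le
  exact mul_le_mul_of_nonneg_right h3 (by linarith)

private theorem B04_prod_le {N : ℕ} {c : ℕ → ℝ} (hc : RC N c) (k : ℕ) (hk : Squarefree k) :
    |∏ p ∈ k.primeFactors, (1 - c p / p)| ≤ k.divisors.card := by
  rw [Finset.abs_prod]
  have h1 : ∀ p ∈ k.primeFactors, |1 - c p / p| ≤ 2 := by
    intro p hp
    have hp1 : (1 : ℝ) ≤ p := by
      exact_mod_cast (Nat.prime_of_mem_primeFactors hp).one_lt.le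
    have h2 : |c p / p| ≤ 1 := by
      rw [abs_div, abs_of_pos (show (0 : ℝ) < p by linarith), div_le_one (by linarith)]
      linarith [Pool.Agent.Lib.RG.RAP1_abs hc p]
    have h3 := abs_le.1 h2
    rw [abs_le]
    constructor <;> linarith [h3.1, h3.2]
  refine (Finset.prod_le_prod (fun _ _ => abs_nonneg _) h1).trans ?_
  rw [Finset.prod_const]
  have h2 : k.divisors.card = 2 ^ k.primeFactors.card := by
    rw [Nat.card_divisors hk.ne_zero]
    rw [← Finset.prod_const]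
    refine Finset.prod_congr rfl fun p hp => ?_
    rw [(Nat.squarefree_iff_factorization_le_one hk.ne_zero).1 hk p |>.antisymm
      ((Nat.prime_of_mem_primeFactors hp).factorization_pos_of_dvd hk.ne_zero
        (Nat.dvd_of_mem_primeFactors hp))]
  rw [h2]
  push_cast
  exact le_rfl

/-- The product of the prime factors. -/
private theorem B04_rad (m : ℕ) (hm : 1 ≤ m) : ∃ k : ℕ, Squarefree k ∧ k.primeFactors = m.primeFactors ∧
    k ∣ m ∧ ∀ e : ℕ, e.Coprime k ↔ e.Coprime m := by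
  refine ⟨∏ p ∈ m.primeFactors, p, ?_, ?_, Nat.prod_primeFactors_dvd m, ?_⟩
  · rw [← Nat.radical_eq_prod_primeFactors]
    exact UniqueFactorizationMonoid.squarefree_radical
  · exact Nat.primeFactors_prod fun p hp => Nat.prime_of_mem_primeFactors hp
  · intro e
    constructor
    · intro h
      refine Nat.coprime_of_dvd fun p hp h1 h2 => ?_
      have h3 : p ∣ ∏ p ∈ m.primeFactors, p :=
        Finset.dvd_prod_of_mem _ (Nat.mem_primeFactors.2 ⟨hp, h2, by omega⟩)
      have h4 := Nat.dvd_gcd h1 h3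
      rw [Nat.Coprime.gcd_eq_one h] at h4
      exact hp.one_lt.ne' (Nat.dvd_one.1 h4)
    · intro h
      exact Nat.Coprime.coprime_dvd_right (Nat.prod_primeFactors_dvd m) h

/-- The inner sum. -/
private theorem B04_inner {N : ℕ} {c : ℕ → ℝ} {L : ℝ} (hc : RC N c) (hL : LV N c L) (hN : 2 ≤ N)
    (m g A : ℕ) (hm1 : 1 ≤ m) (hg0 : 0 < g) (hA : 1 ≤ A) :
    |∑ e ∈ (Finset.Icc 1 (A / g)).filter (fun e => e.Coprime m), c e / e -
      L * ∏ p ∈ m.primeFactors, (1 - c p / p)| ≤ 8 * m.divisors.card * PB N * g / A := by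
  have hP := Pool.Agent.Lib.RG.RAP1_PB_one hc
  obtain ⟨k, hk1, hk2, hk3, hk4⟩ := B04_rad m hm1
  have hf : (Finset.Icc 1 (A / g)).filter (fun e => e.Coprime m) =
      (Finset.Icc 1 (A / g)).filter (fun e => e.Coprime k) :=
    Finset.filter_congr fun e _ => (hk4 e).symm
  rw [hf, ← hk2]
  have hA0 : (0 : ℝ) < A := by exact_mod_cast hA
  have hg1 : (0 : ℝ) < g := by exact_mod_cast hg0
  have hτ : (k.divisors.card : ℝ) ≤ m.divisors.card := by
    exact_mod_cast Finset.card_le_card (Nat.divisors_subset_of_dvd (by omega) hk3)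
  have hτ0 : (0 : ℝ) ≤ k.divisors.card := Nat.cast_nonneg _
  rcases le_or_gt g A with h1 | h1
  · have h2 : 1 ≤ A / g := Nat.div_pos h1 hg0
    have h3 := Pool.Agent.Lib.RG.cop_sum N hN c L hc hL k hk1 (A / g) h2
    refine h3.trans ?_
    have h4 : (A : ℝ) ≤ 2 * (A / g : ℕ) * g := by
      have h11 : A < A / g * g + g := Nat.lt_div_mul_add hg0
      have h12 : g ≤ A / g * g := Nat.le_mul_of_pos_left g h2
      have h13 : A ≤ 2 * (A / g) * g := by
        calc A ≤ A / g * g + A / g * g := by omega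
          _ = 2 * (A / g) * g := by ring
      exact_mod_cast h13
    have h5 : (0 : ℝ) < (A / g : ℕ) := by exact_mod_cast h2
    rw [div_le_div_iff₀ h5 hA0]
    have h6 : 4 * (k.divisors.card : ℝ) * PB N ≤ 4 * m.divisors.card * PB N := by
      have : (0 : ℝ) ≤ PB N := by linarith
      nlinarith
    calc 4 * (k.divisors.card : ℝ) * PB N * A ≤ 4 * m.divisors.card * PB N * A :=
          mul_le_mul_of_nonneg_right h6 hA0.le
      _ ≤ 4 * m.divisors.card * PB N * (2 * (A / g : ℕ) * g) := by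
          apply mul_le_mul_of_nonneg_left h4
          positivity
      _ = 8 * m.divisors.card * PB N * g * (A / g : ℕ) := by ring
  · have h2 : A / g = 0 := Nat.div_eq_of_lt h1
    rw [h2, Finset.Icc_eq_empty (by norm_num), Finset.filter_empty, Finset.sum_empty, zero_sub,
      abs_neg, abs_mul, abs_of_nonneg hL.1]
    have h3 := B04_prod_le hc k hk1
    have h4 := Pool.Agent.Lib.RG.RAP1_L_le hc hL
    have h5 : (1 : ℝ) ≤ g / A := by
      rw [le_div_iff₀ hA0, one_mul]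
      exact_mod_cast h1.le
    calc L * |∏ p ∈ k.primeFactors, (1 - c p / p)|
        ≤ (3 * PB N) * m.divisors.card :=
          mul_le_mul h4 (h3.trans hτ) (abs_nonneg _) (by linarith)
      _ = (3 * m.divisors.card * PB N) * 1 := by ring
      _ ≤ (8 * m.divisors.card * PB N) * (g / A) := by
          apply mul_le_mul _ h5 zero_le_one (by positivity)
          have : (0 : ℝ) ≤ m.divisors.card * PB N := by positivity
          nlinarith
      _ = 8 * m.divisors.card * PB N * g / A := by ring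

/-- `φ n c n / n` as an arithmetic function. -/
private noncomputable def B04_F (c : ℕ → ℝ) : ArithmeticFunction ℝ :=
  ⟨fun n => (Nat.totient n : ℝ) * (c n / n), by simp⟩

private theorem B04_F_mult {N : ℕ} {c : ℕ → ℝ} (hc : RC N c) : (B04_F c).IsMultiplicative := by
  rw [ArithmeticFunction.IsMultiplicative.iff_ne_zero]
  constructor
  · change (Nat.totient 1 : ℝ) * (c 1 / ((1 : ℕ) : ℝ)) = 1
    rw [Pool.Agent.Lib.RG.RAP1_one hc]
    norm_num
  · intro m n _ _ hmn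
    change (Nat.totient (m * n) : ℝ) * (c (m * n) / ((m * n : ℕ) : ℝ)) =
      (Nat.totient m : ℝ) * (c m / m) * ((Nat.totient n : ℝ) * (c n / n))
    rw [Nat.totient_mul hmn, hc.mul, Nat.cast_mul, Nat.cast_mul, ← div_mul_div_comm]
    ring

private theorem B04_id {N : ℕ} {c : ℕ → ℝ} (hc : RC N c) (d : ℕ) (hd : Squarefree d) :
    ∑ g ∈ d.divisors, (Nat.totient g : ℝ) * (c g / g) = d * ∏ p ∈ d.primeFactors, z0 c p := by
  have h1 := ArithmeticFunction.IsMultiplicative.prodPrimeFactors_one_add_of_squarefree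
    (B04_F_mult hc) hd
  have h2 : ∑ g ∈ d.divisors, (Nat.totient g : ℝ) * (c g / g) = ∑ g ∈ d.divisors, B04_F c g := rfl
  rw [h2, ← h1]
  have h3 : (d : ℝ) = ∏ p ∈ d.primeFactors, (p : ℝ) := by
    conv_lhs => rw [← Nat.prod_primeFactors_of_squarefree hd]
    push_cast
    rfl
  rw [h3, ← Finset.prod_mul_distrib]
  refine Finset.prod_congr rfl fun p hp => ?_
  have hp' := Nat.prime_of_mem_primeFactors hp
  have hp0 : (p : ℝ) ≠ 0 := by exact_mod_cast hp'.ne_zero
  change 1 + (Nat.totient p : ℝ) * (c p / p) = p * z0 c p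
  rw [Nat.totient_prime hp', Nat.cast_sub hp'.one_lt.le]
  unfold z0
  push_cast
  field_simp
  ring

/-- The greatest common divisor as a sum. -/
private theorem B04_gcd (d e : ℕ) (hd : 1 ≤ d) :
    (Nat.gcd d e : ℝ) = ∑ g ∈ d.divisors, if g ∣ e then (Nat.totient g : ℝ) else 0 := by
  have hg : Nat.gcd d e ≠ 0 := (Nat.gcd_pos_of_pos_left _ hd).ne'
  have h1 : (Nat.gcd d e).divisors = d.divisors.filter (fun g => g ∣ e) := by
    ext g
    rw [Nat.mem_divisors, Finset.mem_filter, Nat.mem_divisors, Nat.dvd_gcd_iff]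
    constructor
    · rintro ⟨⟨h2, h3⟩, _⟩
      exact ⟨⟨h2, by omega⟩, h3⟩
    · rintro ⟨⟨h2, _⟩, h3⟩
      exact ⟨⟨h2, h3⟩, hg⟩
  rw [← Finset.sum_filter, ← h1]
  have h2 := Nat.sum_totient (Nat.gcd d e)
  exact_mod_cast h2.symm

/-- The main term. -/
private theorem B04_main {N W : ℕ} (hWN : W ∣ N) {c : ℕ → ℝ} (hc : RC N c) (m d : ℕ)
    (hd : 1 ≤ d) (hdm : d.Coprime (W * m)) (A : ℕ) (u : ℝ) :
    ∑ e ∈ Finset.Icc 1 A, c e *
      (if e.Coprime (W * m) then u * ((Nat.gcd d e : ℝ) / e) else 0) =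
      u * ∑ g ∈ d.divisors, (Nat.totient g : ℝ) * (c g / g) *
        ∑ e ∈ (Finset.Icc 1 (A / g)).filter (fun e => e.Coprime m), c e / e := by
  have h1 : ∀ e ∈ Finset.Icc 1 A, c e *
      (if e.Coprime (W * m) then u * ((Nat.gcd d e : ℝ) / e) else 0) =
      u * ∑ g ∈ d.divisors, if g ∣ e ∧ e.Coprime m then (Nat.totient g : ℝ) * (c e / e) else 0 := by
    intro e _
    by_cases h2 : e.Coprime N
    · have h3 : e.Coprime W := Nat.Coprime.coprime_dvd_right hWN h2
      by_cases h4 : e.Coprime m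
      · rw [if_pos (Nat.Coprime.mul_right h3 h4), B04_gcd d e hd]
        have h5 : ∀ g ∈ d.divisors,
            (if g ∣ e ∧ e.Coprime m then (Nat.totient g : ℝ) * (c e / e) else 0) =
            (if g ∣ e then (Nat.totient g : ℝ) else 0) * (c e / e) := by
          intro g _
          by_cases h6 : g ∣ e
          · rw [if_pos ⟨h6, h4⟩, if_pos h6]
          · rw [if_neg fun h => h6 h.1, if_neg h6, zero_mul]
        rw [Finset.sum_congr rfl h5, ← Finset.sum_mul]
        ring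
      · rw [if_neg fun h => h4 (Nat.Coprime.coprime_mul_left_right h), mul_zero,
          Finset.sum_eq_zero, mul_zero]
        intro g _
        rw [if_neg fun h => h4 h.2]
    · rw [hc.zero e h2, zero_mul, Finset.sum_eq_zero, mul_zero]
      intro g _
      rw [zero_div, mul_zero, ite_self]
  rw [Finset.sum_congr rfl h1, ← Finset.mul_sum, Finset.sum_comm]
  congr 1
  refine Finset.sum_congr rfl fun g hg => ?_
  have hgd : g ∣ d := Nat.dvd_of_mem_divisors hg
  have hg0 : 0 < g := Nat.pos_of_mem_divisors hg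
  have hgm : g.Coprime m := Nat.Coprime.coprime_dvd_left hgd
    (Nat.Coprime.coprime_mul_left_right hdm)
  rw [← Finset.sum_filter, Finset.mul_sum]
  refine Finset.sum_nbij' (fun e => e / g) (fun e => g * e) ?_ ?_ ?_ ?_ ?_
  · intro e he
    rw [Finset.mem_filter, Finset.mem_Icc] at he
    obtain ⟨⟨h2, h3⟩, h4, h5⟩ := he
    rw [Finset.mem_filter, Finset.mem_Icc]
    exact ⟨⟨Nat.div_pos (Nat.le_of_dvd h2 h4) hg0, Nat.div_le_div_right h3⟩,
      Nat.Coprime.coprime_dvd_left (Nat.div_dvd_of_dvd h4) h5⟩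
  · intro e he
    rw [Finset.mem_filter, Finset.mem_Icc] at he
    obtain ⟨⟨h2, h3⟩, h4⟩ := he
    rw [Finset.mem_filter, Finset.mem_Icc]
    refine ⟨⟨Nat.mul_pos hg0 h2, ?_⟩, dvd_mul_right g e, Nat.Coprime.mul_left hgm h4⟩
    calc g * e ≤ g * (A / g) := Nat.mul_le_mul_left _ h3
      _ ≤ A := Nat.mul_div_le A g
  · intro e he
    rw [Finset.mem_filter] at he
    exact Nat.mul_div_cancel' he.2.1
  · intro e _
    exact Nat.mul_div_cancel_left e hg0
  · intro e he
    rw [Finset.mem_filter] at he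
    obtain ⟨e', he'⟩ := he.2.1
    rw [he', Nat.mul_div_cancel_left e' hg0, hc.mul, Nat.cast_mul, ← div_mul_div_comm, mul_assoc]

theorem law_explicit {N W : ℕ} (hN : 2 ≤ N) (hWN : W ∣ N) {c : ℕ → ℝ} {L : ℝ} (hc : RC N c) (hL : LV N c L)
    (hp : PVW N W c) (m d b y A : ℕ) (hm1 : 1 ≤ m) (hm : m.Coprime N) (hd : Squarefree d) (hdm : d.Coprime (W * m))
    (hb : b.Coprime (W * m)) (hA : 1 ≤ A) :
    |∑ n ∈ (Icc 1 y).filter (fun n => n ≡ b [MOD W * m] ∧ d ∣ n), rr c n - L * y * mt c W m d| ≤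
      2 * A + 10 * (m.divisors.card : ℝ) * PB N * (y / A) := by
  have hP := Pool.Agent.Lib.RG.RAP1_PB_one hc
  have hd1 : 1 ≤ d := Nat.one_le_iff_ne_zero.2 hd.ne_zero
  have hW1 : 1 ≤ W := Nat.pos_of_dvd_of_pos hWN (by omega)
  have hM1 : 1 ≤ W * m := Nat.mul_pos hW1 hm1
  have hm0 : (0 : ℝ) < m := by exact_mod_cast hm1
  have hW0 : (0 : ℝ) < W := by exact_mod_cast hW1
  have hd0 : (0 : ℝ) < d := by exact_mod_cast hd1
  have hA0 : (0 : ℝ) < A := by exact_mod_cast hA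
  have hM0 : (1 : ℝ) ≤ (W : ℝ) * m := by exact_mod_cast hM1
  set τ : ℝ := (m.divisors.card : ℝ) with hτ
  have hτ1 : 1 ≤ τ := by
    have : 0 < m.divisors.card := Finset.card_pos.2 ⟨1, Nat.one_mem_divisors.2 (by omega)⟩
    rw [hτ]
    exact_mod_cast this
  set cnt : ℕ → ℝ := fun e =>
    (((Finset.Icc 1 (y / e)).filter (fun f => e * f ≡ b [MOD W * m] ∧ d ∣ e * f)).card : ℝ)
    with hcnt
  have h1 := B04_double c (fun n => n ≡ b [MOD W * m] ∧ d ∣ n) y (max A y) (le_max_right _ _)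
  have hsplit : Finset.Icc 1 (max A y) = Finset.Icc 1 A ∪ Finset.Ioc A (max A y) := by
    ext a
    rw [Finset.mem_union, Finset.mem_Icc, Finset.mem_Icc, Finset.mem_Ioc]
    have := le_max_left A y
    omega
  have hdis : Disjoint (Finset.Icc 1 A) (Finset.Ioc A (max A y)) := by
    rw [Finset.disjoint_left]
    intro a h1 h2
    rw [Finset.mem_Icc] at h1
    rw [Finset.mem_Ioc] at h2
    omega
  rw [hsplit, Finset.sum_union hdis] at h1
  -- the small factors
  have h2 : |∑ e ∈ Finset.Icc 1 A, c e * cnt e - ∑ e ∈ Finset.Icc 1 A, c e *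
      (if e.Coprime (W * m) then (y : ℝ) / (((W * m : ℕ) : ℝ) * d) * ((Nat.gcd d e : ℝ) / e)
        else 0)| ≤ 2 * A := by
    rw [← Finset.sum_sub_distrib]
    refine (Finset.abs_sum_le_sum_abs _ _).trans ?_
    have h3 : ∀ e ∈ Finset.Icc 1 A, |c e * cnt e - c e *
        (if e.Coprime (W * m) then (y : ℝ) / (((W * m : ℕ) : ℝ) * d) * ((Nat.gcd d e : ℝ) / e)
          else 0)| ≤ 2 := by
      intro e he
      rw [← mul_sub, abs_mul]
      calc |c e| * |cnt e - (if e.Coprime (W * m) then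
            (y : ℝ) / (((W * m : ℕ) : ℝ) * d) * ((Nat.gcd d e : ℝ) / e) else 0)|
          ≤ 1 * 2 := mul_le_mul (Pool.Agent.Lib.RG.RAP1_abs hc e)
            (B04_cnt e (W * m) b y d (Finset.mem_Icc.1 he).1 hM1 hd1 hdm hb)
            (abs_nonneg _) zero_le_one
        _ = 2 := one_mul _
    refine (Finset.sum_le_card_nsmul _ _ _ h3).trans (le_of_eq ?_)
    rw [Nat.card_Icc, nsmul_eq_mul, Nat.add_sub_cancel]
    ring
  rw [B04_main hWN hc m d hd1 hdm A] at h2
  -- the inner sums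
  have h3 : |(y : ℝ) / (((W * m : ℕ) : ℝ) * d) * ∑ g ∈ d.divisors, (Nat.totient g : ℝ) * (c g / g) *
        ∑ e ∈ (Finset.Icc 1 (A / g)).filter (fun e => e.Coprime m), c e / e -
      L * y * mt c W m d| ≤ 8 * τ * PB N * (y / A) := by
    have e0 : L * y * mt c W m d = (y : ℝ) / (((W * m : ℕ) : ℝ) * d) *
        ∑ g ∈ d.divisors, (Nat.totient g : ℝ) * (c g / g) *
          (L * ∏ p ∈ m.primeFactors, (1 - c p / p)) := by
      rw [← Finset.sum_mul, B04_id hc d hd]
      unfold mt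
      push_cast
      field_simp
    rw [e0, ← mul_sub, ← Finset.sum_sub_distrib, abs_mul,
      abs_of_nonneg (show (0 : ℝ) ≤ (y : ℝ) / (((W * m : ℕ) : ℝ) * d) by positivity)]
    have h4 : ∀ g ∈ d.divisors, |(Nat.totient g : ℝ) * (c g / g) *
        ∑ e ∈ (Finset.Icc 1 (A / g)).filter (fun e => e.Coprime m), c e / e -
        (Nat.totient g : ℝ) * (c g / g) * (L * ∏ p ∈ m.primeFactors, (1 - c p / p))| ≤
        (Nat.totient g : ℝ) * (8 * τ * PB N / A) := by
      intro g hg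
      have hg0 : 0 < g := Nat.pos_of_mem_divisors hg
      have hg1 : (0 : ℝ) < g := by exact_mod_cast hg0
      rw [← mul_sub, abs_mul, abs_mul, Nat.abs_cast, mul_assoc]
      apply mul_le_mul_of_nonneg_left _ (Nat.cast_nonneg _)
      have h6 := B04_inner hc hL hN m g A hm1 hg0 hA
      have h7 : |c g / g| ≤ 1 / g := by
        rw [abs_div, abs_of_pos hg1]
        exact div_le_div_of_nonneg_right (Pool.Agent.Lib.RG.RAP1_abs hc g) hg1.le
      calc |c g / g| * |∑ e ∈ (Finset.Icc 1 (A / g)).filter (fun e => e.Coprime m), c e / e -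
            L * ∏ p ∈ m.primeFactors, (1 - c p / p)|
          ≤ 1 / g * (8 * τ * PB N * g / A) :=
            mul_le_mul h7 h6 (abs_nonneg _) (by positivity)
        _ = 8 * τ * PB N / A := by
            field_simp
    have h5 : ∑ g ∈ d.divisors, (Nat.totient g : ℝ) = d := by
      exact_mod_cast Nat.sum_totient d
    calc (y : ℝ) / (((W * m : ℕ) : ℝ) * d) * |∑ g ∈ d.divisors,
          ((Nat.totient g : ℝ) * (c g / g) *
            ∑ e ∈ (Finset.Icc 1 (A / g)).filter (fun e => e.Coprime m), c e / e -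
            (Nat.totient g : ℝ) * (c g / g) * (L * ∏ p ∈ m.primeFactors, (1 - c p / p)))|
        ≤ (y : ℝ) / (((W * m : ℕ) : ℝ) * d) * (d * (8 * τ * PB N / A)) := by
          apply mul_le_mul_of_nonneg_left _ (by positivity)
          refine (Finset.abs_sum_le_sum_abs _ _).trans ((Finset.sum_le_sum h4).trans (le_of_eq ?_))
          rw [← Finset.sum_mul, h5]
      _ = 8 * τ * PB N * (y / A) / (W * m) := by
          push_cast
          field_simp
      _ ≤ 8 * τ * PB N * (y / A) := by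
          apply div_le_self _ hM0
          positivity
  -- the large factors
  have h4 := B04_large hN hWN hc hp m d b hm1 hm hd1 hdm hb y A (max A y) hA (le_max_right _ _)
  rw [h1]
  set T1 : ℝ := ∑ e ∈ Finset.Icc 1 A, c e * cnt e with hT1
  set T2 : ℝ := ∑ e ∈ Finset.Ioc A (max A y), c e * cnt e with hT2
  set MM : ℝ := (y : ℝ) / (((W * m : ℕ) : ℝ) * d) * ∑ g ∈ d.divisors,
    (Nat.totient g : ℝ) * (c g / g) *
        ∑ e ∈ (Finset.Icc 1 (A / g)).filter (fun e => e.Coprime m), c e / e with hMM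
  have h5 : T1 + T2 - L * y * mt c W m d = (T1 - MM) + (MM - L * y * mt c W m d) + T2 := by ring
  have hyA : 0 ≤ (y : ℝ) / A := by positivity
  have h6 : (y : ℝ) / A * (2 * PB N) ≤ 2 * τ * PB N * (y / A) := by
    have h8 : 0 ≤ PB N * ((y : ℝ) / A) := by positivity
    nlinarith
  calc |T1 + T2 - L * y * mt c W m d| = |(T1 - MM) + (MM - L * y * mt c W m d) + T2| := by rw [h5]
    _ ≤ |T1 - MM| + |MM - L * y * mt c W m d| + |T2| :=
        (abs_add_le _ _).trans (add_le_add (abs_add_le _ _) le_rfl)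
    _ ≤ 2 * A + 8 * τ * PB N * (y / A) + 2 * τ * PB N * (y / A) := by
        have := h4.trans h6
        linarith
    _ = 2 * A + 10 * τ * PB N * (y / A) := by ring

end Pool.Agent.Lib.TCB
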