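import Pool.Agent.Lib.MP_7b7e48_nt.BR.B04

/-!
# Module B05 (30 minutes): `1 * c` in progressions, with a power saving

PROOF. `law_explicit` with `A = ⌈√y N ^ (1/4)⌉₊`, exactly as the proof of `RG.rap_law` (end of `RG/RAP2.lean`): `PB N ≤ C1 N ^ (1/2 + 1/200)` (`RG.PB_le`), `τ(m) ≤ C2 m ^ (1/200) ≤ C2 N ^ (1/200)` (`RG.divisor_bound`),
`√y ≤ N ^ (21/40)`: all errors `≤ C N ^ (0.785) ≤ N ^ (4/5) / 2`. (`y = 0`: `A = 0` is excluded by taking `A = ⌈..⌉₊ + 1`.)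
-/

set_option autoImplicit false

open Finset

namespace Pool.Agent.Lib.TCB

open Pool.Agent.Lib.RG (RC LV rr PB Rough)

private theorem B05_PB_one {N : ℕ} {c : ℕ → ℝ} (hc : RC N c) : 1 ≤ PB N := by
  have h1 := hc.pv 1
  rw [Finset.Icc_self, Finset.sum_singleton] at h1
  rcases hc.val 1 (Nat.coprime_one_left N) with h | h
  · rwa [h, abs_one] at h1
  · rwa [h, abs_neg, abs_one] at h1

theorem law : ∃ N0 : ℕ, ∀ N : ℕ, N0 ≤ N → ∀ W : ℕ, W ∣ N → ∀ (c : ℕ → ℝ) (L : ℝ), RC N c → LV N c L →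
    PVW N W c → ∀ m d b y : ℕ, 1 ≤ m → m.Coprime N → Squarefree d → d.Coprime (W * m) → b.Coprime (W * m) →
    m ≤ N → (y : ℝ) ≤ (N : ℝ) ^ ((21 : ℝ) / 20) →
    |∑ n ∈ (Icc 1 y).filter (fun n => n ≡ b [MOD W * m] ∧ d ∣ n), rr c n - L * y * mt c W m d| ≤
      (N : ℝ) ^ ((4 : ℝ) / 5) / 2 := by
  obtain ⟨C1, hC1, hPB⟩ := Pool.Agent.Lib.RG.PB_le (1 / 200) (by norm_num)
  obtain ⟨C2, hC2, hdiv⟩ := Pool.Agent.Lib.RG.divisor_bound (1 / 200) (by norm_num)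
  set K : ℝ := 4 + 10 * C2 * C1 with hK
  have hK0 : 0 < K := by positivity
  have hlim : Filter.Tendsto (fun N : ℕ => (N : ℝ) ^ ((15 : ℝ) / 1000)) Filter.atTop Filter.atTop :=
    (tendsto_rpow_atTop (by norm_num)).comp tendsto_natCast_atTop_atTop
  obtain ⟨N1, hN1⟩ := Filter.eventually_atTop.1 (hlim.eventually_ge_atTop (2 * K))
  refine ⟨max 2 N1, fun N hN W hWN c L hc hL hp m d b y hm1 hm hd hdm hb hmle hy => ?_⟩
  have hN2 : 2 ≤ N := (le_max_left _ _).trans hN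
  have hN1' : (1 : ℝ) ≤ N := by exact_mod_cast (by omega : 1 ≤ N)
  have hN0 : (0 : ℝ) < N := by linarith
  have hP : 1 ≤ PB N := B05_PB_one hc
  rcases Nat.eq_zero_or_pos y with hy0 | hy0
  · rw [hy0, Finset.Icc_eq_empty (by norm_num), Finset.filter_empty, Finset.sum_empty]
    simp only [Nat.cast_zero, mul_zero, zero_mul, sub_zero, abs_zero]
    positivity
  have hy1 : (1 : ℝ) ≤ y := by exact_mod_cast hy0
  set s : ℝ := Real.sqrt y with hs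
  have hs1 : 1 ≤ s := Real.one_le_sqrt.2 hy1
  have hss : s * s = y := Real.mul_self_sqrt (by linarith)
  set q : ℝ := (N : ℝ) ^ ((1 : ℝ) / 4) with hq
  have hq1 : 1 ≤ q := Real.one_le_rpow hN1' (by norm_num)
  set A : ℕ := ⌈s * q⌉₊ with hA
  have hsq0 : 0 < s * q := by positivity
  have hsq1 : 1 ≤ s * q := by nlinarith
  have hA1 : 1 ≤ A := Nat.one_le_iff_ne_zero.2 (Nat.ceil_pos.2 hsq0).ne'
  have hAl : s * q ≤ A := Nat.le_ceil _
  have hAu : (A : ℝ) ≤ 2 * (s * q) := by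
    have h1 : (A : ℝ) < s * q + 1 := Nat.ceil_lt_add_one hsq0.le
    linarith
  have hA0 : (0 : ℝ) < A := by exact_mod_cast hA1
  refine (law_explicit hN2 hWN hc hL hp m d b y A hm1 hm hd hdm hb hA1).trans ?_
  -- sizes
  have hs2 : s ≤ (N : ℝ) ^ ((21 : ℝ) / 40) := by
    rw [hs]
    calc Real.sqrt y ≤ Real.sqrt ((N : ℝ) ^ ((21 : ℝ) / 20)) := Real.sqrt_le_sqrt hy
      _ = (N : ℝ) ^ ((21 : ℝ) / 40) := by
          rw [Real.sqrt_eq_rpow, ← Real.rpow_mul hN0.le]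
          norm_num
  have hyA : (y : ℝ) / A ≤ (N : ℝ) ^ ((11 : ℝ) / 40) := by
    rw [div_le_iff₀ hA0]
    have h1 : (N : ℝ) ^ ((11 : ℝ) / 40) * q = (N : ℝ) ^ ((21 : ℝ) / 40) := by
      rw [hq, ← Real.rpow_add hN0]
      norm_num
    calc (y : ℝ) = s * s := hss.symm
      _ ≤ (N : ℝ) ^ ((21 : ℝ) / 40) * s := mul_le_mul_of_nonneg_right hs2 (by linarith)
      _ = (N : ℝ) ^ ((11 : ℝ) / 40) * (s * q) := by rw [← h1]; ring
      _ ≤ (N : ℝ) ^ ((11 : ℝ) / 40) * A := mul_le_mul_of_nonneg_left hAl (by positivity)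
  have hτ : (m.divisors.card : ℝ) ≤ C2 * (N : ℝ) ^ ((1 : ℝ) / 200) := by
    refine (hdiv m hm1).trans ?_
    apply mul_le_mul_of_nonneg_left _ (by linarith)
    exact Real.rpow_le_rpow (Nat.cast_nonneg _) (by exact_mod_cast hmle) (by norm_num)
  have hPB' : PB N ≤ C1 * (N : ℝ) ^ ((101 : ℝ) / 200) := by
    have h1 := (hPB N hN2).1
    have h2 : ((1 : ℝ) / 2 + 1 / 200) = 101 / 200 := by norm_num
    rw [h2] at h1
    exact h1
  have hfirst : 2 * (A : ℝ) ≤ 4 * (N : ℝ) ^ ((785 : ℝ) / 1000) := by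
    have h1 : s * q ≤ (N : ℝ) ^ ((21 : ℝ) / 40) * (N : ℝ) ^ ((1 : ℝ) / 4) :=
      mul_le_mul_of_nonneg_right hs2 (by positivity)
    rw [← Real.rpow_add hN0] at h1
    have h2 : (N : ℝ) ^ ((21 : ℝ) / 40 + (1 : ℝ) / 4) ≤ (N : ℝ) ^ ((785 : ℝ) / 1000) :=
      Real.rpow_le_rpow_of_exponent_le hN1' (by norm_num)
    linarith
  have hsecond : 10 * (m.divisors.card : ℝ) * PB N * (y / A) ≤
      10 * C2 * C1 * (N : ℝ) ^ ((785 : ℝ) / 1000) := by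
    calc 10 * (m.divisors.card : ℝ) * PB N * (y / A)
        ≤ 10 * (C2 * (N : ℝ) ^ ((1 : ℝ) / 200)) * (C1 * (N : ℝ) ^ ((101 : ℝ) / 200)) *
          (N : ℝ) ^ ((11 : ℝ) / 40) := by
          have hPB0 : 0 ≤ PB N := by linarith
          gcongr
      _ = 10 * C2 * C1 * ((N : ℝ) ^ ((1 : ℝ) / 200) * (N : ℝ) ^ ((101 : ℝ) / 200) *
          (N : ℝ) ^ ((11 : ℝ) / 40)) := by ring
      _ = 10 * C2 * C1 * (N : ℝ) ^ ((785 : ℝ) / 1000) := by
          rw [← Real.rpow_add hN0, ← Real.rpow_add hN0]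
          norm_num
  have hlast : K * (N : ℝ) ^ ((785 : ℝ) / 1000) ≤ (N : ℝ) ^ ((4 : ℝ) / 5) / 2 := by
    have h1 := hN1 N ((le_max_right _ _).trans hN)
    have h2 : (N : ℝ) ^ ((4 : ℝ) / 5) = (N : ℝ) ^ ((15 : ℝ) / 1000) * (N : ℝ) ^ ((785 : ℝ) / 1000) := by
      rw [← Real.rpow_add hN0]
      norm_num
    rw [h2]
    have h3 : (0 : ℝ) ≤ (N : ℝ) ^ ((785 : ℝ) / 1000) := by positivity
    nlinarith
  calc 2 * (A : ℝ) + 10 * (m.divisors.card : ℝ) * PB N * (y / A)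
      ≤ 4 * (N : ℝ) ^ ((785 : ℝ) / 1000) + 10 * C2 * C1 * (N : ℝ) ^ ((785 : ℝ) / 1000) :=
        add_le_add hfirst hsecond
    _ = K * (N : ℝ) ^ ((785 : ℝ) / 1000) := by rw [hK]; ring
    _ ≤ _ := hlast

end Pool.Agent.Lib.TCB
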