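import Pool.Agent.Lib.MP_7b7e48_nt.BR.B0

/-!
# Module B06 (60 minutes): truncated Legendre identity and Rankin's bound

`P` is a finite set of primes `≤ y0`. (a) PROOF of `legendre_trunc`. `∏ p ∈ d, p` for subsets `d` of `P`. If no prime of `P` divides `n` only `d = ∅` contributes: both sides fine (`1 ≤ D0`).
In general let `Q = P.filter (· ∣ n)`; `∑_{d ⊆ Q} (-1)^|d| = [Q = ∅]` (`Finset.sum_powerset_neg_one_pow_card` ), so the difference is `-∑_{d ⊆ Q, ∏ d > D0} (-1)^|d|`, of absolute value `≤ #{d ⊆ Q : ∏ d > D0}`.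
If there is such a `d ⊆ Q`, remove primes from it one by one until the product is `≤ D0 y0` (a minimal subset `d'` of `d` with `∏ d' > D0`: it is not empty because `1 ≤ D0`, and dropping one prime `p ≤ y0` gives a product `≤ D0`, so `∏ d' ≤ D0 y0`).
So `#{d'} ≥ 1` and `#{d ⊆ Q : ..} ≤ 2^|Q| ≤ τ(n)` (the products of the subsets of `Q` are distinct divisors of `n`, `n ≠ 0`).
(b) PROOF of `rankin`. `1 ≤ (∏ d / D0)^s`; `∑_{d ⊆ P} ∏_{p ∈ d} (2 p^s/p) = ∏_{p ∈ P} (1 + 2 p^s/p) ≤ exp(∑ 2 p^s/p) ≤ exp(2 y0^s ∑_{n ≤ y0} 1/n) ≤ exp(2 y0^s (1 + log y0))` (`Finset.prod_one_add` / `prod_add`; `harmonic` bound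
`∑_{n ≤ y0} 1/n ≤ 1 + log y0`, e.g. `harmonic_le_one_add_log`).
-/

set_option autoImplicit false

open Finset

namespace Pool.Agent.Lib.TCB

open Pool.Agent.Lib.RG (RC LV rr PB Rough)

private theorem B06_low (D0 y0 : ℕ) (hD : 1 ≤ D0) (n : ℕ) : ∀ d : Finset ℕ, d.card = n → (∀ p ∈ d, 1 ≤ p ∧ p ≤ y0) →
    D0 < ∏ p ∈ d, p → ∃ d' ⊆ d, D0 < ∏ p ∈ d', p ∧ ∏ p ∈ d', p ≤ D0 * y0 := by
  induction n with
  | zero =>
    intro d hd _ hD0
    rw [card_eq_zero] at hd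
    subst hd
    rw [prod_empty] at hD0
    omega
  | succ n ih =>
    intro d hd hp hD0
    obtain ⟨q, hq⟩ : d.Nonempty := by
      rw [← card_pos]
      omega
    have h1 : q * ∏ p ∈ d.erase q, p = ∏ p ∈ d, p := mul_prod_erase d (fun p => p) hq
    by_cases h2 : D0 < ∏ p ∈ d.erase q, p
    · obtain ⟨d', hd', h3⟩ := ih (d.erase q) (by rw [card_erase_of_mem hq]; omega)
        (fun p hpe => hp p (mem_of_mem_erase hpe)) h2
      exact ⟨d', hd'.trans (erase_subset _ _), h3⟩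
    · refine ⟨d, Subset.rfl, hD0, ?_⟩
      rw [← h1, mul_comm D0 y0]
      exact Nat.mul_le_mul (hp q hq).2 (not_lt.1 h2)

theorem legendre_trunc (P : Finset ℕ) (hP : ∀ p ∈ P, p.Prime) (y0 D0 : ℕ) (hy : ∀ p ∈ P, p ≤ y0) (hD : 1 ≤ D0) (n : ℕ)
    (hn : n ≠ 0) :
    |(if ∀ p ∈ P, ¬ p ∣ n then (1 : ℝ) else 0) -
      ∑ d ∈ P.powerset.filter (fun d => ∏ p ∈ d, p ≤ D0 ∧ (∏ p ∈ d, p) ∣ n), (-1 : ℝ) ^ d.card| ≤
      (n.divisors.card : ℝ) *
        ((P.powerset.filter fun d => D0 < ∏ p ∈ d, p ∧ ∏ p ∈ d, p ≤ D0 * y0 ∧ (∏ p ∈ d, p) ∣ n).card : ℝ) := by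
  classical
  obtain ⟨Q, hQ⟩ : ∃ Q : Finset ℕ, Q = P.filter (fun p => p ∣ n) := ⟨_, rfl⟩
  have hQP : Q ⊆ P := by
    rw [hQ]
    exact filter_subset _ _
  have hQp : ∀ p ∈ Q, p.Prime := fun p hp => hP p (hQP hp)
  have hdvd : ∀ d ⊆ P, ((∏ p ∈ d, p) ∣ n ↔ d ⊆ Q) := by
    intro d hd
    constructor
    · intro h p hp
      rw [hQ, mem_filter]
      exact ⟨hd hp, (dvd_prod_of_mem (fun p => p) hp).trans h⟩
    · intro h
      refine Finset.prod_primes_dvd n (fun p hp => (hQp p (h hp)).prime) (fun p hp => ?_)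
      have h1 := h hp
      rw [hQ, mem_filter] at h1
      exact h1.2
  have h1 : P.powerset.filter (fun d => ∏ p ∈ d, p ≤ D0 ∧ (∏ p ∈ d, p) ∣ n) =
      Q.powerset.filter (fun d => ∏ p ∈ d, p ≤ D0) := by
    ext d
    rw [mem_filter, mem_filter, mem_powerset, mem_powerset]
    constructor
    · rintro ⟨a1, a2, a3⟩
      exact ⟨(hdvd d a1).1 a3, a2⟩
    · rintro ⟨a1, a2⟩
      exact ⟨a1.trans hQP, a2, (hdvd d (a1.trans hQP)).2 a1⟩
  have h2 : (if ∀ p ∈ P, ¬ p ∣ n then (1 : ℝ) else 0) = ∑ d ∈ Q.powerset, (-1 : ℝ) ^ d.card := by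
    have h3 := Finset.sum_powerset_neg_one_pow_card (x := Q)
    have h4 : ∑ d ∈ Q.powerset, (-1 : ℝ) ^ d.card = ((∑ d ∈ Q.powerset, (-1 : ℤ) ^ d.card : ℤ) : ℝ) := by
      push_cast
      rfl
    rw [h4, h3]
    by_cases hQe : Q = ∅
    · have h5 : ∀ p ∈ P, ¬ p ∣ n := by
        intro p hp hpn
        have h6 : p ∈ Q := by
          rw [hQ, mem_filter]
          exact ⟨hp, hpn⟩
        rw [hQe] at h6
        exact absurd h6 (notMem_empty p)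
      rw [if_pos h5, if_pos hQe, Int.cast_one]
    · have h5 : ¬ ∀ p ∈ P, ¬ p ∣ n := by
        intro h6
        apply hQe
        rw [hQ, filter_eq_empty_iff]
        exact fun p hp => h6 p hp
      rw [if_neg h5, if_neg hQe, Int.cast_zero]
  obtain ⟨M, hM⟩ : ∃ M : Finset (Finset ℕ), M = Q.powerset.filter (fun d => ¬ ∏ p ∈ d, p ≤ D0) := ⟨_, rfl⟩
  have h3 : |(if ∀ p ∈ P, ¬ p ∣ n then (1 : ℝ) else 0) -
      ∑ d ∈ P.powerset.filter (fun d => ∏ p ∈ d, p ≤ D0 ∧ (∏ p ∈ d, p) ∣ n), (-1 : ℝ) ^ d.card| ≤ (M.card : ℝ) := by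
    rw [h1, h2, ← sum_filter_add_sum_filter_not Q.powerset (fun d => ∏ p ∈ d, p ≤ D0), add_sub_cancel_left, ← hM]
    refine (abs_sum_le_sum_abs _ _).trans (le_of_eq ?_)
    have h4 : ∀ d ∈ M, |(-1 : ℝ) ^ d.card| = 1 := fun d _ => by rw [abs_pow, abs_neg, abs_one, one_pow]
    rw [sum_congr rfl h4, sum_const, nsmul_eq_mul, mul_one]
  refine h3.trans ?_
  by_cases hMe : M = ∅
  · rw [hMe, card_empty, Nat.cast_zero]
    exact mul_nonneg (Nat.cast_nonneg _) (Nat.cast_nonneg _)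
  · obtain ⟨d, hd⟩ := nonempty_iff_ne_empty.2 hMe
    rw [hM, mem_filter, mem_powerset, not_le] at hd
    obtain ⟨d', hd', h4, h5⟩ := B06_low D0 y0 hD d.card d rfl
      (fun p hp => ⟨(hQp p (hd.1 hp)).one_lt.le, hy p (hQP (hd.1 hp))⟩) hd.2
    have h6 : 1 ≤ (P.powerset.filter fun d => D0 < ∏ p ∈ d, p ∧ ∏ p ∈ d, p ≤ D0 * y0 ∧ (∏ p ∈ d, p) ∣ n).card := by
      rw [Nat.one_le_iff_ne_zero, ← Nat.pos_iff_ne_zero, card_pos]
      refine ⟨d', ?_⟩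
      rw [mem_filter, mem_powerset]
      have h7 : d' ⊆ Q := hd'.trans hd.1
      exact ⟨h7.trans hQP, h4, h5, (hdvd d' (h7.trans hQP)).2 h7⟩
    have h7 : M.card ≤ n.divisors.card := by
      refine Finset.card_le_card_of_injOn (fun d => ∏ p ∈ d, p) ?_ ?_
      · intro d hd
        rw [Finset.mem_coe, hM, mem_filter, mem_powerset] at hd
        rw [Finset.mem_coe, Nat.mem_divisors]
        exact ⟨(hdvd d (hd.1.trans hQP)).2 hd.1, hn⟩
      · intro d hd e he hde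
        rw [Finset.mem_coe, hM, mem_filter, mem_powerset] at hd he
        have g1 := Nat.primeFactors_prod (s := d) (fun p hp => hQp p (hd.1 hp))
        have g2 := Nat.primeFactors_prod (s := e) (fun p hp => hQp p (he.1 hp))
        have g3 : ∏ p ∈ d, p = ∏ p ∈ e, p := hde
        rw [g3] at g1
        exact g1.symm.trans g2
    calc (M.card : ℝ) ≤ (n.divisors.card : ℝ) * 1 := by
          rw [mul_one]
          exact Nat.cast_le.2 h7
      _ ≤ _ := mul_le_mul_of_nonneg_left (Nat.one_le_cast.2 h6) (Nat.cast_nonneg _)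

theorem rankin (P : Finset ℕ) (hP : ∀ p ∈ P, p.Prime) (y0 D0 : ℕ) (hy : ∀ p ∈ P, p ≤ y0) (hD : 1 ≤ D0) (hy0 : 1 ≤ y0)
    (s : ℝ) (hs : 0 < s) :
    ∑ d ∈ P.powerset.filter (fun d => D0 < ∏ p ∈ d, p), ∏ p ∈ d, (2 / (p : ℝ)) ≤
      (D0 : ℝ) ^ (-s) * Real.exp (2 * (y0 : ℝ) ^ s * (1 + Real.log y0)) := by
  classical
  have hD0 : (0 : ℝ) < D0 := by exact_mod_cast hD
  have hy0' : (1 : ℝ) ≤ y0 := by exact_mod_cast hy0
  have h1 : ∀ d ∈ P.powerset.filter (fun d => D0 < ∏ p ∈ d, p), ∏ p ∈ d, (2 / (p : ℝ)) ≤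
      (D0 : ℝ) ^ (-s) * ∏ p ∈ d, (2 * (p : ℝ) ^ s / (p : ℝ)) := by
    intro d hd
    rw [mem_filter, mem_powerset] at hd
    have hpos : ∀ p ∈ d, (0 : ℝ) < p := fun p hp => by exact_mod_cast (hP p (hd.1 hp)).pos
    have h2 : ∏ p ∈ d, (2 * (p : ℝ) ^ s / (p : ℝ)) = (∏ p ∈ d, (p : ℝ)) ^ s * ∏ p ∈ d, (2 / (p : ℝ)) := by
      rw [← Real.finsetProd_rpow _ _ (fun p hp => (hpos p hp).le), ← prod_mul_distrib]
      refine prod_congr rfl fun p _ => ?_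
      ring
    rw [h2, ← mul_assoc]
    have h3 : (1 : ℝ) ≤ (D0 : ℝ) ^ (-s) * (∏ p ∈ d, (p : ℝ)) ^ s := by
      have h4 : (D0 : ℝ) ≤ ∏ p ∈ d, (p : ℝ) := by
        rw [← Nat.cast_prod]
        exact Nat.cast_le.2 hd.2.le
      calc (1 : ℝ) = (D0 : ℝ) ^ (-s) * (D0 : ℝ) ^ s := by
            rw [← Real.rpow_add hD0, neg_add_cancel, Real.rpow_zero]
        _ ≤ _ := by
            gcongr
    have h5 : (0 : ℝ) ≤ ∏ p ∈ d, (2 / (p : ℝ)) := prod_nonneg fun p hp => (div_pos two_pos (hpos p hp)).le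
    calc ∏ p ∈ d, (2 / (p : ℝ)) = 1 * ∏ p ∈ d, (2 / (p : ℝ)) := (one_mul _).symm
      _ ≤ _ := mul_le_mul_of_nonneg_right h3 h5
  have h2 : ∑ d ∈ P.powerset, ∏ p ∈ d, (2 * (p : ℝ) ^ s / (p : ℝ)) = ∏ p ∈ P, (1 + 2 * (p : ℝ) ^ s / (p : ℝ)) :=
    (Finset.prod_one_add P).symm
  have h3 : ∏ p ∈ P, (1 + 2 * (p : ℝ) ^ s / (p : ℝ)) ≤ Real.exp (2 * (y0 : ℝ) ^ s * (1 + Real.log y0)) := by
    have h4 : ∏ p ∈ P, (1 + 2 * (p : ℝ) ^ s / (p : ℝ)) ≤ ∏ p ∈ P, Real.exp (2 * (p : ℝ) ^ s / (p : ℝ)) := by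
      refine prod_le_prod (fun p _ => by positivity) fun p _ => ?_
      rw [add_comm]
      exact Real.add_one_le_exp _
    refine h4.trans ?_
    rw [← Real.exp_sum]
    apply Real.exp_le_exp.2
    calc ∑ p ∈ P, 2 * (p : ℝ) ^ s / (p : ℝ) ≤ ∑ p ∈ P, 2 * (y0 : ℝ) ^ s * (1 / (p : ℝ)) := by
          refine sum_le_sum fun p hp => ?_
          have h5 : (p : ℝ) ≤ y0 := by exact_mod_cast hy p hp
          have h6 : (p : ℝ) ^ s ≤ (y0 : ℝ) ^ s := Real.rpow_le_rpow (Nat.cast_nonneg _) h5 hs.le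
          rw [mul_one_div]
          gcongr
      _ = 2 * (y0 : ℝ) ^ s * ∑ p ∈ P, 1 / (p : ℝ) := by rw [mul_sum]
      _ ≤ 2 * (y0 : ℝ) ^ s * (1 + Real.log y0) := by
          gcongr
          calc ∑ p ∈ P, 1 / (p : ℝ) ≤ ∑ i ∈ Icc 1 y0, 1 / (i : ℝ) := by
                refine sum_le_sum_of_subset_of_nonneg ?_ (fun _ _ _ => by positivity)
                intro p hp
                rw [mem_Icc]
                exact ⟨(hP p hp).one_lt.le, hy p hp⟩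
            _ = ((harmonic y0 : ℚ) : ℝ) := by
                rw [harmonic_eq_sum_Icc]
                push_cast
                refine sum_congr rfl fun i _ => ?_
                rw [one_div]
            _ ≤ 1 + Real.log y0 := harmonic_le_one_add_log y0
  have h4 : ∀ d ∈ P.powerset, 0 ≤ ∏ p ∈ d, (2 * (p : ℝ) ^ s / (p : ℝ)) := fun d _ => by positivity
  calc ∑ d ∈ P.powerset.filter (fun d => D0 < ∏ p ∈ d, p), ∏ p ∈ d, (2 / (p : ℝ))
      ≤ ∑ d ∈ P.powerset.filter (fun d => D0 < ∏ p ∈ d, p), (D0 : ℝ) ^ (-s) * ∏ p ∈ d, (2 * (p : ℝ) ^ s / (p : ℝ)) :=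
        sum_le_sum h1
    _ = (D0 : ℝ) ^ (-s) * ∑ d ∈ P.powerset.filter (fun d => D0 < ∏ p ∈ d, p), ∏ p ∈ d, (2 * (p : ℝ) ^ s / (p : ℝ)) := by
        rw [mul_sum]
    _ ≤ (D0 : ℝ) ^ (-s) * ∑ d ∈ P.powerset, ∏ p ∈ d, (2 * (p : ℝ) ^ s / (p : ℝ)) := by
        exact mul_le_mul_of_nonneg_left (sum_le_sum_of_subset_of_nonneg (filter_subset _ _) (fun d hd _ => h4 d hd))
          (by positivity)
    _ ≤ _ := by
        rw [h2]
        gcongr

end Pool.Agent.Lib.TCB
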