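import Pool.Agent.Lib.MP_7b7e48_nt.BR.B05
import Pool.Agent.Lib.MP_7b7e48_nt.BR.B06

/-!
# Module B07 (110 minutes): `1 * c` in progressions, on the integers without prime factor `≤ y0 = (log N) ^ Cp`

`e` is squarefree with all prime factors `> y0`. PROOF. `P` := the primes `p ≤ y0`, `p ∤ W m`. For `n ≡ b (W m)`, `b` a unit: `Rough y0 n` iff no `p ∈ P` divides `n` (the `p ∣ W m` never divide `n`). `D0 := ⌊N ^ (1/100)⌋₊`,
`s := 1/(2 Cp)`. Insert `legendre_trunc` (`n ≥ 1`, `n ≤ N ^ 2`, so `τ(n) ≤ N ^ ε`, `ε = 1/(4000 Cp)`, `RG.divisor_bound`; `rr c n ≥ 0`). For `d ⊆ P` write `d` also for its product; `d e` is squarefree and coprime to `W m`.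
By `law` at `b0` and `a0` (`Ioc a0 b0 = Icc 1 b0 \ Icc 1 a0`): `∑_{n ∈ (a0,b0], n ≡ b (W m), d e ∣ n} rr c n = L (b0 - a0) mt c W m (d e) + θ N ^ (4/5)`. `mt c W m (d e) = mt c W m e ∏_{p ∈ d} z0 c p`, `0 ≤ z0 c p ≤ 2/p`, `0 ≤ mt c W m e ≤ 1` (`1 - c p/p ≤ 1 + 1/p ≤ 2 ≤ p` ..., so
`∏_{p ∣ m} (1 - c p/p) ≤ m`; `z0 c p ≤ 2/p ≤ 1`).
Main: `∑_{d ≤ D0} (-1)^|d| ∏ z0 = ∏_{p ∈ P} (1 - z0 c p) - ∑_{d > D0}`, `|∑_{d > D0}| ≤ rankin`. Tail: `N ^ ε ∑_{D0 < d ≤ D0 y0} (L (b0 - a0) ∏_{p ∈ d} 2/p + N ^ (4/5))`; the number of these `d` is `≤ D0 y0` (distinct products).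
`rankin`: `D0 ^ (-s) exp(2 y0 ^ s (1 + log y0)) ≤ 2 N ^ (-1/(200 Cp)) exp(2 √(log N) (1 + Cp loglog N)) ≤ N ^ (-1/(300 Cp))` for large `N`. All together: `≤ N ^ (-1/(400 Cp)) L (b0 - a0) + N ^ (5/6)`.
-/

set_option autoImplicit false

open Finset

namespace Pool.Agent.Lib.TCB

open Pool.Agent.Lib.RG (RC LV rr PB Rough)

/-! ### numerical facts -/

private theorem B07_ev_log_pow (A : ℕ) (δ : ℝ) (hδ : 0 < δ) :
    ∀ᶠ N : ℕ in Filter.atTop, (Real.log N) ^ A ≤ (N : ℝ) ^ δ := by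
  have h1 := isLittleO_log_rpow_rpow_atTop (A : ℝ) hδ
  have h2 := h1.bound (show (0 : ℝ) < 1 by norm_num)
  have h3 := tendsto_natCast_atTop_atTop (R := ℝ) |>.eventually h2
  filter_upwards [h3, Filter.eventually_ge_atTop 1] with N h4 hN
  have hN1 : (1 : ℝ) ≤ N := by exact_mod_cast hN
  have h5 : 0 ≤ Real.log N := Real.log_nonneg hN1
  rw [Real.rpow_natCast, Real.norm_of_nonneg (pow_nonneg h5 _),
    Real.norm_of_nonneg (Real.rpow_nonneg (by linarith) _), one_mul] at h4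
  exact h4

private theorem B07_ev_rpow (δ : ℝ) (hδ : 0 < δ) (T : ℝ) :
    ∀ᶠ N : ℕ in Filter.atTop, T ≤ (N : ℝ) ^ δ :=
  ((tendsto_rpow_atTop hδ).comp (tendsto_natCast_atTop_atTop (R := ℝ))).eventually_ge_atTop T

private theorem B07_ev_log (T : ℝ) : ∀ᶠ N : ℕ in Filter.atTop, T ≤ Real.log N :=
  (Real.tendsto_log_atTop.comp (tendsto_natCast_atTop_atTop (R := ℝ))).eventually_ge_atTop T

/-- for large `x`: `2 √x (1 + K log x) ≤ x / (1000 K)` -/
private theorem B07_sqrt {K x : ℝ} (hK : 1 ≤ K) (hx : ((10 : ℝ) ^ 4 * K ^ 2) ^ 4 ≤ x) :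
    2 * x ^ ((1 : ℝ) / 2) * (1 + K * Real.log x) ≤ x * (1 / (1000 * K)) := by
  have hK0 : 0 < K := by linarith
  have hT : (1 : ℝ) ≤ 10 ^ 4 * K ^ 2 := by nlinarith
  have hx1 : 1 ≤ x := (one_le_pow₀ hT).trans hx
  have hx0 : 0 < x := by linarith
  set y : ℝ := x ^ ((1 : ℝ) / 4) with hy
  have hy0 : 0 < y := Real.rpow_pos_of_pos hx0 _
  have hy1 : 1 ≤ y := Real.one_le_rpow hx1 (by norm_num)
  have e2 : x ^ ((1 : ℝ) / 2) = y ^ 2 := by
    rw [hy, ← Real.rpow_natCast, ← Real.rpow_mul hx0.le]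
    norm_num
  have e4 : x = y ^ 4 := by
    rw [hy, ← Real.rpow_natCast, ← Real.rpow_mul hx0.le]
    norm_num
  have hlog : Real.log x ≤ 4 * y := by
    have := Real.log_le_rpow_div hx0.le (show (0 : ℝ) < 1 / 4 by norm_num)
    rw [← hy] at this
    linarith
  have hyT : 10 ^ 4 * K ^ 2 ≤ y := by
    rw [e4] at hx
    exact le_of_pow_le_pow_left₀ (by norm_num) hy0.le hx
  have h1 : 1 + K * Real.log x ≤ 5 * K * y := by
    have h2 := mul_le_mul_of_nonneg_left hlog hK0.le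
    have h3 : 1 ≤ K * y := by nlinarith
    linarith
  have h4 : 2 * x ^ ((1 : ℝ) / 2) * (1 + K * Real.log x) ≤ 10 * K * y ^ 3 := by
    rw [e2]
    have := mul_le_mul_of_nonneg_left h1 (by positivity : 0 ≤ 2 * y ^ 2)
    calc 2 * y ^ 2 * (1 + K * Real.log x) ≤ 2 * y ^ 2 * (5 * K * y) := this
      _ = 10 * K * y ^ 3 := by ring
  have h5 : 10 * K * y ^ 3 ≤ x * (1 / (1000 * K)) := by
    rw [mul_one_div, le_div_iff₀ (by positivity)]
    calc 10 * K * y ^ 3 * (1000 * K) = (10 ^ 4 * K ^ 2) * y ^ 3 := by ring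
      _ ≤ y * y ^ 3 := mul_le_mul_of_nonneg_right hyT (by positivity)
      _ = x := by rw [e4]; ring
  exact h4.trans h5

/-- the facts about the size of `N` -/
private theorem B07_num (Cp : ℕ) (hCp : 1 ≤ Cp) (C : ℝ) : ∃ N0 : ℕ, ∀ N : ℕ, N0 ≤ N → 2 ≤ N ∧
    C * ((N : ℝ) ^ ((21 : ℝ) / 20)) ^ (1 / (4000 * (Cp : ℝ))) ≤ (N : ℝ) ^ (1 / (3000 * (Cp : ℝ))) ∧
    4 ≤ (N : ℝ) ^ (1 / (1000 * (Cp : ℝ))) ∧ (Real.log N) ^ Cp ≤ (N : ℝ) ^ ((1 : ℝ) / 1000) ∧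
    4 ≤ (N : ℝ) ^ ((1 : ℝ) / 100) ∧ 1 ≤ Real.log N ∧
    Real.exp (2 * (Real.log N) ^ ((1 : ℝ) / 2) * (1 + Cp * Real.log (Real.log N))) ≤
      (N : ℝ) ^ (1 / (1000 * (Cp : ℝ))) := by
  have hK : (1 : ℝ) ≤ Cp := by exact_mod_cast hCp
  have hK0 : (0 : ℝ) < Cp := by linarith
  have hd : (0 : ℝ) < 1 / (3000 * (Cp : ℝ)) - 21 / 20 * (1 / (4000 * (Cp : ℝ))) := by
    have : 1 / (3000 * (Cp : ℝ)) - 21 / 20 * (1 / (4000 * (Cp : ℝ))) =
        (1 / 3000 - 21 / 80000) * (1 / Cp) := by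
      field_simp
      ring
    rw [this]
    have : (0 : ℝ) < 1 / Cp := by positivity
    have : (0 : ℝ) < 1 / 3000 - 21 / 80000 := by norm_num
    positivity
  have ev : ∀ᶠ N : ℕ in Filter.atTop, 2 ≤ N ∧
      C * ((N : ℝ) ^ ((21 : ℝ) / 20)) ^ (1 / (4000 * (Cp : ℝ))) ≤ (N : ℝ) ^ (1 / (3000 * (Cp : ℝ))) ∧
      4 ≤ (N : ℝ) ^ (1 / (1000 * (Cp : ℝ))) ∧ (Real.log N) ^ Cp ≤ (N : ℝ) ^ ((1 : ℝ) / 1000) ∧
      4 ≤ (N : ℝ) ^ ((1 : ℝ) / 100) ∧ 1 ≤ Real.log N ∧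
      Real.exp (2 * (Real.log N) ^ ((1 : ℝ) / 2) * (1 + Cp * Real.log (Real.log N))) ≤
        (N : ℝ) ^ (1 / (1000 * (Cp : ℝ))) := by
    filter_upwards [Filter.eventually_ge_atTop 2, B07_ev_rpow _ hd C,
      B07_ev_rpow (1 / (1000 * (Cp : ℝ))) (by positivity) 4,
      B07_ev_log_pow Cp ((1 : ℝ) / 1000) (by norm_num),
      B07_ev_rpow ((1 : ℝ) / 100) (by norm_num) 4, B07_ev_log 1,
      B07_ev_log (((10 : ℝ) ^ 4 * (Cp : ℝ) ^ 2) ^ 4)] with N h2 hC h4 h5 h6 h7 h8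
    have hN0 : (0 : ℝ) < N := by
      have : 0 < N := by omega
      exact_mod_cast this
    refine ⟨h2, ?_, h4, h5, h6, h7, ?_⟩
    · rw [← Real.rpow_mul hN0.le]
      calc C * (N : ℝ) ^ (21 / 20 * (1 / (4000 * (Cp : ℝ)))) ≤
          (N : ℝ) ^ (1 / (3000 * (Cp : ℝ)) - 21 / 20 * (1 / (4000 * (Cp : ℝ)))) *
            (N : ℝ) ^ (21 / 20 * (1 / (4000 * (Cp : ℝ)))) :=
            mul_le_mul_of_nonneg_right hC (Real.rpow_nonneg hN0.le _)
        _ = (N : ℝ) ^ (1 / (3000 * (Cp : ℝ))) := by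
            rw [← Real.rpow_add hN0]
            congr 1
            ring
    · have h9 := B07_sqrt hK h8
      rw [Real.rpow_def_of_pos hN0]
      exact Real.exp_le_exp.2 h9
  exact Filter.eventually_atTop.1 ev

/-! ### the combinatorial part -/

private theorem B07_inj (P : Finset ℕ) (hP : ∀ p ∈ P, p.Prime) (F : Finset (Finset ℕ))
    (hF : F ⊆ P.powerset) (D : ℕ) (hD : ∀ d ∈ F, ∏ p ∈ d, p ≤ D) : F.card ≤ D := by
  classical
  have h1 : F.card ≤ (Icc 1 D).card := by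
    refine card_le_card_of_injOn (fun d => ∏ p ∈ d, p) ?_ ?_
    · intro d hd
      have hdP := mem_powerset.1 (hF hd)
      rw [mem_coe, mem_Icc]
      refine ⟨?_, hD d hd⟩
      exact Nat.pos_of_ne_zero (prod_ne_zero_iff.2 fun p hp => (hP p (hdP hp)).ne_zero)
    · intro d hd d' hd' h
      have hdP := mem_powerset.1 (hF hd)
      have hdP' := mem_powerset.1 (hF hd')
      have e1 := Nat.primeFactors_prod (s := d) fun p hp => hP p (hdP hp)
      have e2 := Nat.primeFactors_prod (s := d') fun p hp => hP p (hdP' hp)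
      have h' : ∏ p ∈ d, p = ∏ p ∈ d', p := h
      rw [← e1, ← e2, h']
  rw [Nat.card_Icc] at h1
  omega

private theorem B07_core (P : Finset ℕ) (hP : ∀ p ∈ P, p.Prime) (y0 D0 : ℕ) (hy : ∀ p ∈ P, p ≤ y0)
    (hD : 1 ≤ D0) (hy1 : 1 ≤ y0) (A : Finset ℕ) (hA : ∀ n ∈ A, n ≠ 0) (f : ℕ → ℝ)
    (hf : ∀ n ∈ A, 0 ≤ f n) (T : ℝ) (hT0 : 0 ≤ T) (hT : ∀ n ∈ A, (n.divisors.card : ℝ) ≤ T)
    (X : ℝ) (hX : 0 ≤ X) (z : ℕ → ℝ) (hz : ∀ p ∈ P, 0 ≤ z p ∧ z p ≤ 2 / p) (Er : ℝ) (hEr : 0 ≤ Er)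
    (hlaw : ∀ d ⊆ P, ∏ p ∈ d, p ≤ D0 * y0 →
      |∑ n ∈ A.filter (fun n => (∏ p ∈ d, p) ∣ n), f n - X * ∏ p ∈ d, z p| ≤ Er)
    (Rk : ℝ) (hRk : ∑ d ∈ P.powerset.filter (fun d => D0 < ∏ p ∈ d, p), ∏ p ∈ d, (2 / (p : ℝ)) ≤ Rk) :
    |∑ n ∈ A, (if ∀ p ∈ P, ¬ p ∣ n then f n else 0) - X * ∏ p ∈ P, (1 - z p)| ≤
      (1 + T) * (X * Rk) + (1 + T) * ((D0 * y0 : ℕ) * Er) := by
  classical
  set F1 := P.powerset.filter (fun d => ∏ p ∈ d, p ≤ D0) with hF1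
  set F2 := P.powerset.filter (fun d => D0 < ∏ p ∈ d, p ∧ ∏ p ∈ d, p ≤ D0 * y0) with hF2
  set F3 := P.powerset.filter (fun d => D0 < ∏ p ∈ d, p) with hF3
  set Sg : Finset ℕ → ℝ := fun d => ∑ n ∈ A.filter (fun n => (∏ p ∈ d, p) ∣ n), f n with hSg
  have hDy : D0 ≤ D0 * y0 := Nat.le_mul_of_pos_right _ hy1
  have c1 : (F1.card : ℝ) ≤ (D0 * y0 : ℕ) := by
    have := B07_inj P hP F1 (filter_subset _ _) D0 fun d hd => (mem_filter.1 hd).2
    exact_mod_cast this.trans hDy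
  have c2 : (F2.card : ℝ) ≤ (D0 * y0 : ℕ) := by
    have := B07_inj P hP F2 (filter_subset _ _) (D0 * y0) fun d hd => (mem_filter.1 hd).2.2
    exact_mod_cast this
  have hzn : ∀ d ⊆ P, 0 ≤ ∏ p ∈ d, z p := fun d hd => prod_nonneg fun p hp => (hz p (hd hp)).1
  have hzle : ∀ d ⊆ P, ∏ p ∈ d, z p ≤ ∏ p ∈ d, (2 / (p : ℝ)) := fun d hd =>
    prod_le_prod (fun p hp => (hz p (hd hp)).1) fun p hp => (hz p (hd hp)).2
  -- step 1: the truncated identity for every `n`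
  have s1 : |∑ n ∈ A, (if ∀ p ∈ P, ¬ p ∣ n then f n else 0) - ∑ d ∈ F1, (-1 : ℝ) ^ d.card * Sg d| ≤
      T * ∑ d ∈ F2, Sg d := by
    have e1 : ∑ d ∈ F1, (-1 : ℝ) ^ d.card * Sg d = ∑ n ∈ A, f n *
        ∑ d ∈ P.powerset.filter (fun d => ∏ p ∈ d, p ≤ D0 ∧ (∏ p ∈ d, p) ∣ n), (-1 : ℝ) ^ d.card := by
      have h1 : ∀ n ∈ A, f n *
          ∑ d ∈ P.powerset.filter (fun d => ∏ p ∈ d, p ≤ D0 ∧ (∏ p ∈ d, p) ∣ n), (-1 : ℝ) ^ d.card =
          ∑ d ∈ F1, (if (∏ p ∈ d, p) ∣ n then (-1 : ℝ) ^ d.card * f n else 0) := by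
        intro n _
        rw [← sum_filter, hF1, filter_filter, mul_sum]
        refine sum_congr rfl fun d _ => by ring
      rw [sum_congr rfl h1, sum_comm]
      refine sum_congr rfl fun d _ => ?_
      rw [hSg, ← sum_filter, mul_sum]
    have e2 : T * ∑ d ∈ F2, Sg d = ∑ n ∈ A, f n * (T *
        ((P.powerset.filter fun d => D0 < ∏ p ∈ d, p ∧ ∏ p ∈ d, p ≤ D0 * y0 ∧
          (∏ p ∈ d, p) ∣ n).card : ℝ)) := by
      have h1 : ∀ n ∈ A, f n * (T *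
          ((P.powerset.filter fun d => D0 < ∏ p ∈ d, p ∧ ∏ p ∈ d, p ≤ D0 * y0 ∧
            (∏ p ∈ d, p) ∣ n).card : ℝ)) =
          ∑ d ∈ F2, (if (∏ p ∈ d, p) ∣ n then T * f n else 0) := by
        intro n _
        rw [← sum_filter, sum_const, nsmul_eq_mul]
        have h2 : F2.filter (fun d => (∏ p ∈ d, p) ∣ n) = P.powerset.filter (fun d =>
            D0 < ∏ p ∈ d, p ∧ ∏ p ∈ d, p ≤ D0 * y0 ∧ (∏ p ∈ d, p) ∣ n) := by
          rw [hF2, filter_filter]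
          refine filter_congr fun d _ => ?_
          tauto
        rw [h2]
        ring
      rw [sum_congr rfl h1, sum_comm, mul_sum]
      refine sum_congr rfl fun d _ => ?_
      rw [hSg, ← sum_filter, mul_sum]
    rw [e1, e2, ← sum_sub_distrib]
    refine (abs_sum_le_sum_abs _ _).trans (sum_le_sum fun n hn => ?_)
    have h3 := legendre_trunc P hP y0 D0 hy hD n (hA n hn)
    have h4 : (if ∀ p ∈ P, ¬ p ∣ n then f n else 0) = f n * (if ∀ p ∈ P, ¬ p ∣ n then (1 : ℝ) else 0) := by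
      split_ifs
      · rw [mul_one]
      · rw [mul_zero]
    rw [h4, ← mul_sub, abs_mul, abs_of_nonneg (hf n hn)]
    apply mul_le_mul_of_nonneg_left _ (hf n hn)
    exact h3.trans (mul_le_mul_of_nonneg_right (hT n hn) (Nat.cast_nonneg _))
  -- step 2: the main sum
  have s2 : |∑ d ∈ F1, (-1 : ℝ) ^ d.card * Sg d - X * ∑ d ∈ F1, (-1 : ℝ) ^ d.card * ∏ p ∈ d, z p| ≤
      (D0 * y0 : ℕ) * Er := by
    rw [mul_sum, ← sum_sub_distrib]
    refine (abs_sum_le_sum_abs _ _).trans ?_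
    calc ∑ d ∈ F1, |(-1 : ℝ) ^ d.card * Sg d - X * ((-1 : ℝ) ^ d.card * ∏ p ∈ d, z p)|
        ≤ ∑ _d ∈ F1, Er := by
          refine sum_le_sum fun d hd => ?_
          have hd' := mem_filter.1 hd
          have e3 : (-1 : ℝ) ^ d.card * Sg d - X * ((-1 : ℝ) ^ d.card * ∏ p ∈ d, z p) =
              (-1 : ℝ) ^ d.card * (Sg d - X * ∏ p ∈ d, z p) := by ring
          rw [e3, abs_mul, abs_pow, abs_neg, abs_one, one_pow, one_mul]
          exact hlaw d (mem_powerset.1 hd'.1) (hd'.2.trans hDy)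
      _ = F1.card * Er := by rw [sum_const, nsmul_eq_mul]
      _ ≤ _ := mul_le_mul_of_nonneg_right c1 hEr
  -- step 3: completion
  have s3 : |∑ d ∈ F1, (-1 : ℝ) ^ d.card * ∏ p ∈ d, z p - ∏ p ∈ P, (1 - z p)| ≤ Rk := by
    have e4 : ∏ p ∈ P, (1 - z p) = ∑ d ∈ P.powerset, (-1 : ℝ) ^ d.card * ∏ p ∈ d, z p := by
      have h1 : ∏ p ∈ P, (1 - z p) = ∏ p ∈ P, (1 + (-z p)) :=
        prod_congr rfl fun p _ => by ring
      rw [h1, prod_one_add]
      refine sum_congr rfl fun d _ => ?_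
      rw [prod_neg]
    have e5 : ∑ d ∈ P.powerset, (-1 : ℝ) ^ d.card * ∏ p ∈ d, z p =
        ∑ d ∈ F1, (-1 : ℝ) ^ d.card * ∏ p ∈ d, z p + ∑ d ∈ F3, (-1 : ℝ) ^ d.card * ∏ p ∈ d, z p := by
      rw [hF1, hF3, ← sum_filter_add_sum_filter_not P.powerset (fun d => ∏ p ∈ d, p ≤ D0)]
      refine congrArg (fun t => ∑ d ∈ P.powerset.filter (fun d => ∏ p ∈ d, p ≤ D0),
        (-1 : ℝ) ^ d.card * ∏ p ∈ d, z p + t) ?_
      refine sum_congr (filter_congr fun d _ => ?_) fun _ _ => rfl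
      exact not_le
    rw [e4, e5]
    have e6 : ∑ d ∈ F1, (-1 : ℝ) ^ d.card * ∏ p ∈ d, z p -
        (∑ d ∈ F1, (-1 : ℝ) ^ d.card * ∏ p ∈ d, z p + ∑ d ∈ F3, (-1 : ℝ) ^ d.card * ∏ p ∈ d, z p) =
        -∑ d ∈ F3, (-1 : ℝ) ^ d.card * ∏ p ∈ d, z p := by ring
    rw [e6, abs_neg]
    refine (abs_sum_le_sum_abs _ _).trans (le_trans (sum_le_sum fun d hd => ?_) hRk)
    have hdP := mem_powerset.1 (mem_filter.1 hd).1
    rw [abs_mul, abs_pow, abs_neg, abs_one, one_pow, one_mul, abs_of_nonneg (hzn d hdP)]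
    exact hzle d hdP
  -- step 4: the tail
  have s4 : ∑ d ∈ F2, Sg d ≤ X * Rk + (D0 * y0 : ℕ) * Er := by
    have h1 : ∀ d ∈ F2, Sg d ≤ X * ∏ p ∈ d, (2 / (p : ℝ)) + Er := by
      intro d hd
      have hd' := mem_filter.1 hd
      have hdP := mem_powerset.1 hd'.1
      have h2 := (abs_le.1 (hlaw d hdP hd'.2.2)).2
      have h3 := mul_le_mul_of_nonneg_left (hzle d hdP) hX
      have h4 : Sg d = ∑ n ∈ A.filter (fun n => (∏ p ∈ d, p) ∣ n), f n := rfl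
      rw [h4]
      linarith
    refine (sum_le_sum h1).trans ?_
    rw [sum_add_distrib, ← mul_sum, sum_const, nsmul_eq_mul]
    refine add_le_add ?_ (mul_le_mul_of_nonneg_right c2 hEr)
    apply mul_le_mul_of_nonneg_left _ hX
    refine le_trans (sum_le_sum_of_subset_of_nonneg ?_ fun d _ _ => ?_) hRk
    · intro d hd
      rw [hF2, mem_filter] at hd
      rw [mem_filter]
      exact ⟨hd.1, hd.2.1⟩
    · exact prod_nonneg fun p _ => by positivity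
  have hRk0 : 0 ≤ Rk := (abs_nonneg _).trans s3
  have s5 := mul_le_mul_of_nonneg_left s4 hT0
  have s6 : |X * ∑ d ∈ F1, (-1 : ℝ) ^ d.card * ∏ p ∈ d, z p - X * ∏ p ∈ P, (1 - z p)| ≤ X * Rk := by
    rw [← mul_sub, abs_mul, abs_of_nonneg hX]
    exact mul_le_mul_of_nonneg_left s3 hX
  have a1 := abs_le.1 s1
  have a2 := abs_le.1 s2
  have a3 := abs_le.1 s6
  rw [abs_le]
  constructor
  · linarith [a1.1, a2.1, a3.1]
  · linarith [a1.2, a2.2, a3.2]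

/-! ### local densities -/

private theorem B07_c_abs {N : ℕ} {c : ℕ → ℝ} (hc : RC N c) (n : ℕ) : -1 ≤ c n ∧ c n ≤ 1 := by
  by_cases h : n.Coprime N
  · rcases hc.val n h with h1 | h1 <;> rw [h1] <;> norm_num
  · rw [hc.zero n h]
    norm_num

private theorem B07_z0 {N : ℕ} {c : ℕ → ℝ} (hc : RC N c) {p : ℕ} (hp : p.Prime) :
    0 ≤ z0 c p ∧ z0 c p ≤ 2 / p := by
  have h2 : (2 : ℝ) ≤ p := by exact_mod_cast hp.two_le
  have hp0 : (0 : ℝ) < p := by linarith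
  obtain ⟨h3, h4⟩ := B07_c_abs hc p
  have hinv : 0 < 1 / (p : ℝ) := by positivity
  have hinv1 : 1 / (p : ℝ) ≤ 1 := by
    rw [div_le_one hp0]
    linarith
  have e1 : 1 + c p - c p / p = 1 + c p * (1 - 1 / p) := by ring
  have h5 : 0 ≤ 1 + c p - c p / p := by
    rw [e1]
    have : 0 ≤ (1 + c p) * (1 - 1 / (p : ℝ)) := mul_nonneg (by linarith) (by linarith)
    nlinarith
  have h6 : 1 + c p - c p / p ≤ 2 := by
    rw [e1]
    have : 0 ≤ (1 - c p) * (1 - 1 / (p : ℝ)) := mul_nonneg (by linarith) (by linarith)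
    nlinarith
  unfold z0
  exact ⟨div_nonneg h5 hp0.le, div_le_div_of_nonneg_right h6 hp0.le⟩

private theorem B07_mt {N : ℕ} {c : ℕ → ℝ} (hc : RC N c) {W m e : ℕ} (hW : 1 ≤ W) (hm : 1 ≤ m) :
    0 ≤ mt c W m e ∧ mt c W m e ≤ 1 := by
  have hWr : (1 : ℝ) ≤ W := by exact_mod_cast hW
  have hmr : (1 : ℝ) ≤ m := by exact_mod_cast hm
  have h1 : ∀ p ∈ m.primeFactors, 0 ≤ 1 - c p / p ∧ 1 - c p / p ≤ p := by
    intro p hp
    have h2 : (2 : ℝ) ≤ p := by exact_mod_cast (Nat.prime_of_mem_primeFactors hp).two_le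
    have hp0 : (0 : ℝ) < p := by linarith
    obtain ⟨h3, h4⟩ := B07_c_abs hc p
    have h5 : c p / p ≤ 1 := by
      rw [div_le_one hp0]
      linarith
    have h6 : -1 ≤ c p / p := by
      rw [le_div_iff₀ hp0]
      linarith
    constructor <;> linarith
  have h2 : 0 ≤ ∏ p ∈ m.primeFactors, (1 - c p / p) := prod_nonneg fun p hp => (h1 p hp).1
  have h3 : ∏ p ∈ m.primeFactors, (1 - c p / p) ≤ m := by
    calc ∏ p ∈ m.primeFactors, (1 - c p / p) ≤ ∏ p ∈ m.primeFactors, (p : ℝ) :=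
          prod_le_prod (fun p hp => (h1 p hp).1) fun p hp => (h1 p hp).2
      _ = ((∏ p ∈ m.primeFactors, p : ℕ) : ℝ) := by push_cast; rfl
      _ ≤ m := by exact_mod_cast Nat.le_of_dvd hm (Nat.prod_primeFactors_dvd m)
  have h4 : 0 ≤ ∏ p ∈ e.primeFactors, z0 c p :=
    prod_nonneg fun p hp => (B07_z0 hc (Nat.prime_of_mem_primeFactors hp)).1
  have h5 : ∏ p ∈ e.primeFactors, z0 c p ≤ 1 := by
    refine prod_le_one (fun p hp => (B07_z0 hc (Nat.prime_of_mem_primeFactors hp)).1) fun p hp => ?_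
    have hpp := Nat.prime_of_mem_primeFactors hp
    refine (B07_z0 hc hpp).2.trans ?_
    have h2 : (2 : ℝ) ≤ p := by exact_mod_cast hpp.two_le
    rw [div_le_one (by linarith)]
    exact h2
  have hWm : (m : ℝ) ≤ W * m := le_mul_of_one_le_left (by linarith) hWr
  have h6 : 0 ≤ (∏ p ∈ m.primeFactors, (1 - c p / p)) / ((W : ℝ) * m) := by positivity
  have h7 : (∏ p ∈ m.primeFactors, (1 - c p / p)) / ((W : ℝ) * m) ≤ 1 := by
    rw [div_le_one (by positivity)]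
    linarith
  unfold mt
  exact ⟨mul_nonneg h6 h4, mul_le_one₀ h7 h4 h5⟩

private theorem B07_mt_mul (c : ℕ → ℝ) (W m e : ℕ) (d : Finset ℕ) (hd : ∀ p ∈ d, p.Prime)
    (hcop : (∏ p ∈ d, p).Coprime e) :
    mt c W m ((∏ p ∈ d, p) * e) = mt c W m e * ∏ p ∈ d, z0 c p := by
  unfold mt
  rw [hcop.primeFactors_mul, prod_union hcop.disjoint_primeFactors, Nat.primeFactors_prod hd]
  ring

private theorem B07_sqf (d : Finset ℕ) (hd : ∀ p ∈ d, p.Prime) : Squarefree (∏ p ∈ d, p) := by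
  classical
  induction d using Finset.induction_on with
  | empty => simp
  | insert a s ha ih =>
    rw [prod_insert ha]
    have h1 : ∀ p ∈ s, p.Prime := fun p hp => hd p (mem_insert_of_mem hp)
    have hap : a.Prime := hd a (mem_insert_self _ _)
    refine (Nat.squarefree_mul ?_).2 ⟨hap.squarefree, ih h1⟩
    refine Nat.Coprime.prod_right fun p hp => ?_
    exact (Nat.coprime_primes hap (h1 p hp)).2 fun h => ha (h ▸ hp)

private theorem B07_prog (f : ℕ → ℝ) (q : ℕ → Prop) [DecidablePred q] (a b : ℕ) (hab : a ≤ b) :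
    ∑ n ∈ (Ioc a b).filter q, f n = ∑ n ∈ (Icc 1 b).filter q, f n - ∑ n ∈ (Icc 1 a).filter q, f n := by
  rw [eq_sub_iff_add_eq, ← sum_union]
  · refine sum_congr ?_ fun _ _ => rfl
    ext n
    simp only [mem_union, mem_filter, mem_Ioc, mem_Icc]
    constructor
    · rintro (⟨⟨h1, h2⟩, h3⟩ | ⟨⟨h1, h2⟩, h3⟩)
      · exact ⟨⟨by omega, h2⟩, h3⟩
      · exact ⟨⟨h1, by omega⟩, h3⟩
    · rintro ⟨⟨h1, h2⟩, h3⟩
      by_cases h : n ≤ a
      · right; exact ⟨⟨h1, h⟩, h3⟩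
      · left; exact ⟨⟨by omega, h2⟩, h3⟩
  · rw [disjoint_left]
    intro n h1 h2
    simp only [mem_filter, mem_Ioc, mem_Icc] at h1 h2
    omega

theorem rough_law (Cp : ℕ) (hCp : 1 ≤ Cp) : ∃ N0 : ℕ, ∀ N : ℕ, N0 ≤ N → ∀ W : ℕ, W ∣ N → ∀ (c : ℕ → ℝ) (L : ℝ), RC N c →
    LV N c L → PVW N W c → ∀ y0 : ℕ, 1 ≤ y0 → (y0 : ℝ) ≤ (Real.log N) ^ Cp → ∀ m e b a0 b0 : ℕ, 1 ≤ m → m.Coprime N →
    Squarefree e → Rough y0 e → e.Coprime (W * m) → b.Coprime (W * m) → m ≤ N → a0 ≤ b0 →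
    (b0 : ℝ) ≤ (N : ℝ) ^ ((21 : ℝ) / 20) →
    |∑ n ∈ (Ioc a0 b0).filter (fun n => n ≡ b [MOD W * m] ∧ e ∣ n), w2 y0 c n -
      L * ((b0 : ℝ) - a0) * (mt c W m e *
        ∏ p ∈ (range (y0 + 1)).filter (fun p => p.Prime ∧ ¬ p ∣ W * m), (1 - z0 c p))| ≤
      (N : ℝ) ^ (-(1 / (400 * (Cp : ℝ)))) * (L * ((b0 : ℝ) - a0)) + (N : ℝ) ^ ((5 : ℝ) / 6) := by
  classical
  have hK : (1 : ℝ) ≤ Cp := by exact_mod_cast hCp
  have hK0 : (0 : ℝ) < Cp := by linarith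
  obtain ⟨N1, hlaw⟩ := law
  obtain ⟨C, hC, hdiv⟩ := Pool.Agent.Lib.RG.divisor_bound (1 / (4000 * (Cp : ℝ))) (by positivity)
  obtain ⟨N2, hnum⟩ := B07_num Cp hCp C
  refine ⟨max N1 N2, ?_⟩
  intro N hN W hW c L hc hL hpv y0 hy1 hy m e b a0 b0 hm1 hm he her hecop hbcop hmN hab hb
  have hN1 : N1 ≤ N := le_trans (le_max_left _ _) hN
  obtain ⟨h2, n1, n2, n3, n4, n5, n6⟩ := hnum N (le_trans (le_max_right _ _) hN)
  have hN0 : (0 : ℝ) < N := by
    have : 0 < N := by omega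
    exact_mod_cast this
  have hNge : (1 : ℝ) ≤ N := by
    have : 1 ≤ N := by omega
    exact_mod_cast this
  have hW1 : 1 ≤ W := Nat.pos_of_dvd_of_pos hW (by omega)
  have hL0 : 0 ≤ L := hL.1
  have hab' : (a0 : ℝ) ≤ b0 := by exact_mod_cast hab
  set P := (range (y0 + 1)).filter (fun p => p.Prime ∧ ¬ p ∣ W * m) with hP
  have hPp : ∀ p ∈ P, p.Prime := fun p hp => (mem_filter.1 hp).2.1
  have hPy : ∀ p ∈ P, p ≤ y0 := fun p hp => by
    have := mem_range.1 (mem_filter.1 hp).1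
    omega
  have hPW : ∀ p ∈ P, ¬ p ∣ W * m := fun p hp => (mem_filter.1 hp).2.2
  set A := (Ioc a0 b0).filter (fun n => n ≡ b [MOD W * m] ∧ e ∣ n) with hA
  have hA0 : ∀ n ∈ A, n ≠ 0 := by
    intro n hn
    have := (mem_Ioc.1 (mem_filter.1 hn).1).1
    omega
  -- the weight on `A`
  have hw : ∑ n ∈ A, w2 y0 c n = ∑ n ∈ A, (if ∀ p ∈ P, ¬ p ∣ n then rr c n else 0) := by
    refine sum_congr rfl fun n hn => ?_
    unfold w2
    have hmod := (mem_filter.1 hn).2.1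
    have hgcd : n.Coprime (W * m) := by
      unfold Nat.Coprime
      rw [hmod.gcd_eq]
      exact hbcop
    have hiff : Rough y0 n ↔ ∀ p ∈ P, ¬ p ∣ n := by
      constructor
      · intro h p hp hpn
        have := h p (hPp p hp) hpn
        have := hPy p hp
        omega
      · intro h p hp hpn
        by_contra hlt
        push Not at hlt
        refine h p ?_ hpn
        rw [hP, mem_filter, mem_range]
        refine ⟨by omega, hp, ?_⟩
        intro hpW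
        have := Nat.dvd_gcd hpn hpW
        rw [hgcd] at this
        exact hp.one_lt.ne' (Nat.dvd_one.1 this)
    by_cases h : Rough y0 n
    · rw [if_pos h, if_pos (hiff.1 h)]
    · rw [if_neg h, if_neg (fun h' => h (hiff.2 h'))]
  rw [hw]
  -- the parameters
  set D0 : ℕ := ⌊(N : ℝ) ^ ((1 : ℝ) / 100)⌋₊ with hD0
  have hD0le : (D0 : ℝ) ≤ (N : ℝ) ^ ((1 : ℝ) / 100) := Nat.floor_le (Real.rpow_nonneg hN0.le _)
  have hD0ge : (N : ℝ) ^ ((1 : ℝ) / 100) / 2 ≤ D0 := by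
    have := Nat.lt_floor_add_one ((N : ℝ) ^ ((1 : ℝ) / 100))
    rw [← hD0] at this
    linarith
  have hD1 : 1 ≤ D0 := by
    have : (1 : ℝ) ≤ D0 := by linarith
    exact_mod_cast this
  set X : ℝ := L * ((b0 : ℝ) - a0) * mt c W m e with hX
  obtain ⟨mt0, mt1⟩ := B07_mt hc (e := e) hW1 hm1
  have hLab : 0 ≤ L * ((b0 : ℝ) - a0) := mul_nonneg hL0 (by linarith)
  have hX0 : 0 ≤ X := mul_nonneg hLab mt0
  have hXle : X ≤ L * ((b0 : ℝ) - a0) := mul_le_of_le_one_right hLab mt1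
  set s : ℝ := 1 / (2 * (Cp : ℝ)) with hs
  have hs0 : 0 < s := by positivity
  set x : ℝ := (N : ℝ) with hx
  have hrk := rankin P hPp y0 D0 hPy hD1 hy1 s hs0
  -- Rankin's bound
  have hRle : (D0 : ℝ) ^ (-s) * Real.exp (2 * (y0 : ℝ) ^ s * (1 + Real.log y0)) ≤
      2 * x ^ (-(1 / (250 * (Cp : ℝ)))) := by
    have hy0r : (1 : ℝ) ≤ y0 := by exact_mod_cast hy1
    have r1 : (D0 : ℝ) ^ (-s) ≤ 2 * x ^ (-(1 / (200 * (Cp : ℝ)))) := by
      calc (D0 : ℝ) ^ (-s) ≤ (x ^ ((1 : ℝ) / 100) / 2) ^ (-s) :=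
            Real.rpow_le_rpow_of_nonpos (by positivity) hD0ge (by linarith)
        _ = (x ^ ((1 : ℝ) / 100)) ^ (-s) / 2 ^ (-s) := Real.div_rpow (by positivity) (by norm_num) _
        _ = x ^ (-(1 / (200 * (Cp : ℝ)))) * 2 ^ s := by
            rw [← Real.rpow_mul hN0.le, Real.rpow_neg (by norm_num : (0 : ℝ) ≤ 2), div_inv_eq_mul]
            congr 2
            rw [hs]
            field_simp
            ring
        _ ≤ x ^ (-(1 / (200 * (Cp : ℝ)))) * 2 := by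
            apply mul_le_mul_of_nonneg_left _ (Real.rpow_nonneg hN0.le _)
            have : s ≤ 1 := by
              rw [hs, div_le_one (by positivity)]
              linarith
            calc (2 : ℝ) ^ s ≤ 2 ^ (1 : ℝ) := Real.rpow_le_rpow_of_exponent_le (by norm_num) this
              _ = 2 := Real.rpow_one _
        _ = _ := by ring
    have r2 : (y0 : ℝ) ^ s ≤ (Real.log x) ^ ((1 : ℝ) / 2) := by
      calc (y0 : ℝ) ^ s ≤ ((Real.log x) ^ Cp) ^ s := Real.rpow_le_rpow (by positivity) hy hs0.le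
        _ = (Real.log x) ^ ((Cp : ℝ) * s) := by
            rw [← Real.rpow_natCast (Real.log x) Cp, ← Real.rpow_mul (by linarith)]
        _ = _ := by
            congr 1
            rw [hs]
            field_simp
    have r3 : Real.log y0 ≤ Cp * Real.log (Real.log x) := by
      have := Real.log_le_log (by linarith) hy
      rwa [Real.log_pow] at this
    have r4 : Real.exp (2 * (y0 : ℝ) ^ s * (1 + Real.log y0)) ≤ x ^ (1 / (1000 * (Cp : ℝ))) := by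
      refine le_trans (Real.exp_le_exp.2 ?_) n6
      have hl0 : 0 ≤ Real.log y0 := Real.log_nonneg hy0r
      apply mul_le_mul (by linarith) (by linarith) (by linarith) (by positivity)
    calc (D0 : ℝ) ^ (-s) * Real.exp (2 * (y0 : ℝ) ^ s * (1 + Real.log y0))
        ≤ (2 * x ^ (-(1 / (200 * (Cp : ℝ))))) * x ^ (1 / (1000 * (Cp : ℝ))) :=
          mul_le_mul r1 r4 (Real.exp_pos _).le (by positivity)
      _ = 2 * x ^ (-(1 / (200 * (Cp : ℝ))) + 1 / (1000 * (Cp : ℝ))) := by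
          rw [Real.rpow_add hN0]
          ring
      _ = 2 * x ^ (-(1 / (250 * (Cp : ℝ)))) := by
          congr 2
          field_simp
          ring
  -- the divisor bound
  set T : ℝ := x ^ (1 / (3000 * (Cp : ℝ))) with hT
  have hT0 : 0 ≤ T := Real.rpow_nonneg hN0.le _
  have hT1 : 1 ≤ T := Real.one_le_rpow hNge (by positivity)
  have hTd : ∀ n ∈ A, (n.divisors.card : ℝ) ≤ T := by
    intro n hn
    have hn1 := mem_Ioc.1 (mem_filter.1 hn).1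
    have hnb : (n : ℝ) ≤ x ^ ((21 : ℝ) / 20) := le_trans (by exact_mod_cast hn1.2) hb
    refine (hdiv n (by omega)).trans (le_trans ?_ n1)
    apply mul_le_mul_of_nonneg_left _ (by linarith)
    exact Real.rpow_le_rpow (Nat.cast_nonneg _) hnb (by positivity)
  -- the law
  have hlw : ∀ d ⊆ P, ∏ p ∈ d, p ≤ D0 * y0 →
      |∑ n ∈ A.filter (fun n => (∏ p ∈ d, p) ∣ n), rr c n - X * ∏ p ∈ d, z0 c p| ≤
        x ^ ((4 : ℝ) / 5) := by
    intro d hd _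
    have hdp : ∀ p ∈ d, p.Prime := fun p hp => hPp p (hd hp)
    have hcop : (∏ p ∈ d, p).Coprime e := by
      refine Nat.Coprime.prod_left fun p hp => ?_
      refine (Nat.Prime.coprime_iff_not_dvd (hdp p hp)).2 fun hpe => ?_
      have h3 := her p (hdp p hp) hpe
      have h4 := hPy p (hd hp)
      omega
    have hcopW : ((∏ p ∈ d, p) * e).Coprime (W * m) := by
      refine Nat.Coprime.mul_left (Nat.Coprime.prod_left fun p hp => ?_) hecop
      exact (Nat.Prime.coprime_iff_not_dvd (hdp p hp)).2 (hPW p (hd hp))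
    have hsq : Squarefree ((∏ p ∈ d, p) * e) := (Nat.squarefree_mul hcop).2 ⟨B07_sqf d hdp, he⟩
    have e1 : A.filter (fun n => (∏ p ∈ d, p) ∣ n) =
        (Ioc a0 b0).filter (fun n => n ≡ b [MOD W * m] ∧ (∏ p ∈ d, p) * e ∣ n) := by
      rw [hA, filter_filter]
      refine filter_congr fun n _ => ?_
      constructor
      · rintro ⟨⟨h3, h4⟩, h5⟩
        exact ⟨h3, hcop.mul_dvd_of_dvd_of_dvd h5 h4⟩
      · rintro ⟨h3, h4⟩
        exact ⟨⟨h3, (dvd_mul_left _ _).trans h4⟩, (dvd_mul_right _ _).trans h4⟩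
    rw [e1, B07_prog _ _ a0 b0 hab]
    have l1 := hlaw N hN1 W hW c L hc hL hpv m ((∏ p ∈ d, p) * e) b b0 hm1 hm hsq hcopW hbcop hmN hb
    have l2 := hlaw N hN1 W hW c L hc hL hpv m ((∏ p ∈ d, p) * e) b a0 hm1 hm hsq hcopW hbcop hmN
      (hab'.trans hb)
    rw [B07_mt_mul c W m e d hdp hcop] at l1 l2
    have e2 : X * ∏ p ∈ d, z0 c p = L * b0 * (mt c W m e * ∏ p ∈ d, z0 c p) -
        L * a0 * (mt c W m e * ∏ p ∈ d, z0 c p) := by
      rw [hX]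
      ring
    rw [e2]
    have a1 := abs_le.1 l1
    have a2 := abs_le.1 l2
    rw [abs_le]
    constructor <;> linarith [a1.1, a1.2, a2.1, a2.2]
  have key := B07_core P hPp y0 D0 hPy hD1 hy1 A hA0 (rr c)
    (fun n _ => Pool.Agent.Lib.RG.rr_nonneg N c hc n) T hT0 hTd X hX0 (z0 c)
    (fun p hp => B07_z0 hc (hPp p hp)) (x ^ ((4 : ℝ) / 5)) (Real.rpow_nonneg hN0.le _) hlw _
    (hrk.trans hRle)
  have e3 : L * ((b0 : ℝ) - a0) * (mt c W m e * ∏ p ∈ P, (1 - z0 c p)) =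
      X * ∏ p ∈ P, (1 - z0 c p) := by
    rw [hX]
    ring
  rw [e3]
  refine key.trans (add_le_add ?_ ?_)
  · -- the relative error
    have f1 : (1 + T) * (X * (2 * x ^ (-(1 / (250 * (Cp : ℝ)))))) ≤
        (2 * T) * ((L * ((b0 : ℝ) - a0)) * (2 * x ^ (-(1 / (250 * (Cp : ℝ)))))) := by
      apply mul_le_mul (by linarith) _ (by positivity) (by linarith)
      exact mul_le_mul_of_nonneg_right hXle (by positivity)
    refine f1.trans ?_
    have f2 : 4 * (T * x ^ (-(1 / (250 * (Cp : ℝ))))) ≤ x ^ (-(1 / (400 * (Cp : ℝ)))) := by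
      calc 4 * (T * x ^ (-(1 / (250 * (Cp : ℝ)))))
          ≤ x ^ (1 / (1000 * (Cp : ℝ))) * (T * x ^ (-(1 / (250 * (Cp : ℝ))))) :=
            mul_le_mul_of_nonneg_right n2 (by positivity)
        _ = x ^ (1 / (1000 * (Cp : ℝ)) + (1 / (3000 * (Cp : ℝ)) + -(1 / (250 * (Cp : ℝ))))) := by
            rw [Real.rpow_add hN0, Real.rpow_add hN0]
        _ ≤ x ^ (-(1 / (400 * (Cp : ℝ)))) := by
            apply Real.rpow_le_rpow_of_exponent_le hNge
            have g1 : 1 / (1000 * (Cp : ℝ)) + (1 / (3000 * (Cp : ℝ)) + -(1 / (250 * (Cp : ℝ)))) =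
                (1 / 1000 + 1 / 3000 - 1 / 250) * (1 / Cp) := by
              field_simp
              ring
            have g2 : -(1 / (400 * (Cp : ℝ))) = (-(1 / 400)) * (1 / Cp) := by
              field_simp
            rw [g1, g2]
            apply mul_le_mul_of_nonneg_right _ (by positivity)
            norm_num
    calc (2 * T) * ((L * ((b0 : ℝ) - a0)) * (2 * x ^ (-(1 / (250 * (Cp : ℝ))))))
        = (4 * (T * x ^ (-(1 / (250 * (Cp : ℝ)))))) * (L * ((b0 : ℝ) - a0)) := by ring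
      _ ≤ _ := mul_le_mul_of_nonneg_right f2 hLab
  · -- the absolute error
    have hy' : (y0 : ℝ) ≤ x ^ ((1 : ℝ) / 1000) := hy.trans n3
    have hT' : T ≤ x ^ ((1 : ℝ) / 3000) := by
      apply Real.rpow_le_rpow_of_exponent_le hNge
      apply one_div_le_one_div_of_le (by norm_num)
      linarith
    push_cast
    calc (1 + T) * ((D0 : ℝ) * y0 * x ^ ((4 : ℝ) / 5))
        ≤ (x ^ ((1 : ℝ) / 100) * x ^ ((1 : ℝ) / 3000)) *
          (x ^ ((1 : ℝ) / 100) * x ^ ((1 : ℝ) / 1000) * x ^ ((4 : ℝ) / 5)) := by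
          have g1 : 1 + T ≤ x ^ ((1 : ℝ) / 100) * x ^ ((1 : ℝ) / 3000) := by
            have : 4 * T ≤ x ^ ((1 : ℝ) / 100) * x ^ ((1 : ℝ) / 3000) :=
              mul_le_mul n4 hT' hT0 (by positivity)
            linarith
          apply mul_le_mul g1 _ (by positivity) (by positivity)
          apply mul_le_mul_of_nonneg_right _ (by positivity)
          exact mul_le_mul hD0le hy' (by positivity) (by positivity)
      _ = x ^ ((1 : ℝ) / 100 + 1 / 3000 + (1 / 100 + 1 / 1000 + 4 / 5)) := by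
          rw [Real.rpow_add hN0, Real.rpow_add hN0, Real.rpow_add hN0, Real.rpow_add hN0]
      _ ≤ x ^ ((5 : ℝ) / 6) := Real.rpow_le_rpow_of_exponent_le hNge (by norm_num)

end Pool.Agent.Lib.TCB
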