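import Pool.Agent.Lib.MP_7b7e48_nt.BR.B07

/-!
# Module B08 (90 minutes): the weights of type 2

`V2 y0 c = ∏_{p ≤ y0} (1 - z0 c p)`, `1 - z0 c p = (1 - 1/p)(1 - c p/p)`. PROOF. `L_pos`: `0 < L` and every factor is `≥ (1 - 1/p)^2 > 0`. `g_nonneg`: `p ≤ y0`: `1/(p-1) - 1/p = 1/(p(p-1)) ≤ 2/p^2`; else `|c p| ≤ 1`. `nonneg`: `rr c n ≥ 0` (`RG` has it; `rr c` is multiplicative with values
`1 + c p + .. + c p^k ≥ 0`). `eq`: `q2` coprime to `N`, `r` coprime to `qW q2`. Split the sum over the unit classes `b` modulo `W0` with `b ≡ r (qW)` (`w2 ≠ 0` implies `n` rough, so `n` is coprime to `W0`: all primes of `W0` are `≤ y0`), combine with `n ≡ r (q2)` by the Chinese remainder theorem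
(`(W0, q2) = 1` because `W0 ∣ N`) to one unit class modulo `W0 q2`, and use `rough_law` with `m = q2`, `e = 1`. There are `φ(W0)/φ(qW)` classes. Main term of one class: `L (b - a) ∏_{p ∣ q2} (1 - c p/p)/(W0 q2) ∏_{p ≤ y0, p ∤ W0 q2} (1 - z0 c p)`. Since `c p = 0` for `p ∣ W0`, `∏_{p ∣ W0} (1 - z0 c p) = φ(W0)/W0`
and for `p ∣ q2`, `p ≤ y0`: `(1 - c p/p) = (1 - z0 c p) p/(p-1)`. So the sum over the classes is `L (b - a) V2 y0 c * (1/φ(qW)) * (1/q2) ∏_{p ∣ q2, p ≤ y0} p/(p-1) ∏_{p ∣ q2, p > y0} (1 - c p/p) = L (b - a) V2 y0 c * dq (g2 y0 c) (qW q2)` (`∏_{p ∣ qW} p g2(p) / qW = 1/φ(qW)`).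
Error: `≤ W0 (N ^ (-1/(400 Cp)) L (b - a) + N ^ (5/6)) ≤ N ^ (-1/(500 Cp)) (L V2 (b - a))` because `V2 ≥ (∏_{p ≤ y0} (1 - 1/p))^2 ≥ 1/(y0+1)^2` (`1 - 1/p ≥ 1 - 1/n`, product over all `2 ≤ n ≤ y0` telescopes to `1/y0`) and `L (b - a) ≥ N ^ (9/10 - 1/200)`.
`eq0`: the same with `e = p` : `mt c W0 q2 p = mt c W0 q2 1 * z0 c p`, `z0 c p ≤ 2/p`. (`p` large, `p > N` say: allowed, `rough_law` has no condition on the size of `e`.)
-/

set_option autoImplicit false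

open Finset

namespace Pool.Agent.Lib.TCB

open Pool.Agent.Lib.RG (RC LV rr PB Rough)

private theorem B08_abs {N : ℕ} {c : ℕ → ℝ} (hc : RC N c) (n : ℕ) : |c n| ≤ 1 := by
  by_cases h : n.Coprime N
  · rcases hc.val n h with h1 | h1 <;> rw [h1] <;> norm_num
  · rw [hc.zero n h]
    norm_num

private theorem B08_one_sub {c : ℕ → ℝ} {p : ℕ} (hp : p.Prime) :
    1 - z0 c p = (1 - 1 / (p : ℝ)) * (1 - c p / p) := by
  have h : (p : ℝ) ≠ 0 := Nat.cast_ne_zero.2 hp.ne_zero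
  unfold z0
  field_simp
  ring

private theorem B08_sq_le {N : ℕ} {c : ℕ → ℝ} (hc : RC N c) {p : ℕ} (hp : p.Prime) :
    (1 - 1 / (p : ℝ)) ^ 2 ≤ 1 - z0 c p := by
  have h2 : (2 : ℝ) ≤ p := by exact_mod_cast hp.two_le
  have h0 : (0 : ℝ) < p := by linarith
  have h3 : c p / p ≤ 1 / (p : ℝ) :=
    div_le_div_of_nonneg_right ((le_abs_self _).trans (B08_abs hc p)) h0.le
  have h4 : 1 / (p : ℝ) ≤ 1 := by
    rw [div_le_one h0]
    linarith
  rw [B08_one_sub hp, sq]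
  exact mul_le_mul_of_nonneg_left (by linarith) (by linarith)

private theorem B08_pos {N : ℕ} {c : ℕ → ℝ} (hc : RC N c) {p : ℕ} (hp : p.Prime) :
    0 < 1 - z0 c p := by
  have h2 : (2 : ℝ) ≤ p := by exact_mod_cast hp.two_le
  have h4 : 1 / (p : ℝ) ≤ 1 / 2 := one_div_le_one_div_of_le (by norm_num) h2
  have h5 : 0 < (1 - 1 / (p : ℝ)) ^ 2 := by
    have : 0 < 1 - 1 / (p : ℝ) := by linarith
    positivity
  exact lt_of_lt_of_le h5 (B08_sq_le hc hp)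

private theorem B08_V2_pos {N : ℕ} {c : ℕ → ℝ} (hc : RC N c) (y : ℕ) : 0 < V2 y c := by
  unfold V2
  exact Finset.prod_pos fun p hp => B08_pos hc (mem_filter.1 hp).2

private theorem B08_V2 {N : ℕ} {c : ℕ → ℝ} (hc : RC N c) (y : ℕ) :
    1 / ((y : ℝ) + 1) ^ 2 ≤ V2 (y + 1) c := by
  induction y with
  | zero =>
    have h : (range (0 + 1 + 1)).filter (fun p => p.Prime) = ∅ := by
      rw [Finset.filter_eq_empty_iff]
      intro p hp h1
      have h2 := h1.two_le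
      rw [mem_range] at hp
      omega
    unfold V2
    rw [h, Finset.prod_empty]
    norm_num
  | succ y ih =>
    have hy : (0 : ℝ) ≤ y := Nat.cast_nonneg y
    have e1 : ((y + 1 : ℕ) : ℝ) = (y : ℝ) + 1 := by push_cast; ring
    have e2 : ((y + 1 + 1 : ℕ) : ℝ) = (y : ℝ) + 2 := by push_cast; ring
    have h0 : V2 (y + 1 + 1) c = (if (y + 1 + 1).Prime then 1 - z0 c (y + 1 + 1) else 1) *
        V2 (y + 1) c := by
      unfold V2
      rw [Finset.range_add_one (n := y + 1 + 1), Finset.filter_insert]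
      split_ifs with hp
      · rw [Finset.prod_insert]
        intro h1
        rw [mem_filter, mem_range] at h1
        omega
      · rw [one_mul]
    have h1 : (1 - 1 / ((y : ℝ) + 2)) ^ 2 ≤
        (if (y + 1 + 1).Prime then 1 - z0 c (y + 1 + 1) else 1) := by
      split_ifs with hp
      · have h2 := B08_sq_le hc hp
        rwa [e2] at h2
      · have h3 : 1 / ((y : ℝ) + 2) ≤ 1 := by
          rw [div_le_one (by linarith)]
          linarith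
        have h4 : 0 ≤ 1 / ((y : ℝ) + 2) := by positivity
        nlinarith
    rw [h0, e1]
    have h5 : 1 / ((y : ℝ) + 1 + 1) ^ 2 = (1 - 1 / ((y : ℝ) + 2)) ^ 2 * (1 / ((y : ℝ) + 1) ^ 2) := by
      have h6 : (y : ℝ) + 1 ≠ 0 := by positivity
      have h7 : (y : ℝ) + 2 ≠ 0 := by positivity
      have h8 : (y : ℝ) + 1 + 1 = y + 2 := by ring
      rw [h8]
      field_simp
      ring
    rw [h5]
    exact mul_le_mul h1 ih (by positivity) ((sq_nonneg _).trans h1)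

private theorem B08_tot (n : ℕ) :
    (Nat.totient n : ℝ) = n * ∏ p ∈ n.primeFactors, (1 - 1 / (p : ℝ)) := by
  have h := congrArg (fun x : ℚ => (x : ℝ)) (Nat.totient_eq_mul_prod_factors n)
  simp only [one_div]
  push_cast at h
  exact h

private theorem B08_main {N W0 : ℕ} (hW0 : Squarefree W0) (hWN : W0 ∣ N)
    {c : ℕ → ℝ} (hc : RC N c) {y0 : ℕ} (hy : ∀ p ∈ W0.primeFactors, p ≤ y0)
    {qW W1 q2 : ℕ} (hq : W0 = qW * W1) (hcop : qW.Coprime W1) (hq2 : 0 < q2)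
    (hq2N : q2.Coprime N) :
    (Nat.totient W1 : ℝ) * ((∏ p ∈ q2.primeFactors, (1 - c p / p)) / ((W0 : ℝ) * q2)) *
      ∏ p ∈ (range (y0 + 1)).filter (fun p => p.Prime ∧ ¬ p ∣ W0 * q2), (1 - z0 c p) =
      V2 y0 c * dq (g2 y0 c) (qW * q2) := by
  have hW0n : W0 ≠ 0 := hW0.ne_zero
  have hqWn : qW ≠ 0 := by
    rintro rfl
    rw [zero_mul] at hq
    exact hW0n hq
  have hW1n : W1 ≠ 0 := by
    rintro rfl
    rw [mul_zero] at hq
    exact hW0n hq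
  have hqWW : qW ∣ W0 := ⟨W1, hq⟩
  have hco0 : W0.Coprime q2 := (Nat.Coprime.coprime_dvd_right hWN hq2N).symm
  have hcoq : qW.Coprime q2 := Nat.Coprime.coprime_dvd_left hqWW hco0
  -- the split of V2
  obtain ⟨R, hR⟩ : ∃ R : ℝ, R = ∏ p ∈ (range (y0 + 1)).filter
    (fun p => p.Prime ∧ ¬ p ∣ W0 * q2), (1 - z0 c p) := ⟨_, rfl⟩
  obtain ⟨I, hI⟩ : ∃ I : ℝ, I = ∏ p ∈ q2.primeFactors, (if p ≤ y0 then 1 - z0 c p else 1) :=
    ⟨_, rfl⟩
  obtain ⟨G, hG⟩ : ∃ G : ℝ, G = ∏ p ∈ q2.primeFactors, ((p : ℝ) * g2 y0 c p) := ⟨_, rfl⟩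
  obtain ⟨H, hH⟩ : ∃ H : ℝ, H = ∏ p ∈ qW.primeFactors, ((p : ℝ) * g2 y0 c p) := ⟨_, rfl⟩
  obtain ⟨C, hC⟩ : ∃ C : ℝ, C = ∏ p ∈ q2.primeFactors, (1 - c p / p) := ⟨_, rfl⟩
  obtain ⟨T, hT⟩ : ∃ T : ℝ, T = ∏ p ∈ W0.primeFactors, (1 - z0 c p) := ⟨_, rfl⟩
  have hV : V2 y0 c = T * I * R := by
    have h1 : ((range (y0 + 1)).filter (fun p => p.Prime)).filter (fun p => p ∣ W0 * q2) =
        W0.primeFactors ∪ q2.primeFactors.filter (fun p => p ≤ y0) := by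
      ext p
      simp only [mem_filter, mem_range, mem_union, Nat.mem_primeFactors]
      constructor
      · rintro ⟨⟨h2, h3⟩, h4⟩
        rcases h3.dvd_mul.1 h4 with h5 | h5
        · exact Or.inl ⟨h3, h5, hW0n⟩
        · exact Or.inr ⟨⟨h3, h5, hq2.ne'⟩, by omega⟩
      · rintro (⟨h3, h5, -⟩ | ⟨⟨h3, h5, -⟩, h6⟩)
        · have h7 := hy p (Nat.mem_primeFactors.2 ⟨h3, h5, hW0n⟩)
          exact ⟨⟨by omega, h3⟩, h5.mul_right _⟩
        · exact ⟨⟨by omega, h3⟩, h5.mul_left _⟩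
    have h2 : ((range (y0 + 1)).filter (fun p => p.Prime)).filter (fun p => ¬ p ∣ W0 * q2) =
        (range (y0 + 1)).filter (fun p => p.Prime ∧ ¬ p ∣ W0 * q2) := by
      rw [Finset.filter_filter]
    have h3 : Disjoint W0.primeFactors (q2.primeFactors.filter (fun p => p ≤ y0)) :=
      Finset.disjoint_of_subset_right (Finset.filter_subset _ _)
        (Nat.Coprime.disjoint_primeFactors hco0)
    unfold V2
    rw [← Finset.prod_filter_mul_prod_filter_not _ (fun p => p ∣ W0 * q2), h1, h2,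
      Finset.prod_union h3, ← hR, ← hT, hI, Finset.prod_filter]
  have hTe : T * W0 = (Nat.totient W0 : ℝ) := by
    rw [hT, B08_tot, mul_comm]
    refine congrArg _ (Finset.prod_congr rfl fun p hp => ?_)
    rw [Nat.mem_primeFactors] at hp
    rw [B08_one_sub hp.1, hc.zero p, zero_div, sub_zero, mul_one]
    intro h1
    have h2 : p ∣ N := hp.2.1.trans hWN
    have h3 := Nat.Coprime.eq_one_of_dvd h1 h2
    exact hp.1.one_lt.ne' h3
  have hHe : H * (Nat.totient qW : ℝ) = qW := by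
    have h1 : H * ∏ p ∈ qW.primeFactors, (1 - 1 / (p : ℝ)) = 1 := by
      rw [hH, ← Finset.prod_mul_distrib]
      refine Finset.prod_eq_one fun p hp => ?_
      rw [Nat.mem_primeFactors] at hp
      have h2 : p ≤ y0 := hy p (Nat.mem_primeFactors.2 ⟨hp.1, hp.2.1.trans hqWW, hW0n⟩)
      unfold g2
      rw [if_pos h2]
      have h3 : (2 : ℝ) ≤ p := by exact_mod_cast hp.1.two_le
      have h4 : (p : ℝ) - 1 ≠ 0 := by
        intro h5
        linarith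
      have h5 : (p : ℝ) ≠ 0 := by
        intro h5
        linarith
      field_simp
    rw [B08_tot]
    linear_combination (qW : ℝ) * h1
  have hIG : I * G = C := by
    rw [hI, hG, hC, ← Finset.prod_mul_distrib]
    refine Finset.prod_congr rfl fun p hp => ?_
    rw [Nat.mem_primeFactors] at hp
    have h3 : (2 : ℝ) ≤ p := by exact_mod_cast hp.1.two_le
    have h4 : (p : ℝ) - 1 ≠ 0 := by
      intro h5
      linarith
    have h5 : (p : ℝ) ≠ 0 := by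
      intro h5
      linarith
    unfold g2
    split_ifs with h6
    · rw [B08_one_sub hp.1]
      field_simp
    · field_simp
  have hdq : dq (g2 y0 c) (qW * q2) = H * G / ((qW : ℝ) * q2) := by
    unfold dq
    rw [Nat.Coprime.primeFactors_mul hcoq,
      Finset.prod_union (Nat.Coprime.disjoint_primeFactors hcoq), ← hH, ← hG, Nat.cast_mul]
  have htot : (Nat.totient W0 : ℝ) = Nat.totient qW * Nat.totient W1 := by
    rw [hq, Nat.totient_mul hcop, Nat.cast_mul]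
  have hWr : (W0 : ℝ) ≠ 0 := Nat.cast_ne_zero.2 hW0n
  have hqr : (qW : ℝ) ≠ 0 := Nat.cast_ne_zero.2 hqWn
  have hq2r : (q2 : ℝ) ≠ 0 := Nat.cast_ne_zero.2 hq2.ne'
  rw [← hR, ← hC, hV, hdq, ← hIG]
  have h1 : T = Nat.totient qW * Nat.totient W1 / W0 := by
    rw [← htot, ← hTe]
    field_simp
  rw [h1]
  have h2 : (Nat.totient qW : ℝ) * Nat.totient W1 / W0 * I * R * (H * G / ((qW : ℝ) * q2)) =
      (H * Nat.totient qW) * (Nat.totient W1 / W0 * I * R * G / ((qW : ℝ) * q2)) := by ring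
  rw [h2, hHe]
  field_simp

private theorem B08_card {qW W1 r : ℕ} (h1 : 0 < qW) (h2 : 0 < W1) (hcop : qW.Coprime W1)
    (hr : r.Coprime qW) :
    ((range (qW * W1)).filter (fun u => u.Coprime (qW * W1) ∧ u ≡ r [MOD qW])).card =
      Nat.totient W1 := by
  rw [Nat.totient_eq_card_coprime]
  refine Finset.card_bij (fun u _ => u % W1) ?_ ?_ ?_
  · intro u hu
    rw [mem_filter, mem_range] at hu ⊢
    refine ⟨Nat.mod_lt _ h2, ?_⟩
    have h3 : u.Coprime W1 := Nat.Coprime.coprime_dvd_right (Dvd.intro_left _ rfl) hu.2.1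
    rw [Nat.coprime_iff_gcd_eq_one] at h3 ⊢
    rw [← h3, Nat.gcd_comm]
    exact (Nat.mod_modEq u W1).gcd_eq
  · intro u hu v hv h
    rw [mem_filter, mem_range] at hu hv
    have h3 : u ≡ v [MOD qW] := hu.2.2.trans hv.2.2.symm
    have h4 : u ≡ v [MOD qW * W1] := (Nat.modEq_and_modEq_iff_modEq_mul hcop).1 ⟨h3, h⟩
    exact Nat.ModEq.eq_of_lt_of_lt h4 hu.1 hv.1
  · intro v hv
    rw [mem_filter, mem_range] at hv
    have hk := (Nat.chineseRemainder hcop r v).2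
    have hl := Nat.chineseRemainder_lt_mul hcop r v h1.ne' h2.ne'
    refine ⟨(Nat.chineseRemainder hcop r v : ℕ), ?_, ?_⟩
    · rw [mem_filter, mem_range]
      refine ⟨hl, Nat.Coprime.mul_right ?_ ?_, hk.1⟩
      · rw [Nat.coprime_iff_gcd_eq_one, hk.1.gcd_eq]
        exact hr
      · rw [Nat.coprime_iff_gcd_eq_one, hk.2.gcd_eq, Nat.gcd_comm]
        exact hv.2
    · have h3 : (Nat.chineseRemainder hcop r v : ℕ) % W1 = v % W1 := hk.2
      rw [Nat.mod_eq_of_lt hv.1] at h3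
      exact h3

private theorem B08_split {W0 qW q2 r e y0 : ℕ} {c : ℕ → ℝ} (hW0n : W0 ≠ 0)
    (hqW : qW ∣ W0) (hcoq : qW.Coprime q2) (hco0 : W0.Coprime q2)
    (hy : ∀ p ∈ W0.primeFactors, p ≤ y0) (a b : ℕ) :
    ∑ n ∈ (Ioc a b).filter (fun n => n ≡ r [MOD qW * q2] ∧ e ∣ n), w2 y0 c n =
      ∑ u ∈ (range W0).filter (fun u => u.Coprime W0 ∧ u ≡ r [MOD qW]),
        ∑ n ∈ (Ioc a b).filter (fun n => n ≡ (Nat.chineseRemainder hco0 u r : ℕ) [MOD W0 * q2] ∧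
          e ∣ n), w2 y0 c n := by
  have h1 : ∑ n ∈ (Ioc a b).filter (fun n => n ≡ r [MOD qW * q2] ∧ e ∣ n), w2 y0 c n =
      ∑ n ∈ (Ioc a b).filter (fun n => (n ≡ r [MOD qW * q2] ∧ e ∣ n) ∧ n.Coprime W0),
        w2 y0 c n := by
    refine (Finset.sum_subset ?_ fun n hn hn' => ?_).symm
    · intro n hn
      rw [mem_filter] at hn ⊢
      exact ⟨hn.1, hn.2.1⟩
    rw [mem_filter] at hn
    by_contra h2
    refine hn' (mem_filter.2 ⟨hn.1, hn.2, ?_⟩)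
    have h3 : Rough y0 n := by
      by_contra h3
      refine h2 ?_
      unfold w2
      rw [if_neg h3]
    refine Nat.Coprime.symm (Nat.coprime_of_dvd fun p hp hp1 hp2 => ?_)
    have h4 := h3 p hp hp2
    have h5 := hy p (Nat.mem_primeFactors.2 ⟨hp, hp1, hW0n⟩)
    omega
  rw [h1, ← Finset.sum_fiberwise_of_maps_to (g := fun n => n % W0)
    (t := (range W0).filter (fun u => u.Coprime W0 ∧ u ≡ r [MOD qW]))]
  · refine Finset.sum_congr rfl fun u hu => ?_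
    rw [mem_filter, mem_range] at hu
    have hk := (Nat.chineseRemainder hco0 u r).2
    refine Finset.sum_congr ?_ fun _ _ => rfl
    ext n
    simp only [mem_filter]
    constructor
    · rintro ⟨⟨h2, ⟨h3, h4⟩, h5⟩, h6⟩
      refine ⟨h2, (Nat.modEq_and_modEq_iff_modEq_mul hco0).1 ⟨?_, ?_⟩, h4⟩
      · have h7 : n ≡ u [MOD W0] := by
          unfold Nat.ModEq
          rw [h6, Nat.mod_eq_of_lt hu.1]
        exact h7.trans hk.1.symm
      · have h7 : n ≡ r [MOD q2] := h3.of_mul_left _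
        exact h7.trans hk.2.symm
    · rintro ⟨h2, h3, h4⟩
      have h5 : n ≡ u [MOD W0] := (Nat.ModEq.of_mul_right _ h3).trans hk.1
      have h6 : n ≡ r [MOD q2] := (Nat.ModEq.of_mul_left _ h3).trans hk.2
      refine ⟨⟨h2, ⟨(Nat.modEq_and_modEq_iff_modEq_mul hcoq).1 ⟨?_, h6⟩, h4⟩, ?_⟩, ?_⟩
      · exact (h5.of_dvd hqW).trans hu.2.2
      · rw [Nat.coprime_iff_gcd_eq_one, h5.gcd_eq]
        exact hu.2.1
      · unfold Nat.ModEq at h5
        rw [h5, Nat.mod_eq_of_lt hu.1]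
  · intro n hn
    rw [mem_filter] at hn
    obtain ⟨h2, ⟨h3, h4⟩, h5⟩ := hn
    rw [mem_filter, mem_range]
    have h6 : n % W0 ≡ n [MOD W0] := Nat.mod_modEq n W0
    refine ⟨Nat.mod_lt _ (Nat.pos_of_ne_zero hW0n), ?_, ?_⟩
    · rw [Nat.coprime_iff_gcd_eq_one, h6.gcd_eq]
      exact h5
    · exact (h6.of_dvd hqW).trans (Nat.ModEq.of_mul_right _ h3)

private theorem B08_large (Cp W0 : ℕ) (hCp : 1 ≤ Cp) : ∃ N0 : ℕ, ∀ N : ℕ, N0 ≤ N →
    2 * (W0 : ℝ) * (Real.log N) ^ (2 * Cp) ≤ (N : ℝ) ^ ((1 : ℝ) / (2000 * Cp)) := by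
  have hC : (0 : ℝ) < 2000 * (Cp : ℝ) := by
    have : (1 : ℝ) ≤ Cp := by exact_mod_cast hCp
    linarith
  have h1 := isLittleO_log_rpow_rpow_atTop (s := (1 : ℝ) / (2000 * Cp)) ((2 * Cp : ℕ) : ℝ)
    (by positivity)
  have h2 := h1.def (show (0 : ℝ) < 1 / (2 * W0 + 1) by positivity)
  have h3 := tendsto_natCast_atTop_atTop.eventually h2
  obtain ⟨N0, hN0⟩ := Filter.eventually_atTop.1 h3
  refine ⟨max N0 1, fun N hN => ?_⟩
  have h4 := hN0 N ((le_max_left _ _).trans hN)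
  have hN1 : (1 : ℝ) ≤ N := by exact_mod_cast (le_max_right N0 1).trans hN
  have hl : 0 ≤ Real.log N := Real.log_nonneg hN1
  rw [Real.rpow_natCast, Real.norm_of_nonneg (by positivity),
    Real.norm_of_nonneg (by positivity)] at h4
  have hx : 0 ≤ (N : ℝ) ^ ((1 : ℝ) / (2000 * Cp)) := by positivity
  have hW : (0 : ℝ) ≤ W0 := Nat.cast_nonneg _
  have h5 : (2 * (W0 : ℝ) + 1) * (Real.log N) ^ (2 * Cp) ≤ (N : ℝ) ^ ((1 : ℝ) / (2000 * Cp)) := by
    calc (2 * (W0 : ℝ) + 1) * (Real.log N) ^ (2 * Cp)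
        ≤ (2 * (W0 : ℝ) + 1) * (1 / (2 * W0 + 1) * (N : ℝ) ^ ((1 : ℝ) / (2000 * Cp))) :=
          mul_le_mul_of_nonneg_left h4 (by positivity)
      _ = (N : ℝ) ^ ((1 : ℝ) / (2000 * Cp)) := by
          have : 2 * (W0 : ℝ) + 1 ≠ 0 := by positivity
          field_simp
  have h6 : 0 ≤ (Real.log N) ^ (2 * Cp) := by positivity
  nlinarith

private theorem B08_core (Cp W0 : ℕ) (hCp : 1 ≤ Cp) (hW0 : Squarefree W0) : ∃ N0 : ℕ,
    ∀ N : ℕ, N0 ≤ N → W0 ∣ N → ∀ (c : ℕ → ℝ) (L : ℝ), RC N c →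
    LV N c L → PVW N W0 c → (N : ℝ) ^ (-(1 / 200) : ℝ) ≤ L → ∀ y0 : ℕ,
    (∀ p ∈ W0.primeFactors, p ≤ y0) → 1 ≤ y0 → (y0 : ℝ) ≤ (Real.log N) ^ Cp →
    ∀ a b : ℕ, a ≤ b → (b : ℝ) ≤ (N : ℝ) ^ ((21 : ℝ) / 20) →
    (N : ℝ) ^ ((9 : ℝ) / 10) ≤ (b : ℝ) - a → ∀ qW q2 r e : ℕ, qW ∣ W0 → 0 < q2 → q2.Coprime N →
    ((qW * q2 : ℕ) : ℝ) ≤ (N : ℝ) ^ ((1 : ℝ) / 200) → r.Coprime (qW * q2) → Squarefree e →
    Rough y0 e → e.Coprime q2 →
    |∑ n ∈ (Ioc a b).filter (fun n => n ≡ r [MOD qW * q2] ∧ e ∣ n), w2 y0 c n -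
      L * V2 y0 c * ((b : ℝ) - a) * dq (g2 y0 c) (qW * q2) * ∏ p ∈ e.primeFactors, z0 c p| ≤
      (N : ℝ) ^ (-(1 / (500 * (Cp : ℝ)))) * (L * V2 y0 c * ((b : ℝ) - a)) := by
  obtain ⟨N1, hN1⟩ := rough_law Cp hCp
  obtain ⟨N2, hN2⟩ := B08_large Cp W0 hCp
  refine ⟨max (max N1 N2) 2, ?_⟩
  intro N hN hWN c L hc hL hpv hLl y0 hy hy1 hyC a b hab hb hlen qW q2 r e hqW hq2 hq2N hqq hr
    he her heq
  have hNN1 : N1 ≤ N := ((le_max_left _ _).trans (le_max_left _ _)).trans hN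
  have hNN2 : N2 ≤ N := ((le_max_right _ _).trans (le_max_left _ _)).trans hN
  have hN2' : 2 ≤ N := (le_max_right _ _).trans hN
  have hNr : (1 : ℝ) ≤ N := by exact_mod_cast (by omega : 1 ≤ N)
  have hN0 : (0 : ℝ) < N := by linarith
  have hW0n : W0 ≠ 0 := hW0.ne_zero
  obtain ⟨W1, hW1⟩ := hqW
  have hqW : qW ∣ W0 := ⟨W1, hW1⟩
  have hqWn : 0 < qW := Nat.pos_of_ne_zero (by
    rintro rfl
    rw [zero_mul] at hW1
    exact hW0n hW1)
  have hW1n : 0 < W1 := Nat.pos_of_ne_zero (by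
    rintro rfl
    rw [mul_zero] at hW1
    exact hW0n hW1)
  have hcop : qW.Coprime W1 := by
    rw [hW1] at hW0
    exact Nat.coprime_of_squarefree_mul hW0
  have hco0 : W0.Coprime q2 := (Nat.Coprime.coprime_dvd_right hWN hq2N).symm
  have hcoq : qW.Coprime q2 := Nat.Coprime.coprime_dvd_left hqW hco0
  have hq2le : q2 ≤ N := by
    have h1 : (q2 : ℝ) ≤ N := by
      calc (q2 : ℝ) ≤ ((qW * q2 : ℕ) : ℝ) := by
            exact_mod_cast Nat.le_mul_of_pos_left q2 hqWn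
        _ ≤ (N : ℝ) ^ ((1 : ℝ) / 200) := hqq
        _ ≤ (N : ℝ) ^ (1 : ℝ) := Real.rpow_le_rpow_of_exponent_le hNr (by norm_num)
        _ = N := Real.rpow_one _
    exact_mod_cast h1
  have heW : e.Coprime (W0 * q2) := by
    refine Nat.Coprime.mul_right ?_ heq
    refine Nat.coprime_of_dvd fun p hp hp1 hp2 => ?_
    have h4 := her p hp hp1
    have h5 := hy p (Nat.mem_primeFactors.2 ⟨hp, hp2, hW0n⟩)
    omega
  obtain ⟨U, hU⟩ : ∃ U : Finset ℕ, U = (range W0).filter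
    (fun u => u.Coprime W0 ∧ u ≡ r [MOD qW]) := ⟨_, rfl⟩
  have hUc : (U.card : ℝ) = Nat.totient W1 := by
    have h1 := B08_card hqWn hW1n hcop
      (Nat.Coprime.coprime_dvd_right (Dvd.intro _ rfl) hr : r.Coprime qW)
    rw [← hW1] at h1
    rw [hU, h1]
  have hUW : (U.card : ℝ) ≤ W0 := by
    have h1 : U.card ≤ W0 := by
      rw [hU]
      have h2 := Finset.card_filter_le (range W0) (fun u => u.Coprime W0 ∧ u ≡ r [MOD qW])
      rwa [Finset.card_range] at h2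
    exact_mod_cast h1
  rw [B08_split hW0n hqW hcoq hco0 hy a b, ← hU]
  -- main term
  have hP := B08_main hW0 hWN hc hy hW1 hcop hq2 hq2N
  have hmain : L * V2 y0 c * ((b : ℝ) - a) * dq (g2 y0 c) (qW * q2) *
      ∏ p ∈ e.primeFactors, z0 c p = ∑ u ∈ U, L * ((b : ℝ) - a) * (mt c W0 q2 e *
        ∏ p ∈ (range (y0 + 1)).filter (fun p => p.Prime ∧ ¬ p ∣ W0 * q2), (1 - z0 c p)) := by
    rw [Finset.sum_const, nsmul_eq_mul, hUc]
    unfold mt
    linear_combination (-(L * ((b : ℝ) - a) * ∏ p ∈ e.primeFactors, z0 c p)) * hP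
  rw [hmain, ← Finset.sum_sub_distrib]
  refine (Finset.abs_sum_le_sum_abs _ _).trans ?_
  have hLpos : 0 < L := lt_of_lt_of_le (by positivity) hLl
  have hba : 0 < (b : ℝ) - a := lt_of_lt_of_le (by positivity) hlen
  have hLba : 0 < L * ((b : ℝ) - a) := mul_pos hLpos hba
  have hterm : ∀ u ∈ U, |∑ n ∈ (Ioc a b).filter
      (fun n => n ≡ (Nat.chineseRemainder hco0 u r : ℕ) [MOD W0 * q2] ∧ e ∣ n), w2 y0 c n -
      L * ((b : ℝ) - a) * (mt c W0 q2 e *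
        ∏ p ∈ (range (y0 + 1)).filter (fun p => p.Prime ∧ ¬ p ∣ W0 * q2), (1 - z0 c p))| ≤
      (N : ℝ) ^ (-(1 / (400 * (Cp : ℝ)))) * (L * ((b : ℝ) - a)) + (N : ℝ) ^ ((5 : ℝ) / 6) := by
    intro u hu
    rw [hU, mem_filter, mem_range] at hu
    have hk := (Nat.chineseRemainder hco0 u r).2
    refine hN1 N hNN1 W0 hWN c L hc hL hpv y0 hy1 hyC q2 e _ a b hq2 hq2N he her heW ?_ hq2le
      hab hb
    refine Nat.Coprime.mul_right ?_ ?_
    · rw [Nat.coprime_iff_gcd_eq_one, hk.1.gcd_eq]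
      exact hu.2.1
    · rw [Nat.coprime_iff_gcd_eq_one, hk.2.gcd_eq]
      exact Nat.Coprime.coprime_dvd_right (Dvd.intro_left _ rfl) hr
  refine (Finset.sum_le_sum hterm).trans ?_
  rw [Finset.sum_const, nsmul_eq_mul]
  -- sizes
  have hCp1 : (1 : ℝ) ≤ Cp := by exact_mod_cast hCp
  have hCp0 : (Cp : ℝ) ≠ 0 := by positivity
  have hlog : 0 ≤ Real.log N := Real.log_nonneg hNr
  have hy1r : (1 : ℝ) ≤ y0 := by exact_mod_cast hy1
  have hV : 1 / (Real.log N) ^ (2 * Cp) ≤ V2 y0 c := by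
    have h1 := B08_V2 hc (y0 - 1)
    have h2 : y0 - 1 + 1 = y0 := by omega
    have h3 : ((y0 - 1 : ℕ) : ℝ) + 1 = y0 := by
      have : ((y0 - 1 + 1 : ℕ) : ℝ) = y0 := by rw [h2]
      rw [← this]
      push_cast
      ring
    rw [h2, h3] at h1
    refine le_trans ?_ h1
    refine one_div_le_one_div_of_le (by positivity) ?_
    rw [mul_comm 2 Cp, pow_mul]
    exact pow_le_pow_left₀ (by linarith) hyC 2
  have hlogp : 0 < (Real.log N) ^ Cp := by linarith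
  have hlogp2 : 0 < (Real.log N) ^ (2 * Cp) := by
    rw [mul_comm 2 Cp, pow_mul]
    positivity
  have hbig := hN2 N hNN2
  have hVp := B08_V2_pos hc y0
  -- `2 W0 ≤ N ^ (1/(2000 Cp)) V2`
  have hkey : 2 * (W0 : ℝ) ≤ (N : ℝ) ^ ((1 : ℝ) / (2000 * Cp)) * V2 y0 c := by
    calc 2 * (W0 : ℝ) = 2 * (W0 : ℝ) * (Real.log N) ^ (2 * Cp) * (1 / (Real.log N) ^ (2 * Cp)) := by
          field_simp
      _ ≤ (N : ℝ) ^ ((1 : ℝ) / (2000 * Cp)) * V2 y0 c :=
          mul_le_mul hbig hV (by positivity) (by positivity)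
  have hW0r : (0 : ℝ) ≤ W0 := Nat.cast_nonneg _
  have e1 : (W0 : ℝ) * ((N : ℝ) ^ (-(1 / (400 * (Cp : ℝ)))) * (L * ((b : ℝ) - a))) ≤
      1 / 2 * ((N : ℝ) ^ (-(1 / (500 * (Cp : ℝ)))) * (L * V2 y0 c * ((b : ℝ) - a))) := by
    have h1 : (N : ℝ) ^ (-(1 / (500 * (Cp : ℝ)))) =
        (N : ℝ) ^ (-(1 / (400 * (Cp : ℝ)))) * (N : ℝ) ^ ((1 : ℝ) / (2000 * Cp)) := by
      rw [← Real.rpow_add hN0]
      refine congrArg _ ?_
      field_simp
      norm_num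
    rw [h1]
    have h2 : 0 ≤ (N : ℝ) ^ (-(1 / (400 * (Cp : ℝ)))) * (L * ((b : ℝ) - a)) := by positivity
    have h3 := mul_le_mul_of_nonneg_right hkey h2
    linarith
  have e2 : (W0 : ℝ) * (N : ℝ) ^ ((5 : ℝ) / 6) ≤
      1 / 2 * ((N : ℝ) ^ (-(1 / (500 * (Cp : ℝ)))) * (L * V2 y0 c * ((b : ℝ) - a))) := by
    have h1 : (N : ℝ) ^ ((179 : ℝ) / 200) ≤ L * ((b : ℝ) - a) := by
      calc (N : ℝ) ^ ((179 : ℝ) / 200) = (N : ℝ) ^ (-(1 / 200) : ℝ) * (N : ℝ) ^ ((9 : ℝ) / 10) := by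
            rw [← Real.rpow_add hN0]
            norm_num
        _ ≤ L * ((b : ℝ) - a) := mul_le_mul hLl hlen (by positivity) hLpos.le
    have h2 : (1 : ℝ) / (2000 * Cp) ≤ 1 / 2000 := by
      refine one_div_le_one_div_of_le (by norm_num) ?_
      linarith
    have h3 : (1 : ℝ) / (500 * Cp) ≤ 1 / 500 := by
      refine one_div_le_one_div_of_le (by norm_num) ?_
      linarith
    have h4 : (N : ℝ) ^ ((1 : ℝ) / (2000 * Cp)) * (N : ℝ) ^ ((5 : ℝ) / 6) ≤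
        (N : ℝ) ^ (-(1 / (500 * (Cp : ℝ)))) * (N : ℝ) ^ ((179 : ℝ) / 200) := by
      rw [← Real.rpow_add hN0, ← Real.rpow_add hN0]
      refine Real.rpow_le_rpow_of_exponent_le hNr ?_
      linarith
    have h5 : 0 ≤ (N : ℝ) ^ ((5 : ℝ) / 6) := by positivity
    have h6 := mul_le_mul_of_nonneg_right hkey h5
    have h7 : (N : ℝ) ^ ((1 : ℝ) / (2000 * Cp)) * V2 y0 c * (N : ℝ) ^ ((5 : ℝ) / 6) ≤
        (N : ℝ) ^ (-(1 / (500 * (Cp : ℝ)))) * (L * V2 y0 c * ((b : ℝ) - a)) := by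
      calc (N : ℝ) ^ ((1 : ℝ) / (2000 * Cp)) * V2 y0 c * (N : ℝ) ^ ((5 : ℝ) / 6)
          = (N : ℝ) ^ ((1 : ℝ) / (2000 * Cp)) * (N : ℝ) ^ ((5 : ℝ) / 6) * V2 y0 c := by ring
        _ ≤ (N : ℝ) ^ (-(1 / (500 * (Cp : ℝ)))) * (N : ℝ) ^ ((179 : ℝ) / 200) * V2 y0 c :=
            mul_le_mul_of_nonneg_right h4 hVp.le
        _ ≤ (N : ℝ) ^ (-(1 / (500 * (Cp : ℝ)))) * (L * ((b : ℝ) - a)) * V2 y0 c :=
            mul_le_mul_of_nonneg_right (mul_le_mul_of_nonneg_left h1 (by positivity)) hVp.le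
        _ = (N : ℝ) ^ (-(1 / (500 * (Cp : ℝ)))) * (L * V2 y0 c * ((b : ℝ) - a)) := by ring
    linarith
  have h0 : 0 ≤ (N : ℝ) ^ (-(1 / (400 * (Cp : ℝ)))) * (L * ((b : ℝ) - a)) +
      (N : ℝ) ^ ((5 : ℝ) / 6) := by positivity
  calc (U.card : ℝ) * ((N : ℝ) ^ (-(1 / (400 * (Cp : ℝ)))) * (L * ((b : ℝ) - a)) +
        (N : ℝ) ^ ((5 : ℝ) / 6)) ≤ (W0 : ℝ) * ((N : ℝ) ^ (-(1 / (400 * (Cp : ℝ)))) *
        (L * ((b : ℝ) - a)) + (N : ℝ) ^ ((5 : ℝ) / 6)) := mul_le_mul_of_nonneg_right hUW h0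
    _ = (W0 : ℝ) * ((N : ℝ) ^ (-(1 / (400 * (Cp : ℝ)))) * (L * ((b : ℝ) - a))) +
        (W0 : ℝ) * (N : ℝ) ^ ((5 : ℝ) / 6) := by ring
    _ ≤ _ := by linarith

theorem wei2 (Cp W0 : ℕ) (hCp : 1 ≤ Cp) (hW0 : Squarefree W0) : ∃ N0 : ℕ, ∀ N : ℕ, N0 ≤ N → W0 ∣ N → ∀ (c : ℕ → ℝ) (L : ℝ), RC N c →
    LV N c L → PVW N W0 c → (N : ℝ) ^ (-(1 / 200) : ℝ) ≤ L → ∀ y0 : ℕ, (∀ p ∈ W0.primeFactors, p ≤ y0) → 1 ≤ y0 →
    (y0 : ℝ) ≤ (Real.log N) ^ Cp →
    Wei N W0 y0 ⌊(N : ℝ) ^ ((21 : ℝ) / 20)⌋₊ (1 / 200) (1 / (500 * (Cp : ℝ))) ((N : ℝ) ^ ((9 : ℝ) / 10)) True (w2 y0 c)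
      (L * V2 y0 c) (g2 y0 c) := by
  obtain ⟨N1, hN1⟩ := B08_core Cp W0 hCp hW0
  refine ⟨max N1 2, ?_⟩
  intro N hN hWN c L hc hL hpv hLl y0 hy hy1 hyC
  have hNN1 : N1 ≤ N := (le_max_left _ _).trans hN
  have hN2' : 2 ≤ N := (le_max_right _ _).trans hN
  have hNr : (1 : ℝ) ≤ N := by exact_mod_cast (by omega : 1 ≤ N)
  have hN0 : (0 : ℝ) < N := by linarith
  have hLpos : 0 < L := lt_of_lt_of_le (by positivity) hLl
  have hVp := B08_V2_pos hc y0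
  have hcore := hN1 N hNN1 hWN c L hc hL hpv hLl y0 hy hy1 hyC
  have hg : ∀ p : ℕ, p.Prime → 0 ≤ g2 y0 c p ∧ |g2 y0 c p - 1 / p| ≤ 2 / (p : ℝ) ^ 2 := by
    intro p hp
    have h2 : (2 : ℝ) ≤ p := by exact_mod_cast hp.two_le
    have h0 : (0 : ℝ) < p := by linarith
    have h1 : (0 : ℝ) < (p : ℝ) - 1 := by linarith
    have hc1 := B08_abs hc p
    unfold g2
    split_ifs with h
    · refine ⟨by positivity, ?_⟩
      have h3 : 1 / ((p : ℝ) - 1) - 1 / p = 1 / (p * (p - 1)) := by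
        field_simp
        ring
      rw [h3, abs_of_nonneg (by positivity), div_le_div_iff₀ (by positivity) (by positivity)]
      nlinarith
    · have h3 : c p / p ≤ 1 := by
        rw [div_le_one h0]
        linarith [(le_abs_self _).trans hc1]
      refine ⟨div_nonneg (by linarith) h0.le, ?_⟩
      have h4 : (1 - c p / p) / p - 1 / (p : ℝ) = -(c p) / (p : ℝ) ^ 2 := by
        field_simp
        ring
      rw [h4, abs_div, abs_neg, abs_of_nonneg (by positivity : (0 : ℝ) ≤ (p : ℝ) ^ 2)]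
      exact div_le_div_of_nonneg_right (by linarith) (by positivity)
  have hdq : ∀ q : ℕ, 0 ≤ dq (g2 y0 c) q := by
    intro q
    unfold dq
    refine div_nonneg (Finset.prod_nonneg fun p hp => ?_) (Nat.cast_nonneg _)
    exact mul_nonneg (Nat.cast_nonneg _) (hg p (Nat.prime_of_mem_primeFactors hp)).1
  refine ⟨mul_pos hLpos hVp, ?_, hg, fun h => absurd trivial h, ?_, ?_, ?_, ?_⟩
  · intro n
    unfold w2
    split_ifs with h
    · exact Pool.Agent.Lib.RG.rr_nonneg N c hc n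
    · exact le_rfl
  · intro _ p _ hpy
    unfold g2
    rw [if_pos hpy]
  · intro _ n hn
    by_contra h
    refine hn ?_
    unfold w2
    rw [if_neg h]
  · intro a b hab hb hlen qW q2 r hqW hq2 hq2N hqq hr
    have hb' : (b : ℝ) ≤ (N : ℝ) ^ ((21 : ℝ) / 20) :=
      (Nat.cast_le.2 hb).trans (Nat.floor_le (by positivity))
    have h1 := hcore a b hab hb' hlen qW q2 r 1 hqW hq2 hq2N hqq (hr trivial) squarefree_one
      (fun p hp h => absurd (Nat.dvd_one.1 h) hp.one_lt.ne') (Nat.coprime_one_left _)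
    rw [Nat.primeFactors_one, Finset.prod_empty, mul_one] at h1
    simp only [one_dvd, and_true] at h1
    exact h1
  · intro _ a b hab hb hlen qW q2 r p hqW hq2 hq2N hqq hr hp hpy hpq
    have hb' : (b : ℝ) ≤ (N : ℝ) ^ ((21 : ℝ) / 20) :=
      (Nat.cast_le.2 hb).trans (Nat.floor_le (by positivity))
    have h1 := hcore a b hab hb' hlen qW q2 r p hqW hq2 hq2N hqq hr hp.prime.squarefree
      (fun l hl h => by
        rw [(Nat.prime_dvd_prime_iff_eq hl hp).1 h]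
        exact hpy) ((Nat.Prime.coprime_iff_not_dvd hp).2 hpq)
    rw [Nat.Prime.primeFactors hp, Finset.prod_singleton] at h1
    have h2 := (le_abs_self _).trans h1
    have hp2 : (2 : ℝ) ≤ p := by exact_mod_cast hp.two_le
    have hp0 : (0 : ℝ) < p := by linarith
    have hba : 0 < (b : ℝ) - a := lt_of_lt_of_le (by positivity) hlen
    have hz : z0 c p ≤ 4 / p := by
      have hc1 := B08_abs hc p
      have h3 := abs_le.1 hc1
      unfold z0
      refine div_le_div_of_nonneg_right ?_ hp0.le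
      have h4 : -1 ≤ c p / p := by
        rw [le_div_iff₀ hp0]
        linarith
      linarith
    have hM : 0 ≤ L * V2 y0 c * ((b : ℝ) - a) * dq (g2 y0 c) (qW * q2) :=
      mul_nonneg (by positivity) (hdq _)
    have h3 := mul_le_mul_of_nonneg_left hz hM
    linarith

end Pool.Agent.Lib.TCB
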