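import Pool.Agent.Lib.MP_7b7e48_nt.BR.B0
import Pool.Agent.Lib.MP_7b7e48_nt.OW.CN3
import Pool.Agent.Lib.MP_7b7e48_nt.RG.H0

/-!
# Module B09 (45 minutes): weights of type 1; a small prime `≡ 1 (mod W)`

`wei1`: `w = 1`, `g = 1/p`: the number of the `n ∈ (a, b]`, `n ≡ r (q)`, is `(b - a)/q + θ`, `|θ| ≤ 1`, `dq (1/p) q = 1/q`, and `1 ≤ N ^ (-δ1) (b - a)`.
`exists_small`: `OW.rec_low W` with `x = MM`, `y = 4 MM ^ 2`: `∑_{MM < p ≤ 4 MM^2, p ≡ 1 (W)} 1/p ≥ c (log(4 MM) - 1)/log(4 MM^2) ≥ c/3` for large `MM`, and the primes which divide `N` contribute `≤ #/MM ≤ log₂ N/MM < c/6`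
(`MM ≥ (log N)^10`, `P.Ok.C1`; `N.primeFactors.card ≤ Nat.log 2 N`). So there is one which does not divide `N`.
-/

set_option autoImplicit false

open Finset

namespace Pool.Agent.Lib.TCB

open Pool.Agent.Lib.RG (RC LV rr PB Rough)
open Pool.Agent.Lib.RH (Prm MM)

theorem wei1 (N W0 y0 B : ℕ) (hN : 1 ≤ N) (δ0 δ1 len : ℝ) (h : (N : ℝ) ^ δ1 ≤ len) :
    Wei N W0 y0 B δ0 δ1 len False (fun _ => 1) 1 (fun p => 1 / (p : ℝ)) := by
  have hNr : (0 : ℝ) < N := by exact_mod_cast hN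
  refine
    { L_pos := one_pos
      nonneg := fun _ => zero_le_one
      g_nonneg := ?_
      g_one := fun _ _ => rfl
      g_small := fun h => h.elim
      rough := fun h => h.elim
      eq := ?_
      eq0 := fun h => h.elim }
  · intro p hp
    refine ⟨by positivity, ?_⟩
    rw [sub_self, abs_zero]
    positivity
  · intro a b hab _ hlen qW q2 r _ _ _ _ _
    rw [one_mul]
    have h1 : (1 : ℝ) ≤ (N : ℝ) ^ (-δ1) * ((b : ℝ) - a) := by
      calc (1 : ℝ) = (N : ℝ) ^ (-δ1) * (N : ℝ) ^ δ1 := by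
            rw [← Real.rpow_add hNr, neg_add_cancel, Real.rpow_zero]
        _ ≤ (N : ℝ) ^ (-δ1) * ((b : ℝ) - a) :=
            mul_le_mul_of_nonneg_left (h.trans hlen) (Real.rpow_nonneg hNr.le _)
    refine le_trans ?_ h1
    rw [Finset.sum_const, nsmul_eq_mul, mul_one]
    rcases Nat.eq_zero_or_pos (qW * q2) with h0 | h0
    · rw [h0]
      have h2 : dq (fun p : ℕ => 1 / (p : ℝ)) 0 = 0 := by
        unfold dq
        simp
      rw [h2, mul_zero, sub_zero, abs_of_nonneg (Nat.cast_nonneg _)]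
      have h3 : ((Ioc a b).filter (fun n => n ≡ r [MOD 0])).card ≤ 1 := by
        rw [Finset.card_le_one]
        intro x hx y hy
        have h4 := (Finset.mem_filter.1 hx).2
        have h5 := (Finset.mem_filter.1 hy).2
        have h6 : x ≡ y [MOD 0] := h4.trans h5.symm
        unfold Nat.ModEq at h6
        rwa [Nat.mod_zero, Nat.mod_zero] at h6
      exact_mod_cast h3
    · generalize hq : qW * q2 = q at h0 ⊢
      have hq0 : (0 : ℝ) < q := by exact_mod_cast h0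
      have h2 : dq (fun p : ℕ => 1 / (p : ℝ)) q = 1 / q := by
        unfold dq
        rw [Finset.prod_eq_one]
        intro p hp
        have h3 : (p : ℝ) ≠ 0 := by exact_mod_cast (Nat.prime_of_mem_primeFactors hp).ne_zero
        show (p : ℝ) * (1 / (p : ℝ)) = 1
        field_simp
      rw [h2]
      have h3 := Nat.Ioc_filter_modEq_card a b h0 r
      have h4 : (⌊((a : ℚ) - r) / (q : ℚ)⌋ : ℤ) ≤ ⌊((b : ℚ) - r) / (q : ℚ)⌋ := by
        apply Int.floor_le_floor
        have h5 : (0 : ℚ) < q := by exact_mod_cast h0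
        have h6 : (a : ℚ) ≤ b := by exact_mod_cast hab
        gcongr
      rw [max_eq_left (by linarith)] at h3
      have h5 : ((((Ioc a b).filter (fun n => n ≡ r [MOD q])).card : ℤ) : ℚ) =
          (⌊((b : ℚ) - r) / (q : ℚ)⌋ : ℚ) - (⌊((a : ℚ) - r) / (q : ℚ)⌋ : ℚ) := by
        rw [h3]
        push_cast
        ring
      have h6 : |(((Ioc a b).filter (fun n => n ≡ r [MOD q])).card : ℚ) - ((b : ℚ) - a) * (1 / q)| ≤ 1 := by
        have h7 : (((Ioc a b).filter (fun n => n ≡ r [MOD q])).card : ℚ) =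
            (⌊((b : ℚ) - r) / (q : ℚ)⌋ : ℚ) - (⌊((a : ℚ) - r) / (q : ℚ)⌋ : ℚ) := by
          rw [← h5]
          push_cast
          rfl
        rw [h7]
        have h8 := Int.floor_le (((b : ℚ) - r) / (q : ℚ))
        have h9 := Int.lt_floor_add_one (((b : ℚ) - r) / (q : ℚ))
        have h10 := Int.floor_le (((a : ℚ) - r) / (q : ℚ))
        have h11 := Int.lt_floor_add_one (((a : ℚ) - r) / (q : ℚ))
        have h12 : ((b : ℚ) - a) * (1 / q) = ((b : ℚ) - r) / (q : ℚ) - ((a : ℚ) - r) / (q : ℚ) := by ring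
        rw [h12, abs_le]
        constructor <;> linarith
      have h13 := (Rat.cast_le (K := ℝ)).2 h6
      push_cast at h13
      exact h13

theorem exists_small (P : Prm) (hP : P.Ok) (W : ℕ) (hW : 1 ≤ W) : ∃ N0 : ℕ, ∀ N : ℕ, N0 ≤ N →
    ∃ l ∈ Pool.Agent.Lib.RG.PZ N (MM P N), l ≡ 1 [MOD W] := by
  classical
  obtain ⟨c, hc, x0, hrec⟩ := Pool.Agent.Lib.OW.rec_low W hW
  refine ⟨⌈Real.exp (x0 + 8 / c + 2)⌉₊ + 1, fun N hN => ?_⟩
  have hN1 : Real.exp (x0 + 8 / c + 2) ≤ N := by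
    calc Real.exp (x0 + 8 / c + 2) ≤ ⌈Real.exp (x0 + 8 / c + 2)⌉₊ := Nat.le_ceil _
      _ ≤ N := by exact_mod_cast (by omega : ⌈Real.exp (x0 + 8 / c + 2)⌉₊ ≤ N)
  have hNpos : (0 : ℝ) < N := lt_of_lt_of_le (Real.exp_pos _) hN1
  have hN0 : 1 ≤ N := by exact_mod_cast hNpos
  have hlog : (x0 : ℝ) + 8 / c + 2 ≤ Real.log N := by
    rw [Real.le_log_iff_exp_le hNpos]
    exact hN1
  have hc8 : 0 < 8 / c := by positivity
  have hx00 : (0 : ℝ) ≤ x0 := Nat.cast_nonneg _
  have hlog2 : 2 ≤ Real.log N := by linarith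
  have hlogpos : 0 < Real.log N := by linarith
  -- lower bound for MM
  have hMM : (Real.log N) ^ 2 ≤ (MM P N : ℝ) := by
    have h1 : (2 : ℝ) ^ ((P.C1 : ℝ) * Real.logb 2 (Real.log N)) ≤ (MM P N : ℝ) := by
      unfold MM Pool.Agent.Lib.RH.m0
      push_cast
      rw [← Real.rpow_natCast]
      exact Real.rpow_le_rpow_of_exponent_le (by norm_num) (Nat.le_ceil _)
    have h2 : (2 : ℝ) ^ ((P.C1 : ℝ) * Real.logb 2 (Real.log N)) = (Real.log N) ^ P.C1 := by
      rw [mul_comm, Real.rpow_mul (by norm_num), Real.rpow_logb (by norm_num) (by norm_num) hlogpos,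
        Real.rpow_natCast]
    rw [h2] at h1
    refine le_trans ?_ h1
    exact pow_le_pow_right₀ (by linarith) (by have := hP.C1; omega)
  have hMM1 : Real.log N ≤ (MM P N : ℝ) := by nlinarith
  have hMMx : x0 ≤ MM P N := by
    have h1 : (x0 : ℝ) ≤ (MM P N : ℝ) := by linarith
    exact_mod_cast h1
  have hMM2 : (2 : ℝ) ≤ (MM P N : ℝ) := by linarith
  have hMMn : 2 ≤ MM P N := by exact_mod_cast hMM2
  have h1 := hrec (MM P N) (4 * (MM P N) ^ 2) hMMx (by nlinarith) 1 (Nat.coprime_one_left W)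
  by_contra hno
  push Not at hno
  have hsub : ((Ioc (MM P N) (4 * (MM P N) ^ 2)).filter (fun p => p.Prime ∧ p ≡ 1 [MOD W])) ⊆
      N.primeFactors := by
    intro p hp
    rw [Finset.mem_filter] at hp
    rw [Nat.mem_primeFactors]
    refine ⟨hp.2.1, ?_, by omega⟩
    by_contra hpd
    refine hno p ?_ hp.2.2
    unfold Pool.Agent.Lib.RG.PZ
    rw [Finset.mem_filter]
    exact ⟨hp.1, hp.2.1, hpd⟩
  have h2 : ∑ p ∈ (Ioc (MM P N) (4 * (MM P N) ^ 2)).filter (fun p => p.Prime ∧ p ≡ 1 [MOD W]), 1 / (p : ℝ) ≤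
      (2 * Real.log N) * (1 / (MM P N : ℝ)) := by
    have h3 : ∀ p ∈ (Ioc (MM P N) (4 * (MM P N) ^ 2)).filter (fun p => p.Prime ∧ p ≡ 1 [MOD W]),
        1 / (p : ℝ) ≤ 1 / (MM P N : ℝ) := by
      intro p hp
      rw [Finset.mem_filter, Finset.mem_Ioc] at hp
      apply one_div_le_one_div_of_le (by linarith)
      exact_mod_cast hp.1.1.le
    refine (Finset.sum_le_card_nsmul _ _ _ h3).trans ?_
    rw [nsmul_eq_mul]
    refine mul_le_mul_of_nonneg_right ?_ (by positivity)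
    have h4 : (((Ioc (MM P N) (4 * (MM P N) ^ 2)).filter (fun p => p.Prime ∧ p ≡ 1 [MOD W])).card : ℝ) ≤
        (N.primeFactors.card : ℝ) := by exact_mod_cast Finset.card_le_card hsub
    exact h4.trans (Pool.Agent.Lib.RG.omega_le_log N hN0)
  have h3 : (2 * Real.log N) * (1 / (MM P N : ℝ)) ≤ 2 / Real.log N := by
    have hM0 : (0 : ℝ) < MM P N := by linarith
    rw [mul_one_div, div_le_div_iff₀ hM0 hlogpos]
    nlinarith
  -- the lower bound
  have h4 : c / 4 ≤ c * (Real.log (((4 * (MM P N) ^ 2 : ℕ) : ℝ) / (MM P N : ℝ)) - 1) /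
      Real.log ((4 * (MM P N) ^ 2 : ℕ) : ℝ) := by
    have hM0 : (0 : ℝ) < MM P N := by linarith
    have h5 : ((4 * (MM P N) ^ 2 : ℕ) : ℝ) / (MM P N : ℝ) = 4 * (MM P N : ℝ) := by
      push_cast
      field_simp
    have h6 : Real.log ((4 * (MM P N) ^ 2 : ℕ) : ℝ) ≤ 2 * Real.log (4 * (MM P N : ℝ)) := by
      have h7 : Real.log ((4 * (MM P N : ℝ)) ^ 2) = 2 * Real.log (4 * (MM P N : ℝ)) := by
        rw [Real.log_pow]
        norm_num
      rw [← h7]
      apply Real.log_le_log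
      · push_cast
        positivity
      · push_cast
        nlinarith
    have h7 : 2 ≤ Real.log (4 * (MM P N : ℝ)) := by
      rw [Real.le_log_iff_exp_le (by linarith)]
      have h8 := Real.exp_one_lt_d9
      have h9 : Real.exp 2 = Real.exp 1 * Real.exp 1 := by
        rw [← Real.exp_add]
        norm_num
      rw [h9]
      nlinarith [Real.exp_pos 1]
    have h8 : 0 < Real.log ((4 * (MM P N) ^ 2 : ℕ) : ℝ) := by
      apply Real.log_pos
      have h9 : 1 < 4 * (MM P N) ^ 2 := by nlinarith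
      exact_mod_cast h9
    rw [h5, le_div_iff₀ h8]
    nlinarith
  have h5 : c / 4 ≤ 2 / Real.log N := h4.trans (h1.trans (h2.trans h3))
  rw [div_le_div_iff₀ (by norm_num) hlogpos] at h5
  have h6 : 8 < c * Real.log N := by
    have h7 : 8 / c < Real.log N := by linarith
    rw [div_lt_iff₀ hc] at h7
    linarith
  linarith

end Pool.Agent.Lib.TCB
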