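import Pool.Agent.Lib.MP_7b7e48_nt.BR.M0

/-!
# Module C01 (60 minutes): classes

`lin_class`: `A` is invertible modulo `P1` and modulo `P2`, which are coprime: the two congruences fix `n` modulo `P1 P2`. PROOF. `Int.emod`/`ZMod`: let `r1` be a natural number with `A r1 ≡ -B1 (mod P1)` (`A` invertible), `r2` similarly, `r` by `Nat.chineseRemainder`. Unit: a prime
`p ∣ P1` dividing `r` divides `B1`. `two_class`: `Nat.chineseRemainder` and `Nat.modEq_and_modEq_iff_modEq_mul`. `sq_class`: `p ∣ P`, `P` squarefree: either the classes are incompatible modulo `p` (no `n`), or they amount to one class modulo `p P` (`P = p P'`, `(p^2, P') = 1`).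
`dq_sq`: `q = ∏ p ∈ q.primeFactors, p` for squarefree `q`. `dq_sqp`: `(p P).primeFactors = P.primeFactors`. `dq_one`.
`split_q`: `qW := gcd q W0`, `q2 := q / qW`: every prime of `q2` does not divide `W0` (squarefree `q`: a prime of `q/gcd` divides `q` only once) and by hypothesis not `N`.
-/

set_option autoImplicit false

open Finset

namespace Pool.Agent.Lib.TCB

open Pool.Agent.Lib.RG (Rough)
open Pool.Agent.Lib.TC (MS Msr)

private theorem C01_cop {a b m : ℕ} (h : a ≡ b [MOD m]) (hb : b.Coprime m) : a.Coprime m := by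
  rw [Nat.coprime_iff_gcd_eq_one, h.gcd_eq]
  exact hb

private theorem C01_one (A P : ℕ) (B : ℤ) (hP : 0 < P) (hA : A.Coprime P) :
    ∃ r : ℕ, (∀ n : ℕ, ((P : ℤ) ∣ A * n + B) ↔ n ≡ r [MOD P]) ∧
      (B.natAbs.Coprime P → r.Coprime P) := by
  have : NeZero P := ⟨hP.ne'⟩
  obtain ⟨u, hu⟩ : ∃ u : (ZMod P)ˣ, (u : ZMod P) = (A : ZMod P) :=
    ⟨ZMod.unitOfCoprime A hA, ZMod.coe_unitOfCoprime A hA⟩
  obtain ⟨r, hr⟩ : ∃ r : ℕ, (r : ZMod P) = ((u⁻¹ : (ZMod P)ˣ) : ZMod P) * (-(B : ZMod P)) :=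
    ⟨(((u⁻¹ : (ZMod P)ˣ) : ZMod P) * (-(B : ZMod P))).val, ZMod.natCast_zmod_val _⟩
  have h1 : ∀ n : ℕ, ((P : ℤ) ∣ A * n + B) ↔ n ≡ r [MOD P] := by
    intro n
    rw [← ZMod.natCast_eq_natCast_iff, ← ZMod.intCast_zmod_eq_zero_iff_dvd]
    push_cast
    rw [hr, ← hu]
    constructor
    · intro h
      have h2 : (u : ZMod P) * n = -(B : ZMod P) := eq_neg_of_add_eq_zero_left h
      rw [← h2, Units.inv_mul_cancel_left]
    · intro h
      rw [h, Units.mul_inv_cancel_left]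
      ring
  refine ⟨r, h1, fun hB => Nat.coprime_of_dvd fun p hp hp1 hp2 => ?_⟩
  have h2 : (P : ℤ) ∣ A * r + B := (h1 r).2 (Nat.ModEq.refl r)
  have h3 : (p : ℤ) ∣ A * r + B := (Int.natCast_dvd_natCast.2 hp2).trans h2
  have h4 : (p : ℤ) ∣ A * r := Dvd.dvd.mul_left (Int.natCast_dvd_natCast.2 hp1) _
  have h5 : (p : ℤ) ∣ B := (dvd_add_right h4).1 h3
  have h6 : p ∣ B.natAbs := Int.natCast_dvd.1 h5
  have h7 := Nat.dvd_gcd h6 hp2
  rw [Nat.coprime_iff_gcd_eq_one.1 hB] at h7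
  exact hp.one_lt.ne' (Nat.dvd_one.1 h7)

theorem two_class (q P r r' : ℕ) (hq : 0 < q) (hP : 0 < P) (h : q.Coprime P) :
    ∃ s : ℕ, (∀ n : ℕ, (n ≡ r [MOD q] ∧ n ≡ r' [MOD P]) ↔ n ≡ s [MOD q * P]) ∧
      (r.Coprime q → r'.Coprime P → s.Coprime (q * P)) := by
  have hk := (Nat.chineseRemainder h r r').2
  refine ⟨(Nat.chineseRemainder h r r' : ℕ), fun n => ?_, fun h1 h2 => ?_⟩
  · rw [← Nat.modEq_and_modEq_iff_modEq_mul h]
    constructor
    · rintro ⟨h1, h2⟩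
      exact ⟨h1.trans hk.1.symm, h2.trans hk.2.symm⟩
    · rintro ⟨h1, h2⟩
      exact ⟨h1.trans hk.1, h2.trans hk.2⟩
  · exact Nat.Coprime.mul_right (C01_cop hk.1 h1) (C01_cop hk.2 h2)

theorem lin_class (A P1 P2 : ℕ) (B1 B2 : ℤ) (h1 : 0 < P1) (h2 : 0 < P2) (hP : P1.Coprime P2) (hA1 : A.Coprime P1) (hA2 : A.Coprime P2) :
    ∃ r : ℕ, (∀ n : ℕ, ((P1 : ℤ) ∣ A * n + B1 ∧ (P2 : ℤ) ∣ A * n + B2) ↔ n ≡ r [MOD P1 * P2]) ∧
      (B1.natAbs.Coprime P1 → B2.natAbs.Coprime P2 → r.Coprime (P1 * P2)) := by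
  obtain ⟨r1, hr1, hc1⟩ := C01_one A P1 B1 h1 hA1
  obtain ⟨r2, hr2, hc2⟩ := C01_one A P2 B2 h2 hA2
  obtain ⟨s, hs, hc⟩ := two_class P1 P2 r1 r2 h1 h2 hP
  refine ⟨s, fun n => ?_, fun h3 h4 => hc (hc1 h3) (hc2 h4)⟩
  rw [hr1, hr2, hs]

theorem sq_class (p P r r' : ℕ) (hp : p.Prime) (hP : Squarefree P) (hpP : p ∣ P) :
    (∀ n : ℕ, ¬ (n ≡ r [MOD p ^ 2] ∧ n ≡ r' [MOD P])) ∨
    ∃ s : ℕ, (∀ n : ℕ, (n ≡ r [MOD p ^ 2] ∧ n ≡ r' [MOD P]) ↔ n ≡ s [MOD p * P]) ∧ (r'.Coprime P → s.Coprime (p * P)) := by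
  obtain ⟨P', rfl⟩ := hpP
  have hP0 : p * P' ≠ 0 := hP.ne_zero
  have hcop : p.Coprime P' := Nat.coprime_of_squarefree_mul hP
  have hcop2 : (p ^ 2).Coprime P' := Nat.Coprime.pow_left 2 hcop
  have hP'0 : 0 < P' := Nat.pos_of_ne_zero (by
    rintro rfl
    exact hP0 (mul_zero p))
  by_cases h : r ≡ r' [MOD p]
  · right
    obtain ⟨s, hs, -⟩ := two_class (p ^ 2) P' r r' (pow_pos hp.pos 2) hP'0 hcop2
    have e1 : p * (p * P') = p ^ 2 * P' := by ring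
    have hs0 := (hs s).2 (Nat.ModEq.refl s)
    refine ⟨s, fun n => ?_, fun hr' => ?_⟩
    · rw [e1, ← hs n, ← Nat.modEq_and_modEq_iff_modEq_mul hcop]
      constructor
      · rintro ⟨h1, h2, h3⟩
        exact ⟨h1, h3⟩
      · rintro ⟨h1, h3⟩
        refine ⟨h1, ?_, h3⟩
        have h4 : n ≡ r [MOD p] := h1.of_dvd (dvd_pow_self p two_ne_zero)
        exact h4.trans h
    · have h1 : s ≡ r' [MOD p] := (hs0.1.of_dvd (dvd_pow_self p two_ne_zero)).trans h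
      have h2 : s.Coprime p := C01_cop h1 (Nat.Coprime.coprime_dvd_right (Dvd.intro _ rfl) hr')
      have h3 : s.Coprime P' :=
        C01_cop hs0.2 (Nat.Coprime.coprime_dvd_right (Dvd.intro_left _ rfl) hr')
      exact Nat.Coprime.mul_right h2 (Nat.Coprime.mul_right h2 h3)
  · left
    rintro n ⟨h1, h2⟩
    refine h ?_
    have h3 : n ≡ r [MOD p] := h1.of_dvd (dvd_pow_self p two_ne_zero)
    have h4 : n ≡ r' [MOD p] := h2.of_dvd (Dvd.intro _ rfl)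
    exact h3.symm.trans h4

theorem dq_sq (g : ℕ → ℝ) (q : ℕ) (hq : Squarefree q) : dq g q = ∏ p ∈ q.primeFactors, g p := by
  have h1 : ((∏ p ∈ q.primeFactors, p : ℕ) : ℝ) = q := by
    rw [Nat.prod_primeFactors_of_squarefree hq]
  have h2 : (q : ℝ) ≠ 0 := Nat.cast_ne_zero.2 hq.ne_zero
  unfold dq
  rw [Finset.prod_mul_distrib, ← Nat.cast_prod, h1, mul_div_cancel_left₀ _ h2]

theorem dq_mul (g : ℕ → ℝ) (q P : ℕ) (hq : Squarefree q) (hP : Squarefree P) (h : q.Coprime P) : dq g (q * P) = dq g q * dq g P := by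
  rw [dq_sq g q hq, dq_sq g P hP, dq_sq g (q * P) ((Nat.squarefree_mul h).2 ⟨hq, hP⟩),
    Nat.Coprime.primeFactors_mul h, Finset.prod_union (Nat.Coprime.disjoint_primeFactors h)]

theorem dq_sqp (g : ℕ → ℝ) (p P : ℕ) (hp : p.Prime) (hP : Squarefree P) (hpP : p ∣ P) : dq g (p * P) = dq g P / p := by
  have h1 : (p * P).primeFactors = P.primeFactors := by
    rw [Nat.primeFactors_mul hp.ne_zero hP.ne_zero, Nat.Prime.primeFactors hp]
    exact Finset.union_eq_right.2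
      (Finset.singleton_subset_iff.2 (Nat.mem_primeFactors.2 ⟨hp, hpP, hP.ne_zero⟩))
  unfold dq
  rw [h1, Nat.cast_mul, div_div, mul_comm (P : ℝ)]

theorem dq_one (g : ℕ → ℝ) : dq g 1 = 1 := by
  unfold dq
  rw [Nat.primeFactors_one, Finset.prod_empty, Nat.cast_one, div_one]

theorem split_q (q W0 N : ℕ) (hq : Squarefree q) (h : ∀ p : ℕ, p.Prime → p ∣ q → p ∣ W0 ∨ ¬ p ∣ N) :
    ∃ qW q2 : ℕ, q = qW * q2 ∧ qW ∣ W0 ∧ 0 < q2 ∧ q2.Coprime (W0 ^ 2 * N) ∧ qW.Coprime q2 := by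
  obtain ⟨q2, hq2⟩ := Nat.gcd_dvd_left q W0
  have hq0 : q ≠ 0 := hq.ne_zero
  have hcop : (Nat.gcd q W0).Coprime q2 := by
    refine Nat.coprime_of_squarefree_mul ?_
    rw [← hq2]
    exact hq
  have hdv : q2 ∣ q := ⟨Nat.gcd q W0, by rw [mul_comm]; exact hq2⟩
  have hnot : ∀ p : ℕ, p.Prime → p ∣ q2 → ¬ p ∣ W0 := by
    intro p hp h1 h2
    have h3 := Nat.dvd_gcd (Nat.dvd_gcd (h1.trans hdv) h2) h1
    rw [Nat.coprime_iff_gcd_eq_one.1 hcop] at h3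
    exact hp.one_lt.ne' (Nat.dvd_one.1 h3)
  refine ⟨Nat.gcd q W0, q2, hq2, Nat.gcd_dvd_right q W0, ?_, ?_, hcop⟩
  · refine Nat.pos_of_ne_zero ?_
    rintro rfl
    rw [mul_zero] at hq2
    exact hq0 hq2
  · refine Nat.Coprime.mul_right (Nat.Coprime.pow_right 2 ?_) ?_
    · exact Nat.coprime_of_dvd fun p hp h1 h2 => hnot p hp h1 h2
    · refine Nat.coprime_of_dvd fun p hp h1 h2 => ?_
      rcases h p hp (h1.trans hdv) with h3 | h3
      · exact hnot p hp h1 h3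
      · exact h3 h2

private theorem C01_dq {n : ℕ} (g : ℕ → ℝ) (f : Fin n → ℕ) (hf : ∀ c, (f c).Prime)
    (hi : Function.Injective f) : dq g (∏ c, f c) = ∏ c, g (f c) := by
  have h1 : ∏ c, f c = ∏ p ∈ Finset.univ.image f, p := by
    rw [Finset.prod_image fun a _ b _ h => hi h]
  have h2 : (∏ c, f c).primeFactors = Finset.univ.image f := by
    rw [h1]
    refine Nat.primeFactors_prod fun p hp => ?_
    rw [mem_image] at hp
    obtain ⟨c, -, rfl⟩ := hp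
    exact hf c
  have h3 : (∏ c, (f c : ℝ)) ≠ 0 :=
    Finset.prod_ne_zero_iff.2 fun c _ => Nat.cast_ne_zero.2 (hf c).ne_zero
  unfold dq
  rw [h2, Finset.prod_image fun a _ b _ h => hi h, Finset.prod_mul_distrib, Nat.cast_prod,
    mul_div_cancel_left₀ _ h3]

theorem dq_prX {S : MS} {N y0 : ℕ} (h : SetsOk S N y0) {μ : S.TX} (hμ : μ ∈ S.MX) (g : ℕ → ℝ) :
    dq g (S.prX id μ) = S.prX g μ := by
  have h1 := jX_mem hμ
  rw [Fintype.mem_piFinset] at h1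
  rw [prX_eq, prX_eq]
  refine C01_dq g (jX S μ) (fun c => (h.px c _ (h1 c)).1) fun c c' hc => ?_
  by_contra h2
  refine Finset.disjoint_left.1 (h.dx c c' h2) (h1 c) ?_
  rw [hc]
  exact h1 c'

theorem dq_prY {S : MS} {N y0 : ℕ} (h : SetsOk S N y0) {ν : S.TY} (hν : ν ∈ S.MY) (g : ℕ → ℝ) :
    dq g (S.prY id ν) = S.prY g ν := by
  have h1 := jY_mem hν
  rw [Fintype.mem_piFinset] at h1
  rw [prY_eq, prY_eq]
  refine C01_dq g (jY S ν) (fun c => (h.py c _ (h1 c)).1) fun c c' hc => ?_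
  by_contra h2
  refine Finset.disjoint_left.1 (h.dy c c' h2) (h1 c) ?_
  rw [hc]
  exact h1 c'

end Pool.Agent.Lib.TCB
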