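import Pool.Agent.Lib.MP_7b7e48_nt.BR.C01

/-!
# Module C02 (100 minutes): (M1): equidistribution

`mM1_X`: on `(a, b]`: `x1 ≥ 0`, `(x1).toNat - D N = l (v n + c R)` as integers (`H1.D`: `D N = (c' - l c) R`), positive. `mM1_none`: if the pair is not admissible no `n` of `(a, b]` has `μ ∣ X`, `ν ∣ X - D N`: a common prime `p` of `μ` and `ν` divides `D N`, so `D` (`SetsOk`: `p ∤ R`), so `p ≤ y0` (`BH.dd`), but `p > y0`;
a prime `p ∣ μ` with `p ∣ l` is `≤ y0`; with `p ∣ v`: `v ≠ 1`, so `c' ≠ 0` and `p ∣ X = l v n + c' R` gives `p ∣ c'`, `p ≤ |c'| ≤ y0`. The same for `ν` (`p ∣ l (v n + c R)`, `p ∤ l`, `p ∣ v` gives `p ∣ c`).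
`mM1_class`: for admissible pairs: `lin_class` with `A = l v`, `P1 = prX`, `B1 = c' R`, `P2 = prY`, `B2 = l c R`; unit if `t2` (`c, c' ≠ 0`, `|c|, |c'| ≤ y0`, `l` and `R` coprime to the marks).
-/

set_option autoImplicit false

open Finset

namespace Pool.Agent.Lib.TCB

open Pool.Agent.Lib.RG (Rough)
open Pool.Agent.Lib.TC (MS Msr)

section

variable {S : MS} {T : TC.Dat} {W0 B v l a b : ℕ} {c c' : ℤ} {δ0 δ1 δm δw δv len : ℝ} {t2 : Prop} {w : ℕ → ℝ} {L : ℝ} {g : ℕ → ℝ}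

private theorem C02_prime_int {p : ℕ} (hp : p.Prime) {c : ℤ} (hc : c ≠ 0) {y : ℕ} (hy : c.natAbs ≤ y) (h : (p : ℤ) ∣ c) :
    p ≤ y := by
  have h1 : p ∣ c.natAbs := Int.natCast_dvd.1 h
  exact (Nat.le_of_dvd (Int.natAbs_pos.2 hc) h1).trans hy

private theorem C02_DN (h : H1 S T W0 v l c c' a b B len t2) :
    ((T.D * T.N : ℕ) : ℤ) = (c' - l * c) * ((W0 ^ 2 * T.N : ℕ) : ℤ) := by
  push_cast
  rw [h.D]
  ring

private theorem C02_x (h : H1 S T W0 v l c c' a b B len t2) (n : ℕ) :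
    x1 T W0 v l c' n - ((T.D * T.N : ℕ) : ℤ) = l * ((v : ℤ) * n + c * ((W0 ^ 2 * T.N : ℕ) : ℤ)) := by
  rw [C02_DN h]
  unfold x1
  push_cast
  ring

theorem mM1_X (H : BH S T W0 B δ0 δ1 δm δw δv len t2 w L g) (h : H1 S T W0 v l c c' a b B len t2) {n : ℕ} (hn : n ∈ Ioc a b) :
    0 ≤ x1 T W0 v l c' n ∧ T.D * T.N < (x1 T W0 v l c' n).toNat ∧
      (((x1 T W0 v l c' n).toNat - T.D * T.N : ℕ) : ℤ) = l * ((v : ℤ) * n + c * ((W0 ^ 2 * T.N : ℕ) : ℤ)) := by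
  have h1 := C02_x h n
  have h2 := h.pos n hn
  have hl : (0 : ℤ) < l := by exact_mod_cast h.l0
  have h3 : (0 : ℤ) < l * ((v : ℤ) * n + c * ((W0 ^ 2 * T.N : ℕ) : ℤ)) := mul_pos hl h2
  have h4 : (0 : ℤ) ≤ ((T.D * T.N : ℕ) : ℤ) := Int.natCast_nonneg _
  have h5 : 0 ≤ x1 T W0 v l c' n := by linarith
  have h6 : (((x1 T W0 v l c' n).toNat : ℕ) : ℤ) = x1 T W0 v l c' n := Int.toNat_of_nonneg h5
  have h7 : T.D * T.N < (x1 T W0 v l c' n).toNat := by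
    have h8 : ((T.D * T.N : ℕ) : ℤ) < (((x1 T W0 v l c' n).toNat : ℕ) : ℤ) := by
      rw [h6]
      linarith
    exact_mod_cast h8
  refine ⟨h5, h7, ?_⟩
  rw [Nat.cast_sub h7.le, h6]
  exact h1

private theorem C02_pX (H : BH S T W0 B δ0 δ1 δm δw δv len t2 w L g) (h : H1 S T W0 v l c c' a b B len t2) {p : ℕ} (hp : p.Prime)
    (hy : T.y0 < p) : ¬ p ∣ l := fun h1 => by
  have := h.ly p hp h1
  omega

private theorem C02_dX {n p : ℕ} (h5 : 0 ≤ x1 T W0 v l c' n) (h : p ∣ (x1 T W0 v l c' n).toNat) : (p : ℤ) ∣ x1 T W0 v l c' n := by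
  rw [← Int.toNat_of_nonneg h5]
  exact Int.natCast_dvd_natCast.2 h

theorem mM1_none (H : BH S T W0 B δ0 δ1 δm δw δv len t2 w L g) (h : H1 S T W0 v l c c' a b B len t2) {μ : S.TX} (hμ : μ ∈ S.MX)
    {ν : S.TY} (hν : ν ∈ S.MY) (ha : ¬ (mM1 S T W0 v l c' a b t2 w L g).adm μ ν) {n : ℕ} (hn : n ∈ Ioc a b)
    (h1 : S.prX id μ ∣ (x1 T W0 v l c' n).toNat) (h2 : S.prY id ν ∣ (x1 T W0 v l c' n).toNat - T.D * T.N) : False := by
  obtain ⟨hx0, hx1, hx2⟩ := mM1_X H h hn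
  have hPX : ∀ p : ℕ, p.Prime → p ∣ S.prX id μ → ¬ p ∣ W0 ^ 2 * T.N ∧ T.y0 < p := fun p hp hd => H.sets.pX hμ hp hd
  have hPY : ∀ p : ℕ, p.Prime → p ∣ S.prY id ν → ¬ p ∣ W0 ^ 2 * T.N ∧ T.y0 < p := fun p hp hd => H.sets.pY hν hp hd
  have hR : ∀ p : ℕ, p.Prime → ¬ p ∣ W0 ^ 2 * T.N → ∀ z : ℤ, z ≠ 0 → z.natAbs ≤ T.y0 →
      (p : ℤ) ∣ z * ((W0 ^ 2 * T.N : ℕ) : ℤ) → p ≤ T.y0 := by
    intro p hp h3 z hz hz' h4
    rcases Int.Prime.dvd_mul' hp h4 with h5 | h5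
    · exact C02_prime_int hp hz hz' h5
    · exact absurd (Int.natCast_dvd_natCast.1 h5) h3
  apply ha
  constructor
  · show (S.prX id μ * S.prY id ν).Coprime (l * v)
    refine Nat.coprime_of_dvd fun p hp hd1 hd2 => ?_
    rcases (Nat.Prime.dvd_mul hp).1 hd1 with h3 | h3
    · obtain ⟨h4, h5⟩ := hPX p hp h3
      rcases (Nat.Prime.dvd_mul hp).1 hd2 with h6 | h6
      · exact C02_pX H h hp h5 h6
      · have hv1 : v ≠ 1 := by
          rintro rfl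
          exact hp.one_lt.ne' (Nat.dvd_one.1 h6)
        have hc := h.c1.resolve_left hv1
        have h7 : (p : ℤ) ∣ x1 T W0 v l c' n := C02_dX hx0 (h3.trans h1)
        unfold x1 at h7
        have h8 : (p : ℤ) ∣ ((l * v * n : ℕ) : ℤ) :=
          Int.natCast_dvd_natCast.2 (Dvd.dvd.mul_right (Dvd.dvd.mul_left h6 l) n)
        have h9 := hR p hp h4 c' hc.2 h.cb' ((dvd_add_right h8).1 h7)
        omega
    · obtain ⟨h4, h5⟩ := hPY p hp h3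
      rcases (Nat.Prime.dvd_mul hp).1 hd2 with h6 | h6
      · exact C02_pX H h hp h5 h6
      · have hv1 : v ≠ 1 := by
          rintro rfl
          exact hp.one_lt.ne' (Nat.dvd_one.1 h6)
        have hc := h.c1.resolve_left hv1
        have h7 : (p : ℤ) ∣ (((x1 T W0 v l c' n).toNat - T.D * T.N : ℕ) : ℤ) := Int.natCast_dvd_natCast.2 (h3.trans h2)
        rw [hx2] at h7
        rcases Int.Prime.dvd_mul' hp h7 with h8 | h8
        · exact C02_pX H h hp h5 (Int.natCast_dvd_natCast.1 h8)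
        · have h9 : (p : ℤ) ∣ (v : ℤ) * n := Dvd.dvd.mul_right (Int.natCast_dvd_natCast.2 h6) _
          have h10 := hR p hp h4 c hc.1 h.cb ((dvd_add_right h9).1 h8)
          omega
  · show (S.prX id μ).Coprime (S.prY id ν)
    refine Nat.coprime_of_dvd fun p hp hd1 hd2 => ?_
    obtain ⟨h4, h5⟩ := hPX p hp hd1
    have h6 : p ∣ T.D * T.N := by
      have h7 := hd1.trans h1
      have h8 := hd2.trans h2
      exact (Nat.dvd_sub_iff_right hx1.le h7).1 h8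
    rcases (Nat.Prime.dvd_mul hp).1 h6 with h7 | h7
    · have := H.dd p hp h7
      omega
    · exact h4 (Dvd.dvd.mul_left h7 _)

theorem mM1_class (H : BH S T W0 B δ0 δ1 δm δw δv len t2 w L g) (h : H1 S T W0 v l c c' a b B len t2) {μ : S.TX} (hμ : μ ∈ S.MX)
    {ν : S.TY} (hν : ν ∈ S.MY) (ha : (mM1 S T W0 v l c' a b t2 w L g).adm μ ν) :
    ∃ r : ℕ, (∀ n ∈ Ioc a b, (S.prX id μ ∣ (x1 T W0 v l c' n).toNat ∧ S.prY id ν ∣ (x1 T W0 v l c' n).toNat - T.D * T.N) ↔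
      n ≡ r [MOD S.prX id μ * S.prY id ν]) ∧ (t2 → r.Coprime (S.prX id μ * S.prY id ν)) := by
  have hPX : ∀ p : ℕ, p.Prime → p ∣ S.prX id μ → ¬ p ∣ W0 ^ 2 * T.N ∧ T.y0 < p := fun p hp hd => H.sets.pX hμ hp hd
  have hPY : ∀ p : ℕ, p.Prime → p ∣ S.prY id ν → ¬ p ∣ W0 ^ 2 * T.N ∧ T.y0 < p := fun p hp hd => H.sets.pY hν hp hd
  have ha1 : (S.prX id μ * S.prY id ν).Coprime (l * v) := ha.1
  have ha2 : (S.prX id μ).Coprime (S.prY id ν) := ha.2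
  have hX0 : 0 < S.prX id μ := Nat.pos_of_ne_zero (H.sets.sqX hμ).ne_zero
  have hY0 : 0 < S.prY id ν := Nat.pos_of_ne_zero (H.sets.sqY hν).ne_zero
  obtain ⟨r, hr, hc⟩ := lin_class (l * v) (S.prX id μ) (S.prY id ν) (c' * ((W0 ^ 2 * T.N : ℕ) : ℤ))
    (l * (c * ((W0 ^ 2 * T.N : ℕ) : ℤ))) hX0 hY0 ha2 (Nat.Coprime.coprime_mul_right ha1).symm
    (Nat.Coprime.coprime_mul_left ha1).symm
  refine ⟨r, fun n hn => ?_, fun ht => hc ?_ ?_⟩
  · obtain ⟨hx0, hx1, hx2⟩ := mM1_X H h hn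
    rw [← hr n]
    refine and_congr ?_ ?_
    · rw [← Int.natCast_dvd_natCast, Int.toNat_of_nonneg hx0]
      have e : x1 T W0 v l c' n = ((l * v : ℕ) : ℤ) * n + c' * ((W0 ^ 2 * T.N : ℕ) : ℤ) := by
        unfold x1
        push_cast
        ring
      rw [e]
    · rw [← Int.natCast_dvd_natCast, hx2]
      have e : (l : ℤ) * ((v : ℤ) * n + c * ((W0 ^ 2 * T.N : ℕ) : ℤ)) =
          ((l * v : ℕ) : ℤ) * n + l * (c * ((W0 ^ 2 * T.N : ℕ) : ℤ)) := by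
        push_cast
        ring
      rw [e]
  · refine Nat.coprime_of_dvd fun p hp hd1 hd2 => ?_
    obtain ⟨h4, h5⟩ := hPX p hp hd2
    rcases Int.Prime.dvd_mul' hp (Int.natCast_dvd.2 hd1) with h6 | h6
    · have := C02_prime_int hp (h.c2 ht).2 h.cb' h6
      omega
    · exact h4 (Int.natCast_dvd_natCast.1 h6)
  · refine Nat.coprime_of_dvd fun p hp hd1 hd2 => ?_
    obtain ⟨h4, h5⟩ := hPY p hp hd2
    rcases Int.Prime.dvd_mul' hp (Int.natCast_dvd.2 hd1) with h6 | h6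
    · exact C02_pX H h hp h5 (Int.natCast_dvd_natCast.1 h6)
    · rcases Int.Prime.dvd_mul' hp h6 with h7 | h7
      · have := C02_prime_int hp (h.c2 ht).1 h.cb h7
        omega
      · exact h4 (Int.natCast_dvd_natCast.1 h7)

end

end Pool.Agent.Lib.TCB
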