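import Pool.Agent.Lib.MP_7b7e48_nt.BR.C02

/-!
# Module C03 (110 minutes): (M1) is a measure

PROOF of `mM1_ok`, field by field. `cl μ ν q r = ∑ n ∈ (Ioc a b).filter (n ≡ r [MOD q] ∧ marks), w n` (`nm = b`, `Om = 0` off `Ioc a b`). `M := mM1 ..`, `P := prX μ prY ν` (squarefree for admissible pairs, primes not dividing `R`, `BH.size`).
`eq`: `mM1_class`, `two_class`, `split_q`: the sum runs over one class modulo `qW (q2 P)`, unit if `t2`; `Wei.eq` with `q2 P`; `dq g (q P) = gq q * prX g μ * prY g ν` (`dq_mul`, `dq_sq`, `dq_prX`, `dq_prY`); `q P ≤ N ^ δ0 N ^ δm ≤ R ^ δw`; error `R ^ (-δv) W ≤ N ^ (-δ1) W`.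
`eq0`: the same with `Wei.eq0`. `eq2`: `τ = 1`, so the second case; `sq_class`: no `n`, or one class modulo `p P`: `Wei.eq` with `q2 = p P` (`p ≤ z ≤ N ^ δ0`), `dq_sqp`: `ms/p + error`. `up`: admissible: `eq` with `q = 1`, `r = 0`; else `mM1_none`: the sum is `0` (`ms ≥ 0`).
`g_small`, `g_large`, `hX_nonneg` from `Wei`. `x0_t2`: `c' ≠ 0` and `c ≠ 0`: `x0 = c' R ≠ 0`, `D N - x0 = - l c R ≠ 0`. `X_big`: `H1.big` and `mM1_X`. `v_cop`: from `lc`, `vc`.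
-/

set_option autoImplicit false

open Finset

namespace Pool.Agent.Lib.TCB

open Pool.Agent.Lib.RG (Rough)
open Pool.Agent.Lib.TC (MS Msr)

section

variable {S : MS} {T : TC.Dat} {W0 B v l a b : ℕ} {c c' : ℤ} {δ0 δ1 δm δw δv len : ℝ} {t2 : Prop} {w : ℕ → ℝ} {L : ℝ} {g : ℕ → ℝ}

private theorem c03_W0 (H : BH S T W0 B δ0 δ1 δm δw δv len t2 w L g) : 1 ≤ W0 :=
  Nat.one_le_iff_ne_zero.2 H.w0.ne_zero

private theorem c03_N (H : BH S T W0 B δ0 δ1 δm δw δv len t2 w L g) : (1 : ℝ) ≤ T.N := by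
  have := H.N2
  exact_mod_cast (by omega : 1 ≤ T.N)

private theorem c03_NR (H : BH S T W0 B δ0 δ1 δm δw δv len t2 w L g) :
    (T.N : ℝ) ≤ ((W0 ^ 2 * T.N : ℕ) : ℝ) := by
  exact_mod_cast Nat.le_mul_of_pos_left T.N (pow_pos (c03_W0 H) 2)

private theorem c03_len (H : BH S T W0 B δ0 δ1 δm δw δv len t2 w L g) (h : H1 S T W0 v l c c' a b B len t2) :
    (0 : ℝ) < (b : ℝ) - a := by
  have h1 : (0 : ℝ) < (T.N : ℝ) ^ δ1 := Real.rpow_pos_of_pos (by linarith [c03_N H]) _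
  linarith [H.e4, h.lab]

private theorem c03_W (H : BH S T W0 B δ0 δ1 δm δw δv len t2 w L g) (h : H1 S T W0 v l c c' a b B len t2) :
    0 < L * ((b : ℝ) - a) := mul_pos H.wei.L_pos (c03_len H h)

private theorem c03_lev (H : BH S T W0 B δ0 δ1 δm δw δv len t2 w L g) {x : ℝ}
    (hx : x ≤ (T.N : ℝ) ^ δ0 * (T.N : ℝ) ^ δm) : x ≤ ((W0 ^ 2 * T.N : ℕ) : ℝ) ^ δw := by
  have hN := c03_N H
  have hR := c03_NR H
  calc x ≤ (T.N : ℝ) ^ δ0 * (T.N : ℝ) ^ δm := hx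
    _ = (T.N : ℝ) ^ (δ0 + δm) := by rw [← Real.rpow_add (by linarith)]
    _ ≤ (T.N : ℝ) ^ δw := Real.rpow_le_rpow_of_exponent_le hN H.e1
    _ ≤ ((W0 ^ 2 * T.N : ℕ) : ℝ) ^ δw :=
        Real.rpow_le_rpow (by linarith) hR (by linarith [H.e0, H.em, H.e1])

private theorem c03_err (H : BH S T W0 B δ0 δ1 δm δw δv len t2 w L g) (h : H1 S T W0 v l c c' a b B len t2) :
    ((W0 ^ 2 * T.N : ℕ) : ℝ) ^ (-δv) * (L * ((b : ℝ) - a)) ≤ (T.N : ℝ) ^ (-δ1) * (L * ((b : ℝ) - a)) := by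
  refine mul_le_mul_of_nonneg_right ?_ (c03_W H h).le
  have h1 : (0 : ℝ) ≤ ((W0 ^ 2 * T.N : ℕ) : ℝ) ^ (-δv) := by positivity
  linarith [H.e3]

private theorem c03_wei (H : BH S T W0 B δ0 δ1 δm δw δv len t2 w L g) (h : H1 S T W0 v l c c' a b B len t2)
    {qW q2 s : ℕ} (h1 : qW ∣ W0) (h2 : 0 < q2) (h3 : q2.Coprime (W0 ^ 2 * T.N))
    (h4 : ((qW * q2 : ℕ) : ℝ) ≤ (T.N : ℝ) ^ δ0 * (T.N : ℝ) ^ δm) (h5 : t2 → s.Coprime (qW * q2)) :
    |∑ n ∈ (Ioc a b).filter (fun n => n ≡ s [MOD qW * q2]), w n - L * ((b : ℝ) - a) * dq g (qW * q2)| ≤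
      (T.N : ℝ) ^ (-δ1) * (L * ((b : ℝ) - a)) :=
  (H.wei.eq a b h.ab h.bB h.lab qW q2 s h1 h2 h3 (c03_lev H h4) h5).trans (c03_err H h)

private theorem c03_wei0 (H : BH S T W0 B δ0 δ1 δm δw δv len t2 w L g) (h : H1 S T W0 v l c c' a b B len t2)
    (ht : t2) {qW q2 s p : ℕ} (h1 : qW ∣ W0) (h2 : 0 < q2) (h3 : q2.Coprime (W0 ^ 2 * T.N))
    (h4 : ((qW * q2 : ℕ) : ℝ) ≤ (T.N : ℝ) ^ δ0 * (T.N : ℝ) ^ δm) (h5 : s.Coprime (qW * q2))
    (hp : p.Prime) (hpy : T.y0 < p) (hpq : ¬ p ∣ q2) :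
    ∑ n ∈ (Ioc a b).filter (fun n => n ≡ s [MOD qW * q2] ∧ p ∣ n), w n ≤
      4 / p * (L * ((b : ℝ) - a) * dq g (qW * q2)) + (T.N : ℝ) ^ (-δ1) * (L * ((b : ℝ) - a)) := by
  have h6 := H.wei.eq0 ht a b h.ab h.bB h.lab qW q2 s p h1 h2 h3 (c03_lev H h4) h5 hp hpy hpq
  have h7 := c03_err H h
  linarith

private theorem c03_cop (H : BH S T W0 B δ0 δ1 δm δw δv len t2 w L g) {μ : S.TX} (hμ : μ ∈ S.MX)
    {ν : S.TY} (hν : ν ∈ S.MY) : (S.prX id μ * S.prY id ν).Coprime (W0 ^ 2 * T.N) := by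
  refine Nat.coprime_of_dvd fun p hp h1 h2 => ?_
  rcases (Nat.Prime.dvd_mul hp).1 h1 with h3 | h3
  · exact (H.sets.pX hμ hp h3).1 h2
  · exact (H.sets.pY hν hp h3).1 h2

private theorem c03_pos (H : BH S T W0 B δ0 δ1 δm δw δv len t2 w L g) {μ : S.TX} (hμ : μ ∈ S.MX)
    {ν : S.TY} (hν : ν ∈ S.MY) : 0 < S.prX id μ * S.prY id ν :=
  Nat.mul_pos (Nat.pos_of_ne_zero (H.sets.sqX hμ).ne_zero) (Nat.pos_of_ne_zero (H.sets.sqY hν).ne_zero)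

private theorem c03_dqP (H : BH S T W0 B δ0 δ1 δm δw δv len t2 w L g) {μ : S.TX} (hμ : μ ∈ S.MX)
    {ν : S.TY} (hν : ν ∈ S.MY) (hc : (S.prX id μ).Coprime (S.prY id ν)) :
    dq g (S.prX id μ * S.prY id ν) = S.prX g μ * S.prY g ν := by
  rw [dq_mul g _ _ (H.sets.sqX hμ) (H.sets.sqY hν) hc, dq_prX H.sets hμ, dq_prY H.sets hν]

private theorem c03_g0 (H : BH S T W0 B δ0 δ1 δm δw δv len t2 w L g) {μ : S.TX} (hμ : μ ∈ S.MX)
    {ν : S.TY} (hν : ν ∈ S.MY) : 0 ≤ S.prX g μ * S.prY g ν := by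
  refine mul_nonneg ?_ ?_
  · rw [prX_eq]
    refine prod_nonneg fun k _ => ?_
    exact (H.wei.g_nonneg _ (H.sets.px k _ (Fintype.mem_piFinset.1 (jX_mem hμ) k)).1).1
  · rw [prY_eq]
    refine prod_nonneg fun k _ => ?_
    exact (H.wei.g_nonneg _ (H.sets.py k _ (Fintype.mem_piFinset.1 (jY_mem hν) k)).1).1

/-- the support of the weights -/
private theorem c03_supp {μ : S.TX} {ν : S.TY} {n : ℕ}
    (hn : (mM1 S T W0 v l c' a b t2 w L g).Om μ ν n ≠ 0) :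
    n ∈ Ioc a b ∧ S.prX id μ ∣ (x1 T W0 v l c' n).toNat ∧
      S.prY id ν ∣ (x1 T W0 v l c' n).toNat - T.D * T.N ∧ w n ≠ 0 := by
  classical
  by_contra hcon
  apply hn
  unfold mM1
  simp only
  by_cases h1 : n ∈ Ioc a b ∧ S.prX id μ ∣ (x1 T W0 v l c' n).toNat ∧
      S.prY id ν ∣ (x1 T W0 v l c' n).toNat - T.D * T.N
  · rw [if_pos h1]
    by_contra h2
    exact hcon ⟨h1.1, h1.2.1, h1.2.2, h2⟩
  · rw [if_neg h1]

private theorem c03_sum {μ : S.TX} {ν : S.TY} {r1 : ℕ}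
    (hr1 : ∀ n ∈ Ioc a b, (S.prX id μ ∣ (x1 T W0 v l c' n).toNat ∧
      S.prY id ν ∣ (x1 T W0 v l c' n).toNat - T.D * T.N) ↔ n ≡ r1 [MOD S.prX id μ * S.prY id ν])
    (Q : ℕ → Prop) [DecidablePred Q] :
    ∑ n ∈ (range (b + 1)).filter Q, (mM1 S T W0 v l c' a b t2 w L g).Om μ ν n =
      ∑ n ∈ (Ioc a b).filter (fun n => Q n ∧ n ≡ r1 [MOD S.prX id μ * S.prY id ν]), w n := by
  classical
  have h1 : ∀ n : ℕ, (mM1 S T W0 v l c' a b t2 w L g).Om μ ν n =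
      if n ∈ Ioc a b ∧ n ≡ r1 [MOD S.prX id μ * S.prY id ν] then w n else 0 := by
    intro n
    unfold mM1
    simp only
    by_cases h2 : n ∈ Ioc a b
    · by_cases h3 : n ≡ r1 [MOD S.prX id μ * S.prY id ν]
      · rw [if_pos ⟨h2, (hr1 n h2).2 h3⟩, if_pos ⟨h2, h3⟩]
      · rw [if_neg fun h4 => h3 ((hr1 n h2).1 h4.2), if_neg fun h4 => h3 h4.2]
    · rw [if_neg fun h4 => h2 h4.1, if_neg fun h4 => h2 h4.1]
  rw [sum_congr rfl fun n _ => h1 n, ← sum_filter, filter_filter]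
  refine sum_congr ?_ fun _ _ => rfl
  ext n
  rw [mem_filter, mem_filter, mem_range, mem_Ioc]
  constructor
  · rintro ⟨_, h3, h4, h5⟩
    exact ⟨h4, h3, h5⟩
  · rintro ⟨h3, h4, h5⟩
    exact ⟨by omega, h4, h3, h5⟩

/-- one class -/
private theorem c03_eq (H : BH S T W0 B δ0 δ1 δm δw δv len t2 w L g) (h : H1 S T W0 v l c c' a b B len t2)
    {μ : S.TX} (hμ : μ ∈ S.MX) {ν : S.TY} (hν : ν ∈ S.MY) (ha : (mM1 S T W0 v l c' a b t2 w L g).adm μ ν)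
    {q : ℕ} (hq : Squarefree q) (hqN : (q : ℝ) ≤ (T.N : ℝ) ^ δ0)
    (hqP : q.Coprime (S.prX id μ * S.prY id ν))
    (hqW : ∀ p : ℕ, p.Prime → p ∣ q → p ∣ W0 ∨ ¬ p ∣ T.N) (r : ℕ) (hr : t2 → r.Coprime q) :
    |∑ n ∈ (range (b + 1)).filter (fun n => n ≡ r [MOD q]), (mM1 S T W0 v l c' a b t2 w L g).Om μ ν n -
      L * ((b : ℝ) - a) * (S.prX g μ * S.prY g ν) * dq g q| ≤
      (T.N : ℝ) ^ (-δ1) * (L * ((b : ℝ) - a)) := by
  obtain ⟨r1, hr1, hr2⟩ := mM1_class H h hμ hν ha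
  obtain ⟨qW, q2, e1, e2, e3, e4, e5⟩ := split_q q W0 T.N hq hqW
  have hP := c03_pos H hμ hν
  obtain ⟨s, hs1, hs2⟩ := two_class q (S.prX id μ * S.prY id ν) r r1 (Nat.pos_of_ne_zero hq.ne_zero) hP hqP
  rw [c03_sum hr1]
  have e6 : qW * (q2 * (S.prX id μ * S.prY id ν)) = q * (S.prX id μ * S.prY id ν) := by
    rw [e1, mul_assoc]
  have h4 : ((qW * (q2 * (S.prX id μ * S.prY id ν)) : ℕ) : ℝ) ≤ (T.N : ℝ) ^ δ0 * (T.N : ℝ) ^ δm := by
    rw [e6, Nat.cast_mul]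
    exact mul_le_mul hqN (H.size μ hμ ν hν) (Nat.cast_nonneg _) (by positivity)
  have h5 : t2 → s.Coprime (qW * (q2 * (S.prX id μ * S.prY id ν))) := by
    intro ht
    rw [e6]
    exact hs2 (hr ht) (hr2 ht)
  have h6 := c03_wei H h e2 (Nat.mul_pos e3 hP) (Nat.Coprime.mul_left e4 (c03_cop H hμ hν)) h4 h5
  rw [e6, dq_mul g q _ hq ((Nat.squarefree_mul ha.2).2 ⟨H.sets.sqX hμ, H.sets.sqY hν⟩) hqP,
    c03_dqP H hμ hν ha.2] at h6
  have h7 : (Ioc a b).filter (fun n => n ≡ r [MOD q] ∧ n ≡ r1 [MOD S.prX id μ * S.prY id ν]) =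
      (Ioc a b).filter (fun n => n ≡ s [MOD q * (S.prX id μ * S.prY id ν)]) :=
    filter_congr fun n _ => hs1 n
  rw [h7]
  have h8 : L * ((b : ℝ) - a) * (S.prX g μ * S.prY g ν) * dq g q =
      L * ((b : ℝ) - a) * (dq g q * (S.prX g μ * S.prY g ν)) := by ring
  rw [h8]
  exact h6

private theorem c03_eq0 (H : BH S T W0 B δ0 δ1 δm δw δv len t2 w L g) (h : H1 S T W0 v l c c' a b B len t2)
    (ht : t2) {μ : S.TX} (hμ : μ ∈ S.MX) {ν : S.TY} (hν : ν ∈ S.MY)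
    (ha : (mM1 S T W0 v l c' a b t2 w L g).adm μ ν)
    {q : ℕ} (hq : Squarefree q) (hqN : (q : ℝ) ≤ (T.N : ℝ) ^ δ0)
    (hqP : q.Coprime (S.prX id μ * S.prY id ν))
    (hqW : ∀ p : ℕ, p.Prime → p ∣ q → p ∣ W0 ∨ ¬ p ∣ T.N) {p : ℕ} (hp : p.Prime) (hpy : T.y0 < p)
    (hpq : ¬ p ∣ q * (S.prX id μ * S.prY id ν)) (r : ℕ) (hr : r.Coprime q) :
    ∑ n ∈ (range (b + 1)).filter (fun n => n ≡ r [MOD q] ∧ p ∣ n),
      (mM1 S T W0 v l c' a b t2 w L g).Om μ ν n ≤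
      4 / p * (L * ((b : ℝ) - a) * (S.prX g μ * S.prY g ν)) * dq g q +
        (T.N : ℝ) ^ (-δ1) * (L * ((b : ℝ) - a)) := by
  obtain ⟨r1, hr1, hr2⟩ := mM1_class H h hμ hν ha
  obtain ⟨qW, q2, e1, e2, e3, e4, e5⟩ := split_q q W0 T.N hq hqW
  have hP := c03_pos H hμ hν
  obtain ⟨s, hs1, hs2⟩ := two_class q (S.prX id μ * S.prY id ν) r r1 (Nat.pos_of_ne_zero hq.ne_zero) hP hqP
  rw [c03_sum hr1]
  have e6 : qW * (q2 * (S.prX id μ * S.prY id ν)) = q * (S.prX id μ * S.prY id ν) := by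
    rw [e1, mul_assoc]
  have h4 : ((qW * (q2 * (S.prX id μ * S.prY id ν)) : ℕ) : ℝ) ≤ (T.N : ℝ) ^ δ0 * (T.N : ℝ) ^ δm := by
    rw [e6, Nat.cast_mul]
    exact mul_le_mul hqN (H.size μ hμ ν hν) (Nat.cast_nonneg _) (by positivity)
  have h5 : s.Coprime (qW * (q2 * (S.prX id μ * S.prY id ν))) := by
    rw [e6]
    exact hs2 hr (hr2 ht)
  have h9 : ¬ p ∣ q2 * (S.prX id μ * S.prY id ν) := by
    intro h10
    apply hpq
    rw [e1, mul_assoc]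
    exact h10.mul_left qW
  have h6 := c03_wei0 H h ht e2 (Nat.mul_pos e3 hP) (Nat.Coprime.mul_left e4 (c03_cop H hμ hν)) h4 h5
    hp hpy h9
  rw [e6, dq_mul g q _ hq ((Nat.squarefree_mul ha.2).2 ⟨H.sets.sqX hμ, H.sets.sqY hν⟩) hqP,
    c03_dqP H hμ hν ha.2] at h6
  have h7 : (Ioc a b).filter (fun n => (n ≡ r [MOD q] ∧ p ∣ n) ∧ n ≡ r1 [MOD S.prX id μ * S.prY id ν]) =
      (Ioc a b).filter (fun n => n ≡ s [MOD q * (S.prX id μ * S.prY id ν)] ∧ p ∣ n) := by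
    refine filter_congr fun n _ => ?_
    rw [← hs1 n]
    tauto
  rw [h7]
  have h8 : 4 / (p : ℝ) * (L * ((b : ℝ) - a) * (S.prX g μ * S.prY g ν)) * dq g q =
      4 / (p : ℝ) * (L * ((b : ℝ) - a) * (dq g q * (S.prX g μ * S.prY g ν))) := by ring
  rw [h8]
  exact h6

private theorem c03_eq2 (H : BH S T W0 B δ0 δ1 δm δw δv len t2 w L g) (h : H1 S T W0 v l c c' a b B len t2)
    {μ : S.TX} (hμ : μ ∈ S.MX) {ν : S.TY} (hν : ν ∈ S.MY) (ha : (mM1 S T W0 v l c' a b t2 w L g).adm μ ν)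
    {p : ℕ} (hp : p.Prime) (hpz : p ≤ T.z) (hpP : p ∣ S.prX id μ * S.prY id ν) (r : ℕ) :
    ∑ n ∈ (range (b + 1)).filter (fun n => n ≡ r [MOD p ^ 2]), (mM1 S T W0 v l c' a b t2 w L g).Om μ ν n ≤
      4 / p * (L * ((b : ℝ) - a) * (S.prX g μ * S.prY g ν)) + (T.N : ℝ) ^ (-δ1) * (L * ((b : ℝ) - a)) := by
  obtain ⟨r1, hr1, hr2⟩ := mM1_class H h hμ hν ha
  have hP := c03_pos H hμ hν
  have hPs : Squarefree (S.prX id μ * S.prY id ν) :=
    (Nat.squarefree_mul ha.2).2 ⟨H.sets.sqX hμ, H.sets.sqY hν⟩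
  have hW := c03_W H h
  have hg := c03_g0 H hμ hν
  have hp0 : (0 : ℝ) < p := by exact_mod_cast hp.pos
  have hN0 : (0 : ℝ) ≤ (T.N : ℝ) ^ (-δ1) := by positivity
  rw [c03_sum hr1]
  rcases sq_class p (S.prX id μ * S.prY id ν) r r1 hp hPs hpP with h1 | ⟨s, hs1, hs2⟩
  · have h7 : (Ioc a b).filter (fun n => n ≡ r [MOD p ^ 2] ∧ n ≡ r1 [MOD S.prX id μ * S.prY id ν]) = ∅ :=
      filter_eq_empty_iff.2 fun n _ => h1 n
    rw [h7, sum_empty]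
    positivity
  · have h7 : (Ioc a b).filter (fun n => n ≡ r [MOD p ^ 2] ∧ n ≡ r1 [MOD S.prX id μ * S.prY id ν]) =
        (Ioc a b).filter (fun n => n ≡ s [MOD 1 * (p * (S.prX id μ * S.prY id ν))]) := by
      refine filter_congr fun n _ => ?_
      rw [one_mul]
      exact hs1 n
    rw [h7]
    have h4 : ((1 * (p * (S.prX id μ * S.prY id ν)) : ℕ) : ℝ) ≤ (T.N : ℝ) ^ δ0 * (T.N : ℝ) ^ δm := by
      rw [one_mul, Nat.cast_mul]
      have h8 : (p : ℝ) ≤ T.z := by exact_mod_cast hpz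
      exact mul_le_mul (h8.trans H.zle) (H.size μ hμ ν hν) (Nat.cast_nonneg _) (by positivity)
    have h5 : t2 → s.Coprime (1 * (p * (S.prX id μ * S.prY id ν))) := by
      intro ht
      rw [one_mul]
      exact hs2 (hr2 ht)
    have hcop := c03_cop H hμ hν
    have h6 := c03_wei H h (one_dvd W0) (Nat.mul_pos hp.pos hP)
      (Nat.Coprime.mul_left (Nat.Coprime.of_dvd_left hpP hcop) hcop) h4 h5
    have h9 : dq g (1 * (p * (S.prX id μ * S.prY id ν))) = (S.prX g μ * S.prY g ν) / p := by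
      rw [one_mul, dq_sqp g p _ hp hPs hpP, c03_dqP H hμ hν ha.2]
    rw [h9] at h6
    have h10 := (abs_le.1 h6).2
    have h11 : L * ((b : ℝ) - a) * ((S.prX g μ * S.prY g ν) / p) ≤
        4 / p * (L * ((b : ℝ) - a) * (S.prX g μ * S.prY g ν)) := by
      have h12 : L * ((b : ℝ) - a) * ((S.prX g μ * S.prY g ν) / p) =
          1 / p * (L * ((b : ℝ) - a) * (S.prX g μ * S.prY g ν)) := by ring
      rw [h12]
      refine mul_le_mul_of_nonneg_right ?_ (mul_nonneg hW.le hg)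
      exact div_le_div_of_nonneg_right (by norm_num) hp0.le
    linarith

end

theorem mM1_ok {S : MS} {T : TC.Dat} {W0 B v l a b : ℕ} {c c' : ℤ} {δ0 δ1 δm δw δv len : ℝ} {t2 : Prop} {w : ℕ → ℝ} {L : ℝ}
    {g : ℕ → ℝ} (H : BH S T W0 B δ0 δ1 δm δw δv len t2 w L g) (h : H1 S T W0 v l c c' a b B len t2) :
    (mM1 S T W0 v l c' a b t2 w L g).OK T W0 δ0 δ1 := by
  classical
  have hN2 := H.N2
  have hNr := c03_N H
  have hW := c03_W H h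
  have hW0 := c03_W0 H
  have hR : (0 : ℤ) < ((W0 ^ 2 * T.N : ℕ) : ℤ) := by
    exact_mod_cast Nat.mul_pos (pow_pos hW0 2) (by omega : 0 < T.N)
  have hdN : (W0 * T.N) ∣ (W0 ^ 2 * T.N) := ⟨W0, by ring⟩
  have hDN : ((T.D * T.N : ℕ) : ℤ) = (c' - l * c) * ((W0 ^ 2 * T.N : ℕ) : ℤ) := by
    push_cast
    rw [h.D]
    ring
  refine
    { W_pos := hW
      v_pos := Nat.mul_pos h.l0 h.v0
      v_le := h.vl
      v_cop := Nat.Coprime.mul_left (Nat.Coprime.coprime_dvd_right hdN h.lc)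
        (Nat.Coprime.coprime_dvd_right hdN h.vc)
      tau_cases := Or.inl fun _ _ => rfl
      x0_form := ⟨c', h.cb', rfl⟩
      x0_t2 := ?_
      Om_nonneg := ?_
      nm_bd := fun μ ν n hn => (mem_Ioc.1 (c03_supp hn).1).2
      nm_le := h.b3
      X_eq := ?_
      X_dvd := fun μ ν n hn => (c03_supp hn).2.1
      Y_dvd := fun μ ν n hn => (c03_supp hn).2.2.1
      Y_pos := fun μ ν n hn => (mM1_X H h (c03_supp hn).1).2.1
      X_big := ?_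
      X_le := ?_
      hX_nonneg := H.wei.g_nonneg
      hY_nonneg := H.wei.g_nonneg
      g_small := fun p hp hpy => ⟨fun ht => H.wei.g_one ht p, fun ht => H.wei.g_small ht p hp hpy⟩
      g_large := fun p hp _ => H.wei.g_nonneg p hp
      t2_small := ?_
      up := ?_
      eq := ?_
      eq0 := ?_
      eq2 := ?_ }
  · intro ht
    obtain ⟨hc1, hc2⟩ := h.c2 ht
    refine Or.inr ⟨mul_ne_zero hc2 hR.ne', ?_⟩
    intro hx
    have hx2 : c' * ((W0 ^ 2 * T.N : ℕ) : ℤ) = (c' - l * c) * ((W0 ^ 2 * T.N : ℕ) : ℤ) := by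
      rw [← hDN]
      push_cast
      exact_mod_cast hx
    have hx3 := mul_right_cancel₀ hR.ne' hx2
    have hx4 : (l : ℤ) * c = 0 := by linarith
    rcases mul_eq_zero.1 hx4 with h5 | h5
    · have := h.l0
      omega
    · exact hc1 h5
  · intro μ ν n
    unfold mM1
    simp only
    split_ifs
    · exact H.wei.nonneg n
    · exact le_rfl
  · intro μ ν n hn
    obtain ⟨h1, h2, h3⟩ := mM1_X H h (c03_supp hn).1
    show (((x1 T W0 v l c' n).toNat : ℕ) : ℤ) = ((l * v : ℕ) : ℤ) * ((1 : ℕ) : ℤ) * n +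
      c' * ((W0 ^ 2 * T.N : ℕ) : ℤ)
    rw [Int.toNat_of_nonneg h1]
    unfold x1
    push_cast
    ring
  · intro μ ν n hn
    obtain ⟨h1, h2, h3⟩ := mM1_X H h (c03_supp hn).1
    have h4 := h.big n (c03_supp hn).1
    have h5 : (((x1 T W0 v l c' n).toNat : ℕ) : ℝ) = ((x1 T W0 v l c' n : ℤ) : ℝ) := by
      have h6 : (((x1 T W0 v l c' n).toNat : ℕ) : ℤ) = x1 T W0 v l c' n := Int.toNat_of_nonneg h1
      exact_mod_cast h6
    have h6 : (((x1 T W0 v l c' n).toNat : ℕ) : ℝ) - T.D * T.N =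
        (l : ℝ) * ((v : ℝ) * n + c * ((W0 ^ 2 * T.N : ℕ) : ℝ)) := by
      rw [Nat.cast_sub h2.le] at h3
      have h7 : ((((x1 T W0 v l c' n).toNat : ℤ) - ((T.D * T.N : ℕ) : ℤ) : ℤ) : ℝ) =
          ((l * ((v : ℤ) * n + c * ((W0 ^ 2 * T.N : ℕ) : ℤ)) : ℤ) : ℝ) := by rw [h3]
      push_cast at h7
      push_cast
      exact h7
    show Real.exp (18 * (S.k + 1)) * ((((x1 T W0 v l c' n).toNat : ℕ) : ℝ) - T.D * T.N) ≤
      (((x1 T W0 v l c' n).toNat : ℕ) : ℝ)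
    rw [h6, h5]
    exact h4
  · intro μ ν n hn
    have h4 := h.le2 n (c03_supp hn).1
    show (x1 T W0 v l c' n).toNat ≤ T.N ^ 2
    have h5 : ((T.N ^ 2 : ℕ) : ℤ) = (T.N : ℤ) ^ 2 := by push_cast; rfl
    omega
  · intro ht μ ν n hn p hp hpy hpn
    have h1 := H.wei.rough ht n (c03_supp hn).2.2.2 p hp hpn
    omega
  · intro μ hμ ν hν
    have hg := c03_g0 H hμ hν
    have hms : 0 ≤ L * ((b : ℝ) - a) * (S.prX g μ * S.prY g ν) := mul_nonneg hW.le hg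
    have hN0 : (0 : ℝ) ≤ (T.N : ℝ) ^ (-δ1) * (L * ((b : ℝ) - a)) := mul_nonneg (by positivity) hW.le
    show ∑ n ∈ (range (b + 1)).filter (fun n => n ≡ 0 [MOD 1]), (mM1 S T W0 v l c' a b t2 w L g).Om μ ν n ≤
      2 * (L * ((b : ℝ) - a) * (S.prX g μ * S.prY g ν)) + (T.N : ℝ) ^ (-δ1) * (L * ((b : ℝ) - a))
    by_cases ha : (mM1 S T W0 v l c' a b t2 w L g).adm μ ν
    · have h1 : ((1 : ℕ) : ℝ) ≤ (T.N : ℝ) ^ δ0 := by
        rw [Nat.cast_one]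
        exact Real.one_le_rpow hNr H.e0
      have h2 := c03_eq H h hμ hν ha squarefree_one h1 (Nat.coprime_one_left _)
        (fun p hp h3 => absurd (Nat.dvd_one.1 h3) hp.ne_one) 0 (fun _ => Nat.coprime_one_right _)
      rw [dq_one, mul_one] at h2
      linarith [(abs_le.1 h2).2]
    · have h1 : ∀ n ∈ (range (b + 1)).filter (fun n => n ≡ 0 [MOD 1]),
          (mM1 S T W0 v l c' a b t2 w L g).Om μ ν n = 0 := by
        intro n _
        by_contra hn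
        obtain ⟨h2, h3, h4, -⟩ := c03_supp hn
        exact mM1_none H h hμ hν ha h2 h3 h4
      rw [sum_eq_zero h1]
      linarith
  · intro μ hμ ν hν ha q hq hqN hqP hqW r hr
    have h1 := c03_eq H h hμ hν ha hq hqN hqP hqW r hr
    rw [dq_sq g q hq] at h1
    exact h1
  · intro ht μ hμ ν hν ha q hq hqN hqP hqW p hpl hpq r hr
    unfold TC.Dat.PL at hpl
    obtain ⟨-, h2, h3⟩ := mem_filter.1 hpl
    have h1 := c03_eq0 H h ht hμ hν ha hq hqN hqP hqW h2 h3 hpq r hr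
    rw [dq_sq g q hq] at h1
    exact h1
  · intro μ hμ ν hν ha p hpl hpP r
    unfold TC.Dat.PL at hpl
    obtain ⟨h1, h2, h3⟩ := mem_filter.1 hpl
    have h4 : ¬ p ∣ (mM1 S T W0 v l c' a b t2 w L g).tau μ ν := by
      show ¬ p ∣ 1
      intro h5
      exact h2.ne_one (Nat.dvd_one.1 h5)
    rw [if_neg h4]
    exact c03_eq2 H h hμ hν ha h2 (by have := mem_range.1 h1; omega) hpP r

end Pool.Agent.Lib.TCB
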