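import Pool.Agent.Lib.MP_7b7e48_nt.BR.C01

/-!
# Module C04 (120 minutes): (M3X) is a measure

`M := mM3 ..`. For fixed `μ` let `m = v prX μ`; `a < m n ≤ b` iff `n ∈ Ioc (a/m) (b/m)` (`Nat.div_lt_iff_lt_mul`, `Nat.le_div_iff_mul_le`), and `b/m - a/m = (b - a)/m + θ`, `|θ| ≤ 1`. `m ≤ N ^ δm v`, so `(b - a)/m ≥ 2 len` and `b/m - a/m ≥ len`; `b/m ≤ b/v ≤ B`; `L ≤ L (b - a)/(v len) ≤ N ^ (-δ1) W/4` (`BH.e4`).
`mM3_none`: if `prY ν` is not coprime to `m` then no `n` with `X = m n > D N` has `prY ν ∣ X - D N`: a common prime `p` divides `D N`, so `p ∣ D` and `p ≤ y0`, but `p > y0`.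
`mM3_cl` (the law for all `μ`, `ν` with `(prY ν, m) = 1` and `q` coprime to `prY ν`): the condition `prY ν ∣ m n - D N` is one class modulo `prY ν`, unit (`D N` is coprime to `prY ν`): `lin_class` with `A = m`, `P1 = prY ν`, `P2 = 1`, `B1 = -D N`; then `two_class`, `split_q`, `Wei.eq` with `q2 prY ν`, `dq g (q prY ν) = gq q prY g ν`;
main term `L (b/m - a/m) gq q prY g ν = W (1/prX μ) prY g ν gq q + O(L)` and `gq q prY g ν ≤ 1` (`g p ≤ 1` : `g p ≤ 1/p + 2/p^2 ≤ 1` for `p ≥ 2`).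
`eq`: admissible pairs are coprime to `v` and to each other. `up`: `mM3_cl` with `q = 1`, or `mM3_none`. `eq0`: the same with `Wei.eq0`. `eq2`: if `p ∣ prX μ` (`= τ`): `n ≡ r (mod p)`: if `t2` and `p ∣ r`: `Wei.eq0` with `q2 = prY ν`; else `Wei.eq` with `q2 = p prY ν`, `g p ≤ 2/p` (`p > y0 ≥ 1`, `p ≥ 2`);
if `p ∣ prY ν`: `sq_class`, `Wei.eq` with `q2 = p prY ν`, `dq_sqp`. `X_big`: `exp(..) (X - D N) ≤ exp(..) (b - D N) ≤ D N ≤ X`. `hX`: `1/p`. `prX (1/p) μ = 1/prX μ` (`prX_eq`, `Finset.prod_div_distrib`/`prod_inv`). `nm = b`: `n ≤ m n ≤ b`. `tau_cases`: second case.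
-/

set_option autoImplicit false

open Finset

namespace Pool.Agent.Lib.TCB

open Pool.Agent.Lib.RG (Rough)
open Pool.Agent.Lib.TC (MS Msr)

section

variable {S : MS} {T : TC.Dat} {W0 B v a b : ℕ} {δ0 δ1 δm δw δv len : ℝ} {t2 : Prop} {w : ℕ → ℝ} {L : ℝ} {g : ℕ → ℝ}

/-! ### basic facts -/

private theorem C04_posX (H : BH S T W0 B δ0 δ1 δm δw δv len t2 w L g) {μ : S.TX} (hμ : μ ∈ S.MX) :
    0 < S.prX id μ := Nat.pos_of_ne_zero (H.sets.sqX hμ).ne_zero

private theorem C04_posY (H : BH S T W0 B δ0 δ1 δm δw δv len t2 w L g) {ν : S.TY} (hν : ν ∈ S.MY) :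
    0 < S.prY id ν := Nat.pos_of_ne_zero (H.sets.sqY hν).ne_zero

private theorem C04_copR (H : BH S T W0 B δ0 δ1 δm δw δv len t2 w L g) {ν : S.TY} (hν : ν ∈ S.MY) :
    (S.prY id ν).Coprime (W0 ^ 2 * T.N) := by
  apply Nat.coprime_of_dvd
  intro p hp h1 h2
  exact (H.sets.pY hν hp h1).1 h2

private theorem C04_g (H : BH S T W0 B δ0 δ1 δm δw δv len t2 w L g) {p : ℕ} (hp : p.Prime) :
    0 ≤ g p ∧ g p ≤ 1 := by
  obtain ⟨h1, h2⟩ := H.wei.g_nonneg p hp
  have h3 : (2 : ℝ) ≤ p := by exact_mod_cast hp.two_le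
  refine ⟨h1, ?_⟩
  have h4 := (abs_le.1 h2).2
  have h5 : 1 / (p : ℝ) ≤ 1 / 2 := one_div_le_one_div_of_le (by norm_num) h3
  have h6 : 2 / (p : ℝ) ^ 2 ≤ 1 / 2 := by
    rw [div_le_div_iff₀ (by positivity) (by norm_num)]
    nlinarith
  linarith

private theorem C04_g2 (H : BH S T W0 B δ0 δ1 δm δw δv len t2 w L g) {p : ℕ} (hp : p.Prime) :
    g p ≤ 2 / p := by
  obtain ⟨h1, h2⟩ := H.wei.g_nonneg p hp
  have h3 : (2 : ℝ) ≤ p := by exact_mod_cast hp.two_le
  have h4 := (abs_le.1 h2).2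
  have h6 : 2 / (p : ℝ) ^ 2 ≤ 1 / p := by
    rw [div_le_div_iff₀ (by positivity) (by positivity)]
    nlinarith
  have h7 : 2 / (p : ℝ) = 1 / p + 1 / p := by ring
  linarith

private theorem C04_gY (H : BH S T W0 B δ0 δ1 δm δw δv len t2 w L g) {ν : S.TY} (hν : ν ∈ S.MY) :
    0 ≤ S.prY g ν ∧ S.prY g ν ≤ 1 := by
  rw [prY_eq]
  have h1 : ∀ c, (jY S ν c).Prime := fun c =>
    (H.sets.py c _ (Fintype.mem_piFinset.1 (jY_mem hν) c)).1
  exact ⟨prod_nonneg fun c _ => (C04_g H (h1 c)).1,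
    prod_le_one (fun c _ => (C04_g H (h1 c)).1) fun c _ => (C04_g H (h1 c)).2⟩

private theorem C04_gq (H : BH S T W0 B δ0 δ1 δm δw δv len t2 w L g) (q : ℕ) :
    0 ≤ ∏ p ∈ q.primeFactors, g p ∧ ∏ p ∈ q.primeFactors, g p ≤ 1 :=
  ⟨prod_nonneg fun _ hp => (C04_g H (Nat.prime_of_mem_primeFactors hp)).1,
    prod_le_one (fun _ hp => (C04_g H (Nat.prime_of_mem_primeFactors hp)).1)
      fun _ hp => (C04_g H (Nat.prime_of_mem_primeFactors hp)).2⟩

private theorem C04_ms (H : BH S T W0 B δ0 δ1 δm δw δv len t2 w L g) (h : H3 S T W0 v a b B δm len)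
    {μ : S.TX} (hμ : μ ∈ S.MX) (ν : S.TY) : (mM3 S T v a b t2 w L g).ms μ ν =
      L * (((b : ℝ) - a) / ((v * S.prX id μ : ℕ) : ℝ)) * S.prY g ν := by
  have h1 : S.prX (fun p : ℕ => 1 / (p : ℝ)) μ = 1 / ((S.prX id μ : ℕ) : ℝ) := by
    rw [prX_eq, prX_eq, prod_div_distrib, prod_const_one]
    push_cast
    rfl
  have h2 : (0 : ℝ) < (S.prX id μ : ℕ) := by exact_mod_cast C04_posX H hμ
  have h3 : (0 : ℝ) < v := by exact_mod_cast h.v0
  change L * ((b : ℝ) - a) / v * (S.prX (fun p : ℕ => 1 / (p : ℝ)) μ * S.prY g ν) = _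
  rw [h1]
  push_cast
  field_simp

private theorem C04_N1 (H : BH S T W0 B δ0 δ1 δm δw δv len t2 w L g) : (1 : ℝ) ≤ T.N := by
  have := H.N2
  have h1 : 1 ≤ T.N := by omega
  exact_mod_cast h1

private theorem C04_pow (H : BH S T W0 B δ0 δ1 δm δw δv len t2 w L g) :
    (T.N : ℝ) ^ δ0 * (T.N : ℝ) ^ δm ≤ ((W0 ^ 2 * T.N : ℕ) : ℝ) ^ δw := by
  have hN := C04_N1 H
  have hN0 : (0 : ℝ) < T.N := by linarith
  have hR : (T.N : ℝ) ≤ ((W0 ^ 2 * T.N : ℕ) : ℝ) := by
    have : 0 < W0 := Nat.pos_of_ne_zero H.w0.ne_zero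
    exact_mod_cast Nat.le_mul_of_pos_left _ (pow_pos this 2)
  have hw0 : 0 ≤ δw := by linarith [H.e0, H.em, H.e1]
  rw [← Real.rpow_add hN0]
  exact (Real.rpow_le_rpow_of_exponent_le hN H.e1).trans (Real.rpow_le_rpow hN0.le hR hw0)

/-- the interval of the `n` -/
private theorem C04_int (H : BH S T W0 B δ0 δ1 δm δw δv len t2 w L g) (h : H3 S T W0 v a b B δm len)
    {μ : S.TX} (hμ : μ ∈ S.MX) {ν : S.TY} (hν : ν ∈ S.MY) :
    0 < v * S.prX id μ ∧ a / (v * S.prX id μ) ≤ b / (v * S.prX id μ) ∧ b / (v * S.prX id μ) ≤ B ∧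
    len ≤ ((b / (v * S.prX id μ) : ℕ) : ℝ) - ((a / (v * S.prX id μ) : ℕ) : ℝ) ∧
    |(((b / (v * S.prX id μ) : ℕ) : ℝ) - ((a / (v * S.prX id μ) : ℕ) : ℝ)) -
      ((b : ℝ) - a) / ((v * S.prX id μ : ℕ) : ℝ)| ≤ 1 ∧
    1 ≤ ((b : ℝ) - a) / ((v * S.prX id μ : ℕ) : ℝ) ∧
    ((b : ℝ) - a) / ((v * S.prX id μ : ℕ) : ℝ) ≤ ((b : ℝ) - a) / v := by
  have hN := C04_N1 H
  have hX := C04_posX H hμ
  have hY := C04_posY H hν
  set m : ℕ := v * S.prX id μ with hm
  have hm0 : 0 < m := Nat.mul_pos h.v0 hX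
  have hmr : (0 : ℝ) < m := by exact_mod_cast hm0
  have hvr : (0 : ℝ) < v := by exact_mod_cast h.v0
  have hab' : (a : ℝ) ≤ b := by exact_mod_cast h.ab
  have hlen : 4 ≤ len := by
    have : (1 : ℝ) ≤ (T.N : ℝ) ^ δ1 := Real.one_le_rpow hN H.e5
    linarith [H.e4]
  have hXle : ((S.prX id μ : ℕ) : ℝ) ≤ (T.N : ℝ) ^ δm := by
    refine le_trans ?_ (H.size μ hμ ν hν)
    exact_mod_cast Nat.le_mul_of_pos_right _ hY
  have hvm : (v : ℝ) ≤ m := by exact_mod_cast Nat.le_mul_of_pos_right v hX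
  have h1 : 2 * len ≤ ((b : ℝ) - a) / m := by
    rw [le_div_iff₀ hmr]
    refine le_trans ?_ h.lab
    have e1 : (m : ℝ) = v * ((S.prX id μ : ℕ) : ℝ) := by rw [hm]; push_cast; ring
    rw [e1]
    have := mul_le_mul_of_nonneg_left hXle (by positivity : (0 : ℝ) ≤ 2 * len * v)
    linarith
  have fa1 : ((a / m : ℕ) : ℝ) ≤ (a : ℝ) / m := Nat.cast_div_le
  have fb1 : ((b / m : ℕ) : ℝ) ≤ (b : ℝ) / m := Nat.cast_div_le
  have fa2 : (a : ℝ) / m ≤ ((a / m : ℕ) : ℝ) + 1 := by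
    rw [div_le_iff₀ hmr]
    have := (Nat.lt_mul_div_succ a hm0).le
    have h2 : (a : ℝ) ≤ ((m * (a / m + 1) : ℕ) : ℝ) := by exact_mod_cast this
    push_cast at h2
    push_cast
    linarith
  have fb2 : (b : ℝ) / m ≤ ((b / m : ℕ) : ℝ) + 1 := by
    rw [div_le_iff₀ hmr]
    have := (Nat.lt_mul_div_succ b hm0).le
    have h2 : (b : ℝ) ≤ ((m * (b / m + 1) : ℕ) : ℝ) := by exact_mod_cast this
    push_cast at h2
    push_cast
    linarith
  have e2 : ((b : ℝ) - a) / m = (b : ℝ) / m - (a : ℝ) / m := sub_div _ _ _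
  refine ⟨hm0, Nat.div_le_div_right h.ab, ?_, ?_, ?_, ?_, ?_⟩
  · refine le_trans (Nat.div_le_div_left (Nat.le_mul_of_pos_right v hX) h.v0) ?_
    exact Nat.div_le_of_le_mul (by rw [mul_comm]; exact h.bB)
  · linarith
  · rw [abs_le]
    constructor <;> linarith
  · linarith
  · exact div_le_div_of_nonneg_left (by linarith) hvr hvm

/-- `L ≤ N ^ (-δ1) W / 8` -/
private theorem C04_L (H : BH S T W0 B δ0 δ1 δm δw δv len t2 w L g) (h : H3 S T W0 v a b B δm len) :
    8 * L ≤ (T.N : ℝ) ^ (-δ1) * (L * ((b : ℝ) - a) / v) := by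
  have hN := C04_N1 H
  have hN0 : (0 : ℝ) < T.N := by linarith
  have hvr : (0 : ℝ) < v := by exact_mod_cast h.v0
  have hL := H.wei.L_pos
  have h1 : 1 ≤ (T.N : ℝ) ^ δm := Real.one_le_rpow hN H.em
  have hp : 0 < (T.N : ℝ) ^ δ1 := Real.rpow_pos_of_pos hN0 _
  have hlen : 0 < len := by linarith [H.e4]
  have h2 : 8 * (T.N : ℝ) ^ δ1 ≤ ((b : ℝ) - a) / v := by
    rw [le_div_iff₀ hvr]
    refine le_trans ?_ h.lab
    have h3 : 8 * (T.N : ℝ) ^ δ1 ≤ 2 * len * (T.N : ℝ) ^ δm := by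
      calc 8 * (T.N : ℝ) ^ δ1 ≤ 2 * len := by linarith [H.e4]
        _ ≤ 2 * len * (T.N : ℝ) ^ δm := le_mul_of_one_le_right (by linarith) h1
    exact mul_le_mul_of_nonneg_right h3 hvr.le
  have h4 : 0 < (T.N : ℝ) ^ (-δ1) := Real.rpow_pos_of_pos hN0 _
  have e1 : (T.N : ℝ) ^ (-δ1) * (T.N : ℝ) ^ δ1 = 1 := by
    rw [← Real.rpow_add hN0, neg_add_cancel, Real.rpow_zero]
  calc 8 * L = ((T.N : ℝ) ^ (-δ1) * L) * (8 * (T.N : ℝ) ^ δ1) := by
        rw [show ((T.N : ℝ) ^ (-δ1) * L) * (8 * (T.N : ℝ) ^ δ1) =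
          8 * L * ((T.N : ℝ) ^ (-δ1) * (T.N : ℝ) ^ δ1) by ring, e1, mul_one]
    _ ≤ ((T.N : ℝ) ^ (-δ1) * L) * (((b : ℝ) - a) / v) :=
        mul_le_mul_of_nonneg_left h2 (by positivity)
    _ = _ := by ring

/-- sums over one class -/
private theorem C04_eval (H : BH S T W0 B δ0 δ1 δm δw δv len t2 w L g) (h : H3 S T W0 v a b B δm len)
    {μ : S.TX} (hμ : μ ∈ S.MX) {ν : S.TY} (hν : ν ∈ S.MY) {Q qW q2 r : ℕ} (hQ : Q = qW * q2)
    (hqW : qW ∣ W0) (hq2 : 0 < q2) (hc : q2.Coprime (W0 ^ 2 * T.N))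
    (hs : (Q : ℝ) ≤ (T.N : ℝ) ^ δ0 * (T.N : ℝ) ^ δm) (hr : t2 → r.Coprime Q)
    (hd0 : 0 ≤ dq g Q) (hd1 : dq g Q ≤ 1) :
    |∑ n ∈ (Ioc (a / (v * S.prX id μ)) (b / (v * S.prX id μ))).filter (fun n => n ≡ r [MOD Q]), w n -
      L * (((b : ℝ) - a) / ((v * S.prX id μ : ℕ) : ℝ)) * dq g Q| ≤
      3 / 4 * ((T.N : ℝ) ^ (-δ1) * (L * ((b : ℝ) - a) / v)) := by
  obtain ⟨hm0, i1, i2, i3, i4, i5, i6⟩ := C04_int H h hμ hν
  set m : ℕ := v * S.prX id μ with hm
  have hL := H.wei.L_pos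
  have hbase := H.wei.eq (a / m) (b / m) i1 i2 i3 qW q2 r hqW hq2 hc (by
    rw [← hQ]; exact hs.trans (C04_pow H)) (by rw [← hQ]; exact hr)
  rw [← hQ] at hbase
  set Sm : ℝ := ∑ n ∈ (Ioc (a / m) (b / m)).filter (fun n => n ≡ r [MOD Q]), w n with hSm
  set ℓ : ℝ := ((b / m : ℕ) : ℝ) - ((a / m : ℕ) : ℝ) with hℓ
  set lam : ℝ := ((b : ℝ) - a) / (m : ℝ) with hlam
  set W : ℝ := L * ((b : ℝ) - a) / v with hW
  have hN := C04_N1 H
  have hN0 : (0 : ℝ) < T.N := by linarith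
  have h8 := C04_L H h
  rw [← hW] at h8
  have hLW : L * lam ≤ W := by
    rw [hW, mul_div_assoc]
    exact mul_le_mul_of_nonneg_left i6 hL.le
  have hℓ2 : ℓ ≤ 2 * lam := by
    have := (abs_le.1 i4).2
    linarith
  have hLℓ : L * ℓ ≤ 2 * W := by
    have := mul_le_mul_of_nonneg_left hℓ2 hL.le
    linarith
  have hLℓ0 : 0 ≤ L * ℓ := by
    apply mul_nonneg hL.le
    have := (abs_le.1 i4).1
    linarith
  have hR := H.e3
  set ρ : ℝ := ((W0 ^ 2 * T.N : ℕ) : ℝ) ^ (-δv) with hρ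
  have hρ0 : 0 ≤ ρ := Real.rpow_nonneg (Nat.cast_nonneg _) _
  have hW0 : 0 ≤ W := by linarith
  have e1 : ρ * (L * ℓ) ≤ 1 / 2 * ((T.N : ℝ) ^ (-δ1) * W) := by
    calc ρ * (L * ℓ) ≤ ρ * (2 * W) := mul_le_mul_of_nonneg_left hLℓ hρ0
      _ = (4 * ρ) * (W / 2) := by ring
      _ ≤ (T.N : ℝ) ^ (-δ1) * (W / 2) := mul_le_mul_of_nonneg_right hR (by linarith)
      _ = _ := by ring
  have e2 : |L * ℓ * dq g Q - L * lam * dq g Q| ≤ L := by
    have : L * ℓ * dq g Q - L * lam * dq g Q = L * (ℓ - lam) * dq g Q := by ring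
    rw [this, abs_mul, abs_mul, abs_of_pos hL, abs_of_nonneg hd0]
    calc L * |ℓ - lam| * dq g Q ≤ L * 1 * 1 :=
          mul_le_mul (mul_le_mul_of_nonneg_left i4 hL.le) hd1 hd0 (by linarith)
      _ = L := by ring
  have a1 := abs_le.1 hbase
  have a2 := abs_le.1 e2
  rw [abs_le]
  constructor <;> linarith [a1.1, a1.2, a2.1, a2.2]

/-- sums over the multiples of `p` in one class -/
private theorem C04_eval0 (H : BH S T W0 B δ0 δ1 δm δw δv len t2 w L g) (h : H3 S T W0 v a b B δm len)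
    (ht : t2) {μ : S.TX} (hμ : μ ∈ S.MX) {ν : S.TY} (hν : ν ∈ S.MY) {Q qW q2 r p : ℕ}
    (hQ : Q = qW * q2) (hqW : qW ∣ W0) (hq2 : 0 < q2) (hc : q2.Coprime (W0 ^ 2 * T.N))
    (hs : (Q : ℝ) ≤ (T.N : ℝ) ^ δ0 * (T.N : ℝ) ^ δm) (hr : r.Coprime Q) (hp : p.Prime)
    (hpy : T.y0 < p) (hpq : ¬ p ∣ q2) (hd0 : 0 ≤ dq g Q) (hd1 : dq g Q ≤ 1) :
    ∑ n ∈ (Ioc (a / (v * S.prX id μ)) (b / (v * S.prX id μ))).filter
      (fun n => n ≡ r [MOD Q] ∧ p ∣ n), w n ≤
      4 / p * (L * (((b : ℝ) - a) / ((v * S.prX id μ : ℕ) : ℝ)) * dq g Q) +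
      (T.N : ℝ) ^ (-δ1) * (L * ((b : ℝ) - a) / v) := by
  obtain ⟨hm0, i1, i2, i3, i4, i5, i6⟩ := C04_int H h hμ hν
  set m : ℕ := v * S.prX id μ with hm
  have hL := H.wei.L_pos
  have hbase := H.wei.eq0 ht (a / m) (b / m) i1 i2 i3 qW q2 r p hqW hq2 hc (by
    rw [← hQ]; exact hs.trans (C04_pow H)) (by rw [← hQ]; exact hr) hp hpy hpq
  rw [← hQ] at hbase
  set Sm : ℝ := ∑ n ∈ (Ioc (a / m) (b / m)).filter (fun n => n ≡ r [MOD Q] ∧ p ∣ n), w n with hSm
  set ℓ : ℝ := ((b / m : ℕ) : ℝ) - ((a / m : ℕ) : ℝ) with hℓ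
  set lam : ℝ := ((b : ℝ) - a) / (m : ℝ) with hlam
  set W : ℝ := L * ((b : ℝ) - a) / v with hW
  have h8 := C04_L H h
  rw [← hW] at h8
  have hLW : L * lam ≤ W := by
    rw [hW, mul_div_assoc]
    exact mul_le_mul_of_nonneg_left i6 hL.le
  have hℓ1 : ℓ ≤ lam + 1 := by
    have := (abs_le.1 i4).2
    linarith
  have hLℓ : L * ℓ ≤ 2 * W := by
    have := mul_le_mul_of_nonneg_left (show ℓ ≤ 2 * lam by linarith) hL.le
    linarith
  have hR := H.e3
  set ρ : ℝ := ((W0 ^ 2 * T.N : ℕ) : ℝ) ^ (-δv) with hρ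
  have hρ0 : 0 ≤ ρ := Real.rpow_nonneg (Nat.cast_nonneg _) _
  have hlam0 : 0 ≤ L * lam := mul_nonneg hL.le (by linarith)
  have hW0 : 0 ≤ W := by linarith
  have e1 : ρ * (L * ℓ) ≤ 1 / 2 * ((T.N : ℝ) ^ (-δ1) * W) := by
    calc ρ * (L * ℓ) ≤ ρ * (2 * W) := mul_le_mul_of_nonneg_left hLℓ hρ0
      _ = (4 * ρ) * (W / 2) := by ring
      _ ≤ (T.N : ℝ) ^ (-δ1) * (W / 2) := mul_le_mul_of_nonneg_right hR (by linarith)
      _ = _ := by ring
  have hp2 : (2 : ℝ) ≤ p := by exact_mod_cast hp.two_le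
  have hp4 : 4 / (p : ℝ) ≤ 2 := by
    rw [div_le_iff₀ (by linarith)]
    linarith
  have hp40 : 0 ≤ 4 / (p : ℝ) := by positivity
  have e2 : 4 / (p : ℝ) * (L * ℓ * dq g Q) ≤ 4 / p * (L * lam * dq g Q) + 2 * L := by
    have h1 : L * ℓ * dq g Q ≤ L * lam * dq g Q + L := by
      have h2 : L * ℓ ≤ L * lam + L := by
        have := mul_le_mul_of_nonneg_left hℓ1 hL.le
        linarith
      have h3 := mul_le_mul_of_nonneg_right h2 hd0
      have h4 := mul_le_mul_of_nonneg_left hd1 hL.le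
      linarith
    have h5 := mul_le_mul_of_nonneg_left h1 hp40
    have h6 := mul_le_mul_of_nonneg_right hp4 hL.le
    linarith
  have hLN : 0 ≤ (T.N : ℝ) ^ (-δ1) * W := by linarith
  linarith

/-! ### the classes -/

theorem mM3_none (H : BH S T W0 B δ0 δ1 δm δw δv len t2 w L g) (h : H3 S T W0 v a b B δm len) {μ : S.TX} (hμ : μ ∈ S.MX)
    {ν : S.TY} (hν : ν ∈ S.MY) (hc : ¬ (S.prY id ν).Coprime (v * S.prX id μ)) {n : ℕ} (hn : a < v * S.prX id μ * n)
    (h2 : S.prY id ν ∣ v * S.prX id μ * n - T.D * T.N) : False := by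
  have _ := hμ
  obtain ⟨p, hp, h3, h4⟩ := Nat.Prime.not_coprime_iff_dvd.1 hc
  obtain ⟨h5, h6⟩ := H.sets.pY hν hp h3
  have h7 : p ∣ v * S.prX id μ * n := h4.mul_right n
  have h8 : p ∣ v * S.prX id μ * n - T.D * T.N := h3.trans h2
  have h9 : T.D * T.N ≤ v * S.prX id μ * n := h.D.trans hn.le
  have h10 : p ∣ T.D * T.N := (Nat.dvd_sub_iff_right h9 h7).1 h8
  rcases (Nat.Prime.dvd_mul hp).1 h10 with h11 | h11
  · have := H.dd p hp h11
    omega
  · exact h5 (h11.mul_left _)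

/-- the condition `prY ν ∣ Y` is one class of units -/
private theorem C04_class (H : BH S T W0 B δ0 δ1 δm δw δv len t2 w L g) (h : H3 S T W0 v a b B δm len)
    {μ : S.TX} (hμ : μ ∈ S.MX) {ν : S.TY} (hν : ν ∈ S.MY)
    (hc : (S.prY id ν).Coprime (v * S.prX id μ)) : ∃ r' : ℕ, r'.Coprime (S.prY id ν) ∧
      ∀ n : ℕ, a < v * S.prX id μ * n → (S.prY id ν ∣ v * S.prX id μ * n - T.D * T.N ↔
        n ≡ r' [MOD S.prY id ν]) := by
  have _ := hμ
  obtain ⟨r, h1, h2⟩ := lin_class (v * S.prX id μ) (S.prY id ν) 1 (-((T.D * T.N : ℕ) : ℤ)) 0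
    (C04_posY H hν) one_pos (Nat.coprime_one_right _) hc.symm (Nat.coprime_one_right _)
  refine ⟨r, ?_, ?_⟩
  · have h3 := h2 (by
      rw [Int.natAbs_neg, Int.natAbs_natCast]
      apply Nat.Coprime.symm
      apply Nat.coprime_of_dvd
      intro p hp h3 h4
      obtain ⟨h5, h6⟩ := H.sets.pY hν hp h3
      rcases (Nat.Prime.dvd_mul hp).1 h4 with h11 | h11
      · have := H.dd p hp h11
        omega
      · exact h5 (h11.mul_left _)) (Nat.coprime_one_right _)
    rwa [mul_one] at h3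
  · intro n hn
    have h9 : T.D * T.N ≤ v * S.prX id μ * n := h.D.trans hn.le
    have h3 := h1 n
    rw [mul_one] at h3
    rw [← h3]
    constructor
    · intro h4
      refine ⟨?_, by simp⟩
      have h5 : ((S.prY id ν : ℕ) : ℤ) ∣ ((v * S.prX id μ * n - T.D * T.N : ℕ) : ℤ) :=
        Int.natCast_dvd_natCast.2 h4
      rw [Nat.cast_sub h9] at h5
      have e1 : ((v * S.prX id μ : ℕ) : ℤ) * (n : ℤ) + -((T.D * T.N : ℕ) : ℤ) =
          ((v * S.prX id μ * n : ℕ) : ℤ) - ((T.D * T.N : ℕ) : ℤ) := by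
        push_cast
        ring
      rw [e1]
      exact h5
    · rintro ⟨h4, -⟩
      have e1 : ((v * S.prX id μ : ℕ) : ℤ) * (n : ℤ) + -((T.D * T.N : ℕ) : ℤ) =
          ((v * S.prX id μ * n - T.D * T.N : ℕ) : ℤ) := by
        rw [Nat.cast_sub h9]
        push_cast
        ring
      rw [e1] at h4
      exact Int.natCast_dvd_natCast.1 h4

/-- the sums as sums over the interval -/
private theorem C04_sum (h : H3 S T W0 v a b B δm len) {μ : S.TX} (hX : 0 < S.prX id μ) (ν : S.TY)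
    (Q : ℕ → Prop) [DecidablePred Q] (Q' : ℕ → Prop) [DecidablePred Q']
    (hQ : ∀ n : ℕ, a < v * S.prX id μ * n →
      ((Q n ∧ S.prY id ν ∣ v * S.prX id μ * n - T.D * T.N) ↔ Q' n)) :
    ∑ n ∈ (range (b + 1)).filter Q, (mM3 S T v a b t2 w L g).Om μ ν n =
      ∑ n ∈ (Ioc (a / (v * S.prX id μ)) (b / (v * S.prX id μ))).filter Q', w n := by
  classical
  set m : ℕ := v * S.prX id μ with hm
  have hm0 : 0 < m := Nat.mul_pos h.v0 hX
  have h1 : ∀ n, (mM3 S T v a b t2 w L g).Om μ ν n =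
      if a < m * n ∧ m * n ≤ b ∧ S.prY id ν ∣ m * n - T.D * T.N then w n else 0 := by
    intro n
    rfl
  simp only [h1]
  rw [← sum_filter, filter_filter]
  refine sum_congr ?_ fun _ _ => rfl
  ext n
  simp only [mem_filter, mem_range, mem_Ioc]
  rw [Nat.div_lt_iff_lt_mul hm0, Nat.le_div_iff_mul_le hm0, mul_comm n m]
  constructor
  · rintro ⟨-, h2, h3, h4, h5⟩
    exact ⟨⟨h3, h4⟩, (hQ n h3).1 ⟨h2, h5⟩⟩
  · rintro ⟨⟨h3, h4⟩, h5⟩
    obtain ⟨h6, h7⟩ := (hQ n h3).2 h5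
    refine ⟨?_, h6, h3, h4, h7⟩
    have : n ≤ m * n := Nat.le_mul_of_pos_left n hm0
    omega

theorem mM3_cl (H : BH S T W0 B δ0 δ1 δm δw δv len t2 w L g) (h : H3 S T W0 v a b B δm len) {μ : S.TX} (hμ : μ ∈ S.MX)
    {ν : S.TY} (hν : ν ∈ S.MY) (hc : (S.prY id ν).Coprime (v * S.prX id μ)) (q : ℕ) (hq : Squarefree q)
    (hq1 : (q : ℝ) ≤ (T.N : ℝ) ^ δ0) (hq2 : q.Coprime (S.prY id ν)) (hq3 : ∀ p : ℕ, p.Prime → p ∣ q → p ∣ W0 ∨ ¬ p ∣ T.N)
    (r : ℕ) (hr : t2 → r.Coprime q) :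
    |(mM3 S T v a b t2 w L g).cl μ ν q r - (mM3 S T v a b t2 w L g).ms μ ν * (mM3 S T v a b t2 w L g).gq q| ≤
      (T.N : ℝ) ^ (-δ1) * (mM3 S T v a b t2 w L g).W := by
  have hY := C04_posY H hν
  have hX := C04_posX H hμ
  have hq0 : 0 < q := Nat.pos_of_ne_zero hq.ne_zero
  obtain ⟨r', hr', hcl⟩ := C04_class H h hμ hν hc
  obtain ⟨s, hs1, hs2⟩ := two_class q (S.prY id ν) r r' hq0 hY hq2
  obtain ⟨qW, q2, e1, hqW, hq20, hqR, hqq⟩ := split_q q W0 T.N hq hq3
  have hdq : dq g (q * S.prY id ν) = (∏ p ∈ q.primeFactors, g p) * S.prY g ν := by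
    rw [dq_mul g q _ hq (H.sets.sqY hν) hq2, dq_sq g q hq, dq_prY H.sets hν g]
  have hgq := C04_gq H q
  have hgY := C04_gY H hν
  have hYle : ((S.prY id ν : ℕ) : ℝ) ≤ (T.N : ℝ) ^ δm := by
    refine le_trans ?_ (H.size μ hμ ν hν)
    exact_mod_cast Nat.le_mul_of_pos_left _ hX
  have hev := C04_eval H h hμ hν (Q := q * S.prY id ν) (qW := qW) (q2 := q2 * S.prY id ν) (r := s)
    (by rw [e1]; ring) hqW (Nat.mul_pos hq20 hY) (Nat.Coprime.mul_left hqR (C04_copR H hν))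
    (by
      push_cast
      exact mul_le_mul hq1 hYle (Nat.cast_nonneg _) (Real.rpow_nonneg (Nat.cast_nonneg _) _))
    (fun ht => hs2 (hr ht) hr')
    (by rw [hdq]; exact mul_nonneg hgq.1 hgY.1) (by rw [hdq]; exact mul_le_one₀ hgq.2 hgY.1 hgY.2)
  have hsum : (mM3 S T v a b t2 w L g).cl μ ν q r =
      ∑ n ∈ (Ioc (a / (v * S.prX id μ)) (b / (v * S.prX id μ))).filter
        (fun n => n ≡ s [MOD q * S.prY id ν]), w n := by
    refine C04_sum h hX ν (fun n => n ≡ r [MOD q]) (fun n => n ≡ s [MOD q * S.prY id ν]) ?_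
    intro n hn
    rw [hcl n hn]
    exact hs1 n
  rw [hsum, C04_ms H h hμ ν]
  have e2 : L * (((b : ℝ) - a) / ((v * S.prX id μ : ℕ) : ℝ)) * S.prY g ν * (mM3 S T v a b t2 w L g).gq q =
      L * (((b : ℝ) - a) / ((v * S.prX id μ : ℕ) : ℝ)) * dq g (q * S.prY id ν) := by
    rw [hdq]
    change L * (((b : ℝ) - a) / ((v * S.prX id μ : ℕ) : ℝ)) * S.prY g ν * (∏ p ∈ q.primeFactors, g p) = _
    ring
  rw [e2]
  refine hev.trans ?_
  change 3 / 4 * ((T.N : ℝ) ^ (-δ1) * (L * ((b : ℝ) - a) / v)) ≤ (T.N : ℝ) ^ (-δ1) * (L * ((b : ℝ) - a) / v)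
  have h8 := C04_L H h
  have hL := H.wei.L_pos
  linarith

private theorem C04_PL {p : ℕ} (hp : p ∈ T.PL) : p.Prime ∧ T.y0 < p ∧ p ≤ T.z := by
  unfold TC.Dat.PL at hp
  have h := mem_filter.1 hp
  have := mem_range.1 h.1
  exact ⟨h.2.1, h.2.2, by omega⟩

/-- the bound for the multiples of `p` and one class -/
private theorem C04_zero (H : BH S T W0 B δ0 δ1 δm δw δv len t2 w L g) (h : H3 S T W0 v a b B δm len)
    (ht : t2) {μ : S.TX} (hμ : μ ∈ S.MX) {ν : S.TY} (hν : ν ∈ S.MY)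
    (hc : (S.prY id ν).Coprime (v * S.prX id μ)) (q : ℕ) (hq : Squarefree q)
    (hq1 : (q : ℝ) ≤ (T.N : ℝ) ^ δ0) (hq2 : q.Coprime (S.prY id ν))
    (hq3 : ∀ p : ℕ, p.Prime → p ∣ q → p ∣ W0 ∨ ¬ p ∣ T.N) (r : ℕ) (hr : r.Coprime q) {p : ℕ}
    (hp : p.Prime) (hpy : T.y0 < p) (hpq : ¬ p ∣ q * S.prY id ν) (Q : ℕ → Prop) [DecidablePred Q]
    (hQ : ∀ n : ℕ, Q n ↔ n ≡ r [MOD q] ∧ p ∣ n) :
    ∑ n ∈ (range (b + 1)).filter Q, (mM3 S T v a b t2 w L g).Om μ ν n ≤
      4 / p * (mM3 S T v a b t2 w L g).ms μ ν * (mM3 S T v a b t2 w L g).gq q +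
        (T.N : ℝ) ^ (-δ1) * (mM3 S T v a b t2 w L g).W := by
  have hY := C04_posY H hν
  have hX := C04_posX H hμ
  have hq0 : 0 < q := Nat.pos_of_ne_zero hq.ne_zero
  obtain ⟨r', hr', hcl⟩ := C04_class H h hμ hν hc
  obtain ⟨s, hs1, hs2⟩ := two_class q (S.prY id ν) r r' hq0 hY hq2
  obtain ⟨qW, q2, e1, hqW, hq20, hqR, hqq⟩ := split_q q W0 T.N hq hq3
  have hdq : dq g (q * S.prY id ν) = (∏ p ∈ q.primeFactors, g p) * S.prY g ν := by
    rw [dq_mul g q _ hq (H.sets.sqY hν) hq2, dq_sq g q hq, dq_prY H.sets hν g]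
  have hgq := C04_gq H q
  have hgY := C04_gY H hν
  have hYle : ((S.prY id ν : ℕ) : ℝ) ≤ (T.N : ℝ) ^ δm := by
    refine le_trans ?_ (H.size μ hμ ν hν)
    exact_mod_cast Nat.le_mul_of_pos_left _ hX
  have hev := C04_eval0 H h ht hμ hν (Q := q * S.prY id ν) (qW := qW) (q2 := q2 * S.prY id ν) (r := s)
    (p := p)
    (by rw [e1]; ring) hqW (Nat.mul_pos hq20 hY) (Nat.Coprime.mul_left hqR (C04_copR H hν))
    (by
      push_cast
      exact mul_le_mul hq1 hYle (Nat.cast_nonneg _) (Real.rpow_nonneg (Nat.cast_nonneg _) _))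
    (hs2 hr hr') hp hpy (fun h5 => hpq (by
      refine h5.trans ⟨qW, ?_⟩
      rw [e1]
      ring))
    (by rw [hdq]; exact mul_nonneg hgq.1 hgY.1) (by rw [hdq]; exact mul_le_one₀ hgq.2 hgY.1 hgY.2)
  have hsum : ∑ n ∈ (range (b + 1)).filter Q, (mM3 S T v a b t2 w L g).Om μ ν n =
      ∑ n ∈ (Ioc (a / (v * S.prX id μ)) (b / (v * S.prX id μ))).filter
        (fun n => n ≡ s [MOD q * S.prY id ν] ∧ p ∣ n), w n := by
    refine C04_sum h hX ν Q (fun n => n ≡ s [MOD q * S.prY id ν] ∧ p ∣ n) ?_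
    intro n hn
    rw [hQ n, hcl n hn, ← hs1 n]
    tauto
  rw [hsum, C04_ms H h hμ ν]
  refine hev.trans (le_of_eq ?_)
  rw [hdq]
  change _ = 4 / (p : ℝ) * (L * (((b : ℝ) - a) / ((v * S.prX id μ : ℕ) : ℝ)) * S.prY g ν) *
    (∏ p ∈ q.primeFactors, g p) + (T.N : ℝ) ^ (-δ1) * (L * ((b : ℝ) - a) / v)
  ring

theorem mM3_ok (H : BH S T W0 B δ0 δ1 δm δw δv len t2 w L g) (h : H3 S T W0 v a b B δm len) :
    (mM3 S T v a b t2 w L g).OK T W0 δ0 δ1 := by
  classical
  have hN := C04_N1 H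
  have hN0 : (0 : ℝ) < T.N := by linarith
  have hvr : (0 : ℝ) < v := by exact_mod_cast h.v0
  have hL := H.wei.L_pos
  have h8 := C04_L H h
  have hNp : 0 < (T.N : ℝ) ^ (-δ1) := Real.rpow_pos_of_pos hN0 _
  have hW : 0 < L * ((b : ℝ) - a) / v := by
    by_contra hcon
    push Not at hcon
    have := mul_nonpos_of_nonneg_of_nonpos hNp.le hcon
    linarith
  have hba : 0 < (b : ℝ) - a := by
    by_contra hcon
    push Not at hcon
    have h1 : L * ((b : ℝ) - a) / v ≤ 0 :=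
      div_nonpos_of_nonpos_of_nonneg (mul_nonpos_of_nonneg_of_nonpos hL.le hcon) hvr.le
    linarith
  -- the meaning of the support
  have hOm : ∀ (μ : S.TX) (ν : S.TY) (n : ℕ), (mM3 S T v a b t2 w L g).Om μ ν n ≠ 0 →
      a < v * S.prX id μ * n ∧ v * S.prX id μ * n ≤ b ∧
      S.prY id ν ∣ v * S.prX id μ * n - T.D * T.N ∧ w n ≠ 0 := by
    intro μ ν n hne
    by_cases hcond : a < v * S.prX id μ * n ∧ v * S.prX id μ * n ≤ b ∧
      S.prY id ν ∣ v * S.prX id μ * n - T.D * T.N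
    · refine ⟨hcond.1, hcond.2.1, hcond.2.2, ?_⟩
      have e1 : (mM3 S T v a b t2 w L g).Om μ ν n = w n := if_pos hcond
      rwa [e1] at hne
    · exact absurd (if_neg hcond) hne
  have hms0 : ∀ μ ∈ S.MX, ∀ ν ∈ S.MY, 0 ≤ (mM3 S T v a b t2 w L g).ms μ ν := by
    intro μ hμ ν hν
    rw [C04_ms H h hμ ν]
    have h1 : (0 : ℝ) < ((v * S.prX id μ : ℕ) : ℝ) := by
      exact_mod_cast Nat.mul_pos h.v0 (C04_posX H hμ)
    have := (C04_gY H hν).1
    positivity
  have hWeq : (mM3 S T v a b t2 w L g).W = L * ((b : ℝ) - a) / v := rfl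
  have hadm : ∀ (μ : S.TX) (ν : S.TY), (mM3 S T v a b t2 w L g).adm μ ν →
      (S.prY id ν).Coprime (v * S.prX id μ) := by
    rintro μ ν ⟨h1, h2⟩
    have h3 : (S.prX id μ * S.prY id ν).Coprime v := h1
    exact Nat.Coprime.mul_right (Nat.Coprime.coprime_dvd_left (dvd_mul_left _ _) h3) h2.symm
  exact
    { W_pos := hW
      v_pos := h.v0
      v_le := h.vl
      v_cop := by
        refine Nat.Coprime.coprime_dvd_right ?_ h.vc
        exact Nat.mul_dvd_mul (dvd_pow_self _ (by norm_num)) dvd_rfl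
      tau_cases := Or.inr ⟨fun _ _ => rfl, rfl⟩
      x0_form := ⟨0, by simp, by rw [zero_mul]; rfl⟩
      x0_t2 := fun _ => Or.inl ⟨rfl, fun _ _ => rfl⟩
      Om_nonneg := by
        intro μ ν n
        change 0 ≤ (if _ then w n else 0)
        split_ifs
        · exact H.wei.nonneg n
        · exact le_rfl
      nm_bd := by
        intro μ ν n hne
        obtain ⟨h1, h2, -, -⟩ := hOm μ ν n hne
        change n ≤ b
        have h3 : 0 < v * S.prX id μ := by
          rcases Nat.eq_zero_or_pos (v * S.prX id μ) with h4 | h4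
          · rw [h4, zero_mul] at h1
            omega
          · exact h4
        exact (Nat.le_mul_of_pos_left n h3).trans h2
      nm_le := by
        change b ≤ T.N ^ 3
        refine h.b2.trans (Nat.pow_le_pow_right ?_ (by norm_num))
        have := H.N2
        omega
      X_eq := by
        intro μ ν n _
        change ((v * S.prX id μ * n : ℕ) : ℤ) = (v : ℤ) * ((S.prX id μ : ℕ) : ℤ) * n + 0
        push_cast
        ring
      X_dvd := by
        intro μ ν n _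
        change S.prX id μ ∣ v * S.prX id μ * n
        exact (dvd_mul_left _ _).mul_right n
      Y_dvd := by
        intro μ ν n hne
        exact (hOm μ ν n hne).2.2.1
      Y_pos := by
        intro μ ν n hne
        exact lt_of_le_of_lt h.D (hOm μ ν n hne).1
      X_big := by
        intro μ ν n hne
        obtain ⟨h1, h2, -, -⟩ := hOm μ ν n hne
        change Real.exp (18 * (S.k + 1)) * (((v * S.prX id μ * n : ℕ) : ℝ) - T.D * T.N) ≤
          ((v * S.prX id μ * n : ℕ) : ℝ)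
        have h3 : ((v * S.prX id μ * n : ℕ) : ℝ) ≤ b := by exact_mod_cast h2
        have h4 : ((T.D : ℝ) * T.N) ≤ ((v * S.prX id μ * n : ℕ) : ℝ) := by
          have := h.D.trans h1.le
          exact_mod_cast this
        calc Real.exp (18 * (S.k + 1)) * (((v * S.prX id μ * n : ℕ) : ℝ) - T.D * T.N)
            ≤ Real.exp (18 * (S.k + 1)) * ((b : ℝ) - T.D * T.N) :=
              mul_le_mul_of_nonneg_left (by linarith) (Real.exp_pos _).le
          _ ≤ T.D * T.N := h.big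
          _ ≤ _ := h4
      X_le := by
        intro μ ν n hne
        exact (hOm μ ν n hne).2.1.trans h.b2
      hX_nonneg := by
        intro p _
        change 0 ≤ 1 / (p : ℝ) ∧ |1 / (p : ℝ) - 1 / p| ≤ 2 / (p : ℝ) ^ 2
        rw [sub_self, abs_zero]
        exact ⟨by positivity, by positivity⟩
      hY_nonneg := fun p hp => H.wei.g_nonneg p hp
      g_small := fun p hp hpy => ⟨fun ht => H.wei.g_one ht p, fun ht => H.wei.g_small ht p hp hpy⟩
      g_large := fun p hp _ => H.wei.g_nonneg p hp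
      t2_small := by
        intro ht μ ν n hne p hp hpy hpn
        have h1 := H.wei.rough ht n (hOm μ ν n hne).2.2.2 p hp hpn
        omega
      up := by
        intro μ hμ ν hν
        have h0 := hms0 μ hμ ν hν
        have hE : 0 ≤ (T.N : ℝ) ^ (-δ1) * (mM3 S T v a b t2 w L g).W := by
          rw [hWeq]
          positivity
        by_cases hc : (S.prY id ν).Coprime (v * S.prX id μ)
        · have h1 := mM3_cl H h hμ hν hc 1 squarefree_one (by
            rw [Nat.cast_one]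
            exact Real.one_le_rpow hN H.e0) (Nat.coprime_one_left _) (by
            intro p hp hp1
            exact absurd (Nat.dvd_one.1 hp1) hp.one_lt.ne') 0 (fun _ => Nat.coprime_one_right _)
          have h2 : (mM3 S T v a b t2 w L g).gq 1 = 1 := by
            unfold Msr.gq
            rw [Nat.primeFactors_one, prod_empty]
          rw [h2, mul_one] at h1
          have h3 := (abs_le.1 h1).2
          linarith
        · have h1 : (mM3 S T v a b t2 w L g).cl μ ν 1 0 = 0 := by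
            unfold Msr.cl
            refine sum_eq_zero fun n _ => ?_
            by_contra hne
            obtain ⟨h2, -, h4, -⟩ := hOm μ ν n hne
            exact mM3_none H h hμ hν hc h2 h4
          rw [h1]
          linarith
      eq := by
        intro μ hμ ν hν ha q hq hq1 hq2 hq3 r hr
        exact mM3_cl H h hμ hν (hadm μ ν ha) q hq hq1
          (Nat.Coprime.coprime_dvd_right (dvd_mul_left _ _) hq2) hq3 r hr
      eq0 := by
        intro ht μ hμ ν hν ha q hq hq1 hq2 hq3 p hp hpq r hr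
        obtain ⟨hpp, hpy, -⟩ := C04_PL hp
        refine C04_zero H h ht hμ hν (hadm μ ν ha) q hq hq1
          (Nat.Coprime.coprime_dvd_right (dvd_mul_left _ _) hq2) hq3 r hr hpp hpy ?_ _ fun n => Iff.rfl
        intro h1
        refine hpq (h1.trans ?_)
        exact Nat.mul_dvd_mul dvd_rfl (dvd_mul_left _ _)
      eq2 := by
        intro μ hμ ν hν ha p hp hpd r
        obtain ⟨hpp, hpy, hpz⟩ := C04_PL hp
        have hc := hadm μ ν ha
        have hcXY : (S.prX id μ).Coprime (S.prY id ν) := ha.2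
        have hpz' : (p : ℝ) ≤ (T.N : ℝ) ^ δ0 := le_trans (by exact_mod_cast hpz) H.zle
        have hms := hms0 μ hμ ν hν
        have hE : 0 ≤ (T.N : ℝ) ^ (-δ1) * (mM3 S T v a b t2 w L g).W := by
          rw [hWeq]
          positivity
        have hp2 : (2 : ℝ) ≤ p := by exact_mod_cast hpp.two_le
        have hp0 : (0 : ℝ) < p := by linarith
        change (if p ∣ S.prX id μ then (mM3 S T v a b t2 w L g).cl μ ν p r
          else (mM3 S T v a b t2 w L g).cl μ ν (p ^ 2) r) ≤ _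
        split_ifs with hpX
        · have hpY : ¬ p ∣ S.prY id ν := by
            intro h1
            have := Nat.dvd_gcd hpX h1
            rw [hcXY] at this
            exact hpp.one_lt.ne' (Nat.dvd_one.1 this)
          by_cases hcase : t2 ∧ p ∣ r
          · obtain ⟨ht, hpr⟩ := hcase
            have h1 := C04_zero H h ht hμ hν hc 1 squarefree_one (by
              rw [Nat.cast_one]
              exact Real.one_le_rpow hN H.e0) (Nat.coprime_one_left _) (by
              intro p hp hp1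
              exact absurd (Nat.dvd_one.1 hp1) hp.one_lt.ne') 0 (Nat.coprime_one_right _) hpp hpy
              (by rwa [one_mul]) (fun n => n ≡ r [MOD p]) (by
                intro n
                constructor
                · intro h2
                  exact ⟨Nat.modEq_one, (h2.dvd_iff dvd_rfl).2 hpr⟩
                · rintro ⟨-, h2⟩
                  exact ((Nat.modEq_zero_iff_dvd.2 h2).trans (Nat.modEq_zero_iff_dvd.2 hpr).symm))
            have h2 : (mM3 S T v a b t2 w L g).gq 1 = 1 := by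
              unfold Msr.gq
              rw [Nat.primeFactors_one, prod_empty]
            rw [h2, mul_one] at h1
            exact h1
          · have h1 := mM3_cl H h hμ hν hc p hpp.squarefree hpz'
              ((Nat.Prime.coprime_iff_not_dvd hpp).2 hpY) (by
                intro l hl hlp
                right
                rw [(Nat.prime_dvd_prime_iff_eq hl hpp).1 hlp]
                intro h3
                exact (H.sets.pX hμ hpp hpX).1 (h3.mul_left _)) r (by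
                intro ht
                refine Nat.Coprime.symm ((Nat.Prime.coprime_iff_not_dvd hpp).2 fun h3 => ?_)
                exact hcase ⟨ht, h3⟩)
            have h2 : (mM3 S T v a b t2 w L g).gq p = g p := by
              unfold Msr.gq
              rw [Nat.Prime.primeFactors hpp, prod_singleton]
              rfl
            rw [h2] at h1
            have h3 := (abs_le.1 h1).2
            have h4 := mul_le_mul_of_nonneg_left (C04_g2 H hpp) hms
            have h5 : (mM3 S T v a b t2 w L g).ms μ ν * (2 / p) ≤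
                4 / p * (mM3 S T v a b t2 w L g).ms μ ν := by
              have e1 : 4 / (p : ℝ) * (mM3 S T v a b t2 w L g).ms μ ν =
                (mM3 S T v a b t2 w L g).ms μ ν * (2 / p) + (mM3 S T v a b t2 w L g).ms μ ν * (2 / p) := by
                ring
              rw [e1]
              have : 0 ≤ (mM3 S T v a b t2 w L g).ms μ ν * (2 / p) := by positivity
              linarith
            linarith
        · have hpY : p ∣ S.prY id ν := by
            rcases (Nat.Prime.dvd_mul hpp).1 hpd with h1 | h1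
            · exact absurd h1 hpX
            · exact h1
          have hX := C04_posX H hμ
          have hY := C04_posY H hν
          have hRHS : 0 ≤ 4 / (p : ℝ) * (mM3 S T v a b t2 w L g).ms μ ν := by positivity
          obtain ⟨r', hr', hcl⟩ := C04_class H h hμ hν hc
          rcases sq_class p (S.prY id ν) r r' hpp (H.sets.sqY hν) hpY with hnone | ⟨s, hs1, hs2⟩
          · have hsum : (mM3 S T v a b t2 w L g).cl μ ν (p ^ 2) r =
                ∑ n ∈ (Ioc (a / (v * S.prX id μ)) (b / (v * S.prX id μ))).filter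
                  (fun _ => False), w n := by
              refine C04_sum h hX ν (fun n => n ≡ r [MOD p ^ 2]) (fun _ => False) ?_
              intro n hn
              rw [hcl n hn]
              exact ⟨fun h1 => hnone n h1, fun h1 => h1.elim⟩
            rw [hsum, filter_false, sum_empty]
            linarith
          · have hsum : (mM3 S T v a b t2 w L g).cl μ ν (p ^ 2) r =
                ∑ n ∈ (Ioc (a / (v * S.prX id μ)) (b / (v * S.prX id μ))).filter
                  (fun n => n ≡ s [MOD p * S.prY id ν]), w n := by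
              refine C04_sum h hX ν (fun n => n ≡ r [MOD p ^ 2])
                (fun n => n ≡ s [MOD p * S.prY id ν]) ?_
              intro n hn
              rw [hcl n hn]
              exact hs1 n
            have hYle : ((S.prY id ν : ℕ) : ℝ) ≤ (T.N : ℝ) ^ δm := by
              refine le_trans ?_ (H.size μ hμ ν hν)
              exact_mod_cast Nat.le_mul_of_pos_left _ hX
            have hdq : dq g (p * S.prY id ν) = S.prY g ν / p := by
              rw [dq_sqp g p _ hpp (H.sets.sqY hν) hpY, dq_prY H.sets hν g]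
            have hgY := C04_gY H hν
            have hev := C04_eval H h hμ hν (Q := p * S.prY id ν) (qW := 1) (q2 := p * S.prY id ν)
              (r := s) (by rw [one_mul]) (one_dvd _) (Nat.mul_pos hpp.pos hY)
              (Nat.Coprime.mul_left
                (Nat.Coprime.coprime_dvd_left hpY (C04_copR H hν)) (C04_copR H hν))
              (by
                push_cast
                exact mul_le_mul hpz' hYle (Nat.cast_nonneg _)
                  (Real.rpow_nonneg (Nat.cast_nonneg _) _))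
              (fun _ => hs2 hr') (by rw [hdq]; exact div_nonneg hgY.1 hp0.le)
              (by
                rw [hdq, div_le_one hp0]
                linarith [hgY.2])
            rw [hsum]
            have h3 := (abs_le.1 hev).2
            have e1 : L * (((b : ℝ) - a) / ((v * S.prX id μ : ℕ) : ℝ)) * dq g (p * S.prY id ν) =
                (mM3 S T v a b t2 w L g).ms μ ν * (1 / p) := by
              rw [hdq, C04_ms H h hμ ν]
              ring
            rw [e1] at h3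
            have h5 : (mM3 S T v a b t2 w L g).ms μ ν * (1 / p) ≤
                4 / p * (mM3 S T v a b t2 w L g).ms μ ν := by
              have e2 : 4 / (p : ℝ) * (mM3 S T v a b t2 w L g).ms μ ν =
                (mM3 S T v a b t2 w L g).ms μ ν * (1 / p) +
                  3 * ((mM3 S T v a b t2 w L g).ms μ ν * (1 / p)) := by
                ring
              rw [e2]
              have : 0 ≤ (mM3 S T v a b t2 w L g).ms μ ν * (1 / p) := by positivity
              linarith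
            rw [hWeq] at hE ⊢
            linarith }

end

end Pool.Agent.Lib.TCB
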