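import Pool.Agent.Lib.MP_7b7e48_nt.BR.M0

/-!
# From the pair lemma to the input of the frame (part BR6 of the bridge): definitions

`R = W0 ^ 2 * T.N` is the modulus of the frame.
-/

set_option autoImplicit false

open Finset

namespace Pool.Agent.Lib.TCB

open Pool.Agent.Lib.RG (Rough)
open Pool.Agent.Lib.RH (Prm MM JJ)
open Pool.Agent.Lib.TC (MS Msr)
open Pool.Agent.Lib.TCF (TUP pht rho ph Mul TM NL NLt wt len Rgh1 VM PY BB)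

/-- the data of the frame which belong to a mark system -/
def datS (S : MS) (J0 J1 J2 y0 : ℕ) : TCF.Dat where
  J0 := J0
  J1 := J1
  J2 := J2
  y0 := y0
  nX := S.k + 1 + S.n0 + S.nX
  nY := S.k + 1 + S.n0 + S.nY
  BX := famX S
  BY := famY S

/-- the conditions on `X`: coprime to `W0 * N` and free of primes `≤ y` -/
def CR (T : TC.Dat) (W0 a : ℕ) : Prop := a.Coprime (W0 * T.N) ∧ Rough T.y a

open Classical in
/-- weight of the pairs of a measure which are not bad and not linked -/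
noncomputable def Wbad {S : MS} (M : Msr S) (T : TC.Dat) (W0 y1 : ℕ) : ℝ :=
  ∑ μ ∈ S.MX, ∑ ν ∈ S.MY, ∑ n ∈ (range (M.nm + 1)).filter (fun n => ¬ S.badpair T 0 y1 μ ν ∧
    ¬ S.Linked T μ ν (M.X μ ν n) ∧ CR T W0 (M.X μ ν n) ∧ CR T W0 (M.X μ ν n - T.D * T.N)), M.Om μ ν n

/-- the pair lemma for one `D` -/
def PLem (S : MS) (T : TC.Dat) (W0 y1 : ℕ) (δ0 δ1 δ2 ε : ℝ) : Prop :=
  ∀ M : Msr S, M.OK T W0 δ0 δ1 → Wbad M T W0 y1 ≤ ε * M.tot + (T.N : ℝ) ^ (-δ2) * M.W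

/-- hypotheses of the bridge -/
structure Brg (P : Prm) (S : MS) (T : TC.Dat) (W0 y1 J0 J1 J2 Cp : ℕ) (δ0 δ1 δm δ2 ε : ℝ) : Prop where
  ok : (datS S J0 J1 J2 T.y0).Ok P (W0 ^ 2 * T.N)
  w0 : Squarefree W0
  w0y : ∀ p : ℕ, p.Prime → p ∣ W0 → p ≤ T.y0
  ty : T.y ≤ MM P (W0 ^ 2 * T.N)
  y0le : (T.y0 : ℝ) ≤ (Real.log T.N) ^ Cp
  size : ∀ μ ∈ S.MX, ∀ ν ∈ S.MY, ((S.prX id μ * S.prY id ν : ℕ) : ℝ) ≤ (T.N : ℝ) ^ δm
  zle : (T.z : ℝ) ≤ (T.N : ℝ) ^ δ0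
  kexp : Real.exp (18 * (S.k + 1)) ≤ JJ (W0 ^ 2 * T.N)
  e0 : 0 ≤ ε
  e1 : ε * (16 * JJ (W0 ^ 2 * T.N)) ≤ 1
  plem : ∀ D : ℕ, 0 < D → W0 ^ 2 ∣ D → D ≤ W0 ^ 2 * J1 → (∀ p : ℕ, p.Prime → p ∣ D → p ≤ T.y0) →
    PLem S (wD T D) W0 y1 δ0 δ1 δ2 ε

/-- relations between the exponents (`κ = P.kap`) -/
structure Exps (κ : ℝ) (Cp : ℕ) (δ0 δ1 δm δ2 : ℝ) : Prop where
  Cp1 : 1 ≤ Cp
  e0 : 0 < δ0
  e1 : 0 < δ1
  em : 0 ≤ δm
  e2 : 0 < δ2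
  a1 : δ0 + δm ≤ 1 / 200
  a2 : δ1 ≤ 1 / (600 * (Cp : ℝ))
  a3 : δ1 ≤ κ / 16
  a4 : δm ≤ κ / 32

/-- the weight of a test measure as a function, its mean value, its local densities -/
noncomputable def gW (y0 : ℕ) (o : Option (ℕ → ℝ)) (p : ℕ) : ℝ :=
  match o with
  | none => 1 / (p : ℝ)
  | some c => g2 y0 c p

noncomputable def LW (y0 : ℕ) (o : Option (ℕ → ℝ)) (L : ℝ) : ℝ :=
  match o with
  | none => 1
  | some c => L * V2 y0 c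

/-- the minimal length of the intervals -/
noncomputable def lenW (κ : ℝ) (R : ℕ) (o : Option (ℕ → ℝ)) : ℝ :=
  match o with
  | none => (R : ℝ) ^ (κ / 4)
  | some _ => (R : ℝ) ^ ((9 : ℝ) / 10)

/-- type 2 -/
def t2W (o : Option (ℕ → ℝ)) : Prop := o ≠ none

end Pool.Agent.Lib.TCB
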