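import Pool.Agent.Lib.MP_7b7e48_nt.BR.D0

/-!
# Module D01 (60 minutes): the sums `NL`, `NLt` over tuples

PROOF. `SetsOk` (`R` any modulus): `mem_TUPX`, `SetsOk.sumX`, `SetsOk.sumY`, `LkS_iff`, `BdS_iff`. In `NL` the sum over `t ∈ (TUP BX).filter (t ∣ X)` is a sum over `μ ∈ MX` with `prX μ ∣ X`, the cardinality is a sum over `ν ∈ MY` of indicators (`Finset.card_filter`, `sumY`). `prY ν ∣ l Y ↔ prY ν ∣ Y` if `l` is coprime to `prY ν`.
`div_prX_le`: the products `prX μ`, `μ ∈ MX`, which divide `X ≠ 0`, are different divisors of `X` (`SetsOk.injX`).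
-/

set_option autoImplicit false

open Finset

namespace Pool.Agent.Lib.TCB

open Pool.Agent.Lib.RG (Rough)
open Pool.Agent.Lib.RH (Prm MM JJ)
open Pool.Agent.Lib.TC (MS Msr)
open Pool.Agent.Lib.TCF (TUP pht rho ph Mul TM NL NLt wt len Rgh1 VM PY BB)

section

variable {P : Prm} {S : MS} {T : TC.Dat} {R y0 y1 J0 J1 J2 y0' : ℕ}

open Classical in
private theorem D01_card (hs : SetsOk S R y0) {μ : S.TX} (hμ : μ ∈ S.MX) (X Y Y' : ℕ) :
    (((TUP (famY S)).filter fun t' => t' ∣ Y ∧ ¬ BdS S T y1 (S.prX id μ) t' ∧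
      ¬ LkS S T X (S.prX id μ) Y' t').card : ℝ) =
      ∑ ν ∈ S.MY, (if S.prY id ν ∣ Y ∧ ¬ S.badpair T 0 y1 μ ν ∧
        ¬ S.Linked (wD T ((X - Y') / T.N)) μ ν X then (1 : ℝ) else 0) := by
  rw [Finset.card_filter, Nat.cast_sum,
    hs.sumY (fun t' => (((if t' ∣ Y ∧ ¬ BdS S T y1 (S.prX id μ) t' ∧
      ¬ LkS S T X (S.prX id μ) Y' t' then 1 else 0 : ℕ)) : ℝ))]
  refine sum_congr rfl fun ν hν => ?_
  have h1 : (S.prY id ν ∣ Y ∧ ¬ BdS S T y1 (S.prX id μ) (S.prY id ν) ∧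
      ¬ LkS S T X (S.prX id μ) Y' (S.prY id ν)) ↔ (S.prY id ν ∣ Y ∧ ¬ S.badpair T 0 y1 μ ν ∧
        ¬ S.Linked (wD T ((X - Y') / T.N)) μ ν X) := by
    rw [LkS_iff hs hμ hν, BdS_iff hs hμ hν]
  by_cases h2 : S.prY id ν ∣ Y ∧ ¬ S.badpair T 0 y1 μ ν ∧
      ¬ S.Linked (wD T ((X - Y') / T.N)) μ ν X
  · rw [if_pos h2, if_pos (h1.2 h2), Nat.cast_one]
  · rw [if_neg h2, if_neg (fun h3 => h2 (h1.1 h3)), Nat.cast_zero]

open Classical in
theorem NL_eq (hs : SetsOk S R y0) (l X Y : ℕ) :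
    NL P R (datS S J0 J1 J2 y0') (LkS S T) (BdS S T y1) l X Y =
      if Rgh1 P R X ∧ Rgh1 P R Y then ∑ μ ∈ S.MX, ∑ ν ∈ S.MY, (if S.prX id μ ∣ X ∧ S.prY id ν ∣ Y ∧
        ¬ S.badpair T 0 y1 μ ν ∧ ¬ S.Linked (wD T ((X - l * Y) / T.N)) μ ν X then (1 : ℝ) else 0) else 0 := by
  unfold NL
  by_cases h : Rgh1 P R X ∧ Rgh1 P R Y
  · rw [if_pos h, if_pos h, sum_filter]
    have h1 := hs.sumX (fun t => if t ∣ X then (((TUP (famY S)).filter fun t' => t' ∣ Y ∧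
      ¬ BdS S T y1 t t' ∧ ¬ LkS S T X t (l * Y) t').card : ℝ) else 0)
    refine Eq.trans h1 (sum_congr rfl fun μ hμ => ?_)
    by_cases h2 : S.prX id μ ∣ X
    · rw [if_pos h2, D01_card hs hμ]
      refine sum_congr rfl fun ν _ => ?_
      by_cases h3 : S.prY id ν ∣ Y ∧ ¬ S.badpair T 0 y1 μ ν ∧
        ¬ S.Linked (wD T ((X - l * Y) / T.N)) μ ν X
      · rw [if_pos h3, if_pos ⟨h2, h3⟩]
      · rw [if_neg h3, if_neg fun h4 => h3 h4.2]
    · rw [if_neg h2]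
      exact (Finset.sum_eq_zero fun ν _ => if_neg fun h4 => h2 h4.1).symm
  · rw [if_neg h, if_neg h]

open Classical in
theorem NLt_eq (hs : SetsOk S R y0) {μ : S.TX} (hμ : μ ∈ S.MX) (X Y : ℕ) :
    NLt P R (datS S J0 J1 J2 y0') (LkS S T) (BdS S T y1) X (S.prX id μ) Y =
      if Rgh1 P R Y then ∑ ν ∈ S.MY, (if S.prY id ν ∣ Y ∧
        ¬ S.badpair T 0 y1 μ ν ∧ ¬ S.Linked (wD T ((X - Y) / T.N)) μ ν X then (1 : ℝ) else 0) else 0 := by
  unfold NLt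
  by_cases h : Rgh1 P R Y
  · rw [if_pos h, if_pos h]
    exact D01_card hs hμ X Y Y
  · rw [if_neg h, if_neg h]

open Classical in
theorem div_prX_le (hs : SetsOk S R y0) {X : ℕ} (hX : X ≠ 0) :
    ∑ μ ∈ S.MX, (if S.prX id μ ∣ X then (1 : ℝ) else 0) ≤ X.divisors.card := by
  rw [← Finset.sum_filter, Finset.sum_const, nsmul_eq_mul, mul_one, Nat.cast_le]
  refine Finset.card_le_card_of_injOn (fun μ => S.prX id μ) ?_ ?_
  · intro μ hμ
    rw [mem_coe, mem_filter] at hμ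
    exact Nat.mem_divisors.2 ⟨hμ.2, hX⟩
  · intro μ hμ μ' hμ' h
    rw [mem_coe, mem_filter] at hμ hμ'
    exact hs.injX hμ.1 hμ'.1 h

open Classical in
theorem div_prY_le (hs : SetsOk S R y0) {Y : ℕ} (hY : Y ≠ 0) :
    ∑ ν ∈ S.MY, (if S.prY id ν ∣ Y then (1 : ℝ) else 0) ≤ Y.divisors.card := by
  rw [← Finset.sum_filter, Finset.sum_const, nsmul_eq_mul, mul_one, Nat.cast_le]
  refine Finset.card_le_card_of_injOn (fun ν => S.prY id ν) ?_ ?_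
  · intro ν hν
    rw [mem_coe, mem_filter] at hν
    exact Nat.mem_divisors.2 ⟨hν.2, hY⟩
  · intro ν hν ν' hν' h
    rw [mem_coe, mem_filter] at hν hν'
    exact hs.injY hν.1 hν'.1 h

end

end Pool.Agent.Lib.TCB
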