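import Pool.Agent.Lib.MP_7b7e48_nt.BR.D01

/-!
# Module D02 (90 minutes): the sums of the frame are bounded by `Wbad`

PROOF of `m1_le`. `M := mM1 S (wD T D) W0 v l c' a b t2 w L g`. For `n ∈ (a, b]`: `X n = (x1 ..).toNat` and `X n - D T.N = l Y n` (`D T.N = (c' - l c) R`, from `hX`, `hY`, `hD`), `(X n - l Y n)/T.N = D`. Insert `NL_eq`, exchange sums; the terms are nonnegative. `Rgh1 P R X` implies
`CR (wD T D) W0 X` (`X` coprime to `R = W0^2 T.N`, so to `W0 T.N`; `T.y ≤ MM`); `Rgh1 P R Y` implies `CR .. (l Y)`: `l` is coprime to `R` and free of primes `≤ T.y` (`hl`). `prY ν ∣ Y` implies `prY ν ∣ l Y = X - D T.N`. `S.badpair (wD T D) = S.badpair T` (`PS` does not depend on `D`). So each term occurs in `Wbad M`.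
`m3_le`: `M := mM3 S (wD T d') v a b t2 w L g`, `d' = W0^2 d`, `d' T.N = d R`. `∑ t ∈ TUP BX` is a sum over `μ ∈ MX` (`SetsOk.sumX`), `NLt_eq`; `n ≤ b` is implied by `v prX μ n ≤ b`.
-/

set_option autoImplicit false

open Finset

namespace Pool.Agent.Lib.TCB

open Pool.Agent.Lib.RG (Rough)
open Pool.Agent.Lib.RH (Prm MM JJ)
open Pool.Agent.Lib.TC (MS Msr)
open Pool.Agent.Lib.TCF (TUP pht rho ph Mul TM NL NLt wt len Rgh1 VM PY BB)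

section

variable {P : Prm} {S : MS} {T : TC.Dat} {W0 y0 y1 J0 J1 J2 y0' : ℕ} {w g : ℕ → ℝ} {t2 : Prop} {L : ℝ}

theorem m1_le (hs : SetsOk S (W0 ^ 2 * T.N) y0) (hN : 0 < W0 ^ 2 * T.N) (hy : T.y ≤ MM P (W0 ^ 2 * T.N)) (hw : ∀ n, 0 ≤ w n)
    (v l D a b : ℕ) (c c' : ℤ) (hl : l.Coprime (W0 ^ 2 * T.N)) (hlr : Rough T.y l) (hl0 : 0 < l)
    (hD : (D : ℤ) = (W0 : ℤ) ^ 2 * (c' - l * c)) (X Y : ℕ → ℕ)
    (hX : ∀ n ∈ Ioc a b, (X n : ℤ) = l * (v * n) + c' * ((W0 ^ 2 * T.N : ℕ) : ℤ))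
    (hY : ∀ n ∈ Ioc a b, (Y n : ℤ) = v * n + c * ((W0 ^ 2 * T.N : ℕ) : ℤ)) :
    ∑ n ∈ Ioc a b, w n * NL P (W0 ^ 2 * T.N) (datS S J0 J1 J2 y0') (LkS S T) (BdS S T y1) l (X n) (Y n) ≤
      Wbad (mM1 S (wD T D) W0 v l c' a b t2 w L g) (wD T D) W0 y1 := by
  classical
  have hTN : 0 < T.N := Nat.pos_of_ne_zero fun h => by rw [h, Nat.mul_zero] at hN; exact lt_irrefl _ hN
  have hxy : ∀ n ∈ Ioc a b, X n = l * Y n + D * T.N := by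
    intro n hn
    have h1 := hX n hn
    have h2 := hY n hn
    zify
    rw [h1, h2, hD]
    push_cast
    ring
  have hdv : ∀ n ∈ Ioc a b, (X n - l * Y n) / T.N = D := by
    intro n hn
    rw [hxy n hn, Nat.add_sub_cancel_left, Nat.mul_div_cancel _ hTN]
  have hxn : ∀ n ∈ Ioc a b, (x1 (wD T D) W0 v l c' n).toNat = X n := by
    intro n hn
    have h1 := hX n hn
    have h2 : x1 (wD T D) W0 v l c' n = (X n : ℤ) := by
      rw [h1]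
      unfold x1
      show ((l * v * n : ℕ) : ℤ) + c' * ((W0 ^ 2 * T.N : ℕ) : ℤ) = _
      push_cast
      ring
    rw [h2, Int.toNat_natCast]
  have hcop : ∀ z : ℕ, z.Coprime (W0 ^ 2 * T.N) → z.Coprime (W0 * T.N) := by
    intro z hz
    exact Nat.Coprime.coprime_dvd_right (Nat.mul_dvd_mul (dvd_pow_self W0 two_ne_zero) dvd_rfl) hz
  have hcr : ∀ z : ℕ, Rgh1 P (W0 ^ 2 * T.N) z → CR (wD T D) W0 z := by
    intro z hz
    exact ⟨hcop z hz.1, fun p hp hd => lt_of_le_of_lt hy (hz.2 p hp hd)⟩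
  have hcrl : ∀ z : ℕ, Rgh1 P (W0 ^ 2 * T.N) z → CR (wD T D) W0 (l * z) := by
    intro z hz
    refine ⟨Nat.Coprime.mul_left (hcop l hl) (hcop z hz.1), fun p hp hd => ?_⟩
    rcases (Nat.Prime.dvd_mul hp).1 hd with h | h
    · exact hlr p hp h
    · exact lt_of_le_of_lt hy (hz.2 p hp h)
  have h1 : ∀ n ∈ Ioc a b, w n * NL P (W0 ^ 2 * T.N) (datS S J0 J1 J2 y0') (LkS S T) (BdS S T y1) l (X n) (Y n) =
      ∑ μ ∈ S.MX, ∑ ν ∈ S.MY, if (Rgh1 P (W0 ^ 2 * T.N) (X n) ∧ Rgh1 P (W0 ^ 2 * T.N) (Y n)) ∧ S.prX id μ ∣ X n ∧ S.prY id ν ∣ Y n ∧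
        ¬ S.badpair T 0 y1 μ ν ∧ ¬ S.Linked (wD T D) μ ν (X n) then w n else 0 := by
    intro n hn
    rw [NL_eq hs, hdv n hn]
    by_cases hc : Rgh1 P (W0 ^ 2 * T.N) (X n) ∧ Rgh1 P (W0 ^ 2 * T.N) (Y n)
    · rw [if_pos hc, mul_sum]
      refine sum_congr rfl fun μ _ => ?_
      rw [mul_sum]
      refine sum_congr rfl fun ν _ => ?_
      by_cases h2 : S.prX id μ ∣ X n ∧ S.prY id ν ∣ Y n ∧ ¬ S.badpair T 0 y1 μ ν ∧ ¬ S.Linked (wD T D) μ ν (X n)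
      · rw [if_pos h2, if_pos ⟨hc, h2⟩, mul_one]
      · rw [if_neg h2, if_neg (fun h => h2 h.2), mul_zero]
    · rw [if_neg hc, mul_zero]
      symm
      refine sum_eq_zero fun μ _ => sum_eq_zero fun ν _ => ?_
      rw [if_neg (fun h => hc h.1)]
  rw [sum_congr rfl h1, sum_comm]
  unfold Wbad
  refine sum_le_sum fun μ _ => ?_
  rw [sum_comm]
  refine sum_le_sum fun ν _ => ?_
  rw [← sum_filter]
  have h2 : ∑ n ∈ (Ioc a b).filter (fun n => (Rgh1 P (W0 ^ 2 * T.N) (X n) ∧ Rgh1 P (W0 ^ 2 * T.N) (Y n)) ∧ S.prX id μ ∣ X n ∧ S.prY id ν ∣ Y n ∧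
        ¬ S.badpair T 0 y1 μ ν ∧ ¬ S.Linked (wD T D) μ ν (X n)), w n =
      ∑ n ∈ (Ioc a b).filter (fun n => (Rgh1 P (W0 ^ 2 * T.N) (X n) ∧ Rgh1 P (W0 ^ 2 * T.N) (Y n)) ∧ S.prX id μ ∣ X n ∧ S.prY id ν ∣ Y n ∧
        ¬ S.badpair T 0 y1 μ ν ∧ ¬ S.Linked (wD T D) μ ν (X n)), (mM1 S (wD T D) W0 v l c' a b t2 w L g).Om μ ν n := by
    refine sum_congr rfl fun n hn => ?_
    rw [mem_filter] at hn
    obtain ⟨hn, _, h3, h4, _⟩ := hn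
    show w n = if n ∈ Ioc a b ∧ S.prX id μ ∣ (x1 (wD T D) W0 v l c' n).toNat ∧ S.prY id ν ∣ (x1 (wD T D) W0 v l c' n).toNat - D * T.N then w n else 0
    rw [if_pos]
    rw [hxn n hn]
    refine ⟨hn, h3, ?_⟩
    rw [hxy n hn, Nat.add_sub_cancel]
    exact Dvd.dvd.mul_left h4 l
  rw [h2]
  refine sum_le_sum_of_subset_of_nonneg ?_ ?_
  · intro n hn
    rw [mem_filter] at hn
    obtain ⟨hn, ⟨h3, h4⟩, h5, h6, h7, h8⟩ := hn
    rw [mem_filter]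
    refine ⟨?_, ?_⟩
    · show n ∈ range (b + 1)
      rw [mem_range]
      exact Nat.lt_succ_of_le (mem_Ioc.1 hn).2
    · show ¬ S.badpair (wD T D) 0 y1 μ ν ∧ ¬ S.Linked (wD T D) μ ν (x1 (wD T D) W0 v l c' n).toNat ∧
        CR (wD T D) W0 (x1 (wD T D) W0 v l c' n).toNat ∧ CR (wD T D) W0 ((x1 (wD T D) W0 v l c' n).toNat - D * T.N)
      rw [hxn n hn]
      refine ⟨h7, h8, hcr _ h3, ?_⟩
      rw [hxy n hn, Nat.add_sub_cancel]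
      exact hcrl _ h4
  · intro n _ _
    show 0 ≤ if n ∈ Ioc a b ∧ S.prX id μ ∣ (x1 (wD T D) W0 v l c' n).toNat ∧ S.prY id ν ∣ (x1 (wD T D) W0 v l c' n).toNat - D * T.N then w n else 0
    split_ifs
    · exact hw n
    · exact le_rfl

open Classical in
theorem m3_le (hs : SetsOk S (W0 ^ 2 * T.N) y0) (hN : 0 < W0 ^ 2 * T.N) (hy : T.y ≤ MM P (W0 ^ 2 * T.N)) (hw : ∀ n, 0 ≤ w n)
    (v d a b : ℕ) (hv : 0 < v) (ha : d * (W0 ^ 2 * T.N) ≤ a) :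
    ∑ t ∈ TUP (famX S), ∑ n ∈ (Icc 1 b).filter (fun n => a < v * t * n ∧ v * t * n ≤ b ∧ Rgh1 P (W0 ^ 2 * T.N) (v * t * n)),
      w n * NLt P (W0 ^ 2 * T.N) (datS S J0 J1 J2 y0') (LkS S T) (BdS S T y1) (v * t * n) t (v * t * n - d * (W0 ^ 2 * T.N)) ≤
      Wbad (mM3 S (wD T (W0 ^ 2 * d)) v a b t2 w L g) (wD T (W0 ^ 2 * d)) W0 y1 := by
  have hTN : 0 < T.N := Nat.pos_of_ne_zero fun h => by rw [h, Nat.mul_zero] at hN; exact lt_irrefl _ hN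
  have hcop : ∀ z : ℕ, z.Coprime (W0 ^ 2 * T.N) → z.Coprime (W0 * T.N) := by
    intro z hz
    exact Nat.Coprime.coprime_dvd_right (Nat.mul_dvd_mul (dvd_pow_self W0 two_ne_zero) dvd_rfl) hz
  have hcr : ∀ z : ℕ, Rgh1 P (W0 ^ 2 * T.N) z → CR (wD T (W0 ^ 2 * d)) W0 z := by
    intro z hz
    exact ⟨hcop z hz.1, fun p hp hd => lt_of_le_of_lt hy (hz.2 p hp hd)⟩
  have hdN : d * (W0 ^ 2 * T.N) = W0 ^ 2 * d * T.N := by ring
  rw [hs.sumX (fun t => ∑ n ∈ (Icc 1 b).filter (fun n => a < v * t * n ∧ v * t * n ≤ b ∧ Rgh1 P (W0 ^ 2 * T.N) (v * t * n)),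
      w n * NLt P (W0 ^ 2 * T.N) (datS S J0 J1 J2 y0') (LkS S T) (BdS S T y1) (v * t * n) t (v * t * n - d * (W0 ^ 2 * T.N)))]
  unfold Wbad
  refine sum_le_sum fun μ hμ => ?_
  have h1 : ∀ n ∈ (Icc 1 b).filter (fun n => a < v * S.prX id μ * n ∧ v * S.prX id μ * n ≤ b ∧ Rgh1 P (W0 ^ 2 * T.N) (v * S.prX id μ * n)),
      w n * NLt P (W0 ^ 2 * T.N) (datS S J0 J1 J2 y0') (LkS S T) (BdS S T y1) (v * S.prX id μ * n) (S.prX id μ)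
        (v * S.prX id μ * n - d * (W0 ^ 2 * T.N)) =
      ∑ ν ∈ S.MY, if Rgh1 P (W0 ^ 2 * T.N) (v * S.prX id μ * n - W0 ^ 2 * d * T.N) ∧ S.prY id ν ∣ v * S.prX id μ * n - W0 ^ 2 * d * T.N ∧
        ¬ S.badpair T 0 y1 μ ν ∧ ¬ S.Linked (wD T (W0 ^ 2 * d)) μ ν (v * S.prX id μ * n) then w n else 0 := by
    intro n hn
    rw [mem_filter] at hn
    obtain ⟨_, h2, _, _⟩ := hn
    have h3 : (v * S.prX id μ * n - (v * S.prX id μ * n - d * (W0 ^ 2 * T.N))) / T.N = W0 ^ 2 * d := by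
      rw [Nat.sub_sub_self (ha.trans h2.le), hdN, Nat.mul_div_cancel _ hTN]
    rw [NLt_eq hs hμ, h3, hdN]
    by_cases hc : Rgh1 P (W0 ^ 2 * T.N) (v * S.prX id μ * n - W0 ^ 2 * d * T.N)
    · rw [if_pos hc, mul_sum]
      refine sum_congr rfl fun ν _ => ?_
      by_cases h4 : S.prY id ν ∣ v * S.prX id μ * n - W0 ^ 2 * d * T.N ∧
        ¬ S.badpair T 0 y1 μ ν ∧ ¬ S.Linked (wD T (W0 ^ 2 * d)) μ ν (v * S.prX id μ * n)
      · rw [if_pos h4, if_pos ⟨hc, h4⟩, mul_one]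
      · rw [if_neg h4, if_neg (fun h => h4 h.2), mul_zero]
    · rw [if_neg hc, mul_zero]
      symm
      refine sum_eq_zero fun ν _ => ?_
      rw [if_neg (fun h => hc h.1)]
  rw [sum_congr rfl h1, sum_comm]
  refine sum_le_sum fun ν _ => ?_
  rw [← sum_filter, filter_filter]
  have h2 : ∑ n ∈ (Icc 1 b).filter (fun n => (a < v * S.prX id μ * n ∧ v * S.prX id μ * n ≤ b ∧ Rgh1 P (W0 ^ 2 * T.N) (v * S.prX id μ * n)) ∧
        Rgh1 P (W0 ^ 2 * T.N) (v * S.prX id μ * n - W0 ^ 2 * d * T.N) ∧ S.prY id ν ∣ v * S.prX id μ * n - W0 ^ 2 * d * T.N ∧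
        ¬ S.badpair T 0 y1 μ ν ∧ ¬ S.Linked (wD T (W0 ^ 2 * d)) μ ν (v * S.prX id μ * n)), w n =
      ∑ n ∈ (Icc 1 b).filter (fun n => (a < v * S.prX id μ * n ∧ v * S.prX id μ * n ≤ b ∧ Rgh1 P (W0 ^ 2 * T.N) (v * S.prX id μ * n)) ∧
        Rgh1 P (W0 ^ 2 * T.N) (v * S.prX id μ * n - W0 ^ 2 * d * T.N) ∧ S.prY id ν ∣ v * S.prX id μ * n - W0 ^ 2 * d * T.N ∧
        ¬ S.badpair T 0 y1 μ ν ∧ ¬ S.Linked (wD T (W0 ^ 2 * d)) μ ν (v * S.prX id μ * n)),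
        (mM3 S (wD T (W0 ^ 2 * d)) v a b t2 w L g).Om μ ν n := by
    refine sum_congr rfl fun n hn => ?_
    rw [mem_filter] at hn
    obtain ⟨_, ⟨h3, h4, _⟩, _, h5, _⟩ := hn
    show w n = if a < v * S.prX id μ * n ∧ v * S.prX id μ * n ≤ b ∧ S.prY id ν ∣ v * S.prX id μ * n - W0 ^ 2 * d * T.N then w n else 0
    rw [if_pos ⟨h3, h4, h5⟩]
  rw [h2]
  refine sum_le_sum_of_subset_of_nonneg ?_ ?_
  · intro n hn
    rw [mem_filter] at hn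
    obtain ⟨hn, ⟨h3, h4, h5⟩, h6, h7, h8, h9⟩ := hn
    rw [mem_filter]
    refine ⟨?_, ?_⟩
    · show n ∈ range (b + 1)
      rw [mem_range]
      exact Nat.lt_succ_of_le (mem_Icc.1 hn).2
    · show ¬ S.badpair (wD T (W0 ^ 2 * d)) 0 y1 μ ν ∧ ¬ S.Linked (wD T (W0 ^ 2 * d)) μ ν (v * S.prX id μ * n) ∧
        CR (wD T (W0 ^ 2 * d)) W0 (v * S.prX id μ * n) ∧ CR (wD T (W0 ^ 2 * d)) W0 (v * S.prX id μ * n - W0 ^ 2 * d * T.N)
      exact ⟨h8, h9, hcr _ h5, hcr _ h6⟩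
  · intro n _ _
    show 0 ≤ if a < v * S.prX id μ * n ∧ v * S.prX id μ * n ≤ b ∧ S.prY id ν ∣ v * S.prX id μ * n - W0 ^ 2 * d * T.N then w n else 0
    split_ifs
    · exact hw n
    · exact le_rfl

end

end Pool.Agent.Lib.TCB
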