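import Pool.Agent.Lib.MP_7b7e48_nt.BR.D0

/-!
# Module D03 (60 minutes): total mass

PROOF. `Msr.tot`, `sum_prX`, `sum_prY`: `∑ μ, prX g μ = ∏_c ∑_{p ∈ famX S c} g p`, `0 ≤ g p ≤ 1/p + 2/p^2 ≤ (1 + 2/y0)/p` for `p > y0`, so the product is `≤ (1 + 2/y0)^(number of sets) rho (famX S) ≤ 2 rho` if `4 (number of sets) ≤ y0` (`(1 + x)^n ≤ exp(n x)`, `exp(1/2) ≤ 2`).
-/

set_option autoImplicit false

open Finset

namespace Pool.Agent.Lib.TCB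

open Pool.Agent.Lib.TC (MS Msr)
open Pool.Agent.Lib.TCF (rho)

section

variable {S : MS} {T : TC.Dat} {R y0 : ℕ} {w g : ℕ → ℝ} {t2 : Prop} {L : ℝ}

private theorem D03_exp {n y : ℕ} (hy : 0 < y) (h : 4 * n ≤ y) : (1 + 2 / (y : ℝ)) ^ n ≤ 2 := by
  have hy0 : (0 : ℝ) < y := by exact_mod_cast hy
  have h1 : (1 + 2 / (y : ℝ)) ≤ Real.exp (2 / y) := by
    rw [add_comm]
    exact Real.add_one_le_exp _
  have h2 : (1 + 2 / (y : ℝ)) ^ n ≤ Real.exp (n * (2 / y)) := by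
    rw [Real.exp_nat_mul]
    exact pow_le_pow_left₀ (by positivity) h1 n
  have h3 : (n : ℝ) * (2 / y) ≤ 1 / 2 := by
    have h4 : 4 * (n : ℝ) ≤ y := by exact_mod_cast h
    rw [← mul_div_assoc, div_le_div_iff₀ hy0 (by norm_num)]
    linarith
  have h4 : Real.exp (1 / 2) ≤ 2 := by
    have h5 : Real.exp (1 / 2) * Real.exp (1 / 2) = Real.exp 1 := by
      rw [← Real.exp_add]
      norm_num
    have h6 := Real.exp_one_lt_d9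
    have h7 := Real.exp_pos (1 / 2)
    nlinarith
  exact h2.trans ((Real.exp_le_exp.2 h3).trans h4)

private theorem D03_fam {n y0 : ℕ} {B : Fin n → Finset ℕ} (hn : 0 < n)
    (hB : ∀ c, ∀ p ∈ B c, p.Prime ∧ y0 < p)
    (hg : ∀ p : ℕ, p.Prime → 0 ≤ g p ∧ |g p - 1 / p| ≤ 2 / (p : ℝ) ^ 2) (h4 : 4 * n ≤ y0) :
    0 ≤ ∏ c, ∑ p ∈ B c, g p ∧ ∏ c, ∑ p ∈ B c, g p ≤ 2 * rho B := by
  have hy0 : 0 < y0 := by omega
  have hyr : (0 : ℝ) < y0 := by exact_mod_cast hy0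
  have h0 : ∀ c, 0 ≤ ∑ p ∈ B c, g p := fun c =>
    Finset.sum_nonneg fun p hp => (hg p (hB c p hp).1).1
  refine ⟨Finset.prod_nonneg fun c _ => h0 c, ?_⟩
  have h1 : ∀ c, ∑ p ∈ B c, g p ≤ (1 + 2 / (y0 : ℝ)) * ∑ p ∈ B c, 1 / (p : ℝ) := by
    intro c
    rw [Finset.mul_sum]
    refine Finset.sum_le_sum fun p hp => ?_
    obtain ⟨hp1, hp2⟩ := hB c p hp
    have hp0 : (0 : ℝ) < p := by exact_mod_cast hp1.pos
    have hpy : (y0 : ℝ) ≤ p := by exact_mod_cast hp2.le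
    have h2 := (abs_le.1 (hg p hp1).2).2
    have h3 : 2 / (p : ℝ) ^ 2 ≤ 2 / (y0 : ℝ) * (1 / p) := by
      rw [div_mul_div_comm, mul_one, sq]
      exact div_le_div_of_nonneg_left (by norm_num) (by positivity)
        (mul_le_mul_of_nonneg_right hpy hp0.le)
    linarith
  have h2 : 0 ≤ rho B := by
    unfold rho
    exact Finset.prod_nonneg fun c _ => Finset.sum_nonneg fun p _ => by positivity
  calc ∏ c, ∑ p ∈ B c, g p ≤ ∏ c : Fin n, ((1 + 2 / (y0 : ℝ)) * ∑ p ∈ B c, 1 / (p : ℝ)) :=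
        Finset.prod_le_prod (fun c _ => h0 c) fun c _ => h1 c
    _ = (1 + 2 / (y0 : ℝ)) ^ n * rho B := by
        rw [Finset.prod_mul_distrib, Finset.prod_const, Finset.card_univ, Fintype.card_fin]
        rfl
    _ ≤ 2 * rho B := mul_le_mul_of_nonneg_right (D03_exp hy0 h4) h2

theorem sum_prX_le (hs : SetsOk S R y0) (hg : ∀ p : ℕ, p.Prime → 0 ≤ g p ∧ |g p - 1 / p| ≤ 2 / (p : ℝ) ^ 2)
    (hn : 4 * (S.k + 1 + S.n0 + S.nX) ≤ y0) : 0 ≤ ∑ μ ∈ S.MX, S.prX g μ ∧ ∑ μ ∈ S.MX, S.prX g μ ≤ 2 * rho (famX S) := by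
  rw [sum_prX]
  exact D03_fam (by omega) (fun c p hp => ⟨(hs.px c p hp).1, (hs.px c p hp).2.2⟩) hg hn

theorem sum_prY_le (hs : SetsOk S R y0) (hg : ∀ p : ℕ, p.Prime → 0 ≤ g p ∧ |g p - 1 / p| ≤ 2 / (p : ℝ) ^ 2)
    (hn : 4 * (S.k + 1 + S.n0 + S.nY) ≤ y0) : 0 ≤ ∑ ν ∈ S.MY, S.prY g ν ∧ ∑ ν ∈ S.MY, S.prY g ν ≤ 2 * rho (famY S) := by
  rw [sum_prY]
  exact D03_fam (by omega) (fun c p hp => ⟨(hs.py c p hp).1, (hs.py c p hp).2.2⟩) hg hn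

theorem tot1_le (hs : SetsOk S R y0) (hg : ∀ p : ℕ, p.Prime → 0 ≤ g p ∧ |g p - 1 / p| ≤ 2 / (p : ℝ) ^ 2)
    (hX : 4 * (S.k + 1 + S.n0 + S.nX) ≤ y0) (hY : 4 * (S.k + 1 + S.n0 + S.nY) ≤ y0) (hL : 0 ≤ L) (W0 v l a b : ℕ) (c' : ℤ) (hab : a ≤ b) :
    (mM1 S T W0 v l c' a b t2 w L g).tot ≤ 4 * (L * ((b : ℝ) - a) * (rho (famX S) * rho (famY S))) := by
  obtain ⟨x0, x1⟩ := sum_prX_le hs hg hX
  obtain ⟨y0', y1⟩ := sum_prY_le hs hg hY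
  have hba : 0 ≤ (b : ℝ) - a := sub_nonneg.2 (Nat.cast_le.2 hab)
  change L * ((b : ℝ) - a) * ((∑ μ ∈ S.MX, S.prX g μ) * ∑ ν ∈ S.MY, S.prY g ν) ≤ _
  calc L * ((b : ℝ) - a) * ((∑ μ ∈ S.MX, S.prX g μ) * ∑ ν ∈ S.MY, S.prY g ν)
      ≤ L * ((b : ℝ) - a) * ((2 * rho (famX S)) * (2 * rho (famY S))) :=
        mul_le_mul_of_nonneg_left (mul_le_mul x1 y1 y0' (x0.trans x1)) (mul_nonneg hL hba)
    _ = 4 * (L * ((b : ℝ) - a) * (rho (famX S) * rho (famY S))) := by ring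

theorem tot3_le (hs : SetsOk S R y0) (hg : ∀ p : ℕ, p.Prime → 0 ≤ g p ∧ |g p - 1 / p| ≤ 2 / (p : ℝ) ^ 2)
    (hY : 4 * (S.k + 1 + S.n0 + S.nY) ≤ y0) (hL : 0 ≤ L) (v a b : ℕ) (hab : a ≤ b) :
    (mM3 S T v a b t2 w L g).tot ≤ 2 * (L * ((b : ℝ) - a) / v * (rho (famX S) * rho (famY S))) := by
  obtain ⟨y0', y1⟩ := sum_prY_le hs hg hY
  have hba : 0 ≤ (b : ℝ) - a := sub_nonneg.2 (Nat.cast_le.2 hab)
  have hx : ∑ μ ∈ S.MX, S.prX (fun p => 1 / (p : ℝ)) μ = rho (famX S) := by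
    rw [sum_prX]
    rfl
  have hr : 0 ≤ rho (famX S) := by
    unfold rho
    exact Finset.prod_nonneg fun c _ => Finset.sum_nonneg fun p _ => by positivity
  change L * ((b : ℝ) - a) / v * ((∑ μ ∈ S.MX, S.prX (fun p => 1 / (p : ℝ)) μ) *
    ∑ ν ∈ S.MY, S.prY g ν) ≤ _
  rw [hx]
  calc L * ((b : ℝ) - a) / v * (rho (famX S) * ∑ ν ∈ S.MY, S.prY g ν)
      ≤ L * ((b : ℝ) - a) / v * (rho (famX S) * (2 * rho (famY S))) :=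
        mul_le_mul_of_nonneg_left (mul_le_mul_of_nonneg_left y1 hr)
          (div_nonneg (mul_nonneg hL hba) (Nat.cast_nonneg _))
    _ = 2 * (L * ((b : ℝ) - a) / v * (rho (famX S) * rho (famY S))) := by ring

end

end Pool.Agent.Lib.TCB
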