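import Pool.Agent.Lib.MP_7b7e48_nt.BR.D0
import Pool.Agent.Lib.MP_7b7e48_nt.BR.B02
import Pool.Agent.Lib.MP_7b7e48_nt.RG.A3
import Pool.Agent.Lib.MP_7b7e48_nt.BR.B08
import Pool.Agent.Lib.MP_7b7e48_nt.BR.B09

/-!
# Module D04 (75 minutes): the weights of the test measures

`TM P R v o L` gives the weight `wt T.y0 o` (type 1: `1`; type 2: `w2 T.y0 c`, by definition equal). PROOF. `none`: `wei1` with `δv = κ/8`, `len = R ^ (κ/4)`; `L = 1`. `some c`: `exists_small` gives `l ∈ PZ`, `l ≡ 1 [MOD W0]`, coprime to `R`, and `TM.sm`: `c l = -1`; `pvw`; `wei2`. `y0 ≤ (log T.N) ^ Cp ≤ (log R) ^ Cp`.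
`LW_le`: `V2 y0 c ≤ 1` as every factor `(1 - 1/p)(1 - c p/p) ≤ (1 - 1/p)(1 + 1/p) ≤ 1`; `LW` is positive. `wt_le`: `rr c n ≤ n.divisors.card`. `δvW o := κ/8` or `1/(500 Cp)`.
`bh`: the common hypotheses `BH` for `wD T D`, from `Brg`, `Exps`: `e1`: type 1: `wei1` holds for every level, take `1/200`. `e3`: `4 R ^ (-δv) ≤ T.N ^ (-δ1)` for large `N`: `R ≥ T.N`, `δ1 < δv` (`a2`, `a3`). `e4`: `4 T.N ^ δ1 ≤ R ^ (κ/4)` resp. `R ^ (9/10)`.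
-/

set_option autoImplicit false

open Finset

namespace Pool.Agent.Lib.TCB

open Pool.Agent.Lib.RG (RC LV rr PB Rough)
open Pool.Agent.Lib.RH (Prm MM JJ)
open Pool.Agent.Lib.TC (MS Msr)
open Pool.Agent.Lib.TCF (TUP pht rho ph Mul TM NL NLt wt len Rgh1 VM PY BB)

/-- the saving of the weight -/
noncomputable def dvW (κ : ℝ) (Cp : ℕ) (o : Option (ℕ → ℝ)) : ℝ :=
  match o with
  | none => κ / 8
  | some _ => 1 / (500 * (Cp : ℝ))

theorem sets_of_ok {P : Prm} {S : MS} {J0 J1 J2 y0 R : ℕ} (h : (datS S J0 J1 J2 y0).Ok P R) : SetsOk S R y0 :=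
  ⟨h.fx.pr, h.fy.pr, h.fx.disj, h.fy.disj⟩

private theorem D04_t2n : t2W none = False := by
  unfold t2W
  simp

private theorem D04_t2s (c : ℕ → ℝ) : t2W (some c) = True := by
  unfold t2W
  simp

private theorem D04_ev (δ : ℝ) (hδ : 0 < δ) (T : ℝ) : ∀ᶠ N : ℕ in Filter.atTop, T ≤ (N : ℝ) ^ δ :=
  ((tendsto_rpow_atTop hδ).comp (tendsto_natCast_atTop_atTop (R := ℝ))).eventually_ge_atTop T

theorem weiW (P : Prm) (hP : P.Ok) (W0 Cp : ℕ) (hW0 : Squarefree W0) (hCp : 1 ≤ Cp) : ∃ N0 : ℕ, ∀ N : ℕ, N0 ≤ N → ∀ y0 : ℕ,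
    1 ≤ y0 → (∀ p : ℕ, p.Prime → p ∣ W0 → p ≤ y0) → (y0 : ℝ) ≤ (Real.log N) ^ Cp →
    ∀ (v : ℕ) (o : Option (ℕ → ℝ)) (L : ℝ), TM P (W0 ^ 2 * N) v o L →
    Wei (W0 ^ 2 * N) W0 y0 ⌊((W0 ^ 2 * N : ℕ) : ℝ) ^ ((21 : ℝ) / 20)⌋₊ (1 / 200) (dvW P.kap Cp o) (lenW P.kap (W0 ^ 2 * N) o) (t2W o)
      (wt y0 o) (LW y0 o L) (gW y0 o) := by
  have hW1 : 1 ≤ W0 := Nat.one_le_iff_ne_zero.2 hW0.ne_zero
  obtain ⟨N1, h1⟩ := wei2 Cp W0 hCp hW0
  obtain ⟨N2, h2⟩ := exists_small P hP W0 hW1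
  refine ⟨N1 + N2 + 2, fun N hN y0 hy1 hy2 hy3 v o L hT => ?_⟩
  have hW2 : 1 ≤ W0 ^ 2 := Nat.one_le_pow _ _ hW1
  have hNR : N ≤ W0 ^ 2 * N := Nat.le_mul_of_pos_left _ (by omega)
  have hR1 : (1 : ℝ) ≤ ((W0 ^ 2 * N : ℕ) : ℝ) := by exact_mod_cast (by omega : 1 ≤ W0 ^ 2 * N)
  rcases hT.ty with ⟨ho, hL, -⟩ | ⟨c, ho, hc, hLV, hL, -⟩
  · subst ho
    have h3 := wei1 (W0 ^ 2 * N) W0 y0 ⌊((W0 ^ 2 * N : ℕ) : ℝ) ^ ((21 : ℝ) / 20)⌋₊ (by omega) (1 / 200) (P.kap / 8)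
      (((W0 ^ 2 * N : ℕ) : ℝ) ^ (P.kap / 4)) (Real.rpow_le_rpow_of_exponent_le hR1 (by linarith [hP.kap0]))
    rw [D04_t2n]
    exact h3
  · subst ho
    obtain ⟨l, hl, hl1⟩ := h2 (W0 ^ 2 * N) (by omega)
    have hl2 := hT.sm c rfl l hl
    have hl3 : l.Coprime (W0 ^ 2 * N) := by
      unfold Pool.Agent.Lib.RG.PZ at hl
      rw [mem_filter] at hl
      exact (Nat.Prime.coprime_iff_not_dvd hl.2.1).2 hl.2.2
    have hdv : W0 ∣ W0 ^ 2 * N := (dvd_pow_self W0 two_ne_zero).mul_right N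
    have hP1 : PVW (W0 ^ 2 * N) W0 c := pvw (by omega) hdv hc hl1 hl3 hl2
    have hlog : (Real.log N) ^ Cp ≤ (Real.log ((W0 ^ 2 * N : ℕ) : ℝ)) ^ Cp := by
      apply pow_le_pow_left₀ (Real.log_natCast_nonneg _)
      apply Real.log_le_log (by exact_mod_cast (by omega : 0 < N))
      exact_mod_cast hNR
    have h3 := h1 (W0 ^ 2 * N) (by omega) hdv c L hc hLV hP1 hL y0
      (fun p hp => hy2 p (Nat.prime_of_mem_primeFactors hp) (Nat.dvd_of_mem_primeFactors hp)) hy1 (hy3.trans hlog)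
    rw [D04_t2s]
    exact h3

private theorem D04_z0 {N : ℕ} {c : ℕ → ℝ} (hc : RC N c) {p : ℕ} (hp : p.Prime) : 0 ≤ 1 - z0 c p ∧ 1 - z0 c p ≤ 1 := by
  have hp2 : (2 : ℝ) ≤ p := by exact_mod_cast hp.two_le
  have hp0 : (0 : ℝ) < p := by linarith
  have hc1 : c p = 1 ∨ c p = -1 ∨ c p = 0 := by
    by_cases h : p.Coprime N
    · rcases hc.val p h with h1 | h1
      · exact Or.inl h1
      · exact Or.inr (Or.inl h1)
    · exact Or.inr (Or.inr (hc.zero p h))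
  have hi : 0 ≤ 1 / (p : ℝ) := by positivity
  have hi2 : 1 / (p : ℝ) ≤ 1 / 2 := one_div_le_one_div_of_le (by norm_num) hp2
  unfold z0
  rcases hc1 with h | h | h <;> rw [h]
  · constructor
    · rw [sub_nonneg, div_le_one hp0]; linarith
    · have : 0 ≤ (1 + 1 - 1 / (p : ℝ)) / p := by
        apply div_nonneg _ hp0.le
        linarith
      linarith
  · constructor
    · rw [sub_nonneg, div_le_one hp0]
      have : -1 / (p : ℝ) = -(1 / p) := by ring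
      linarith
    · have : 0 ≤ (1 + -1 - -1 / (p : ℝ)) / p := by
        apply div_nonneg _ hp0.le
        have : -1 / (p : ℝ) = -(1 / p) := by ring
        linarith
      linarith
  · constructor
    · rw [sub_nonneg, div_le_one hp0]
      simp only [zero_div]
      linarith
    · have : 0 ≤ (1 + 0 - 0 / (p : ℝ)) / p := by
        apply div_nonneg _ hp0.le
        simp
      linarith

theorem LW_le {P : Prm} {N v y0 : ℕ} {o : Option (ℕ → ℝ)} {L : ℝ} (h : TM P N v o L) : 0 ≤ LW y0 o L ∧ LW y0 o L ≤ L := by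
  rcases h.ty with ⟨ho, hL, -⟩ | ⟨c, ho, hc, hLV, -, -⟩
  · subst ho
    unfold LW
    simp only
    rw [hL]
    exact ⟨zero_le_one, le_rfl⟩
  · subst ho
    unfold LW
    simp only
    have h1 : 0 ≤ V2 y0 c := by
      unfold V2
      exact prod_nonneg fun p hp => (D04_z0 hc (mem_filter.1 hp).2).1
    have h2 : V2 y0 c ≤ 1 := by
      unfold V2
      exact prod_le_one (fun p hp => (D04_z0 hc (mem_filter.1 hp).2).1) fun p hp => (D04_z0 hc (mem_filter.1 hp).2).2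
    exact ⟨mul_nonneg hLV.1 h1, mul_le_of_le_one_right hLV.1 h2⟩

theorem wt_le {P : Prm} {N v y0 : ℕ} {o : Option (ℕ → ℝ)} {L : ℝ} (h : TM P N v o L) {n : ℕ} (hn : n ≠ 0) :
    0 ≤ wt y0 o n ∧ wt y0 o n ≤ n.divisors.card := by
  have hcard : (1 : ℝ) ≤ n.divisors.card := by
    have : 0 < n.divisors.card := card_pos.2 ⟨1, Nat.one_mem_divisors.2 hn⟩
    exact_mod_cast this
  rcases h.ty with ⟨ho, hL, -⟩ | ⟨c, ho, hc, hLV, -, -⟩
  · subst ho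
    unfold wt
    simp only
    exact ⟨zero_le_one, hcard⟩
  · subst ho
    unfold wt
    simp only
    split_ifs
    · refine ⟨Pool.Agent.Lib.RG.rr_nonneg N c hc n, ?_⟩
      unfold rr
      refine (sum_le_card_nsmul _ _ 1 fun d _ => ?_).trans (by simp)
      by_cases hd : d.Coprime N
      · rcases hc.val d hd with h1 | h1 <;> rw [h1]
        norm_num
      · rw [hc.zero d hd]
        exact zero_le_one
    · exact ⟨le_rfl, by linarith⟩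

theorem bh (P : Prm) (hP : P.Ok) (W0 Cp : ℕ) {δ0 δ1 δm δ2 : ℝ} (hE : Exps P.kap Cp δ0 δ1 δm δ2) :
    ∃ N0 : ℕ, ∀ (S : MS) (T : TC.Dat) (y1 J0 J1 J2 : ℕ) (ε : ℝ), N0 ≤ T.N → Brg P S T W0 y1 J0 J1 J2 Cp δ0 δ1 δm δ2 ε →
    ∀ (v : ℕ) (o : Option (ℕ → ℝ)) (L : ℝ), TM P (W0 ^ 2 * T.N) v o L →
    ∀ D : ℕ, (∀ p : ℕ, p.Prime → p ∣ D → p ≤ T.y0) →
    BH S (wD T D) W0 ⌊((W0 ^ 2 * T.N : ℕ) : ℝ) ^ ((21 : ℝ) / 20)⌋₊ δ0 δ1 δm (1 / 200) (dvW P.kap Cp o) (lenW P.kap (W0 ^ 2 * T.N) o)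
      (t2W o) (wt T.y0 o) (LW T.y0 o L) (gW T.y0 o) := by
  by_cases hW0 : Squarefree W0
  swap
  · exact ⟨0, fun S T y1 J0 J1 J2 ε _ hB => absurd hB.w0 hW0⟩
  have hW1 : 1 ≤ W0 := Nat.one_le_iff_ne_zero.2 hW0.ne_zero
  have hk0 := hP.kap0
  have hk1 := hP.kap1
  have hCr : (1 : ℝ) ≤ Cp := by exact_mod_cast hE.Cp1
  obtain ⟨N1, h1⟩ := weiW P hP W0 Cp hW0 hE.Cp1
  have hg1 : 0 < P.kap / 16 := by linarith
  have hg2 : 0 < 1 / (3000 * (Cp : ℝ)) := by positivity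
  obtain ⟨N2, h2⟩ := Filter.eventually_atTop.1 ((D04_ev _ hg1 4).and (D04_ev _ hg2 4))
  refine ⟨N1 + N2 + 2, fun S T y1 J0 J1 J2 ε hN hB v o L hT D hD => ?_⟩
  obtain ⟨h3, h4⟩ := h2 T.N (by omega)
  have hW2 : 1 ≤ W0 ^ 2 := Nat.one_le_pow _ _ hW1
  have hNR : T.N ≤ W0 ^ 2 * T.N := Nat.le_mul_of_pos_left _ (by omega)
  have hN1 : (1 : ℝ) ≤ (T.N : ℝ) := by exact_mod_cast (by omega : 1 ≤ T.N)
  have hN0 : (0 : ℝ) < (T.N : ℝ) := by linarith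
  have hNR' : (T.N : ℝ) ≤ ((W0 ^ 2 * T.N : ℕ) : ℝ) := by exact_mod_cast hNR
  have hR1 : (1 : ℝ) ≤ ((W0 ^ 2 * T.N : ℕ) : ℝ) := hN1.trans hNR'
  have hR0 : (0 : ℝ) < ((W0 ^ 2 * T.N : ℕ) : ℝ) := by linarith
  have hy1 : 1 ≤ T.y0 := by
    have h5 := hB.ok.y1
    have h6 := hB.ok.j0
    have h7 := hB.ok.j02
    have h8 := hB.ok.j21
    change 0 < J0 at h6
    change 8 * JJ (W0 ^ 2 * T.N) * MM P (W0 ^ 2 * T.N) ^ 2 * J0 ≤ J2 at h7
    change JJ (W0 ^ 2 * T.N) * J2 ≤ J1 at h8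
    change JJ (W0 ^ 2 * T.N) ^ 4 * MM P (W0 ^ 2 * T.N) ^ 4 * J1 ≤ T.y0 at h5
    have hMM : 0 < MM P (W0 ^ 2 * T.N) := by
      unfold Pool.Agent.Lib.RH.MM
      positivity
    have hJJ : 0 < JJ (W0 ^ 2 * T.N) := by
      have h9 := hB.kexp
      have h10 : (0 : ℝ) < JJ (W0 ^ 2 * T.N) := lt_of_lt_of_le (Real.exp_pos _) h9
      exact_mod_cast h10
    have hJ2 : 0 < J2 := lt_of_lt_of_le (by positivity) h7
    have hJ1 : 0 < J1 := lt_of_lt_of_le (Nat.mul_pos hJJ hJ2) h8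
    exact lt_of_lt_of_le (by positivity) h5
  have hδv : δ1 + min (P.kap / 16) (1 / (3000 * (Cp : ℝ))) ≤ dvW P.kap Cp o := by
    unfold dvW
    cases o with
    | none =>
      simp only
      have := min_le_left (P.kap / 16) (1 / (3000 * (Cp : ℝ)))
      linarith [hE.a3]
    | some c =>
      simp only
      have h5 := min_le_right (P.kap / 16) (1 / (3000 * (Cp : ℝ)))
      have h6 : 1 / (500 * (Cp : ℝ)) = 1 / (600 * (Cp : ℝ)) + 1 / (3000 * (Cp : ℝ)) := by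
        field_simp
        norm_num
      linarith [hE.a2]
  have h4min : 4 ≤ (T.N : ℝ) ^ (min (P.kap / 16) (1 / (3000 * (Cp : ℝ)))) := by
    rcases min_cases (P.kap / 16) (1 / (3000 * (Cp : ℝ))) with ⟨h5, -⟩ | ⟨h5, -⟩ <;> rw [h5]
    · exact h3
    · exact h4
  refine ⟨sets_of_ok hB.ok, hW0, hB.w0y, by change 2 ≤ T.N; omega, hy1, hB.size, hB.zle, hD, ?_, hE.e0.le, hE.em, hE.a1, ?_, ?_, hE.e1.le⟩
  · exact h1 T.N (by omega) T.y0 hy1 hB.w0y hB.y0le v o L hT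
  · change 4 * ((W0 ^ 2 * T.N : ℕ) : ℝ) ^ (-(dvW P.kap Cp o)) ≤ (T.N : ℝ) ^ (-δ1)
    have hdv0 : 0 ≤ dvW P.kap Cp o := by
      have := hE.e1
      have h6 : 0 ≤ min (P.kap / 16) (1 / (3000 * (Cp : ℝ))) := le_min hg1.le hg2.le
      linarith
    have h5 : ((W0 ^ 2 * T.N : ℕ) : ℝ) ^ (-(dvW P.kap Cp o)) ≤ (T.N : ℝ) ^ (-(dvW P.kap Cp o)) :=
      Real.rpow_le_rpow_of_nonpos hN0 hNR' (by linarith)
    calc 4 * ((W0 ^ 2 * T.N : ℕ) : ℝ) ^ (-(dvW P.kap Cp o)) ≤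
        (T.N : ℝ) ^ (min (P.kap / 16) (1 / (3000 * (Cp : ℝ)))) * (T.N : ℝ) ^ (-(dvW P.kap Cp o)) := by
          apply mul_le_mul h4min h5 (Real.rpow_nonneg hR0.le _) (Real.rpow_nonneg hN0.le _)
      _ = (T.N : ℝ) ^ (min (P.kap / 16) (1 / (3000 * (Cp : ℝ))) + -(dvW P.kap Cp o)) := (Real.rpow_add hN0 _ _).symm
      _ ≤ (T.N : ℝ) ^ (-δ1) := Real.rpow_le_rpow_of_exponent_le hN1 (by linarith)
  · change 4 * (T.N : ℝ) ^ δ1 ≤ lenW P.kap (W0 ^ 2 * T.N) o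
    have h5 : (T.N : ℝ) ^ (δ1 + P.kap / 16) ≤ lenW P.kap (W0 ^ 2 * T.N) o := by
      unfold lenW
      cases o with
      | none =>
        simp only
        exact (Real.rpow_le_rpow hN0.le hNR' (by linarith [hE.e1])).trans
          (Real.rpow_le_rpow_of_exponent_le hR1 (by linarith [hE.a3]))
      | some c =>
        simp only
        exact (Real.rpow_le_rpow hN0.le hNR' (by linarith [hE.e1])).trans
          (Real.rpow_le_rpow_of_exponent_le hR1 (by linarith [hE.a3]))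
    refine le_trans ?_ h5
    rw [Real.rpow_add hN0, mul_comm]
    exact mul_le_mul_of_nonneg_left h3 (Real.rpow_nonneg hN0.le _)

end Pool.Agent.Lib.TCB
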