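import Pool.Agent.Lib.MP_7b7e48_nt.BR.C03
import Pool.Agent.Lib.MP_7b7e48_nt.BR.D02
import Pool.Agent.Lib.MP_7b7e48_nt.BR.D03
import Pool.Agent.Lib.MP_7b7e48_nt.BR.D04

/-!
# Module D05 (120 minutes): the field `m1`

Write `R = W0^2 T.N`, `K = log R`, `κ = P.kap`, `e = κ/100`. If `a = b` both sides are fine (`0 ≤`). Let `a < b`.
SHORT CASE `v (b - a) < L R ^ (1 - κ/8 - 5 e)`: `NL ≤ τ(X) τ(Y)` (`NL_eq`, `div_prX_le`, `div_prY_le`), `wt ≤ τ(n)`, all numbers `≤ R^2`, so each term is `≤ R ^ (3 e)` for large `N` (`RG.divisor_bound`); the sum is `≤ R ^ (3 e) (b - a) ≤ R ^ (-2 e) L R ^ (1 - κ/8)/v`, and `R ^ (-2 e) ≤ rho rho/JJ` because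
`rho (famX S) ≥ 1/J1 ≥ 1/y0`, `rho (famY S) ≥ 1/J0 ≥ 1/y0` (`Ok.jx`, `Ok.jy`, `JJ ≥ 1`; `J0 ≤ J1 ≤ y0` by `j02`, `j21`, `y1`), `y0 ≤ K ^ Cp`.
LONG CASE. `n = b` is in the interval. `|c'| ≤ l J1`, `|c| ≤ J1`, `1 ≤ c' - l c ≤ J1` (from `X b ≤ J1 R`, `0 < Y b`, `l Y b < X b`, `v b ≤ J1 R`); `l ≤ 4 MM^2`, so everything is `≤ y0` (`Ok.y1`). `D := W0^2 (c' - l c).toNat`. `H1`: `lab`: type 1: `b - a ≥ R ^ (1 - κ/8 - 5e)/v ≥ R ^ (κ/4)` (`v ≤ R ^ (1 - κ/2)`),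
type 2: `≥ R ^ (1 - κ/8 - 5e - 1/200 - 2κ) ≥ R ^ (9/10)`; `bB`: `b ≤ v b ≤ J1 R ≤ R ^ (21/20) - 1`; `l v ≤ T.N` (`v ≤ R ^ (1 - κ/2)` resp. `R ^ (2κ)`, `l ≤ y0`, `R = W0^2 T.N`, large `N`); `big`: `exp(18 (k+1)) ≤ JJ` (`Brg.kexp`) and `JJ (l Y) < X`. `c2` : `o ≠ none` excludes the first alternative.
`mM1_ok`, `Brg.plem` for `D`, `m1_le`, `tot1_le` (`4 (number of sets) ≤ 4 K ≤ y0`, from `FamOk.nle`): the sum is `≤ ε 4 LW (b - a) rho rho + T.N ^ (-δ2) LW (b - a) ≤ (1/JJ) rho rho L (b - a)` (`ε 16 JJ ≤ 1`, `T.N ^ (-δ2) ≤ rho rho/(2 JJ)` for large `N`), and `b - a ≤ len`.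
Split the proof into lemmas as you like (short case, exponents, `H1`, final estimate).
-/

set_option autoImplicit false

open Finset

namespace Pool.Agent.Lib.TCB

open Pool.Agent.Lib.RG (Rough)
open Pool.Agent.Lib.RH (Prm MM JJ)
open Pool.Agent.Lib.TC (MS Msr)
open Pool.Agent.Lib.TCF (TUP pht rho ph Mul TM NL NLt wt len Rgh1 VM PY BB)

/-! ### numerical facts -/

private theorem D05_ev_rpow (δ : ℝ) (hδ : 0 < δ) (T : ℝ) :
    ∀ᶠ N : ℕ in Filter.atTop, T ≤ (N : ℝ) ^ δ :=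
  ((tendsto_rpow_atTop hδ).comp (tendsto_natCast_atTop_atTop (R := ℝ))).eventually_ge_atTop T

private theorem D05_ev_log (T : ℝ) : ∀ᶠ N : ℕ in Filter.atTop, T ≤ Real.log N :=
  (Real.tendsto_log_atTop.comp (tendsto_natCast_atTop_atTop (R := ℝ))).eventually_ge_atTop T

private theorem D05_ev_log_pow (A : ℕ) (δ : ℝ) (hδ : 0 < δ) (C : ℝ) (hC : 0 < C) :
    ∀ᶠ N : ℕ in Filter.atTop, C * (Real.log N) ^ A ≤ (N : ℝ) ^ δ := by
  have h1 := isLittleO_log_rpow_rpow_atTop (A : ℝ) hδ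
  have h2 := h1.bound (show (0 : ℝ) < 1 / C by positivity)
  have h3 := tendsto_natCast_atTop_atTop (R := ℝ) |>.eventually h2
  filter_upwards [h3, Filter.eventually_ge_atTop 1] with N h4 hN
  have hN1 : (1 : ℝ) ≤ N := by exact_mod_cast hN
  have h5 : 0 ≤ Real.log N := Real.log_nonneg hN1
  rw [Real.rpow_natCast, Real.norm_of_nonneg (pow_nonneg h5 _),
    Real.norm_of_nonneg (Real.rpow_nonneg (by linarith) _)] at h4
  calc C * (Real.log N) ^ A ≤ C * (1 / C * (N : ℝ) ^ δ) := mul_le_mul_of_nonneg_left h4 hC.le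
    _ = _ := by field_simp

private theorem D05_num (W0 Cp : ℕ) (hW : 0 < W0) (κ : ℝ) (hκ : 0 < κ) (δ2 : ℝ) (hδ2 : 0 < δ2) (C : ℝ) :
    ∃ N0 : ℕ, ∀ N : ℕ, N0 ≤ N → 2 ≤ N ∧ (N : ℝ) ≤ ((W0 ^ 2 * N : ℕ) : ℝ) ∧
      2 ≤ Real.log ((W0 ^ 2 * N : ℕ) : ℝ) ∧ C ≤ ((W0 ^ 2 * N : ℕ) : ℝ) ^ (κ / 200) ∧
      (W0 : ℝ) ^ 2 ≤ ((W0 ^ 2 * N : ℕ) : ℝ) ^ (κ / 4) ∧
      (W0 : ℝ) ^ 2 * (Real.log N) ^ Cp ≤ N ∧ 2 * (Real.log N) ^ (Cp * 3) ≤ (N : ℝ) ^ δ2 := by
  have hWr : (0 : ℝ) < W0 := by exact_mod_cast hW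
  have ev : ∀ᶠ N : ℕ in Filter.atTop, 2 ≤ N ∧ (N : ℝ) ≤ ((W0 ^ 2 * N : ℕ) : ℝ) ∧
      2 ≤ Real.log ((W0 ^ 2 * N : ℕ) : ℝ) ∧ C ≤ ((W0 ^ 2 * N : ℕ) : ℝ) ^ (κ / 200) ∧
      (W0 : ℝ) ^ 2 ≤ ((W0 ^ 2 * N : ℕ) : ℝ) ^ (κ / 4) ∧
      (W0 : ℝ) ^ 2 * (Real.log N) ^ Cp ≤ N ∧ 2 * (Real.log N) ^ (Cp * 3) ≤ (N : ℝ) ^ δ2 := by
    filter_upwards [Filter.eventually_ge_atTop 2, D05_ev_log 2, D05_ev_rpow (κ / 200) (by positivity) C,
      D05_ev_rpow (κ / 4) (by positivity) ((W0 : ℝ) ^ 2),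
      D05_ev_log_pow Cp 1 one_pos ((W0 : ℝ) ^ 2) (by positivity),
      D05_ev_log_pow (Cp * 3) δ2 hδ2 2 (by norm_num)] with N h1 h2 h3 h4 h5 h6
    have hN0 : (0 : ℝ) < N := by
      have : 0 < N := by omega
      exact_mod_cast this
    have hR : (N : ℝ) ≤ ((W0 ^ 2 * N : ℕ) : ℝ) := by
      exact_mod_cast Nat.le_mul_of_pos_left _ (pow_pos hW 2)
    refine ⟨h1, hR, h2.trans (Real.log_le_log hN0 hR), h3.trans (Real.rpow_le_rpow hN0.le hR (by positivity)),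
      h4.trans (Real.rpow_le_rpow hN0.le hR (by positivity)), ?_, h6⟩
    rwa [Real.rpow_one] at h5
  exact Filter.eventually_atTop.1 ev

/-! ### the parameters -/

/-- the facts about the parameters -/
private structure D05P (P : Prm) (S : MS) (T : TC.Dat) (W0 J0 J1 : ℕ) : Prop where
  JJ2 : 2 ≤ JJ (W0 ^ 2 * T.N)
  MM1 : 1 ≤ MM P (W0 ^ 2 * T.N)
  J1y : J1 ≤ T.y0
  MJ : 4 * MM P (W0 ^ 2 * T.N) ^ 2 * J1 ≤ T.y0
  J11 : 1 ≤ J1
  JJy : JJ (W0 ^ 2 * T.N) ≤ T.y0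
  yR : (T.y0 : ℝ) ≤ ((W0 ^ 2 * T.N : ℕ) : ℝ) ^ (P.kap / 1000)
  rX : 0 < rho (famX S)
  rY : 0 < rho (famY S)
  rr : 1 / (T.y0 : ℝ) ^ 3 ≤ 1 / JJ (W0 ^ 2 * T.N) * (rho (famX S) * rho (famY S))
  nX : 4 * (S.k + 1 + S.n0 + S.nX) ≤ T.y0
  nY : 4 * (S.k + 1 + S.n0 + S.nY) ≤ T.y0
  y1 : 1 ≤ T.y0

private theorem D05_par {P : Prm} {S : MS} {T : TC.Dat} {W0 J0 J1 J2 : ℕ}
    (hok : (datS S J0 J1 J2 T.y0).Ok P (W0 ^ 2 * T.N))
    (hlog : 2 ≤ Real.log ((W0 ^ 2 * T.N : ℕ) : ℝ)) : D05P P S T W0 J0 J1 := by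
  set R : ℕ := W0 ^ 2 * T.N with hR
  have hJJr : (Real.log R) ^ 1000 ≤ (JJ R : ℝ) := Nat.le_ceil _
  have h4log : 4 * Real.log R ≤ (JJ R : ℝ) := by
    refine le_trans ?_ hJJr
    have h1 : (4 : ℝ) ≤ (Real.log R) ^ 999 := by
      calc (4 : ℝ) = 2 ^ 2 := by norm_num
        _ ≤ 2 ^ 999 := pow_le_pow_right₀ (by norm_num) (by norm_num)
        _ ≤ (Real.log R) ^ 999 := pow_le_pow_left₀ (by norm_num) hlog 999
    calc 4 * Real.log R ≤ (Real.log R) ^ 999 * Real.log R :=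
          mul_le_mul_of_nonneg_right h1 (by linarith)
      _ = (Real.log R) ^ 1000 := (pow_succ _ _).symm
  have hJJ2 : 2 ≤ JJ R := by
    have : (2 : ℝ) ≤ (JJ R : ℝ) := by linarith
    exact_mod_cast this
  have hMM1 : 1 ≤ MM P R := Nat.one_le_two_pow
  have j0 : 0 < J0 := hok.j0
  have j02 : 8 * JJ R * MM P R ^ 2 * J0 ≤ J2 := hok.j02
  have j21 : JJ R * J2 ≤ J1 := hok.j21
  have y1 : JJ R ^ 4 * MM P R ^ 4 * J1 ≤ T.y0 := hok.y1
  have hJJ1 : 1 ≤ JJ R := by omega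
  have hJ02 : J0 ≤ J2 := by
    refine le_trans (Nat.le_mul_of_pos_left J0 ?_) j02
    positivity
  have hJ21 : J2 ≤ J1 := (Nat.le_mul_of_pos_left J2 hJJ1).trans j21
  have hJ1 : 1 ≤ J1 := by omega
  have hJJ4 : 4 * JJ R ≤ JJ R ^ 4 := by
    calc 4 * JJ R ≤ 8 * JJ R := by omega
      _ = 2 ^ 3 * JJ R := by norm_num
      _ ≤ JJ R ^ 3 * JJ R := Nat.mul_le_mul_right _ (Nat.pow_le_pow_left hJJ2 3)
      _ = JJ R ^ 4 := by ring
  have hMM4 : MM P R ^ 2 ≤ MM P R ^ 4 := Nat.pow_le_pow_right hMM1 (by norm_num)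
  have hMM41 : 1 ≤ MM P R ^ 4 := Nat.one_le_pow _ _ hMM1
  have hMJ : 4 * MM P R ^ 2 * J1 ≤ T.y0 := by
    refine le_trans ?_ y1
    refine Nat.mul_le_mul_right _ (Nat.mul_le_mul ?_ hMM4)
    calc 4 ≤ 4 * JJ R := Nat.le_mul_of_pos_right 4 hJJ1
      _ ≤ JJ R ^ 4 := hJJ4
  have hJJy : JJ R ≤ T.y0 := by
    refine le_trans ?_ y1
    calc JJ R ≤ JJ R ^ 4 := by omega
      _ = JJ R ^ 4 * 1 * 1 := by ring
      _ ≤ JJ R ^ 4 * MM P R ^ 4 * J1 := Nat.mul_le_mul (Nat.mul_le_mul_left _ hMM41) hJ1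
  have hJ1y : J1 ≤ T.y0 := by
    refine le_trans ?_ y1
    refine Nat.le_mul_of_pos_left J1 ?_
    positivity
  have hJJ3 : (1 : ℝ) ≤ (JJ R : ℝ) ^ 3 := by
    have : (1 : ℝ) ≤ JJ R := by exact_mod_cast hJJ1
    exact one_le_pow₀ this
  have hy1 : 1 ≤ T.y0 := hJ1.trans hJ1y
  have hy0 : (0 : ℝ) < T.y0 := by exact_mod_cast hy1
  have jx : (JJ R : ℝ) ^ 3 ≤ J1 * rho (famX S) := hok.jx
  have jy : (JJ R : ℝ) ^ 3 ≤ J0 * rho (famY S) := hok.jy
  have hJ0r : (0 : ℝ) < J0 := by exact_mod_cast j0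
  have hJ1r : (0 : ℝ) < J1 := by exact_mod_cast hJ1
  have hrX : 0 < rho (famX S) := by
    by_contra hcon
    push Not at hcon
    have := mul_nonpos_of_nonneg_of_nonpos hJ1r.le hcon
    linarith
  have hrY : 0 < rho (famY S) := by
    by_contra hcon
    push Not at hcon
    have := mul_nonpos_of_nonneg_of_nonpos hJ0r.le hcon
    linarith
  have hrX1 : 1 ≤ T.y0 * rho (famX S) := by
    have h1 : (J1 : ℝ) ≤ T.y0 := by exact_mod_cast hJ1y
    have := mul_le_mul_of_nonneg_right h1 hrX.le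
    linarith
  have hrY1 : 1 ≤ T.y0 * rho (famY S) := by
    have h1 : (J0 : ℝ) ≤ T.y0 := by exact_mod_cast (hJ02.trans hJ21).trans hJ1y
    have := mul_le_mul_of_nonneg_right h1 hrY.le
    linarith
  have hJJr0 : (0 : ℝ) < JJ R := by exact_mod_cast hJJ1
  have hJJyr : (JJ R : ℝ) ≤ T.y0 := by exact_mod_cast hJJy
  refine
    { JJ2 := hJJ2
      MM1 := hMM1
      J1y := hJ1y
      MJ := hMJ
      J11 := hJ1
      JJy := hJJy
      yR := hok.y2
      rX := hrX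
      rY := hrY
      rr := ?_
      nX := ?_
      nY := ?_
      y1 := hy1 }
  · rw [div_mul_eq_mul_div, one_mul, div_le_div_iff₀ (by positivity) hJJr0, one_mul]
    have h1 : (1 : ℝ) * 1 ≤ (T.y0 * rho (famX S)) * (T.y0 * rho (famY S)) :=
      mul_le_mul hrX1 hrY1 (by norm_num) (by linarith)
    calc (JJ R : ℝ) ≤ T.y0 := hJJyr
      _ = T.y0 * (1 * 1) := by ring
      _ ≤ T.y0 * ((T.y0 * rho (famX S)) * (T.y0 * rho (famY S))) :=
          mul_le_mul_of_nonneg_left h1 hy0.le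
      _ = _ := by ring
  · have h1 : ((S.k + 1 + S.n0 + S.nX : ℕ) : ℝ) ≤ Real.log R := hok.fx.nle
    have h2 : ((4 * (S.k + 1 + S.n0 + S.nX) : ℕ) : ℝ) ≤ T.y0 := by
      push_cast at h1 ⊢
      linarith
    exact_mod_cast h2
  · have h1 : ((S.k + 1 + S.n0 + S.nY : ℕ) : ℝ) ≤ Real.log R := hok.fy.nle
    have h2 : ((4 * (S.k + 1 + S.n0 + S.nY) : ℕ) : ℝ) ≤ T.y0 := by
      push_cast at h1 ⊢
      linarith
    exact_mod_cast h2

/-! ### the trivial bound -/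

private theorem D05_NL {P : Prm} {S : MS} {T : TC.Dat} {R y0 y1 J0 J1 J2 y0' : ℕ}
    (hs : SetsOk S R y0) (l X Y : ℕ) (hX : X ≠ 0) (hY : Y ≠ 0) :
    NL P R (datS S J0 J1 J2 y0') (LkS S T) (BdS S T y1) l X Y ≤
      (X.divisors.card : ℝ) * Y.divisors.card ∧
    0 ≤ NL P R (datS S J0 J1 J2 y0') (LkS S T) (BdS S T y1) l X Y := by
  classical
  rw [NL_eq hs l X Y]
  have h1 := div_prX_le hs hX
  have h2 := div_prY_le hs hY
  have h3 : 0 ≤ ∑ ν ∈ S.MY, (if S.prY id ν ∣ Y then (1 : ℝ) else 0) :=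
    sum_nonneg fun ν _ => by split_ifs <;> norm_num
  split_ifs with hR
  · constructor
    · calc ∑ μ ∈ S.MX, ∑ ν ∈ S.MY, (if S.prX id μ ∣ X ∧ S.prY id ν ∣ Y ∧
          ¬ S.badpair T 0 y1 μ ν ∧ ¬ S.Linked (wD T ((X - l * Y) / T.N)) μ ν X then (1 : ℝ) else 0)
          ≤ ∑ μ ∈ S.MX, ∑ ν ∈ S.MY, (if S.prX id μ ∣ X then (1 : ℝ) else 0) *
            (if S.prY id ν ∣ Y then (1 : ℝ) else 0) := by
            refine sum_le_sum fun μ _ => sum_le_sum fun ν _ => ?_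
            by_cases hc : S.prX id μ ∣ X ∧ S.prY id ν ∣ Y ∧
              ¬ S.badpair T 0 y1 μ ν ∧ ¬ S.Linked (wD T ((X - l * Y) / T.N)) μ ν X
            · rw [if_pos hc, if_pos hc.1, if_pos hc.2.1, one_mul]
            · rw [if_neg hc]
              apply mul_nonneg <;> split_ifs <;> norm_num
        _ = (∑ μ ∈ S.MX, (if S.prX id μ ∣ X then (1 : ℝ) else 0)) *
            ∑ ν ∈ S.MY, (if S.prY id ν ∣ Y then (1 : ℝ) else 0) := by rw [sum_mul_sum]
        _ ≤ _ := mul_le_mul h1 h2 h3 (Nat.cast_nonneg _)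
    · exact sum_nonneg fun μ _ => sum_nonneg fun ν _ => by split_ifs <;> norm_num
  · exact ⟨by positivity, le_rfl⟩

private theorem D05_mul {P : Prm} {R l : ℕ} (hl : Mul P R l) (hMM : 1 ≤ MM P R) :
    0 < l ∧ l ≤ 4 * MM P R ^ 2 ∧ l.Coprime R ∧ Rough (MM P R) l := by
  rcases hl with h | h
  · rw [h]
    refine ⟨one_pos, ?_, Nat.coprime_one_left _, ?_⟩
    · have : 1 ≤ MM P R ^ 2 := Nat.one_le_pow _ _ hMM
      omega
    · intro p hp hp1
      exact absurd (Nat.dvd_one.1 hp1) hp.one_lt.ne'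
  · obtain ⟨h1, h2, h3, h4⟩ := Pool.Agent.Lib.RG.mem_PZ.1 h
    refine ⟨h3.pos, h2, (Nat.Prime.coprime_iff_not_dvd h3).2 h4, ?_⟩
    intro p hp hpl
    rw [(Nat.prime_dvd_prime_iff_eq hp h3).1 hpl]
    exact h1

/-- the type of the test measure: `L` positive, `v ≤ R ^ (1 - κ/2)`, minimal length -/
private theorem D05_TM {P : Prm} (hP : P.Ok) {R v : ℕ} (hR : 1 ≤ (R : ℝ)) {o : Option (ℕ → ℝ)} {L : ℝ}
    (h : TM P R v o L) : 0 < L ∧ (v : ℝ) ≤ (R : ℝ) ^ (1 - P.kap / 2) ∧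
      lenW P.kap R o * v ≤ L * (R : ℝ) ^ (1 - P.kap / 8 - P.kap / 20) := by
  have hR0 : (0 : ℝ) < R := by linarith
  have k0 := hP.kap0
  have k1 := hP.kap1
  rcases h.ty with ⟨h1, h2, h3⟩ | ⟨c, h1, -, -, h2, h3⟩
  · refine ⟨by rw [h2]; norm_num, h3, ?_⟩
    rw [h1, h2, one_mul]
    change (R : ℝ) ^ (P.kap / 4) * v ≤ _
    calc (R : ℝ) ^ (P.kap / 4) * v ≤ (R : ℝ) ^ (P.kap / 4) * (R : ℝ) ^ (1 - P.kap / 2) :=
          mul_le_mul_of_nonneg_left h3 (Real.rpow_nonneg hR0.le _)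
      _ = (R : ℝ) ^ (P.kap / 4 + (1 - P.kap / 2)) := (Real.rpow_add hR0 _ _).symm
      _ ≤ _ := Real.rpow_le_rpow_of_exponent_le hR (by linarith)
  · have hL : 0 < L := lt_of_lt_of_le (Real.rpow_pos_of_pos hR0 _) h2
    refine ⟨hL, h3.trans (Real.rpow_le_rpow_of_exponent_le hR (by linarith)), ?_⟩
    rw [h1]
    change (R : ℝ) ^ ((9 : ℝ) / 10) * v ≤ _
    calc (R : ℝ) ^ ((9 : ℝ) / 10) * v ≤ (R : ℝ) ^ ((9 : ℝ) / 10) * (R : ℝ) ^ (2 * P.kap) :=
          mul_le_mul_of_nonneg_left h3 (Real.rpow_nonneg hR0.le _)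
      _ = (R : ℝ) ^ ((9 : ℝ) / 10 + 2 * P.kap) := (Real.rpow_add hR0 _ _).symm
      _ ≤ (R : ℝ) ^ (-(1 / 200) + (1 - P.kap / 8 - P.kap / 20) : ℝ) :=
          Real.rpow_le_rpow_of_exponent_le hR (by linarith)
      _ = (R : ℝ) ^ (-(1 / 200) : ℝ) * (R : ℝ) ^ (1 - P.kap / 8 - P.kap / 20) := Real.rpow_add hR0 _ _
      _ ≤ _ := mul_le_mul_of_nonneg_right h2 (Real.rpow_nonneg hR0.le _)

theorem m1_thm (P : Prm) (hP : P.Ok) (W0 Cp : ℕ) {δ0 δ1 δm δ2 : ℝ} (hE : Exps P.kap Cp δ0 δ1 δm δ2) :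
    ∃ N0 : ℕ, ∀ (S : MS) (T : TC.Dat) (y1 J0 J1 J2 : ℕ) (ε : ℝ), N0 ≤ T.N → Brg P S T W0 y1 J0 J1 J2 Cp δ0 δ1 δm δ2 ε →
    ∀ (v : ℕ) (o : Option (ℕ → ℝ)) (L : ℝ), TM P (W0 ^ 2 * T.N) v o L → ∀ l : ℕ, Mul P (W0 ^ 2 * T.N) l → ∀ c c' : ℤ,
    ((v = 1 ∧ o = none) ∨ (c ≠ 0 ∧ c' ≠ 0)) → ∀ X Y : ℕ → ℕ, ∀ a b : ℕ, a ≤ b →
    (∀ n ∈ Ioc a b, (X n : ℤ) = l * (v * n) + c' * ((W0 ^ 2 * T.N : ℕ) : ℤ) ∧ (Y n : ℤ) = v * n + c * ((W0 ^ 2 * T.N : ℕ) : ℤ) ∧ 0 < Y n ∧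
      JJ (W0 ^ 2 * T.N) * (l * Y n) < X n ∧ X n ≤ J1 * (W0 ^ 2 * T.N) ∧ v * n ≤ J1 * (W0 ^ 2 * T.N)) →
    ∑ n ∈ Ioc a b, wt T.y0 o n * NL P (W0 ^ 2 * T.N) (datS S J0 J1 J2 T.y0) (LkS S T) (BdS S T y1) l (X n) (Y n) ≤
      1 / JJ (W0 ^ 2 * T.N) * (rho (famX S) * rho (famY S) * L * len P (W0 ^ 2 * T.N) v a b) := by
  classical
  rcases Nat.eq_zero_or_pos W0 with hW0 | hW0
  · refine ⟨0, ?_⟩
    intro S T y1 J0 J1 J2 ε _ hB
    exact absurd (hW0 ▸ hB.w0) not_squarefree_zero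
  have k0 := hP.kap0
  have k1 := hP.kap1
  obtain ⟨N1, hbh⟩ := bh P hP W0 Cp hE
  obtain ⟨C, hC, hdiv⟩ := Pool.Agent.Lib.RG.divisor_bound (P.kap / 400) (by positivity)
  obtain ⟨N2, hnum⟩ := D05_num W0 Cp hW0 P.kap k0 δ2 hE.e2 C
  refine ⟨max N1 N2, ?_⟩
  intro S T y1 J0 J1 J2 ε hN hB v o L hTM l hl c c' hcc X Y a b hab hXY
  obtain ⟨h2N, hNR, hlog, hCR, hWR, hlogN, hlog3⟩ := hnum T.N (le_trans (le_max_right _ _) hN)
  have D := D05_par hB.ok hlog
  have hs := sets_of_ok hB.ok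
  have hRpos : 0 < W0 ^ 2 * T.N := Nat.mul_pos (pow_pos hW0 2) (by omega)
  obtain ⟨hl0, hlM, hlR, hlr⟩ := D05_mul hl D.MM1
  set R : ℕ := W0 ^ 2 * T.N with hR
  have hN1 : (1 : ℝ) ≤ T.N := by
    have : 1 ≤ T.N := by omega
    exact_mod_cast this
  have hNr0 : (0 : ℝ) < T.N := by linarith
  have hR1 : (1 : ℝ) ≤ R := hN1.trans hNR
  have hR0 : (0 : ℝ) < R := by linarith
  obtain ⟨hL0, hvR, hlenW⟩ := D05_TM hP hR1 hTM
  have hv1 : (1 : ℝ) ≤ v := by exact_mod_cast hTM.v1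
  have hv0 : (0 : ℝ) < v := by linarith
  have hab' : (a : ℝ) ≤ b := by exact_mod_cast hab
  have hJJ1 : 1 ≤ JJ R := le_trans (by norm_num) D.JJ2
  have hJJr : (0 : ℝ) < JJ R := by exact_mod_cast hJJ1
  have hrX := D.rX
  have hrY := D.rY
  have hy0r : (0 : ℝ) < T.y0 := by exact_mod_cast D.y1
  have hlen : (b : ℝ) - a ≤ len P R v a b ∧ (R : ℝ) ^ (1 - P.kap / 8) / v ≤ len P R v a b := by
    unfold len
    have : 0 ≤ (R : ℝ) ^ (1 - P.kap / 8) / v := by positivity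
    constructor <;> linarith
  have hJ1R : ((J1 * R : ℕ) : ℝ) ≤ (R : ℝ) ^ (1 + P.kap / 1000) := by
    push_cast
    rw [Real.rpow_add hR0, Real.rpow_one, mul_comm]
    apply mul_le_mul_of_nonneg_left _ hR0.le
    refine le_trans ?_ D.yR
    exact_mod_cast D.J1y
  by_cases hcase : (v : ℝ) * ((b : ℝ) - a) < L * (R : ℝ) ^ (1 - P.kap / 8 - P.kap / 20)
  · -- the short case
    have hJR2 : ((J1 * R : ℕ) : ℝ) ≤ (R : ℝ) ^ (2 : ℝ) :=
      hJ1R.trans (Real.rpow_le_rpow_of_exponent_le hR1 (by linarith))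
    have htau : ∀ n : ℕ, n ≠ 0 → n ≤ J1 * R → (n.divisors.card : ℝ) ≤ (R : ℝ) ^ (P.kap / 100) := by
      intro n hn hn2
      have h1 : (n : ℝ) ≤ (R : ℝ) ^ (2 : ℝ) := le_trans (by exact_mod_cast hn2) hJR2
      calc (n.divisors.card : ℝ) ≤ C * (n : ℝ) ^ (P.kap / 400) := hdiv n (Nat.one_le_iff_ne_zero.2 hn)
        _ ≤ (R : ℝ) ^ (P.kap / 200) * ((R : ℝ) ^ (2 : ℝ)) ^ (P.kap / 400) :=
            mul_le_mul hCR (Real.rpow_le_rpow (Nat.cast_nonneg _) h1 (by positivity))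
              (by positivity) (by positivity)
        _ = (R : ℝ) ^ (P.kap / 100) := by
            rw [← Real.rpow_mul hR0.le, ← Real.rpow_add hR0]
            congr 1
            ring
    have hterm : ∀ n ∈ Ioc a b, wt T.y0 o n *
        NL P R (datS S J0 J1 J2 T.y0) (LkS S T) (BdS S T y1) l (X n) (Y n) ≤ (R : ℝ) ^ (3 * (P.kap / 100)) := by
      intro n hn
      obtain ⟨-, -, hY0, hXl, hX2, hvn⟩ := hXY n hn
      have hn0 : n ≠ 0 := by
        have := (mem_Ioc.1 hn).1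
        omega
      have hX0 : X n ≠ 0 := (lt_of_le_of_lt (Nat.zero_le _) hXl).ne'
      have hYX : Y n ≤ X n := by
        have h1 : Y n ≤ l * Y n := Nat.le_mul_of_pos_left _ hl0
        have h2 : l * Y n ≤ JJ R * (l * Y n) := Nat.le_mul_of_pos_left _ hJJ1
        omega
      have hnv : n ≤ v * n := Nat.le_mul_of_pos_left _ hTM.v1
      have t1 := htau n hn0 (hnv.trans hvn)
      have t2 := htau (X n) hX0 hX2
      have t3 := htau (Y n) hY0.ne' (hYX.trans hX2)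
      obtain ⟨w1, w2⟩ := wt_le (y0 := T.y0) hTM hn0
      obtain ⟨u1, u2⟩ := D05_NL (P := P) (T := T) (y1 := y1) (J0 := J0) (J1 := J1) (J2 := J2)
        (y0' := T.y0) hs l (X n) (Y n) hX0 hY0.ne'
      have hx0 : 0 ≤ (R : ℝ) ^ (P.kap / 100) := Real.rpow_nonneg hR0.le _
      calc wt T.y0 o n * NL P R (datS S J0 J1 J2 T.y0) (LkS S T) (BdS S T y1) l (X n) (Y n)
          ≤ (R : ℝ) ^ (P.kap / 100) * ((R : ℝ) ^ (P.kap / 100) * (R : ℝ) ^ (P.kap / 100)) :=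
            mul_le_mul (w2.trans t1) (u1.trans (mul_le_mul t2 t3 (Nat.cast_nonneg _) hx0)) u2 hx0
        _ = (R : ℝ) ^ (3 * (P.kap / 100)) := by
            rw [← Real.rpow_add hR0, ← Real.rpow_add hR0]
            congr 1
            ring
    calc ∑ n ∈ Ioc a b, wt T.y0 o n *
          NL P R (datS S J0 J1 J2 T.y0) (LkS S T) (BdS S T y1) l (X n) (Y n)
        ≤ ∑ _n ∈ Ioc a b, (R : ℝ) ^ (3 * (P.kap / 100)) := sum_le_sum hterm
      _ = ((b : ℝ) - a) * (R : ℝ) ^ (3 * (P.kap / 100)) := by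
          rw [sum_const, nsmul_eq_mul, Nat.card_Ioc, Nat.cast_sub hab]
      _ ≤ (L * (R : ℝ) ^ (1 - P.kap / 8 - P.kap / 20) / v) * (R : ℝ) ^ (3 * (P.kap / 100)) := by
          apply mul_le_mul_of_nonneg_right _ (Real.rpow_nonneg hR0.le _)
          rw [le_div_iff₀ hv0, mul_comm]
          exact hcase.le
      _ = ((R : ℝ) ^ (-(P.kap / 50))) * (L * ((R : ℝ) ^ (1 - P.kap / 8) / v)) := by
          have e1 : (R : ℝ) ^ (1 - P.kap / 8 - P.kap / 20) * (R : ℝ) ^ (3 * (P.kap / 100)) =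
              (R : ℝ) ^ (-(P.kap / 50)) * (R : ℝ) ^ (1 - P.kap / 8) := by
            rw [← Real.rpow_add hR0, ← Real.rpow_add hR0]
            congr 1
            ring
          calc (L * (R : ℝ) ^ (1 - P.kap / 8 - P.kap / 20) / v) * (R : ℝ) ^ (3 * (P.kap / 100))
              = L / v * ((R : ℝ) ^ (1 - P.kap / 8 - P.kap / 20) * (R : ℝ) ^ (3 * (P.kap / 100))) := by ring
            _ = _ := by rw [e1]; ring
      _ ≤ (1 / JJ R * (rho (famX S) * rho (famY S))) * (L * len P R v a b) := by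
          apply mul_le_mul _ (mul_le_mul_of_nonneg_left hlen.2 hL0.le) (by positivity) (by positivity)
          refine le_trans ?_ D.rr
          rw [Real.rpow_neg hR0.le, ← one_div]
          apply one_div_le_one_div_of_le (by positivity)
          calc (T.y0 : ℝ) ^ 3 ≤ ((R : ℝ) ^ (P.kap / 1000)) ^ 3 := pow_le_pow_left₀ hy0r.le D.yR 3
            _ = (R : ℝ) ^ (P.kap / 1000 * 3) := by
                rw [← Real.rpow_natCast ((R : ℝ) ^ (P.kap / 1000)) 3, ← Real.rpow_mul hR0.le]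
                norm_num
            _ ≤ (R : ℝ) ^ (P.kap / 50) := Real.rpow_le_rpow_of_exponent_le hR1 (by linarith)
      _ = _ := by ring
  · -- the long case
    push Not at hcase
    have hlenab : lenW P.kap R o ≤ (b : ℝ) - a := by
      have h1 : lenW P.kap R o * v ≤ ((b : ℝ) - a) * v := by
        rw [mul_comm ((b : ℝ) - a)]
        exact hlenW.trans hcase
      exact le_of_mul_le_mul_right h1 hv0
    have hltab : a < b := by
      have h1 : 0 < L * (R : ℝ) ^ (1 - P.kap / 8 - P.kap / 20) :=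
        mul_pos hL0 (Real.rpow_pos_of_pos hR0 _)
      have h2 : (a : ℝ) < b := by
        by_contra hcon
        push Not at hcon
        have : (v : ℝ) * ((b : ℝ) - a) ≤ 0 := mul_nonpos_of_nonneg_of_nonpos hv0.le (by linarith)
        linarith
      exact_mod_cast h2
    have hbm : b ∈ Ioc a b := mem_Ioc.2 ⟨hltab, le_rfl⟩
    -- the numbers `c`, `c'`
    obtain ⟨xb, yb, yb0, xbl, xb2, vb⟩ := hXY b hbm
    have hRz : (0 : ℤ) < R := by exact_mod_cast hRpos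
    have hlz : (1 : ℤ) ≤ l := by exact_mod_cast hl0
    have hJz : (1 : ℤ) ≤ JJ R := by exact_mod_cast hJJ1
    have yb0z : (0 : ℤ) < Y b := by exact_mod_cast yb0
    have xblz : (JJ R : ℤ) * (l * Y b) < X b := by exact_mod_cast xbl
    have xb2z : (X b : ℤ) ≤ J1 * R := by exact_mod_cast xb2
    have vbz : (v : ℤ) * b ≤ J1 * R := by exact_mod_cast vb
    have vb0 : (0 : ℤ) ≤ (v : ℤ) * b := by positivity
    have lyb : (l : ℤ) * Y b ≤ (JJ R : ℤ) * (l * Y b) :=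
      le_mul_of_one_le_left (by positivity) hJz
    have yly : (Y b : ℤ) ≤ (l : ℤ) * Y b := le_mul_of_one_le_left yb0z.le hlz
    have c_lo : -(J1 : ℤ) ≤ c := by
      by_contra hcon
      push Not at hcon
      have h1 : c * (R : ℤ) ≤ (-(J1 : ℤ)) * R := mul_le_mul_of_nonneg_right hcon.le hRz.le
      linarith
    have c_up : c ≤ (J1 : ℤ) := by
      by_contra hcon
      push Not at hcon
      have h1 : (J1 : ℤ) * R ≤ c * (R : ℤ) := mul_le_mul_of_nonneg_right hcon.le hRz.le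
      linarith
    have c'_up : c' ≤ (J1 : ℤ) := by
      by_contra hcon
      push Not at hcon
      have h1 : ((J1 : ℤ) + 1) * R ≤ c' * (R : ℤ) := mul_le_mul_of_nonneg_right (by omega) hRz.le
      have h2 : (0 : ℤ) ≤ l * (v * b) := by positivity
      nlinarith
    have c'_lo : -((l : ℤ) * J1) ≤ c' := by
      by_contra hcon
      push Not at hcon
      have h1 : c' * (R : ℤ) ≤ (-((l : ℤ) * J1)) * R := mul_le_mul_of_nonneg_right hcon.le hRz.le
      have h2 : (l : ℤ) * (v * b) ≤ l * (J1 * R) := mul_le_mul_of_nonneg_left vbz (by linarith)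
      have h3 : (0 : ℤ) < X b := by
        have : (0 : ℤ) ≤ (JJ R : ℤ) * (l * Y b) := by positivity
        linarith
      have h4 : (l : ℤ) * (J1 * R) + (-((l : ℤ) * J1)) * R = 0 := by ring
      linarith
    have hDR : (c' - l * c) * (R : ℤ) = X b - l * Y b := by
      rw [xb, yb]
      ring
    have d_lo : 1 ≤ c' - l * c := by
      by_contra hcon
      push Not at hcon
      have h1 : (c' - l * c) * (R : ℤ) ≤ 0 :=
        mul_nonpos_of_nonpos_of_nonneg (by omega) hRz.le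
      linarith
    have d_up : c' - l * c ≤ (J1 : ℤ) := by
      by_contra hcon
      push Not at hcon
      have h1 : ((J1 : ℤ) + 1) * R ≤ (c' - l * c) * (R : ℤ) :=
        mul_le_mul_of_nonneg_right (by omega) hRz.le
      have h2 : (0 : ℤ) ≤ (l : ℤ) * Y b := by positivity
      nlinarith
    set d : ℕ := (c' - l * c).toNat with hd
    have hdz : (d : ℤ) = c' - l * c := Int.toNat_of_nonneg (by linarith)
    have hd1 : 1 ≤ d := by
      have : (1 : ℤ) ≤ (d : ℤ) := by rw [hdz]; exact d_lo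
      exact_mod_cast this
    have hdJ : d ≤ J1 := by
      have : (d : ℤ) ≤ (J1 : ℤ) := by rw [hdz]; exact d_up
      exact_mod_cast this
    set D0 : ℕ := W0 ^ 2 * d with hD0
    have hDp : ∀ p : ℕ, p.Prime → p ∣ D0 → p ≤ T.y0 := by
      intro p hp hpd
      rcases (Nat.Prime.dvd_mul hp).1 hpd with h1 | h1
      · exact hB.w0y p hp (hp.dvd_of_dvd_pow h1)
      · exact (Nat.le_of_dvd hd1 h1).trans (hdJ.trans D.J1y)
    have hBH := hbh S T y1 J0 J1 J2 ε (le_trans (le_max_left _ _) hN) hB v o L hTM D0 hDp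
    have hD0z : (D0 : ℤ) = (W0 : ℤ) ^ 2 * (c' - l * c) := by
      rw [hD0]
      push_cast
      rw [hdz]
    have hlJ : l * J1 ≤ T.y0 := (Nat.mul_le_mul_right _ hlM).trans D.MJ
    have hly : l ≤ T.y0 := (Nat.le_mul_of_pos_right l D.J11).trans hlJ
    have hyN : (T.y0 : ℝ) * (W0 : ℝ) ^ 2 ≤ T.N := by
      have := mul_le_mul_of_nonneg_left hB.y0le (by positivity : (0 : ℝ) ≤ (W0 : ℝ) ^ 2)
      linarith
    have hyNn : T.y0 * W0 ^ 2 ≤ T.N := by exact_mod_cast hyN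
    have hJRN : J1 * R ≤ T.N ^ 2 := by
      calc J1 * R ≤ T.y0 * R := Nat.mul_le_mul_right _ D.J1y
        _ = (T.y0 * W0 ^ 2) * T.N := by rw [hR]; ring
        _ ≤ T.N * T.N := Nat.mul_le_mul_right _ hyNn
        _ = T.N ^ 2 := by ring
    have hbv : b ≤ v * b := Nat.le_mul_of_pos_left _ hTM.v1
    have hH1 : H1 S (wD T D0) W0 v l c c' a b ⌊((W0 ^ 2 * T.N : ℕ) : ℝ) ^ ((21 : ℝ) / 20)⌋₊
        (lenW P.kap (W0 ^ 2 * T.N) o) (t2W o) :=
      { ab := hab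
        bB := by
          apply Nat.le_floor
          have h1 : (b : ℝ) ≤ ((J1 * R : ℕ) : ℝ) := by exact_mod_cast hbv.trans vb
          refine h1.trans (hJ1R.trans ?_)
          rw [← hR]
          exact Real.rpow_le_rpow_of_exponent_le hR1 (by linarith)
        lab := hlenab
        b3 := by
          change b ≤ T.N ^ 3
          refine (hbv.trans vb).trans (hJRN.trans ?_)
          exact Nat.pow_le_pow_right (by omega) (by norm_num)
        l0 := hl0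
        ly := fun p _ hpl => (Nat.le_of_dvd hl0 hpl).trans hly
        lc := hlR
        v0 := hTM.v1
        vc := hTM.vc
        vl := by
          change l * v ≤ T.N
          have h1 : ((l * v : ℕ) : ℝ) ≤ T.N := by
            push_cast
            have h2 : (l : ℝ) ≤ (R : ℝ) ^ (P.kap / 1000) := le_trans (by exact_mod_cast hly) D.yR
            have h3 : (l : ℝ) * v ≤ (R : ℝ) ^ (1 - P.kap / 4) := by
              calc (l : ℝ) * v ≤ (R : ℝ) ^ (P.kap / 1000) * (R : ℝ) ^ (1 - P.kap / 2) :=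
                    mul_le_mul h2 hvR hv0.le (Real.rpow_nonneg hR0.le _)
                _ = (R : ℝ) ^ (P.kap / 1000 + (1 - P.kap / 2)) := (Real.rpow_add hR0 _ _).symm
                _ ≤ _ := Real.rpow_le_rpow_of_exponent_le hR1 (by linarith)
            have hW2 : (0 : ℝ) < (W0 : ℝ) ^ 2 := by
              have : (0 : ℝ) < W0 := by exact_mod_cast hW0
              positivity
            have h4 : (W0 : ℝ) ^ 2 * (R : ℝ) ^ (1 - P.kap / 4) ≤ (W0 : ℝ) ^ 2 * T.N := by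
              calc (W0 : ℝ) ^ 2 * (R : ℝ) ^ (1 - P.kap / 4)
                  ≤ (R : ℝ) ^ (P.kap / 4) * (R : ℝ) ^ (1 - P.kap / 4) :=
                    mul_le_mul_of_nonneg_right hWR (Real.rpow_nonneg hR0.le _)
                _ = (R : ℝ) ^ (1 : ℝ) := by
                    rw [← Real.rpow_add hR0]
                    congr 1
                    ring
                _ = (W0 : ℝ) ^ 2 * T.N := by
                    rw [Real.rpow_one, hR]
                    push_cast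
                    ring
            exact h3.trans (le_of_mul_le_mul_left h4 hW2)
          exact_mod_cast h1
        D := hD0z
        cb := by
          change c.natAbs ≤ T.y0
          have := D.J1y
          omega
        cb' := by
          change c'.natAbs ≤ T.y0
          have h1 : (c'.natAbs : ℤ) ≤ (T.y0 : ℤ) := by
            rw [Int.natCast_natAbs, abs_le]
            have h2 : ((l * J1 : ℕ) : ℤ) ≤ T.y0 := by exact_mod_cast hlJ
            push_cast at h2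
            have h3 : (J1 : ℤ) ≤ T.y0 := by exact_mod_cast D.J1y
            constructor <;> linarith
          exact_mod_cast h1
        c1 := by
          rcases hcc with h1 | h1
          · exact Or.inl h1.1
          · exact Or.inr h1
        c2 := by
          intro ht
          rcases hcc with h1 | h1
          · exact absurd h1.2 ht
          · exact h1
        pos := by
          intro n hn
          obtain ⟨-, h1, h2, -⟩ := hXY n hn
          change 0 < (v : ℤ) * n + c * ((W0 ^ 2 * T.N : ℕ) : ℤ)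
          rw [← hR, ← h1]
          exact_mod_cast h2
        big := by
          intro n hn
          obtain ⟨h0, h1, h2, h3, -, -⟩ := hXY n hn
          have e1 : x1 (wD T D0) W0 v l c' n = (X n : ℤ) := by
            rw [h0]
            change ((l * v * n : ℕ) : ℤ) + c' * ((W0 ^ 2 * T.N : ℕ) : ℤ) = _
            rw [← hR]
            push_cast
            ring
          have e2 : (v : ℝ) * n + c * ((W0 ^ 2 * T.N : ℕ) : ℝ) = (Y n : ℝ) := by
            have : ((Y n : ℤ) : ℝ) = (((v : ℤ) * n + c * ((W0 ^ 2 * T.N : ℕ) : ℤ) : ℤ) : ℝ) := by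
              rw [← hR, ← h1]
            push_cast at this ⊢
            linarith
          change Real.exp (18 * (S.k + 1)) * ((l : ℝ) * ((v : ℝ) * n + c * ((W0 ^ 2 * T.N : ℕ) : ℝ))) ≤
            (x1 (wD T D0) W0 v l c' n : ℝ)
          rw [e1, e2]
          have h4 : ((JJ R : ℝ)) * (l * Y n) ≤ X n := by
            have : ((JJ R * (l * Y n) : ℕ) : ℝ) ≤ X n := by exact_mod_cast h3.le
            push_cast at this
            exact this
          have h5 : (0 : ℝ) ≤ (l : ℝ) * Y n := by positivity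
          calc Real.exp (18 * (S.k + 1)) * ((l : ℝ) * Y n) ≤ (JJ R : ℝ) * (l * Y n) :=
                mul_le_mul_of_nonneg_right hB.kexp h5
            _ ≤ X n := h4
            _ = _ := by push_cast; rfl
        le2 := by
          intro n hn
          obtain ⟨h0, -, -, -, h1, -⟩ := hXY n hn
          have e1 : x1 (wD T D0) W0 v l c' n = (X n : ℤ) := by
            rw [h0]
            change ((l * v * n : ℕ) : ℤ) + c' * ((W0 ^ 2 * T.N : ℕ) : ℤ) = _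
            rw [← hR]
            push_cast
            ring
          rw [e1]
          change (X n : ℤ) ≤ (T.N : ℤ) ^ 2
          have : X n ≤ T.N ^ 2 := h1.trans hJRN
          exact_mod_cast this }
    have hMok := mM1_ok hBH hH1
    have hplem := hB.plem D0 (Nat.mul_pos (pow_pos hW0 2) hd1) (Nat.dvd_mul_right _ _)
      (Nat.mul_le_mul_left _ hdJ) hDp _ hMok
    have hm1 := m1_le (P := P) (S := S) (T := T) (W0 := W0) (y0 := T.y0) (y1 := y1) (J0 := J0)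
      (J1 := J1) (J2 := J2) (y0' := T.y0) (w := wt T.y0 o) (g := gW T.y0 o) (t2 := t2W o)
      (L := LW T.y0 o L) hs hRpos hB.ty hBH.wei.nonneg v l D0 a b c c' hlR
      (fun p hp hpl => lt_of_le_of_lt hB.ty (hlr p hp hpl)) hl0 hD0z X Y
      (fun n hn => (hXY n hn).1) (fun n hn => (hXY n hn).2.1)
    obtain ⟨LW0, LWL⟩ := LW_le (y0 := T.y0) hTM
    have htot := tot1_le (T := wD T D0) (w := wt T.y0 o) (g := gW T.y0 o) (t2 := t2W o)
      (L := LW T.y0 o L) hs hBH.wei.g_nonneg D.nX D.nY LW0 W0 v l a b c' hab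
    refine hm1.trans (hplem.trans ?_)
    change ε * (mM1 S (wD T D0) W0 v l c' a b (t2W o) (wt T.y0 o) (LW T.y0 o L) (gW T.y0 o)).tot +
      (T.N : ℝ) ^ (-δ2) * (LW T.y0 o L * ((b : ℝ) - a)) ≤ _
    have hba : 0 ≤ (b : ℝ) - a := by linarith
    have hε := hB.e0
    have hrr : 0 < rho (famX S) * rho (famY S) := mul_pos hrX hrY
    have s1 : ε * (mM1 S (wD T D0) W0 v l c' a b (t2W o) (wt T.y0 o) (LW T.y0 o L) (gW T.y0 o)).tot ≤
        1 / 4 * (1 / JJ R * (rho (famX S) * rho (famY S))) * (L * ((b : ℝ) - a)) := by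
      calc ε * (mM1 S (wD T D0) W0 v l c' a b (t2W o) (wt T.y0 o) (LW T.y0 o L) (gW T.y0 o)).tot
          ≤ ε * (4 * (LW T.y0 o L * ((b : ℝ) - a) * (rho (famX S) * rho (famY S)))) :=
            mul_le_mul_of_nonneg_left htot hε
        _ ≤ ε * (4 * (L * ((b : ℝ) - a) * (rho (famX S) * rho (famY S)))) := by
            apply mul_le_mul_of_nonneg_left _ hε
            apply mul_le_mul_of_nonneg_left _ (by norm_num)
            exact mul_le_mul_of_nonneg_right (mul_le_mul_of_nonneg_right LWL hba) hrr.le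
        _ = (ε * (16 * JJ R)) * (1 / 4 * (1 / JJ R * (rho (famX S) * rho (famY S))) * (L * ((b : ℝ) - a))) := by
            field_simp
            ring
        _ ≤ 1 * (1 / 4 * (1 / JJ R * (rho (famX S) * rho (famY S))) * (L * ((b : ℝ) - a))) := by
            apply mul_le_mul_of_nonneg_right hB.e1
            positivity
        _ = _ := one_mul _
    have s2 : (T.N : ℝ) ^ (-δ2) * (LW T.y0 o L * ((b : ℝ) - a)) ≤
        1 / 2 * (1 / JJ R * (rho (famX S) * rho (famY S))) * (L * ((b : ℝ) - a)) := by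
      have h1 : (T.N : ℝ) ^ (-δ2) ≤ 1 / 2 * (1 / JJ R * (rho (famX S) * rho (famY S))) := by
        have h2 : 2 * (T.y0 : ℝ) ^ 3 ≤ (T.N : ℝ) ^ δ2 := by
          refine le_trans ?_ hlog3
          have h3 := pow_le_pow_left₀ hy0r.le hB.y0le 3
          rw [← pow_mul] at h3
          linarith
        rw [Real.rpow_neg hNr0.le, ← one_div]
        calc 1 / (T.N : ℝ) ^ δ2 ≤ 1 / (2 * (T.y0 : ℝ) ^ 3) :=
              one_div_le_one_div_of_le (by positivity) h2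
          _ = 1 / 2 * (1 / (T.y0 : ℝ) ^ 3) := by ring
          _ ≤ _ := mul_le_mul_of_nonneg_left D.rr (by norm_num)
      exact mul_le_mul h1 (mul_le_mul_of_nonneg_right LWL hba) (mul_nonneg LW0 hba) (by positivity)
    have s3 : 1 / JJ R * (rho (famX S) * rho (famY S)) * (L * ((b : ℝ) - a)) ≤
        1 / JJ R * (rho (famX S) * rho (famY S) * L * len P R v a b) := by
      calc 1 / JJ R * (rho (famX S) * rho (famY S)) * (L * ((b : ℝ) - a))
          ≤ 1 / JJ R * (rho (famX S) * rho (famY S)) * (L * len P R v a b) := by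
            apply mul_le_mul_of_nonneg_left _ (by positivity)
            exact mul_le_mul_of_nonneg_left hlen.1 hL0.le
        _ = _ := by ring
    have s4 : 0 ≤ 1 / JJ R * (rho (famX S) * rho (famY S)) * (L * ((b : ℝ) - a)) := by positivity
    linarith

end Pool.Agent.Lib.TCB
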