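import Pool.Agent.Lib.MP_7b7e48_nt.BR.C04
import Pool.Agent.Lib.MP_7b7e48_nt.BR.D02
import Pool.Agent.Lib.MP_7b7e48_nt.BR.D03
import Pool.Agent.Lib.MP_7b7e48_nt.BR.D04

/-!
# Module D06 (110 minutes): the field `m3`

Notation as in `D05`. SHORT CASE `b - a < L R ^ (1 - κ/8 - 5 e)`: for fixed `t` the number of `n` with `a < v t n ≤ b` is `≤ (b - a)/(v t) + 1`; `NLt ≤ τ(Y)`, `wt ≤ τ(n)`: all terms `≤ R ^ (2 e)`; `∑_t 1/t = rho ≤ 1`, the number of `t` is `≤ R ^ (κ/100)` (`FamOk.tup`: distinct numbers `≤ R ^ (κ/100)`). So the sum is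
`≤ R ^ (2 e) ((b - a)/v + R ^ (κ/100)) ≤ R ^ (-2 e) (L/v) R ^ (1 - κ/8)`: `(L/v) R ^ (1 - κ/8) ≥ R ^ (3κ/8)` (type 1: `L = 1`, `v ≤ R ^ (1 - κ/2)`; type 2 much larger), and `R ^ (-2 e) ≤ rho rho/(2 JJ)` as in `D05`.
LONG CASE. `D := W0^2 d`, `d ≤ J1` (`d R ≤ a ≤ b ≤ J1 R`), so the primes of `D` are `≤ y0`. `H3`: `lab`: `2 lenW T.N ^ δm v ≤ L R ^ (1 - κ/8 - 5 e)`: type 1: `R ^ (κ/4 + δm + 1 - κ/2)`, `δm ≤ κ/32`; type 2: `R ^ (9/10 + δm + 2κ)`. `big`: `exp(18 (k + 1)) ≤ JJ`, `JJ (b - d R) ≤ d R` (natural numbers, `b ≥ d R`). `bB`: `b ≤ J1 R ≤ R ^ (21/20) - 1 ≤ B ≤ B v`.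
`mM3_ok`, `Brg.plem`, `m3_le`, `tot3_le`.
-/

set_option autoImplicit false

open Finset

namespace Pool.Agent.Lib.TCB

open Pool.Agent.Lib.RG (Rough)
open Pool.Agent.Lib.RH (Prm MM JJ)
open Pool.Agent.Lib.TC (MS Msr)
open Pool.Agent.Lib.TCF (TUP pht rho ph Mul TM NL NLt wt len Rgh1 VM PY BB)

private theorem D06_cnt {a b m : ℕ} (hm : 0 < m) (hab : a ≤ b) (Q : ℕ → Prop) [DecidablePred Q] :
    (((Icc 1 b).filter (fun n => a < m * n ∧ m * n ≤ b ∧ Q n)).card : ℝ) ≤ ((b : ℝ) - a) / m + 1 := by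
  have h1 : (Icc 1 b).filter (fun n => a < m * n ∧ m * n ≤ b ∧ Q n) ⊆ Ioc (a / m) (b / m) := by
    intro n hn
    rw [mem_filter] at hn
    rw [mem_Ioc, Nat.div_lt_iff_lt_mul hm, Nat.le_div_iff_mul_le hm, mul_comm n m]
    exact ⟨hn.2.1, hn.2.2.1⟩
  have h2 := card_le_card h1
  rw [Nat.card_Ioc] at h2
  have hmr : (0 : ℝ) < m := by exact_mod_cast hm
  have h3 : ((b / m - a / m : ℕ) : ℝ) = ((b / m : ℕ) : ℝ) - ((a / m : ℕ) : ℝ) := by
    rw [Nat.cast_sub (Nat.div_le_div_right hab)]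
  have h4 : ((b / m : ℕ) : ℝ) ≤ (b : ℝ) / m := Nat.cast_div_le
  have h5 : (a : ℝ) / m ≤ ((a / m : ℕ) : ℝ) + 1 := by
    rw [div_le_iff₀ hmr]
    have h6 := (Nat.lt_mul_div_succ a hm).le
    have h7 : (a : ℝ) ≤ ((m * (a / m + 1) : ℕ) : ℝ) := by exact_mod_cast h6
    push_cast at h7 ⊢
    linarith
  have h8 : (((Icc 1 b).filter (fun n => a < m * n ∧ m * n ≤ b ∧ Q n)).card : ℝ) ≤ ((b / m - a / m : ℕ) : ℝ) := by
    exact_mod_cast h2
  rw [h3] at h8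
  rw [sub_div]
  linarith

private theorem D06_prX {S : MS} {μ : S.TX} :
    S.prX (fun p : ℕ => 1 / (p : ℝ)) μ = 1 / ((S.prX id μ : ℕ) : ℝ) := by
  rw [prX_eq, prX_eq, prod_div_distrib, prod_const_one]
  push_cast
  rfl

open Classical in
private theorem D06_short {P : Prm} {S : MS} {T : TC.Dat} {R y1 J0 J1 J2 v : ℕ} {o : Option (ℕ → ℝ)} {L : ℝ}
    (hs : SetsOk S R T.y0) (hTM : TM P R v o L) (τ : ℝ) (d a b : ℕ) (hab : a ≤ b) (ha : d * R ≤ a)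
    (hτ : ∀ n : ℕ, 1 ≤ n → n ≤ b → (n.divisors.card : ℝ) ≤ τ) (E : ℝ) (hE : ((TUP (famX S)).card : ℝ) ≤ E) :
    ∑ t ∈ TUP (famX S), ∑ n ∈ (Icc 1 b).filter (fun n => a < v * t * n ∧ v * t * n ≤ b ∧ Rgh1 P R (v * t * n)),
      wt T.y0 o n * NLt P R (datS S J0 J1 J2 T.y0) (LkS S T) (BdS S T y1) (v * t * n) t (v * t * n - d * R) ≤
    τ ^ 2 * (((b : ℝ) - a) / v * rho (famX S) + E) := by
  have hv : 0 < v := hTM.v1
  have hvr : (0 : ℝ) < v := by exact_mod_cast hv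
  rw [hs.sumX (fun t => ∑ n ∈ (Icc 1 b).filter (fun n => a < v * t * n ∧ v * t * n ≤ b ∧ Rgh1 P R (v * t * n)),
      wt T.y0 o n * NLt P R (datS S J0 J1 J2 T.y0) (LkS S T) (BdS S T y1) (v * t * n) t (v * t * n - d * R))]
  have h1 : ∀ μ ∈ S.MX, ∑ n ∈ (Icc 1 b).filter (fun n => a < v * S.prX id μ * n ∧ v * S.prX id μ * n ≤ b ∧
      Rgh1 P R (v * S.prX id μ * n)),
      wt T.y0 o n * NLt P R (datS S J0 J1 J2 T.y0) (LkS S T) (BdS S T y1) (v * S.prX id μ * n) (S.prX id μ)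
        (v * S.prX id μ * n - d * R) ≤ τ ^ 2 * (((b : ℝ) - a) / v * S.prX (fun p : ℕ => 1 / (p : ℝ)) μ + 1) := by
    intro μ hμ
    have hX : 0 < S.prX id μ := Nat.pos_of_ne_zero (hs.sqX hμ).ne_zero
    have hXr : (0 : ℝ) < (S.prX id μ : ℕ) := by exact_mod_cast hX
    have hm : 0 < v * S.prX id μ := Nat.mul_pos hv hX
    have h2 : ∀ n ∈ (Icc 1 b).filter (fun n => a < v * S.prX id μ * n ∧ v * S.prX id μ * n ≤ b ∧
        Rgh1 P R (v * S.prX id μ * n)),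
        wt T.y0 o n * NLt P R (datS S J0 J1 J2 T.y0) (LkS S T) (BdS S T y1) (v * S.prX id μ * n) (S.prX id μ)
        (v * S.prX id μ * n - d * R) ≤ τ ^ 2 := by
      intro n hn
      rw [mem_filter, mem_Icc] at hn
      obtain ⟨⟨n1, n2⟩, n3, n4, -⟩ := hn
      have hY : v * S.prX id μ * n - d * R ≠ 0 := by omega
      obtain ⟨w1, w2⟩ := wt_le (y0 := T.y0) hTM (show n ≠ 0 by omega)
      have t1 := hτ n n1 n2
      have t2 := hτ (v * S.prX id μ * n - d * R) (by omega) (by omega)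
      have hτ0 : 0 ≤ τ := (Nat.cast_nonneg _).trans t1
      have h3 : NLt P R (datS S J0 J1 J2 T.y0) (LkS S T) (BdS S T y1) (v * S.prX id μ * n) (S.prX id μ)
          (v * S.prX id μ * n - d * R) ≤ τ := by
        rw [NLt_eq hs hμ]
        split_ifs with hr
        · refine le_trans (sum_le_sum fun ν _ => ?_) ((div_prY_le hs hY).trans t2)
          by_cases hd : S.prY id ν ∣ v * S.prX id μ * n - d * R
          · rw [if_pos hd]
            split_ifs <;> norm_num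
          · rw [if_neg hd, if_neg (fun h => hd h.1)]
        · exact hτ0
      calc _ ≤ wt T.y0 o n * τ := mul_le_mul_of_nonneg_left h3 w1
        _ ≤ τ * τ := mul_le_mul_of_nonneg_right (w2.trans t1) hτ0
        _ = τ ^ 2 := by ring
    refine (sum_le_sum h2).trans ?_
    rw [sum_const, nsmul_eq_mul, mul_comm]
    refine mul_le_mul_of_nonneg_left ?_ (sq_nonneg τ)
    refine (D06_cnt hm hab _).trans (le_of_eq ?_)
    rw [D06_prX]
    push_cast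
    field_simp
  refine (sum_le_sum h1).trans ?_
  rw [← mul_sum, sum_add_distrib, ← mul_sum, sum_prX]
  refine mul_le_mul_of_nonneg_left ?_ (sq_nonneg τ)
  have h4 : ∑ _μ ∈ S.MX, (1 : ℝ) ≤ E := by
    rw [← hs.sumX (fun _ => (1 : ℝ)), sum_const, nsmul_eq_mul, mul_one]
    exact hE
  have h5 : ∏ c, ∑ p ∈ famX S c, 1 / (p : ℝ) = rho (famX S) := rfl
  rw [h5]
  linarith

private theorem D06_TM {P : Prm} (hP : P.Ok) {R v : ℕ} {o : Option (ℕ → ℝ)} {L : ℝ} (h : TM P R v o L) (hR : 1 ≤ R) :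
    0 < L ∧ (v : ℝ) ≤ (R : ℝ) ^ (1 - P.kap / 2) ∧
    (R : ℝ) ^ (6 * P.kap / 100) ≤ L / v * (R : ℝ) ^ (1 - P.kap / 8) := by
  have hk := hP.kap0
  have hk1 := hP.kap1
  have hR1 : (1 : ℝ) ≤ R := by exact_mod_cast hR
  have hR0 : (0 : ℝ) < R := by linarith
  have hv : (0 : ℝ) < v := by exact_mod_cast h.v1
  rcases h.ty with ⟨-, h2, h3⟩ | ⟨c, -, -, -, h2, h3⟩
  · refine ⟨by rw [h2]; norm_num, h3, ?_⟩
    rw [h2, div_mul_eq_mul_div, one_mul, le_div_iff₀ hv]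
    calc (R : ℝ) ^ (6 * P.kap / 100) * v ≤ (R : ℝ) ^ (6 * P.kap / 100) * (R : ℝ) ^ (1 - P.kap / 2) :=
          mul_le_mul_of_nonneg_left h3 (by positivity)
      _ = (R : ℝ) ^ (6 * P.kap / 100 + (1 - P.kap / 2)) := by rw [Real.rpow_add hR0]
      _ ≤ (R : ℝ) ^ (1 - P.kap / 8) := Real.rpow_le_rpow_of_exponent_le hR1 (by linarith)
  · have hL : 0 < L := lt_of_lt_of_le (by positivity) h2
    refine ⟨hL, h3.trans (Real.rpow_le_rpow_of_exponent_le hR1 (by linarith)), ?_⟩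
    rw [div_mul_eq_mul_div, le_div_iff₀ hv]
    calc (R : ℝ) ^ (6 * P.kap / 100) * v ≤ (R : ℝ) ^ (6 * P.kap / 100) * (R : ℝ) ^ (2 * P.kap) :=
          mul_le_mul_of_nonneg_left h3 (by positivity)
      _ = (R : ℝ) ^ (6 * P.kap / 100 + 2 * P.kap) := by rw [Real.rpow_add hR0]
      _ ≤ (R : ℝ) ^ (-(1 / 200) + (1 - P.kap / 8)) := Real.rpow_le_rpow_of_exponent_le hR1 (by linarith)
      _ = (R : ℝ) ^ (-(1 / 200) : ℝ) * (R : ℝ) ^ (1 - P.kap / 8) := by rw [Real.rpow_add hR0]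
      _ ≤ L * (R : ℝ) ^ (1 - P.kap / 8) := mul_le_mul_of_nonneg_right h2 (by positivity)

private theorem D06_lab {P : Prm} (hP : P.Ok) {R v N : ℕ} {o : Option (ℕ → ℝ)} {L δm : ℝ} (h : TM P R v o L)
    (hN : 1 ≤ N) (hNR : N ≤ R) (hm0 : 0 ≤ δm) (hm : δm ≤ P.kap / 32) (h2 : 2 ≤ (R : ℝ) ^ (P.kap / 25)) :
    2 * lenW P.kap R o * (N : ℝ) ^ δm * v ≤ L * (R : ℝ) ^ (1 - P.kap / 8 - P.kap / 20) := by
  have hk := hP.kap0
  have hk1 := hP.kap1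
  have hR1 : (1 : ℝ) ≤ R := by exact_mod_cast hN.trans hNR
  have hR0 : (0 : ℝ) < R := by linarith
  have hN0 : (0 : ℝ) ≤ N := Nat.cast_nonneg _
  have hv : (0 : ℝ) < v := by exact_mod_cast h.v1
  have h3 : (N : ℝ) ^ δm ≤ (R : ℝ) ^ (P.kap / 32) := by
    calc (N : ℝ) ^ δm ≤ (R : ℝ) ^ δm := Real.rpow_le_rpow hN0 (by exact_mod_cast hNR) hm0
      _ ≤ (R : ℝ) ^ (P.kap / 32) := Real.rpow_le_rpow_of_exponent_le hR1 hm
  rcases h.ty with ⟨h4, h5, h6⟩ | ⟨c, h4, -, -, h5, h6⟩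
  · subst h4
    subst h5
    show 2 * (R : ℝ) ^ (P.kap / 4) * (N : ℝ) ^ δm * v ≤ 1 * (R : ℝ) ^ (1 - P.kap / 8 - P.kap / 20)
    calc 2 * (R : ℝ) ^ (P.kap / 4) * (N : ℝ) ^ δm * v ≤
          (R : ℝ) ^ (P.kap / 25) * (R : ℝ) ^ (P.kap / 4) * (R : ℝ) ^ (P.kap / 32) * (R : ℝ) ^ (1 - P.kap / 2) := by
            gcongr
      _ = (R : ℝ) ^ (P.kap / 25 + P.kap / 4 + P.kap / 32 + (1 - P.kap / 2)) := by
            rw [Real.rpow_add hR0, Real.rpow_add hR0, Real.rpow_add hR0]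
      _ ≤ (R : ℝ) ^ (1 - P.kap / 8 - P.kap / 20) := Real.rpow_le_rpow_of_exponent_le hR1 (by linarith)
      _ = 1 * (R : ℝ) ^ (1 - P.kap / 8 - P.kap / 20) := (one_mul _).symm
  · subst h4
    show 2 * (R : ℝ) ^ ((9 : ℝ) / 10) * (N : ℝ) ^ δm * v ≤ L * (R : ℝ) ^ (1 - P.kap / 8 - P.kap / 20)
    calc 2 * (R : ℝ) ^ ((9 : ℝ) / 10) * (N : ℝ) ^ δm * v ≤
          (R : ℝ) ^ (P.kap / 25) * (R : ℝ) ^ ((9 : ℝ) / 10) * (R : ℝ) ^ (P.kap / 32) * (R : ℝ) ^ (2 * P.kap) := by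
            gcongr
      _ = (R : ℝ) ^ (P.kap / 25 + (9 : ℝ) / 10 + P.kap / 32 + 2 * P.kap) := by
            rw [Real.rpow_add hR0, Real.rpow_add hR0, Real.rpow_add hR0]
      _ ≤ (R : ℝ) ^ (-(1 / 200) + (1 - P.kap / 8 - P.kap / 20)) :=
            Real.rpow_le_rpow_of_exponent_le hR1 (by linarith)
      _ = (R : ℝ) ^ (-(1 / 200) : ℝ) * (R : ℝ) ^ (1 - P.kap / 8 - P.kap / 20) := by rw [Real.rpow_add hR0]
      _ ≤ L * (R : ℝ) ^ (1 - P.kap / 8 - P.kap / 20) := mul_le_mul_of_nonneg_right h5 (by positivity)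

private theorem D06_card {P : Prm} {S : MS} {R y0 : ℕ} (hs : SetsOk S R y0)
    (ht : ∀ m ∈ TUP (famX S), (m : ℝ) ≤ (R : ℝ) ^ (P.kap / 100)) :
    ((TUP (famX S)).card : ℝ) ≤ (R : ℝ) ^ (P.kap / 100) := by
  have h1 : TUP (famX S) ⊆ Icc 1 ⌊(R : ℝ) ^ (P.kap / 100)⌋₊ := by
    intro t h
    rw [mem_Icc]
    refine ⟨?_, Nat.le_floor (ht t h)⟩
    obtain ⟨μ, hμ, rfl⟩ := mem_TUPX.1 h
    exact Nat.pos_of_ne_zero (hs.sqX hμ).ne_zero
  have h2 := card_le_card h1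
  rw [Nat.card_Icc, Nat.add_sub_cancel] at h2
  have h3 : ((TUP (famX S)).card : ℝ) ≤ (⌊(R : ℝ) ^ (P.kap / 100)⌋₊ : ℝ) := by exact_mod_cast h2
  exact h3.trans (Nat.floor_le (Real.rpow_nonneg (Nat.cast_nonneg _) _))

open Classical in
theorem m3_thm (P : Prm) (hP : P.Ok) (W0 Cp : ℕ) {δ0 δ1 δm δ2 : ℝ} (hE : Exps P.kap Cp δ0 δ1 δm δ2) :
    ∃ N0 : ℕ, ∀ (S : MS) (T : TC.Dat) (y1 J0 J1 J2 : ℕ) (ε : ℝ), N0 ≤ T.N → Brg P S T W0 y1 J0 J1 J2 Cp δ0 δ1 δm δ2 ε →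
    ∀ (v : ℕ) (o : Option (ℕ → ℝ)) (L : ℝ), TM P (W0 ^ 2 * T.N) v o L → ∀ d a b : ℕ, 0 < d → d * (W0 ^ 2 * T.N) ≤ a → a ≤ b →
    b ≤ J1 * (W0 ^ 2 * T.N) → JJ (W0 ^ 2 * T.N) * (b - d * (W0 ^ 2 * T.N)) ≤ d * (W0 ^ 2 * T.N) →
    ∑ t ∈ TUP (famX S), ∑ n ∈ (Icc 1 b).filter (fun n => a < v * t * n ∧ v * t * n ≤ b ∧
        Rgh1 P (W0 ^ 2 * T.N) (v * t * n)), wt T.y0 o n *
        NLt P (W0 ^ 2 * T.N) (datS S J0 J1 J2 T.y0) (LkS S T) (BdS S T y1) (v * t * n) t (v * t * n - d * (W0 ^ 2 * T.N)) ≤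
      1 / JJ (W0 ^ 2 * T.N) * (rho (famX S) * rho (famY S) * (L / v) * ((b : ℝ) - a + ((W0 ^ 2 * T.N : ℕ) : ℝ) ^ (1 - P.kap / 8))) := by
  have hk := hP.kap0
  have hk1 := hP.kap1
  obtain ⟨Nb, hNb⟩ := bh P hP W0 Cp hE
  obtain ⟨Nn, hNn⟩ := Pool.Agent.Lib.RH.num P hP
  obtain ⟨Cd, hCd1, hCd⟩ := Pool.Agent.Lib.RG.divisor_bound (P.kap / 400) (by positivity)
  obtain ⟨Ne, hNe⟩ := Filter.eventually_atTop.1
    ((Pool.Agent.Lib.RH.ev_log_pow (1000 + 2 * Cp) (3 * P.kap / 100) (by positivity) 4 (by norm_num)).and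
    ((Pool.Agent.Lib.RH.ev_log_pow (1000 + 2 * Cp) (δ2 / 2) (by linarith [hE.e2]) 4 (by norm_num)).and
    ((Pool.Agent.Lib.RH.ev_log_pow 0 (P.kap / 200) (by positivity) Cd (by linarith)).and
    ((Pool.Agent.Lib.RH.ev_log_pow 0 (P.kap / 25) (by positivity) 2 (by norm_num)).and
    ((Pool.Agent.Lib.RH.ev_log_pow 0 (P.kap / 2) (by positivity) ((W0 : ℝ) ^ 2 + 1) (by positivity)).and
    (Pool.Agent.Lib.RH.ev_log_pow Cp 1 one_pos ((W0 : ℝ) ^ 2 + 1) (by positivity)))))))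
  refine ⟨max (max Nb Nn) (max Ne (W0 ^ 2 + 2)), ?_⟩
  intro S T y1 J0 J1 J2 ε hN hB v o L hTM d a b hd hda hab hbJ hJJ
  have hNb' : Nb ≤ T.N := (le_max_left _ _).trans ((le_max_left _ _).trans hN)
  have hNn' : Nn ≤ T.N := (le_max_right _ _).trans ((le_max_left _ _).trans hN)
  have hNe' : Ne ≤ T.N := (le_max_left _ _).trans ((le_max_right _ _).trans hN)
  have hNW : W0 ^ 2 + 2 ≤ T.N := (le_max_right _ _).trans ((le_max_right _ _).trans hN)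
  have hW0 : 0 < W0 := Nat.pos_of_ne_zero hB.w0.ne_zero
  have hRN : T.N ≤ W0 ^ 2 * T.N := Nat.le_mul_of_pos_left _ (pow_pos hW0 2)
  have hs : SetsOk S (W0 ^ 2 * T.N) T.y0 := sets_of_ok hB.ok
  obtain ⟨c1, c2, c3, c4, c5, -⟩ := hNe (W0 ^ 2 * T.N) (hNe'.trans hRN)
  obtain ⟨-, -, -, -, -, c6⟩ := hNe T.N hNe'
  have hnum := hNn (W0 ^ 2 * T.N) (hNn'.trans hRN)
  have hRTN : ((W0 ^ 2 * T.N : ℕ) : ℝ) = (W0 : ℝ) ^ 2 * T.N := by push_cast; ring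
  -- the sets
  have hok := hB.ok
  have q1 : JJ (W0 ^ 2 * T.N) ^ 4 * MM P (W0 ^ 2 * T.N) ^ 4 * J1 ≤ T.y0 := hok.y1
  have q2 : (T.y0 : ℝ) ≤ ((W0 ^ 2 * T.N : ℕ) : ℝ) ^ (P.kap / 1000) := hok.y2
  have q3 : 8 * JJ (W0 ^ 2 * T.N) * MM P (W0 ^ 2 * T.N) ^ 2 * J0 ≤ J2 := hok.j02
  have q4 : JJ (W0 ^ 2 * T.N) * J2 ≤ J1 := hok.j21
  have q5 : (JJ (W0 ^ 2 * T.N) : ℝ) ^ 3 ≤ J0 * rho (famY S) := hok.jy
  have q6 : (JJ (W0 ^ 2 * T.N) : ℝ) ^ 3 ≤ J1 * rho (famX S) := hok.jx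
  have q7 : ((S.k + 1 + S.n0 + S.nY : ℕ) : ℝ) ≤ Real.log ((W0 ^ 2 * T.N : ℕ) : ℝ) := hok.fy.nle
  have q8 : ∀ m ∈ TUP (famX S), (m : ℝ) ≤ ((W0 ^ 2 * T.N : ℕ) : ℝ) ^ (P.kap / 100) := hok.fx.tup
  have q9 : ∀ c, ∑ p ∈ famX S c, 1 / (p : ℝ) ≤ 1 := hok.fx.up
  set R : ℕ := W0 ^ 2 * T.N with hR
  have hTN1 : 1 ≤ T.N := by omega
  have hR1n : 1 ≤ R := hTN1.trans hRN
  have hN1 : (1 : ℝ) ≤ T.N := by exact_mod_cast hTN1
  have hN0 : (0 : ℝ) < T.N := by linarith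
  have hR1 : (1 : ℝ) ≤ R := by exact_mod_cast hR1n
  have hR0 : (0 : ℝ) < R := by linarith
  have hNR : (T.N : ℝ) ≤ R := by exact_mod_cast hRN
  set K : ℝ := Real.log (R : ℝ) with hK
  have hK9 : (10 : ℝ) ^ 9 ≤ K := hnum.K
  have hK1 : (1 : ℝ) ≤ K := le_trans (by norm_num) hK9
  have hjj1 : K ^ 1000 ≤ (JJ R : ℝ) := hnum.J1
  have hjj2 : (JJ R : ℝ) ≤ 2 * K ^ 1000 := hnum.J2
  have hKjj : K ≤ (JJ R : ℝ) := by
    refine le_trans ?_ hjj1
    calc K = K ^ 1 := (pow_one K).symm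
      _ ≤ K ^ 1000 := pow_le_pow_right₀ hK1 (by norm_num)
  have hjjr : (1 : ℝ) ≤ (JJ R : ℝ) := hK1.trans hKjj
  have hjjn : 1 ≤ JJ R := by exact_mod_cast hjjr
  have hmmn : 1 ≤ MM P R := Nat.one_le_two_pow
  have hjj0 : (0 : ℝ) < (JJ R : ℝ) := by linarith
  rw [pow_zero, mul_one] at c3 c4 c5
  rw [Real.rpow_one] at c6
  -- `J1, J0 ≤ y0`
  have hJ1y : JJ R * J1 ≤ T.y0 := by
    refine le_trans ?_ q1
    have e1 : JJ R ≤ JJ R ^ 4 * MM P R ^ 4 := by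
      calc JJ R = JJ R ^ 1 * 1 := by rw [pow_one, mul_one]
        _ ≤ JJ R ^ 4 * MM P R ^ 4 := Nat.mul_le_mul (Nat.pow_le_pow_right hjjn (by norm_num)) (Nat.one_le_pow _ _ hmmn)
    exact Nat.mul_le_mul_right _ e1
  have hJ1le : J1 ≤ T.y0 := (Nat.le_mul_of_pos_left _ hjjn).trans hJ1y
  have hJ0le : J0 ≤ T.y0 := by
    refine le_trans ?_ hJ1le
    refine le_trans ?_ q4
    refine le_trans ?_ (Nat.le_mul_of_pos_left _ hjjn)
    refine le_trans ?_ q3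
    exact Nat.le_mul_of_pos_left _ (Nat.mul_pos (Nat.mul_pos (by norm_num) hjjn) (pow_pos hmmn 2))
  have hρX0 : 0 ≤ rho (famX S) := prod_nonneg fun c _ => sum_nonneg fun p _ => by positivity
  have hρY0 : 0 ≤ rho (famY S) := prod_nonneg fun c _ => sum_nonneg fun p _ => by positivity
  have hρX1 : rho (famX S) ≤ 1 := prod_le_one (fun c _ => sum_nonneg fun p _ => by positivity) fun c _ => q9 c
  have hjj3 : (1 : ℝ) ≤ (JJ R : ℝ) ^ 3 := one_le_pow₀ hjjr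
  have hyX : 1 ≤ (T.y0 : ℝ) * rho (famX S) := by
    have e1 : (J1 : ℝ) ≤ T.y0 := by exact_mod_cast hJ1le
    have := mul_le_mul_of_nonneg_right e1 hρX0
    linarith
  have hyY : 1 ≤ (T.y0 : ℝ) * rho (famY S) := by
    have e1 : (J0 : ℝ) ≤ T.y0 := by exact_mod_cast hJ0le
    have := mul_le_mul_of_nonneg_right e1 hρY0
    linarith
  have hJ1pos : 1 ≤ J1 := by
    rcases Nat.eq_zero_or_pos J1 with h | h
    · exfalso
      rw [h, Nat.cast_zero, zero_mul] at q6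
      linarith
    · exact h
  have hJJy : (JJ R : ℝ) ≤ T.y0 := by
    have : JJ R ≤ T.y0 := (Nat.le_mul_of_pos_right _ hJ1pos).trans hJ1y
    exact_mod_cast this
  have hy0r : (0 : ℝ) < T.y0 := by linarith
  -- the quantity `G`
  set G : ℝ := rho (famX S) * rho (famY S) / JJ R with hG
  have hG0 : 0 ≤ G := by positivity
  have hG1 : 1 ≤ G / 2 * (2 * JJ R * (T.y0 : ℝ) ^ 2) := by
    have e1 : G / 2 * (2 * JJ R * (T.y0 : ℝ) ^ 2) = ((T.y0 : ℝ) * rho (famX S)) * ((T.y0 : ℝ) * rho (famY S)) := by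
      rw [hG]
      field_simp
    rw [e1]
    exact one_le_mul_of_one_le_of_one_le hyX hyY
  have hQ : 2 * JJ R * (T.y0 : ℝ) ^ 2 ≤ 4 * K ^ (1000 + 2 * Cp) := by
    have e1 : (T.y0 : ℝ) ≤ K ^ Cp := by
      refine hB.y0le.trans (pow_le_pow_left₀ (Real.log_nonneg hN1) ?_ Cp)
      exact Real.log_le_log hN0 hNR
    have e2 : (T.y0 : ℝ) ^ 2 ≤ K ^ (2 * Cp) := by
      calc (T.y0 : ℝ) ^ 2 ≤ (K ^ Cp) ^ 2 := pow_le_pow_left₀ hy0r.le e1 2
        _ = K ^ (2 * Cp) := by rw [← pow_mul, mul_comm Cp 2]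
    calc 2 * JJ R * (T.y0 : ℝ) ^ 2 ≤ 2 * (2 * K ^ 1000) * K ^ (2 * Cp) := by gcongr
      _ = 4 * K ^ (1000 + 2 * Cp) := by rw [pow_add]; ring
  have hGX : ∀ X : ℝ, 4 * K ^ (1000 + 2 * Cp) ≤ X → 1 ≤ G / 2 * X := fun X hX =>
    hG1.trans (mul_le_mul_of_nonneg_left (hQ.trans hX) (by positivity))
  obtain ⟨hL0, hvR, hLv⟩ := D06_TM hP hTM hR1n
  have hvr : (0 : ℝ) < v := by exact_mod_cast hTM.v1
  have hab' : (a : ℝ) ≤ b := by exact_mod_cast hab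
  have hPw : 0 ≤ (R : ℝ) ^ (1 - P.kap / 8) := by positivity
  have hgoal : 1 / JJ R * (rho (famX S) * rho (famY S) * (L / v) * ((b : ℝ) - a + (R : ℝ) ^ (1 - P.kap / 8))) =
      G * (L / v) * ((b : ℝ) - a) + G * (L / v) * (R : ℝ) ^ (1 - P.kap / 8) := by
    rw [hG]
    ring
  rw [hgoal]
  have hbR : (b : ℝ) ≤ (R : ℝ) ^ (P.kap / 1000) * R := by
    have e1 : (b : ℝ) ≤ (J1 : ℝ) * R := by exact_mod_cast hbJ
    have e2 : (J1 : ℝ) ≤ T.y0 := by exact_mod_cast hJ1le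
    exact e1.trans (mul_le_mul_of_nonneg_right (e2.trans q2) hR0.le)
  by_cases hshort : (b : ℝ) - a < L * (R : ℝ) ^ (1 - P.kap / 8 - P.kap / 20)
  · -- short intervals
    have hτ : ∀ n : ℕ, 1 ≤ n → n ≤ b → (n.divisors.card : ℝ) ≤ (R : ℝ) ^ (P.kap / 100) := by
      intro n n1 n2
      have e1 : (n : ℝ) ≤ (R : ℝ) ^ (2 : ℝ) := by
        have e2 : (n : ℝ) ≤ b := by exact_mod_cast n2
        refine e2.trans (hbR.trans ?_)
        calc (R : ℝ) ^ (P.kap / 1000) * R = (R : ℝ) ^ (P.kap / 1000 + 1) := by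
              rw [Real.rpow_add hR0, Real.rpow_one]
          _ ≤ (R : ℝ) ^ (2 : ℝ) := Real.rpow_le_rpow_of_exponent_le hR1 (by linarith)
      calc (n.divisors.card : ℝ) ≤ Cd * (n : ℝ) ^ (P.kap / 400) := hCd n n1
        _ ≤ (R : ℝ) ^ (P.kap / 200) * ((R : ℝ) ^ (2 : ℝ)) ^ (P.kap / 400) := by gcongr
        _ = (R : ℝ) ^ (P.kap / 100) := by
            rw [← Real.rpow_mul hR0.le, ← Real.rpow_add hR0]
            congr 1
            ring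
    have hmain := D06_short (y1 := y1) (J0 := J0) (J1 := J1) (J2 := J2) hs hTM ((R : ℝ) ^ (P.kap / 100)) d a b hab hda hτ
      ((R : ℝ) ^ (P.kap / 100)) (D06_card hs q8)
    refine hmain.trans ?_
    have e3 : ((R : ℝ) ^ (P.kap / 100)) ^ 2 = (R : ℝ) ^ (2 * P.kap / 100) := by
      rw [← Real.rpow_natCast, ← Real.rpow_mul hR0.le]
      congr 1
      push_cast
      ring
    rw [e3, mul_add]
    have s1 : (R : ℝ) ^ (2 * P.kap / 100) * (((b : ℝ) - a) / v * rho (famX S)) ≤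
        G / 2 * ((L / v) * (R : ℝ) ^ (1 - P.kap / 8)) := by
      have h1 : ((b : ℝ) - a) / v * rho (famX S) ≤ (L / v) * (R : ℝ) ^ (1 - P.kap / 8 - P.kap / 20) := by
        calc ((b : ℝ) - a) / v * rho (famX S) ≤ ((b : ℝ) - a) / v :=
              mul_le_of_le_one_right (div_nonneg (by linarith) hvr.le) hρX1
          _ ≤ (L * (R : ℝ) ^ (1 - P.kap / 8 - P.kap / 20)) / v :=
              div_le_div_of_nonneg_right hshort.le hvr.le
          _ = _ := by ring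
      have h2 := hGX _ c1
      calc (R : ℝ) ^ (2 * P.kap / 100) * (((b : ℝ) - a) / v * rho (famX S)) ≤
            (R : ℝ) ^ (2 * P.kap / 100) * ((L / v) * (R : ℝ) ^ (1 - P.kap / 8 - P.kap / 20)) :=
              mul_le_mul_of_nonneg_left h1 (by positivity)
        _ = 1 * ((L / v) * ((R : ℝ) ^ (2 * P.kap / 100) * (R : ℝ) ^ (1 - P.kap / 8 - P.kap / 20))) := by ring
        _ ≤ (G / 2 * (R : ℝ) ^ (3 * P.kap / 100)) *
            ((L / v) * ((R : ℝ) ^ (2 * P.kap / 100) * (R : ℝ) ^ (1 - P.kap / 8 - P.kap / 20))) :=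
              mul_le_mul_of_nonneg_right h2 (by positivity)
        _ = G / 2 * ((L / v) * ((R : ℝ) ^ (3 * P.kap / 100) * (R : ℝ) ^ (2 * P.kap / 100) *
              (R : ℝ) ^ (1 - P.kap / 8 - P.kap / 20))) := by ring
        _ = G / 2 * ((L / v) * (R : ℝ) ^ (1 - P.kap / 8)) := by
              rw [← Real.rpow_add hR0, ← Real.rpow_add hR0]
              congr 3
              ring
    have s2 : (R : ℝ) ^ (2 * P.kap / 100) * (R : ℝ) ^ (P.kap / 100) ≤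
        G / 2 * ((L / v) * (R : ℝ) ^ (1 - P.kap / 8)) := by
      have h2 := hGX _ c1
      calc (R : ℝ) ^ (2 * P.kap / 100) * (R : ℝ) ^ (P.kap / 100) = 1 * (R : ℝ) ^ (3 * P.kap / 100) := by
            rw [← Real.rpow_add hR0, one_mul]
            congr 1
            ring
        _ ≤ (G / 2 * (R : ℝ) ^ (3 * P.kap / 100)) * (R : ℝ) ^ (3 * P.kap / 100) :=
            mul_le_mul_of_nonneg_right h2 (by positivity)
        _ = G / 2 * (R : ℝ) ^ (6 * P.kap / 100) := by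
            rw [mul_assoc, ← Real.rpow_add hR0]
            congr 2
            ring
        _ ≤ G / 2 * ((L / v) * (R : ℝ) ^ (1 - P.kap / 8)) := mul_le_mul_of_nonneg_left hLv (by positivity)
    have s3 : 0 ≤ G * (L / v) * ((b : ℝ) - a) := mul_nonneg (by positivity) (by linarith)
    linarith
  · -- long intervals
    push Not at hshort
    have hdJ : d ≤ J1 := by
      have : d * R ≤ J1 * R := hda.trans (hab.trans hbJ)
      exact Nat.le_of_mul_le_mul_right this hR1n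
    have hDp : ∀ p : ℕ, p.Prime → p ∣ W0 ^ 2 * d → p ≤ T.y0 := by
      intro p hp h
      rcases hp.dvd_mul.1 h with h | h
      · exact hB.w0y p hp (hp.dvd_of_dvd_pow h)
      · exact (Nat.le_of_dvd hd h).trans (hdJ.trans hJ1le)
    have H := hNb S T y1 J0 J1 J2 ε hNb' hB v o L hTM (W0 ^ 2 * d) hDp
    have hDN : W0 ^ 2 * d * T.N = d * R := by rw [hR]; ring
    have hbB : b ≤ ⌊(R : ℝ) ^ ((21 : ℝ) / 20)⌋₊ := by
      refine Nat.le_floor (hbR.trans ?_)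
      calc (R : ℝ) ^ (P.kap / 1000) * R = (R : ℝ) ^ (P.kap / 1000 + 1) := by
            rw [Real.rpow_add hR0, Real.rpow_one]
        _ ≤ (R : ℝ) ^ ((21 : ℝ) / 20) := Real.rpow_le_rpow_of_exponent_le hR1 (by linarith)
    have hvN : v ≤ T.N := by
      have h1 : (v : ℝ) * (W0 : ℝ) ^ 2 ≤ (W0 : ℝ) ^ 2 * T.N := by
        rw [← hRTN]
        calc (v : ℝ) * (W0 : ℝ) ^ 2 ≤ (R : ℝ) ^ (1 - P.kap / 2) * (R : ℝ) ^ (P.kap / 2) :=
              mul_le_mul hvR (by linarith) (by positivity) (by positivity)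
          _ = R := by
              rw [← Real.rpow_add hR0]
              rw [show 1 - P.kap / 2 + P.kap / 2 = 1 by ring, Real.rpow_one]
      have h2 : (0 : ℝ) < (W0 : ℝ) ^ 2 := by
        have : (0 : ℝ) < W0 := by exact_mod_cast hW0
        positivity
      have h3 : (v : ℝ) ≤ T.N := by
        rw [mul_comm] at h1
        exact le_of_mul_le_mul_left h1 h2
      exact_mod_cast h3
    have hbN : b ≤ T.N ^ 2 := by
      have h1 : (b : ℝ) ≤ (T.N : ℝ) ^ 2 := by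
        have e1 : (b : ℝ) ≤ (J1 : ℝ) * R := by exact_mod_cast hbJ
        have e2 : (J1 : ℝ) ≤ (Real.log T.N) ^ Cp := by
          have e3 : (J1 : ℝ) ≤ T.y0 := by exact_mod_cast hJ1le
          exact e3.trans hB.y0le
        have e4 : (0 : ℝ) ≤ (Real.log T.N) ^ Cp := pow_nonneg (Real.log_nonneg hN1) _
        calc (b : ℝ) ≤ (J1 : ℝ) * R := e1
          _ ≤ (Real.log T.N) ^ Cp * ((W0 : ℝ) ^ 2 * T.N) := by
              rw [← hRTN]
              exact mul_le_mul_of_nonneg_right e2 hR0.le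
          _ = ((W0 : ℝ) ^ 2 * (Real.log T.N) ^ Cp) * T.N := by ring
          _ ≤ (T.N : ℝ) * T.N := by
              refine mul_le_mul_of_nonneg_right ?_ hN0.le
              linarith
          _ = (T.N : ℝ) ^ 2 := by ring
      exact_mod_cast h1
    have h3 : H3 S (wD T (W0 ^ 2 * d)) W0 v a b ⌊(R : ℝ) ^ ((21 : ℝ) / 20)⌋₊ δm (lenW P.kap R o) := by
      refine ⟨hab, hbB.trans (Nat.le_mul_of_pos_right _ hTM.v1), ?_, hTM.v1, hTM.vc, hvN, ?_, hbN, ?_⟩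
      · exact (D06_lab hP hTM hTN1 hRN hE.em hE.a4 c4).trans hshort
      · show W0 ^ 2 * d * T.N ≤ a
        rw [hDN]
        exact hda
      · show Real.exp (18 * (S.k + 1)) * ((b : ℝ) - ((W0 ^ 2 * d : ℕ) : ℝ) * T.N) ≤ ((W0 ^ 2 * d : ℕ) : ℝ) * T.N
        have e1 : ((W0 ^ 2 * d : ℕ) : ℝ) * T.N = ((d * R : ℕ) : ℝ) := by
          rw [← hDN]
          push_cast
          ring
        have hdb : d * R ≤ b := hda.trans hab
        rw [e1, ← Nat.cast_sub hdb]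
        calc Real.exp (18 * (S.k + 1)) * ((b - d * R : ℕ) : ℝ) ≤ (JJ R : ℝ) * ((b - d * R : ℕ) : ℝ) :=
              mul_le_mul_of_nonneg_right hB.kexp (Nat.cast_nonneg _)
          _ = ((JJ R * (b - d * R) : ℕ) : ℝ) := by push_cast; ring
          _ ≤ ((d * R : ℕ) : ℝ) := by exact_mod_cast hJJ
    have hOK := mM3_ok H h3
    have hpl := hB.plem (W0 ^ 2 * d) (Nat.mul_pos (pow_pos hW0 2) hd) (Dvd.intro _ rfl)
      (Nat.mul_le_mul_left _ hdJ) hDp _ hOK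
    have hle := m3_le (P := P) (S := S) (T := T) (W0 := W0) (y1 := y1) (J0 := J0) (J1 := J1) (J2 := J2) (y0' := T.y0)
      (w := wt T.y0 o) (g := gW T.y0 o) (t2 := t2W o) (L := LW T.y0 o L) hs hR1n hB.ty H.wei.nonneg v d a b hTM.v1 hda
    have hn4 : 4 * (S.k + 1 + S.n0 + S.nY) ≤ T.y0 := by
      have e1 : (4 : ℝ) * ((S.k + 1 + S.n0 + S.nY : ℕ) : ℝ) ≤ T.y0 := by
        calc (4 : ℝ) * ((S.k + 1 + S.n0 + S.nY : ℕ) : ℝ) ≤ K * K :=
              mul_le_mul (le_trans (by norm_num) hK9) q7 (Nat.cast_nonneg _) (by linarith)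
          _ = K ^ 2 := by ring
          _ ≤ K ^ 1000 := pow_le_pow_right₀ hK1 (by norm_num)
          _ ≤ T.y0 := hjj1.trans hJJy
      exact_mod_cast e1
    obtain ⟨hLW0, hLWL⟩ := LW_le (y0 := T.y0) hTM
    have htot := tot3_le (S := S) (T := wD T (W0 ^ 2 * d)) (w := wt T.y0 o) (t2 := t2W o) hs H.wei.g_nonneg hn4 hLW0 v a b hab
    refine hle.trans (hpl.trans ?_)
    have hWe : (mM3 S (wD T (W0 ^ 2 * d)) v a b (t2W o) (wt T.y0 o) (LW T.y0 o L) (gW T.y0 o)).W =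
        LW T.y0 o L * ((b : ℝ) - a) / v := rfl
    have hTe : ((wD T (W0 ^ 2 * d)).N : ℝ) = T.N := rfl
    rw [hWe, hTe]
    have hba : 0 ≤ (b : ℝ) - a := by linarith
    have hM0 : 0 ≤ L * ((b : ℝ) - a) / v := by positivity
    have hM1 : LW T.y0 o L * ((b : ℝ) - a) / v ≤ L * ((b : ℝ) - a) / v := by gcongr
    have t1 : ε * (mM3 S (wD T (W0 ^ 2 * d)) v a b (t2W o) (wt T.y0 o) (LW T.y0 o L) (gW T.y0 o)).tot ≤
        G / 2 * (L * ((b : ℝ) - a) / v) := by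
      have e1 : 2 * ε ≤ 1 / (8 * JJ R) := by
        rw [le_div_iff₀ (by positivity)]
        have := hB.e1
        have e2 : 2 * ε * (8 * (JJ R : ℝ)) = ε * (16 * JJ R) := by ring
        rw [e2]
        exact this
      calc ε * (mM3 S (wD T (W0 ^ 2 * d)) v a b (t2W o) (wt T.y0 o) (LW T.y0 o L) (gW T.y0 o)).tot ≤
            ε * (2 * (LW T.y0 o L * ((b : ℝ) - a) / v * (rho (famX S) * rho (famY S)))) :=
              mul_le_mul_of_nonneg_left htot hB.e0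
        _ = 2 * ε * (rho (famX S) * rho (famY S)) * (LW T.y0 o L * ((b : ℝ) - a) / v) := by ring
        _ ≤ 1 / (8 * JJ R) * (rho (famX S) * rho (famY S)) * (L * ((b : ℝ) - a) / v) := by
              refine mul_le_mul ?_ hM1 (by positivity) (by positivity)
              exact mul_le_mul_of_nonneg_right e1 (by positivity)
        _ = G / 8 * (L * ((b : ℝ) - a) / v) := by
              rw [hG]
              field_simp
        _ ≤ G / 2 * (L * ((b : ℝ) - a) / v) := mul_le_mul_of_nonneg_right (by linarith) hM0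
    have t2 : (T.N : ℝ) ^ (-δ2) * (LW T.y0 o L * ((b : ℝ) - a) / v) ≤ G / 2 * (L * ((b : ℝ) - a) / v) := by
      have e1 : (T.N : ℝ) ^ (-δ2) ≤ G / 2 := by
        have e2 := hGX _ c2
        have e3 : (R : ℝ) ^ (δ2 / 2) ≤ (T.N : ℝ) ^ δ2 := by
          have e4 : (R : ℝ) ≤ (T.N : ℝ) ^ (2 : ℝ) := by
            rw [hRTN]
            have e5 : (W0 : ℝ) ^ 2 ≤ T.N := by
              have : W0 ^ 2 ≤ T.N := by omega
              exact_mod_cast this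
            calc (W0 : ℝ) ^ 2 * T.N ≤ T.N * T.N := mul_le_mul_of_nonneg_right e5 hN0.le
              _ = (T.N : ℝ) ^ (2 : ℝ) := by
                  rw [Real.rpow_two]
                  ring
          calc (R : ℝ) ^ (δ2 / 2) ≤ ((T.N : ℝ) ^ (2 : ℝ)) ^ (δ2 / 2) :=
                Real.rpow_le_rpow hR0.le e4 (by linarith [hE.e2])
            _ = (T.N : ℝ) ^ δ2 := by
                rw [← Real.rpow_mul hN0.le]
                congr 1
                ring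
        have e6 : 1 ≤ G / 2 * (T.N : ℝ) ^ δ2 :=
          e2.trans (mul_le_mul_of_nonneg_left e3 (by positivity))
        have e7 : (T.N : ℝ) ^ (-δ2) * (T.N : ℝ) ^ δ2 = 1 := by
          rw [← Real.rpow_add hN0, neg_add_cancel, Real.rpow_zero]
        calc (T.N : ℝ) ^ (-δ2) = (T.N : ℝ) ^ (-δ2) * 1 := (mul_one _).symm
          _ ≤ (T.N : ℝ) ^ (-δ2) * (G / 2 * (T.N : ℝ) ^ δ2) := mul_le_mul_of_nonneg_left e6 (by positivity)
          _ = G / 2 * ((T.N : ℝ) ^ (-δ2) * (T.N : ℝ) ^ δ2) := by ring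
          _ = G / 2 := by rw [e7, mul_one]
      exact mul_le_mul e1 hM1 (by positivity) (by positivity)
    have t3 : 0 ≤ G * (L / v) * (R : ℝ) ^ (1 - P.kap / 8) := by positivity
    have t4 : G * (L / v) * ((b : ℝ) - a) = G / 2 * (L * ((b : ℝ) - a) / v) + G / 2 * (L * ((b : ℝ) - a) / v) := by
      ring
    linarith

end Pool.Agent.Lib.TCB
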