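import Pool.Agent.Lib.MP_7b7e48_nt.BR.E0

/-!
# Module E1 (75 minutes): the bad tuples of `Y` are in few sub-families

PROOF. `BB = ∑_{i < J0} if Rgh1 .. then #{t' ∈ TUP (famY S) : t' ∣ a, Bd t t'}`, `a = x.val + i R`. `t' = prY ν` (`mem_TUPY`, `SetsOk.injY`), `BdS_iff`: `S.badpair T 0 y1 μ ν`: some `p ∈ PS`, `p ≤ y1`, with `#{i : ¬ μ_i ≡ ν_i [MOD p]} ≤ 2`, so at least `k + 1 - 2 = k - 1` indices with `ν_i ≡ μ_i ≡ μ_i % p`; choose a subset `I` of them
with `k - 1` elements (`Finset.exists_subset_card_eq`). Then `jY ν ∈ Fintype.piFinset (subY S p I (μ_i % p))`. So the number of these `ν` with `prY ν ∣ a` is `≤ ∑_p ∑_I #{f ∈ piFinset (subY ..) : ∏ f ∣ a} = ∑_p ∑_I pht (subY ..) a` (`pht_card`: the sets of `subY` are subsets of those of `famY`, so primes and disjoint).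
`ph P R B a = pht B a` if `Rgh1 P R a`, else `0`.
-/

set_option autoImplicit false

open Finset

namespace Pool.Agent.Lib.TCB

open Pool.Agent.Lib.RG (Rough)
open Pool.Agent.Lib.RH (Prm MM JJ)
open Pool.Agent.Lib.TC (MS Msr)
open Pool.Agent.Lib.TCF (TUP pht rho ph Mul TM NL NLt wt len Rgh1 VM PY BB)

theorem subY_sub (S : MS) (p : ℕ) (I : Finset (Fin (S.k + 1))) (r : Fin (S.k + 1) → ℕ) (c : Fin (S.k + 1 + S.n0 + S.nY)) :
    subY S p I r c ⊆ famY S c := by
  unfold subY famY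
  refine Fin.addCases (fun c => ?_) (fun c => ?_) c
  · rw [Fin.append_left, Fin.append_left]
    refine Fin.addCases (fun c => ?_) (fun c => ?_) c
    · rw [Fin.append_left, Fin.append_left]
      split_ifs
      · exact filter_subset _ _
      · exact Subset.refl _
    · rw [Fin.append_right, Fin.append_right]
  · rw [Fin.append_right, Fin.append_right]

private theorem E1_mem {S : MS} {p : ℕ} {I : Finset (Fin (S.k + 1))} {r : Fin (S.k + 1) → ℕ} {ν : S.TY} (hν : ν ∈ S.MY)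
    (h : ∀ i ∈ I, ν.1 i ≡ r i [MOD p]) : jY S ν ∈ Fintype.piFinset (subY S p I r) := by
  unfold MS.MY at hν
  rw [mem_product, mem_product, Fintype.mem_piFinset, Fintype.mem_piFinset, Fintype.mem_piFinset] at hν
  obtain ⟨h1, h2, h3⟩ := hν
  rw [Fintype.mem_piFinset]
  intro c
  unfold jY subY
  refine Fin.addCases (fun c => ?_) (fun c => ?_) c
  · rw [Fin.append_left, Fin.append_left]
    refine Fin.addCases (fun c => ?_) (fun c => ?_) c
    · rw [Fin.append_left, Fin.append_left]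
      split_ifs with hi
      · exact mem_filter.2 ⟨h1 c, h c hi⟩
      · exact h1 c
    · rw [Fin.append_right, Fin.append_right]; exact h2 c
  · rw [Fin.append_right, Fin.append_right]; exact h3 c

/-- the bad tuples of `Y` which divide `a` -/
private theorem E1_card {S : MS} {T : TC.Dat} {R y0 y1 : ℕ} (hs : SetsOk S R y0) (hk : 1 ≤ S.k) {μ : S.TX} (hμ : μ ∈ S.MX) (a : ℕ)
    [DecidablePred fun t' => t' ∣ a ∧ BdS S T y1 (S.prX id μ) t'] :
    (((TUP (famY S)).filter fun t' => t' ∣ a ∧ BdS S T y1 (S.prX id μ) t').card : ℝ) ≤ ∑ p ∈ T.PS.filter (fun p => p ≤ y1),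
      ∑ I ∈ (univ : Finset (Fin (S.k + 1))).powersetCard (S.k - 1), pht (subY S p I fun i => μ.1 i % p) a := by
  classical
  have h1 : (TUP (famY S)).filter (fun t' => t' ∣ a ∧ BdS S T y1 (S.prX id μ) t') ⊆
      (T.PS.filter (fun p => p ≤ y1)).biUnion fun p => ((univ : Finset (Fin (S.k + 1))).powersetCard (S.k - 1)).biUnion fun I =>
        ((Fintype.piFinset (subY S p I fun i => μ.1 i % p)).filter fun f => ∏ c, f c ∣ a).image fun f => ∏ c, f c := by
    intro t' ht
    rw [mem_filter] at ht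
    obtain ⟨h2, h3, h4⟩ := ht
    obtain ⟨ν, hν, rfl⟩ := mem_TUPY.1 h2
    rw [BdS_iff hs hμ hν] at h4
    obtain ⟨p, hp, -, hp1, hc⟩ := h4
    have h5 : S.k - 1 ≤ ((univ : Finset (Fin (S.k + 1))).filter fun i => μ.1 i ≡ ν.1 i [MOD p]).card := by
      have h6 := card_filter_add_card_filter_not (s := (univ : Finset (Fin (S.k + 1)))) (fun i => μ.1 i ≡ ν.1 i [MOD p])
      rw [card_univ, Fintype.card_fin] at h6
      omega
    obtain ⟨I, hI, hIc⟩ := exists_subset_card_eq h5
    refine mem_biUnion.2 ⟨p, mem_filter.2 ⟨hp, hp1⟩, mem_biUnion.2 ⟨I, mem_powersetCard.2 ⟨subset_univ _, hIc⟩, ?_⟩⟩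
    refine mem_image.2 ⟨jY S ν, mem_filter.2 ⟨E1_mem hν ?_, ?_⟩, ?_⟩
    · intro i hi
      have h7 := (mem_filter.1 (hI hi)).2
      exact h7.symm.trans (Nat.mod_modEq _ _).symm
    · rw [← id_eq (a := ∏ c, jY S ν c)] at *
      have h8 := prY_eq S id ν
      simp only [id_eq] at h8 ⊢
      rw [← h8]; exact h3
    · have h8 := prY_eq S id ν
      simp only [id_eq] at h8 ⊢
      exact h8.symm
  have hpr : ∀ p (I : Finset (Fin (S.k + 1))) (r : Fin (S.k + 1) → ℕ) c, ∀ q ∈ subY S p I r c, q.Prime :=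
    fun p I r c q hq => (hs.py c q (subY_sub S p I r c hq)).1
  have hdj : ∀ p (I : Finset (Fin (S.k + 1))) (r : Fin (S.k + 1) → ℕ) c c', c ≠ c' → Disjoint (subY S p I r c) (subY S p I r c') :=
    fun p I r c c' hc => disjoint_of_subset_left (subY_sub S p I r c) (disjoint_of_subset_right (subY_sub S p I r c') (hs.dy c c' hc))
  have h2 : ((TUP (famY S)).filter fun t' => t' ∣ a ∧ BdS S T y1 (S.prX id μ) t').card ≤ ∑ p ∈ T.PS.filter (fun p => p ≤ y1),
      ∑ I ∈ (univ : Finset (Fin (S.k + 1))).powersetCard (S.k - 1),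
        ((Fintype.piFinset (subY S p I fun i => μ.1 i % p)).filter fun f => ∏ c, f c ∣ a).card := by
    refine (card_le_card h1).trans (card_biUnion_le.trans (sum_le_sum fun p _ => card_biUnion_le.trans (sum_le_sum fun I _ => card_image_le)))
  calc (((TUP (famY S)).filter fun t' => t' ∣ a ∧ BdS S T y1 (S.prX id μ) t').card : ℝ) ≤ ((∑ p ∈ T.PS.filter (fun p => p ≤ y1),
      ∑ I ∈ (univ : Finset (Fin (S.k + 1))).powersetCard (S.k - 1),
        ((Fintype.piFinset (subY S p I fun i => μ.1 i % p)).filter fun f => ∏ c, f c ∣ a).card : ℕ) : ℝ) := by exact_mod_cast h2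
    _ = _ := by
        push_cast
        refine sum_congr rfl fun p _ => sum_congr rfl fun I _ => ?_
        rw [pht_card (hpr p I _) (hdj p I _)]

theorem BB_le {P : Prm} {S : MS} {T : TC.Dat} {R y0 y1 J0 J1 J2 y0' : ℕ} (hs : SetsOk S R y0) (hk : 1 ≤ S.k) {μ : S.TX} (hμ : μ ∈ S.MX)
    (x : ZMod R) :
    BB P R (datS S J0 J1 J2 y0') (BdS S T y1) (S.prX id μ) x ≤ ∑ p ∈ T.PS.filter (fun p => p ≤ y1),
      ∑ I ∈ (univ : Finset (Fin (S.k + 1))).powersetCard (S.k - 1), PY P R (datE S J0 J1 J2 y0' p I fun i => μ.1 i % p) x := by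
  classical
  unfold BB PY
  have h1 : ∑ p ∈ T.PS.filter (fun p => p ≤ y1), ∑ I ∈ (univ : Finset (Fin (S.k + 1))).powersetCard (S.k - 1),
      ∑ i ∈ range (datE S J0 J1 J2 y0' p I fun i => μ.1 i % p).J0,
        ph P R (datE S J0 J1 J2 y0' p I fun i => μ.1 i % p).BY (x.val + i * R) =
      ∑ i ∈ range J0, ∑ p ∈ T.PS.filter (fun p => p ≤ y1), ∑ I ∈ (univ : Finset (Fin (S.k + 1))).powersetCard (S.k - 1),
        ph P R (subY S p I fun i => μ.1 i % p) (x.val + i * R) := by
    rw [sum_comm' (s := range J0) (t := fun _ => T.PS.filter (fun p => p ≤ y1)) (t' := T.PS.filter (fun p => p ≤ y1)) (s' := fun _ => range J0)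
      (by intro a b; tauto)]
    refine sum_congr rfl fun p _ => ?_
    rw [sum_comm]
    rfl
  rw [h1]
  refine sum_le_sum fun i _ => ?_
  by_cases hR : Rgh1 P R (x.val + i * R)
  · rw [if_pos hR]
    refine (E1_card hs hk hμ (x.val + i * R)).trans (le_of_eq ?_)
    refine sum_congr rfl fun p _ => sum_congr rfl fun I _ => ?_
    unfold ph
    rw [if_pos (show (x.val + i * R).Coprime R ∧ Rough (MM P R) (x.val + i * R) from hR)]
  · rw [if_neg hR]
    refine sum_nonneg fun p _ => sum_nonneg fun I _ => ?_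
    unfold ph
    rw [if_neg (show ¬ ((x.val + i * R).Coprime R ∧ Rough (MM P R) (x.val + i * R)) from hR)]

end Pool.Agent.Lib.TCB
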