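import Pool.Agent.Lib.MP_7b7e48_nt.BR.E1
import Pool.Agent.Lib.MP_7b7e48_nt.TCF.CDef

/-!
# Module E2 (75 minutes): the sub-families

`rho B = ∏_c ∑_{p ∈ B c} 1/p`; `Fin.prod_univ_add` twice separates the windows; for the windows: the factor is multiplied by a number in `[1/(4(p-1)), 4/(p-1)]` for `i ∈ I` (`WinOk`), unchanged for `i ∉ I`; `|I| = k - 1`.
`famW_subY`: `pr`, `disj`, `up`, `tot`, `nle`, `tup` from `FamOk` and `subY_sub` (`TUP (subY ..) ⊆ TUP (famY S)`); `lo`: `1/K^3 ≥ 1/JJ`, and for `i ∈ I`: `≥ (1/K^3)/(4 (p-1)) ≥ 1/(4 K^5) ≥ 1/JJ` (`p ≤ y1 ≤ K^2`, `JJ ≥ K^1000`, `K ≥ 4`).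
`num_sum`: the sum over the primes `p ≥ p0` is at most the sum over all integers: `∑_{n ≥ p0} (4/(n-1))^(k-1) ≤ (4/(p0-1))^(k-3) ∑ 16/(n-1)^2 ≤ (4/(p0-1))^2 16/(p0-2)`, and `C(k+1, k-1) = C(k+1, 2) ≤ (k+1)^2/2`, `p0 - 2 ≥ 64 (k+1)^2`: the total is `≤ 3/2 (k+1)^2 (1/(16 (k+1)^2))^2/(4 (k+1)^2) ≤ 1/80`.
(`∑_{p0 ≤ n ≤ M} 1/(n-1)^2 ≤ 1/(p0-2)` by telescoping `1/((n-1)(n-2)) = 1/(n-2) - 1/(n-1)`.)
-/

set_option autoImplicit false

open Finset

namespace Pool.Agent.Lib.TCB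

open Pool.Agent.Lib.RG (Rough)
open Pool.Agent.Lib.RH (Prm MM JJ)
open Pool.Agent.Lib.TC (MS Msr)
open Pool.Agent.Lib.TCF (TUP pht rho FamOk FamW)

private theorem E2_prod {n0 n1 n2 : ℕ} (A : Fin n0 → Finset ℕ) (B : Fin n1 → Finset ℕ) (C : Fin n2 → Finset ℕ) :
    rho (Fin.append (Fin.append A B) C) = rho A * rho B * rho C := by
  unfold rho
  rw [Fin.prod_univ_add, Fin.prod_univ_add]
  congr 1
  · congr 1
    · refine prod_congr rfl fun c _ => ?_
      rw [Fin.append_left, Fin.append_left]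
    · refine prod_congr rfl fun c _ => ?_
      rw [Fin.append_left, Fin.append_right]
  · refine prod_congr rfl fun c _ => ?_
    rw [Fin.append_right]

private theorem E2_rho_nonneg {n : ℕ} (A : Fin n → Finset ℕ) : 0 ≤ rho A :=
  prod_nonneg fun _ _ => sum_nonneg fun _ _ => by positivity

private theorem E2_PS {T : TC.Dat} {p : ℕ} (hp : p ∈ T.PS) : (1 : ℝ) ≤ (p : ℝ) - 1 := by
  unfold TC.Dat.PS at hp
  rw [mem_filter] at hp
  have : (2 : ℝ) ≤ p := by exact_mod_cast hp.2.1.two_le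
  linarith

theorem rho_subY {S : MS} {T : TC.Dat} {y1 p : ℕ} (hw : WinOk S T y1) (hp : p ∈ T.PS) (hp1 : p ≤ y1) (I : Finset (Fin (S.k + 1)))
    (hI : I.card = S.k - 1) (r : Fin (S.k + 1) → ℕ) (hr : ∀ i ∈ I, ¬ p ∣ r i) :
    rho (famY S) * (1 / (4 * ((p : ℝ) - 1))) ^ (S.k - 1) ≤ rho (subY S p I r) ∧
      rho (subY S p I r) ≤ (4 / ((p : ℝ) - 1)) ^ (S.k - 1) * rho (famY S) := by
  classical
  have hp2 := E2_PS hp
  have hpos : (0 : ℝ) < (p : ℝ) - 1 := by linarith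
  set w : Fin (S.k + 1) → ℝ := fun i => ∑ β ∈ S.WY i, 1 / (β : ℝ) with hwd
  have hw0 : ∀ i, 0 ≤ w i := fun i => sum_nonneg fun _ _ => by positivity
  set A : Fin (S.k + 1) → Finset ℕ := fun i => if i ∈ I then (S.WY i).filter (fun β => β ≡ r i [MOD p]) else S.WY i with hA
  have e1 : rho (famY S) = (∏ i, w i) * rho S.FY * rho S.OY := E2_prod _ _ _
  have e2 : rho (subY S p I r) = rho A * rho S.FY * rho S.OY := E2_prod _ _ _
  have e3 : (1 / (4 * ((p : ℝ) - 1))) ^ (S.k - 1) = ∏ i, if i ∈ I then (1 / (4 * ((p : ℝ) - 1))) else (1 : ℝ) := by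
    rw [prod_ite, prod_const, prod_const_one, mul_one, ← hI]
    congr 2
    ext i
    simp
  have e4 : (4 / ((p : ℝ) - 1)) ^ (S.k - 1) = ∏ i, if i ∈ I then (4 / ((p : ℝ) - 1)) else (1 : ℝ) := by
    rw [prod_ite, prod_const, prod_const_one, mul_one, ← hI]
    congr 2
    ext i
    simp
  have hF := E2_rho_nonneg S.FY
  have hO := E2_rho_nonneg S.OY
  have h1 : (∏ i, w i) * (1 / (4 * ((p : ℝ) - 1))) ^ (S.k - 1) ≤ rho A := by
    rw [e3, ← prod_mul_distrib]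
    unfold rho
    refine prod_le_prod (fun i _ => mul_nonneg (hw0 i) (by split_ifs <;> positivity)) fun i _ => ?_
    rw [hA]
    by_cases hi : i ∈ I
    · simp only [if_pos hi]
      have := hw.lo i p hp hp1 (r i) (hr i hi)
      calc w i * (1 / (4 * ((p : ℝ) - 1))) = w i / (4 * ((p : ℝ) - 1)) := by ring
        _ ≤ _ := this
    · simp only [if_neg hi, mul_one]
      exact le_rfl
  have h2 : rho A ≤ (4 / ((p : ℝ) - 1)) ^ (S.k - 1) * ∏ i, w i := by
    rw [e4, ← prod_mul_distrib]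
    unfold rho
    refine prod_le_prod (fun i _ => sum_nonneg fun _ _ => by positivity) fun i _ => ?_
    rw [hA]
    by_cases hi : i ∈ I
    · simp only [if_pos hi]
      exact hw.up i p hp hp1 (r i) (hr i hi)
    · simp only [if_neg hi, one_mul]
      exact le_rfl
  rw [e1, e2]
  constructor
  · calc (∏ i, w i) * rho S.FY * rho S.OY * (1 / (4 * ((p : ℝ) - 1))) ^ (S.k - 1) =
        ((∏ i, w i) * (1 / (4 * ((p : ℝ) - 1))) ^ (S.k - 1)) * rho S.FY * rho S.OY := by ring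
      _ ≤ rho A * rho S.FY * rho S.OY := by gcongr
  · calc rho A * rho S.FY * rho S.OY ≤ ((4 / ((p : ℝ) - 1)) ^ (S.k - 1) * ∏ i, w i) * rho S.FY * rho S.OY := by gcongr
      _ = _ := by ring

theorem famW_subY {P : Prm} {S : MS} {T : TC.Dat} {R y0 y1 p : ℕ} (hF : FamOk P R y0 (famY S)) (hw : WinOk S T y1) (hp : p ∈ T.PS) (hp1 : p ≤ y1)
    (hK : 4 ≤ Real.log R) (hy : (y1 : ℝ) ≤ (Real.log R) ^ 2) (I : Finset (Fin (S.k + 1))) (r : Fin (S.k + 1) → ℕ) (hr : ∀ i ∈ I, ¬ p ∣ r i) :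
    FamW P R y0 (subY S p I r) := by
  classical
  have hsub := subY_sub S p I r
  have hK0 : (0 : ℝ) < Real.log R := by linarith
  have hJ : (Real.log R) ^ 1000 ≤ (JJ R : ℝ) := Nat.le_ceil _
  have hJ0 : (0 : ℝ) < (Real.log R) ^ 1000 := by positivity
  have hp2 := E2_PS hp
  have hpos : (0 : ℝ) < (p : ℝ) - 1 := by linarith
  have hle : ∀ c, ∑ q ∈ subY S p I r c, 1 / (q : ℝ) ≤ ∑ q ∈ famY S c, 1 / (q : ℝ) := fun c =>
    sum_le_sum_of_subset_of_nonneg (hsub c) fun _ _ _ => by positivity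
  refine ⟨fun c q hq => hF.pr c q (hsub c hq), fun c c' hc => disjoint_of_subset_left (hsub c) (disjoint_of_subset_right (hsub c') (hF.disj c c' hc)),
    ?_, fun c => (hle c).trans (hF.up c), ?_, hF.nle, ?_⟩
  · intro c
    have h3 : 1 / (JJ R : ℝ) ≤ 1 / (Real.log R) ^ 1000 := one_div_le_one_div_of_le hJ0 hJ
    have h4 : 1 / (Real.log R) ^ 1000 ≤ 1 / (Real.log R) ^ 3 :=
      one_div_le_one_div_of_le (by positivity) (pow_le_pow_right₀ (by linarith) (by norm_num))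
    have h5 : ∀ V : ℝ, 1 / (Real.log R) ^ 3 ≤ V → 1 / (Real.log R) ^ 1000 ≤ V / (4 * ((p : ℝ) - 1)) := by
      intro V hV
      rw [le_div_iff₀ (by positivity)]
      refine le_trans ?_ hV
      have h6 : 4 * ((p : ℝ) - 1) ≤ (Real.log R) ^ 3 := by
        have h7 : (p : ℝ) ≤ y1 := by exact_mod_cast hp1
        have h8 : 4 * (Real.log R) ^ 2 ≤ (Real.log R) ^ 3 := by
          rw [pow_succ (Real.log R) 2, mul_comm]
          exact mul_le_mul_of_nonneg_left hK (by positivity)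
        linarith
      calc 1 / (Real.log R) ^ 1000 * (4 * ((p : ℝ) - 1)) ≤ 1 / (Real.log R) ^ 1000 * (Real.log R) ^ 3 := by gcongr
        _ = 1 / (Real.log R) ^ 997 := by
            rw [show (1000 : ℕ) = 997 + 3 from rfl, pow_add]
            field_simp
        _ ≤ 1 / (Real.log R) ^ 3 := one_div_le_one_div_of_le (by positivity) (pow_le_pow_right₀ (by linarith) (by norm_num))
    refine Fin.addCases (fun c => ?_) (fun c => ?_) c
    · refine Fin.addCases (fun c => ?_) (fun c => ?_) c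
      · have h6 := hF.lo (Fin.castAdd S.nY (Fin.castAdd S.n0 c))
        unfold famY at h6
        rw [Fin.append_left, Fin.append_left] at h6
        unfold subY
        rw [Fin.append_left, Fin.append_left]
        by_cases hc : c ∈ I
        · simp only [if_pos hc]
          exact h3.trans ((h5 _ h6).trans (hw.lo c p hp hp1 (r c) (hr c hc)))
        · simp only [if_neg hc]
          exact h3.trans (h4.trans h6)
      · have h6 := hF.lo (Fin.castAdd S.nY (Fin.natAdd (S.k + 1) c))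
        unfold famY at h6
        rw [Fin.append_left, Fin.append_right] at h6
        unfold subY
        rw [Fin.append_left, Fin.append_right]
        exact h3.trans (h4.trans h6)
    · have h6 := hF.lo (Fin.natAdd (S.k + 1 + S.n0) c)
      unfold famY at h6
      rw [Fin.append_right] at h6
      unfold subY
      rw [Fin.append_right]
      exact h3.trans (h4.trans h6)
  · refine le_trans (prod_le_prod (fun c _ => ?_) fun c _ => ?_) hF.tot
    · have : 0 ≤ ∑ q ∈ subY S p I r c, 1 / (q : ℝ) := sum_nonneg fun _ _ => by positivity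
      linarith
    · have := hle c
      linarith
  · intro m hm
    refine hF.tup m ?_
    unfold TUP at hm ⊢
    rw [mem_image] at hm ⊢
    obtain ⟨f, hf, rfl⟩ := hm
    refine ⟨f, ?_, rfl⟩
    rw [Fintype.mem_piFinset] at hf ⊢
    exact fun c => hsub c (hf c)

private theorem E2_tele (a M : ℕ) (ha : 2 ≤ a) : ∑ n ∈ Ico (a + 1) M, 1 / ((n : ℝ) - 1) ^ 2 ≤ 1 / ((a : ℝ) - 1) := by
  have key : ∀ M : ℕ, a + 1 ≤ M → ∑ n ∈ Ico (a + 1) M, 1 / ((n : ℝ) - 1) ^ 2 ≤ 1 / ((a : ℝ) - 1) - 1 / ((M : ℝ) - 2) := by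
    intro M hM
    induction M, hM using Nat.le_induction with
    | base =>
      rw [Ico_self, sum_empty]
      push_cast
      have : (a : ℝ) + 1 - 2 = a - 1 := by ring
      rw [this, sub_self]
    | succ M hM ih =>
      rw [sum_Ico_succ_top hM]
      have hM1 : (a : ℝ) + 1 ≤ M := by exact_mod_cast hM
      have ha1 : (2 : ℝ) ≤ a := by exact_mod_cast ha
      have h1 : (0 : ℝ) < (M : ℝ) - 2 := by linarith
      have h2 : (0 : ℝ) < (M : ℝ) - 1 := by linarith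
      have h3 : 1 / ((M : ℝ) - 1) ^ 2 ≤ 1 / ((M : ℝ) - 2) - 1 / (((M + 1 : ℕ) : ℝ) - 2) := by
        push_cast
        have h4 : (M : ℝ) + 1 - 2 = M - 1 := by ring
        rw [h4, div_sub_div _ _ h1.ne' h2.ne', div_le_div_iff₀ (by positivity) (by positivity)]
        nlinarith
      linarith
  have ha1 : (2 : ℝ) ≤ a := by exact_mod_cast ha
  rcases le_or_gt (a + 1) M with h | h
  · have h1 := key M h
    have h2 : (a : ℝ) + 1 ≤ M := by exact_mod_cast h
    have h3 : 0 ≤ 1 / ((M : ℝ) - 2) := by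
      apply one_div_nonneg.2
      linarith
    linarith
  · rw [Ico_eq_empty (by omega), sum_empty]
    apply one_div_nonneg.2
    linarith

theorem num_sum (T : TC.Dat) (k y1 : ℕ) (hk : 5 ≤ k) (hp : 64 * (k + 1) ^ 2 + 64 ≤ T.p0) :
    ∑ p ∈ T.PS.filter (fun p => p ≤ y1), (((k + 1).choose (k - 1) : ℕ) : ℝ) * (3 * (4 / ((p : ℝ) - 1)) ^ (k - 1)) ≤ 1 / 80 := by
  classical
  set q : ℝ := ((k : ℝ) + 1) ^ 2 with hq
  have hk1 : (5 : ℝ) ≤ k := by exact_mod_cast hk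
  have hq36 : 36 ≤ q := by rw [hq]; nlinarith
  have hch : (((k + 1).choose (k - 1) : ℕ) : ℝ) ≤ q := by
    have h1 : (k + 1).choose (k - 1) = (k + 1).choose 2 := by
      rw [← Nat.choose_symm (show 2 ≤ k + 1 by omega)]
      congr 1
    rw [h1]
    have h2 : (k + 1).choose 2 ≤ (k + 1) ^ 2 := Nat.choose_le_pow _ _
    rw [hq]
    exact_mod_cast h2
  have hp0 : 64 * q + 64 ≤ (T.p0 : ℝ) := by rw [hq]; exact_mod_cast hp
  have hterm : ∀ p ∈ T.PS.filter (fun p => p ≤ y1), (((k + 1).choose (k - 1) : ℕ) : ℝ) * (3 * (4 / ((p : ℝ) - 1)) ^ (k - 1)) ≤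
      q * (3 * ((1 / (16 * q)) ^ 2 * 16)) * (1 / ((p : ℝ) - 1) ^ 2) := by
    intro p hpp
    have h1 := (mem_filter.1 hpp).1
    unfold TC.Dat.PS at h1
    rw [mem_filter] at h1
    have h2 : (T.p0 : ℝ) ≤ p := by exact_mod_cast h1.2.2
    have h3 : 64 * q ≤ (p : ℝ) - 1 := by linarith
    have h4 : 0 < (p : ℝ) - 1 := by linarith
    have h5 : 4 / ((p : ℝ) - 1) ≤ 1 / (16 * q) := by
      rw [div_le_div_iff₀ h4 (by linarith)]
      linarith
    have h50 : 0 ≤ 4 / ((p : ℝ) - 1) := by positivity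
    have h6 : 1 / (16 * q) ≤ 1 := by
      rw [div_le_one (by linarith)]; linarith
    have h7 : (4 / ((p : ℝ) - 1)) ^ (k - 1) ≤ (1 / (16 * q)) ^ 2 * (4 / ((p : ℝ) - 1)) ^ 2 := by
      have h8 : k - 1 = (k - 5) + 2 + 2 := by omega
      rw [h8, pow_add, pow_add]
      have h9 : (4 / ((p : ℝ) - 1)) ^ (k - 5) ≤ 1 := pow_le_one₀ h50 (h5.trans h6)
      have h10 : (4 / ((p : ℝ) - 1)) ^ 2 ≤ (1 / (16 * q)) ^ 2 := pow_le_pow_left₀ h50 h5 2
      calc (4 / ((p : ℝ) - 1)) ^ (k - 5) * (4 / ((p : ℝ) - 1)) ^ 2 * (4 / ((p : ℝ) - 1)) ^ 2 ≤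
          1 * (1 / (16 * q)) ^ 2 * (4 / ((p : ℝ) - 1)) ^ 2 := by gcongr
        _ = _ := by ring
    calc (((k + 1).choose (k - 1) : ℕ) : ℝ) * (3 * (4 / ((p : ℝ) - 1)) ^ (k - 1)) ≤
        q * (3 * ((1 / (16 * q)) ^ 2 * (4 / ((p : ℝ) - 1)) ^ 2)) := by gcongr
      _ = _ := by
          have h9 : (4 / ((p : ℝ) - 1)) ^ 2 = 16 * (1 / ((p : ℝ) - 1) ^ 2) := by
            rw [div_pow]
            ring
          rw [h9]
          ring
  refine (sum_le_sum hterm).trans ?_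
  rw [← mul_sum]
  have hsub : T.PS.filter (fun p => p ≤ y1) ⊆ Ico (T.p0 - 1 + 1) (y1 + 1) := by
    intro p hpp
    rw [mem_filter] at hpp
    obtain ⟨h1, h2⟩ := hpp
    unfold TC.Dat.PS at h1
    rw [mem_filter] at h1
    rw [mem_Ico]
    have := h1.2.2
    omega
  have h1 : ∑ p ∈ T.PS.filter (fun p => p ≤ y1), 1 / ((p : ℝ) - 1) ^ 2 ≤ 1 / (((T.p0 - 1 : ℕ) : ℝ) - 1) :=
    (sum_le_sum_of_subset_of_nonneg hsub fun _ _ _ => by positivity).trans (E2_tele (T.p0 - 1) (y1 + 1) (by omega))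
  have h2 : (((T.p0 - 1 : ℕ) : ℝ) - 1) = (T.p0 : ℝ) - 2 := by
    rw [Nat.cast_sub (by omega)]
    push_cast
    ring
  rw [h2] at h1
  have h3 : 1 / ((T.p0 : ℝ) - 2) ≤ 1 := by
    rw [div_le_one (by linarith)]
    linarith
  have h4 : q * (3 * ((1 / (16 * q)) ^ 2 * 16)) = 3 / (16 * q) := by
    field_simp
  rw [h4]
  have h5 : 0 ≤ 3 / (16 * q) := by positivity
  calc 3 / (16 * q) * ∑ p ∈ T.PS.filter (fun p => p ≤ y1), 1 / ((p : ℝ) - 1) ^ 2 ≤ 3 / (16 * q) * 1 := by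
        apply mul_le_mul_of_nonneg_left (h1.trans h3) h5
    _ ≤ 1 / 80 := by
        rw [mul_one, div_le_div_iff₀ (by linarith) (by norm_num)]
        linarith

end Pool.Agent.Lib.TCB
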