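import Pool.Agent.Lib.MP_7b7e48_nt.BR.D05
import Pool.Agent.Lib.MP_7b7e48_nt.BR.D06
import Pool.Agent.Lib.MP_7b7e48_nt.BR.E3

/-!
# The input of the frame from the pair lemma
-/

set_option autoImplicit false

open Finset

namespace Pool.Agent.Lib.TCB

open Pool.Agent.Lib.RG (Rough)
open Pool.Agent.Lib.RH (Prm MM JJ)
open Pool.Agent.Lib.TC (MS Msr)
open Pool.Agent.Lib.TCF (TUP pht rho ph Mul TM NL NLt wt len Rgh1 VM PY BB PairIn)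

/-- `PairIn` from the pair lemma (`Brg.plem`) and the equidistribution of the windows -/
theorem pairIn (P : Prm) (hP : P.Ok) (W0 Cp : ℕ) (hW0 : 0 < W0) {δ0 δ1 δm δ2 : ℝ} (hE : Exps P.kap Cp δ0 δ1 δm δ2) :
    ∃ N0 : ℕ, ∀ (S : MS) (T : TC.Dat) (y1 J0 J1 J2 : ℕ) (ε : ℝ), N0 ≤ T.N →
    Brg P S T W0 y1 J0 J1 J2 Cp δ0 δ1 δm δ2 ε →
    WinOk S T y1 → y1 ≤ T.y0 → (y1 : ℝ) ≤ (Real.log ((W0 ^ 2 * T.N : ℕ) : ℝ)) ^ 2 → 5 ≤ S.k → 64 * (S.k + 1) ^ 2 + 64 ≤ T.p0 →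
    ((JJ (W0 ^ 2 * T.N) : ℕ) : ℝ) ^ 3 * (4 * y1) ^ (2 * S.k + 2) ≤ J0 * rho (famY S) →
    PairIn P (W0 ^ 2 * T.N) (datS S J0 J1 J2 T.y0) (LkS S T) (BdS S T y1) 1 (1 / 80) := by
  obtain ⟨N1, h1⟩ := m1_thm P hP W0 Cp hE
  obtain ⟨N3, h3⟩ := m3_thm P hP W0 Cp hE
  obtain ⟨N5, h5⟩ := bs_thm P hP W0 hW0
  refine ⟨N1 + N3 + N5, fun S T y1 J0 J1 J2 ε hN hB hw hy1 hy2 hk hp0 hJ => ?_⟩
  refine ⟨?_, ?_, ?_⟩
  · intro v o L hT l hl c c' hc X Y a b hab h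
    exact h1 S T y1 J0 J1 J2 ε (by omega) hB v o L hT l hl c c' hc X Y a b hab h
  · intro v o L hT d a b hd hda hab hb hJ'
    exact h3 S T y1 J0 J1 J2 ε (by omega) hB v o L hT d a b hd hda hab hb hJ'
  · intro v o L hT a b hab hb hv
    exact h5 S T y1 J0 J1 J2 (by omega) hB.ok hw hy1 hy2 hk hp0 hJ v o L hT a b hab hb hv

end Pool.Agent.Lib.TCB
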