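import Pool.Agent.Lib.MP_7b7e48_nt.BR.B0
import Pool.Agent.Lib.MP_7b7e48_nt.BR.Fam

/-!
# The measures (M1) and (M3X) (part BR2 of the bridge): definitions

`R = W0 ^ 2 * T.N` is the modulus of the frame.
-/

set_option autoImplicit false

open Finset

namespace Pool.Agent.Lib.TCB

open Pool.Agent.Lib.RG (Rough)
open Pool.Agent.Lib.TC (MS Msr)

/-- Common hypotheses of the two kinds of measures. `δw`, `δv`: level and saving of the weight, `δ0`, `δ1`: of the measure, `δm`: size of the marks. -/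
structure BH (S : MS) (T : TC.Dat) (W0 B : ℕ) (δ0 δ1 δm δw δv len : ℝ) (t2 : Prop) (w : ℕ → ℝ) (L : ℝ) (g : ℕ → ℝ) : Prop where
  sets : SetsOk S (W0 ^ 2 * T.N) T.y0
  w0 : Squarefree W0
  w0y : ∀ p : ℕ, p.Prime → p ∣ W0 → p ≤ T.y0
  N2 : 2 ≤ T.N
  y1 : 1 ≤ T.y0
  size : ∀ μ ∈ S.MX, ∀ ν ∈ S.MY, ((S.prX id μ * S.prY id ν : ℕ) : ℝ) ≤ (T.N : ℝ) ^ δm
  zle : (T.z : ℝ) ≤ (T.N : ℝ) ^ δ0
  dd : ∀ p : ℕ, p.Prime → p ∣ T.D → p ≤ T.y0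
  wei : Wei (W0 ^ 2 * T.N) W0 T.y0 B δw δv len t2 w L g
  e0 : 0 ≤ δ0
  em : 0 ≤ δm
  e1 : δ0 + δm ≤ δw
  e3 : 4 * ((W0 ^ 2 * T.N : ℕ) : ℝ) ^ (-δv) ≤ (T.N : ℝ) ^ (-δ1)
  e4 : 4 * (T.N : ℝ) ^ δ1 ≤ len
  e5 : 0 ≤ δ1

/-- the value of `X` in (M1) -/
def x1 (T : TC.Dat) (W0 v l : ℕ) (c' : ℤ) (n : ℕ) : ℤ := ((l * v * n : ℕ) : ℤ) + c' * ((W0 ^ 2 * T.N : ℕ) : ℤ)

open Classical in
/-- (M1): `X = l v n + c' R`, `Y = l (v n + c R)`, `n ∈ (a, b]` -/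
noncomputable def mM1 (S : MS) (T : TC.Dat) (W0 v l : ℕ) (c' : ℤ) (a b : ℕ) (t2 : Prop) (w : ℕ → ℝ) (L : ℝ) (g : ℕ → ℝ) : Msr S where
  v := l * v
  x0 := c' * ((W0 ^ 2 * T.N : ℕ) : ℤ)
  t2 := t2
  nm := b
  tau := fun _ _ => 1
  X := fun _ _ n => (x1 T W0 v l c' n).toNat
  Om := fun μ ν n => if n ∈ Ioc a b ∧ S.prX id μ ∣ (x1 T W0 v l c' n).toNat ∧ S.prY id ν ∣ (x1 T W0 v l c' n).toNat - T.D * T.N then w n else 0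
  W := L * ((b : ℝ) - a)
  hX := g
  hY := g
  g := g

/-- hypotheses of (M1) -/
structure H1 (S : MS) (T : TC.Dat) (W0 v l : ℕ) (c c' : ℤ) (a b B : ℕ) (len : ℝ) (t2 : Prop) : Prop where
  ab : a ≤ b
  bB : b ≤ B
  lab : len ≤ (b : ℝ) - a
  b3 : b ≤ T.N ^ 3
  l0 : 0 < l
  ly : ∀ p : ℕ, p.Prime → p ∣ l → p ≤ T.y0
  lc : l.Coprime (W0 ^ 2 * T.N)
  v0 : 0 < v
  vc : v.Coprime (W0 ^ 2 * T.N)
  vl : l * v ≤ T.N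
  D : (T.D : ℤ) = (W0 : ℤ) ^ 2 * (c' - l * c)
  cb : c.natAbs ≤ T.y0
  cb' : c'.natAbs ≤ T.y0
  c1 : v = 1 ∨ (c ≠ 0 ∧ c' ≠ 0)
  c2 : t2 → c ≠ 0 ∧ c' ≠ 0
  pos : ∀ n ∈ Ioc a b, 0 < (v : ℤ) * n + c * ((W0 ^ 2 * T.N : ℕ) : ℤ)
  big : ∀ n ∈ Ioc a b, Real.exp (18 * (S.k + 1)) * ((l : ℝ) * ((v : ℝ) * n + c * ((W0 ^ 2 * T.N : ℕ) : ℝ))) ≤
    (x1 T W0 v l c' n : ℝ)
  le2 : ∀ n ∈ Ioc a b, x1 T W0 v l c' n ≤ (T.N : ℤ) ^ 2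

open Classical in
/-- (M3X): `X = v μ n`, `Y = X - D N`, `X ∈ (a, b]` -/
noncomputable def mM3 (S : MS) (T : TC.Dat) (v a b : ℕ) (t2 : Prop) (w : ℕ → ℝ) (L : ℝ) (g : ℕ → ℝ) : Msr S where
  v := v
  x0 := 0
  t2 := t2
  nm := b
  tau := fun μ _ => S.prX id μ
  X := fun μ _ n => v * S.prX id μ * n
  Om := fun μ ν n => if a < v * S.prX id μ * n ∧ v * S.prX id μ * n ≤ b ∧ S.prY id ν ∣ v * S.prX id μ * n - T.D * T.N then w n else 0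
  W := L * ((b : ℝ) - a) / v
  hX := fun p => 1 / (p : ℝ)
  hY := g
  g := g

/-- hypotheses of (M3X) -/
structure H3 (S : MS) (T : TC.Dat) (W0 v a b B : ℕ) (δm len : ℝ) : Prop where
  ab : a ≤ b
  bB : b ≤ B * v
  lab : 2 * len * (T.N : ℝ) ^ δm * v ≤ (b : ℝ) - a
  v0 : 0 < v
  vc : v.Coprime (W0 ^ 2 * T.N)
  vl : v ≤ T.N
  D : T.D * T.N ≤ a
  b2 : b ≤ T.N ^ 2
  big : Real.exp (18 * (S.k + 1)) * ((b : ℝ) - T.D * T.N) ≤ T.D * T.N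

end Pool.Agent.Lib.TCB
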